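import Mathlib
import Pool.Agent.Lib_MP_394d50_vs.DCoef

/-!
# Exactness of the finitely supported cochains of a complex with the locally finite homology of `ℝⁿ`

`PdR n X`: `X` has the locally finite homology of `ℝⁿ` over `F₂` (the dimension of `X` is
arbitrary). The first part repeats some lemmas of `DCoef`.
-/

namespace SingerRN

open SingerVS
open scoped Pointwise

section

variable {P : Type} [DecidableEq P]

/-- `X` has the locally finite homology of `ℝⁿ` over `F₂`. -/
structure PdR (n : ℕ) (X : Set (Finset P)) : Prop where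
  low : ∀ k, 1 ≤ k → k ≠ n + 1 → ∀ c ∈ Ch (ZMod 2) X k, bd X c = 0 →
    ∃ b ∈ Ch (ZMod 2) X (k + 1), bd X b = c
  top : ∃ ξ ∈ Ch (ZMod 2) X (n + 1), bd X ξ = 0 ∧
    (∀ b ∈ Ch (ZMod 2) X (n + 2), bd X b ≠ ξ) ∧
    ∀ c ∈ Ch (ZMod 2) X (n + 1), bd X c = 0 → ∃ b ∈ Ch (ZMod 2) X (n + 2),
      bd X b = c ∨ bd X b = c + ξ

theorem LfR.pdR {n : ℕ} {X : Set (Finset P)} (h : LfR n X) : PdR n X := by
  have h0 : ∀ k, n + 2 ≤ k → ∀ c ∈ Ch (ZMod 2) X k, c = 0 := by
    intro k hk c hc
    funext σ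
    refine hc σ ?_
    rintro ⟨h1, h2⟩
    have := h.dim σ h1
    omega
  refine ⟨fun k h1 h2 c hc hc0 => ?_, ?_⟩
  · rcases Nat.lt_or_ge k (n + 1) with h3 | h3
    · exact h.low k h1 (by omega) c hc hc0
    · refine ⟨0, Submodule.zero_mem _, ?_⟩
      rw [map_zero, h0 k (by omega) c hc]
  · obtain ⟨ξ, h1, h2, h3, h4⟩ := h.top
    refine ⟨ξ, h1, h3, fun b hb hb2 => h2 ?_, fun c hc hc0 => ⟨0, Submodule.zero_mem _, ?_⟩⟩
    · rw [← hb2, h0 (n + 2) le_rfl b hb, map_zero]
    · rw [map_zero]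
      rcases h4 c hc hc0 with h5 | h5
      · exact Or.inl h5.symm
      · right
        rw [h5]
        funext σ
        exact (ZModModule.add_self (ξ σ)).symm

end

section

variable {H P : Type} [Group H] [DecidableEq P] [MulAction H P] {X : Set (Finset P)}
variable {N N' : Type} [AddCommGroup N] [Module (ZMod 2) N] [AddCommGroup N'] [Module (ZMod 2) N']

omit [DecidableEq P] in
theorem pdc_basis {ι : Type} (e : Module.Basis ι (ZMod 2) N) (c : Finset P → N)
    (hfin : (Function.support c).Finite) :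
    ∃ s : Finset ι, ∀ σ, ∑ i ∈ s, (e.coord i (c σ)) • e i = c σ := by
  classical
  refine ⟨hfin.toFinset.biUnion (fun σ => (e.repr (c σ)).support), fun σ => ?_⟩
  by_cases hσ : c σ = 0
  · rw [hσ]
    exact Finset.sum_eq_zero fun i _ => by rw [map_zero, zero_smul]
  · have h1 : (e.repr (c σ)).support ⊆
        hfin.toFinset.biUnion (fun σ => (e.repr (c σ)).support) :=
      Finset.subset_biUnion_of_mem (fun σ => (e.repr (c σ)).support)
        ((Set.Finite.mem_toFinset hfin).mpr hσ)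
    rw [← Finset.sum_subset h1]
    · have h2 := e.linearCombination_repr (c σ)
      rw [Finsupp.linearCombination_apply] at h2
      exact h2
    · intro i _ hi
      have h3 : e.coord i (c σ) = 0 := by
        rw [Module.Basis.coord_apply]
        exact Finsupp.notMem_support_iff.mp hi
      rw [h3, zero_smul]

omit [DecidableEq P] in
theorem pdc_solve (T : (Finset P → ZMod 2) →ₗ[ZMod 2] (Finset P → ZMod 2))
    (T' : (Finset P → N) →ₗ[ZMod 2] (Finset P → N))
    (hT : ∀ (φ : ZMod 2 →ₗ[ZMod 2] N) (b : Finset P → ZMod 2) (σ : Finset P),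
      T' (fun s => φ (b s)) σ = φ (T b σ))
    {c : Finset P → N} (hfin : (Function.support c).Finite) {k : ℕ}
    (h : ∀ ψ : N →ₗ[ZMod 2] ZMod 2, ∃ b ∈ Ch (ZMod 2) X k, (Function.support b).Finite ∧
      T b = fun σ => ψ (c σ)) :
    ∃ b ∈ Ch N X k, (Function.support b).Finite ∧ T' b = c := by
  classical
  choose β hβ1 hβ2 hβ3 using h
  obtain ⟨s, hs⟩ := pdc_basis (Module.Basis.ofVectorSpace (ZMod 2) N) c hfin
  set e := Module.Basis.ofVectorSpace (ZMod 2) N with he
  refine ⟨∑ i ∈ s, (fun σ => LinearMap.toSpanSingleton (ZMod 2) N (e i) (β (e.coord i) σ)),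
    ?_, ?_, ?_⟩
  · refine Submodule.sum_mem _ fun i _ => ?_
    intro σ hσ
    have h1 := hβ1 (e.coord i) σ hσ
    show LinearMap.toSpanSingleton (ZMod 2) N (e i) (β (e.coord i) σ) = 0
    rw [h1, map_zero]
  · refine ((Set.Finite.biUnion s.finite_toSet fun i _ => hβ2 (e.coord i)).subset ?_)
    intro σ hσ
    by_contra hn
    apply hσ
    rw [Finset.sum_apply]
    refine Finset.sum_eq_zero fun i hi => ?_
    have h1 : β (e.coord i) σ = 0 := by
      by_contra h2
      exact hn (Set.mem_iUnion₂.mpr ⟨i, hi, h2⟩)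
    show LinearMap.toSpanSingleton (ZMod 2) N (e i) (β (e.coord i) σ) = 0
    rw [h1, map_zero]
  · rw [map_sum]
    funext σ
    rw [Finset.sum_apply]
    rw [← hs σ]
    refine Finset.sum_congr rfl fun i _ => ?_
    rw [hT, hβ3, LinearMap.toSpanSingleton_apply]

theorem pdc_dlfin (hX : FreeCx H X) {k : ℕ} {b : Finset P → ZMod 2}
    (hb : b ∈ Ch (ZMod 2) X k) (hfin : (Function.support b).Finite) :
    Function.support (dl X b) ⊆
      ((hfin.toFinset.biUnion (fun σ => (nb X σ).image (fun q => insert q σ)) : Finset (Finset P)) :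
        Set (Finset P)) := by
  intro τ hτ
  by_cases hτX : τ ∈ X
  · have h1 : dl X b τ ≠ 0 := hτ
    rw [dl_apply hτX] at h1
    obtain ⟨p, hp, h2⟩ := Finset.exists_ne_zero_of_sum_ne_zero h1
    have h3 : τ.erase p ∈ X := by
      by_contra h4
      exact h2 (hb _ (fun h5 => h4 h5.1))
    rw [Finset.mem_coe, Finset.mem_biUnion]
    refine ⟨τ.erase p, (Set.Finite.mem_toFinset hfin).mpr h2, Finset.mem_image.mpr ⟨p, ?_, ?_⟩⟩
    · rw [hX.mem_nb h3, Finset.insert_erase hp]
      exact ⟨Finset.notMem_erase p τ, hτX⟩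
    · exact Finset.insert_erase hp
  · exact (hτ (dl_apply_not hτX)).elim

theorem pdc_adj (hX : FreeCx H X) {k : ℕ} {b : Finset P → ZMod 2}
    (hb : b ∈ Ch (ZMod 2) X k) (hfin : (Function.support b).Finite) (z : Finset P → ZMod 2) :
    ∑ᶠ σ, bd X z σ * b σ = ∑ᶠ τ, z τ * dl X b τ := by
  classical
  have hSX : ∀ σ, b σ ≠ 0 → σ ∈ X := by
    intro σ hσ
    by_contra h1
    exact hσ (hb σ (fun h2 => h1 h2.1))
  rw [finsum_eq_sum_of_support_subset (s := hfin.toFinset) (fun σ => bd X z σ * b σ) (by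
    intro σ hσ
    rw [Set.Finite.coe_toFinset]
    intro h1
    apply hσ
    show bd X z σ * b σ = 0
    rw [h1, mul_zero])]
  set T : Finset (Finset P) :=
    hfin.toFinset.biUnion (fun σ => (nb X σ).image (fun q => insert q σ)) with hT
  rw [finsum_eq_sum_of_support_subset (s := T) (fun τ => z τ * dl X b τ) (by
    intro τ hτ
    refine pdc_dlfin hX hb hfin ?_
    intro h1
    apply hτ
    show z τ * dl X b τ = 0
    rw [h1, mul_zero])]
  have hTX : ∀ τ ∈ T, τ ∈ X := by
    intro τ hτ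
    obtain ⟨σ, hσ, h1⟩ := Finset.mem_biUnion.mp hτ
    obtain ⟨q, hq, rfl⟩ := Finset.mem_image.mp h1
    exact ((hX.mem_nb (hSX σ ((Set.Finite.mem_toFinset hfin).mp hσ))).mp hq).2
  have e1 : ∑ σ ∈ hfin.toFinset, bd X z σ * b σ =
      ∑ x ∈ hfin.toFinset.sigma (fun σ => nb X σ), z (insert x.2 x.1) * b x.1 := by
    rw [Finset.sum_sigma]
    refine Finset.sum_congr rfl fun σ hσ => ?_
    rw [bd_apply (hSX σ ((Set.Finite.mem_toFinset hfin).mp hσ)), Finset.sum_mul]
  have e2 : ∑ τ ∈ T, z τ * dl X b τ =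
      ∑ y ∈ T.sigma (fun τ => τ), z y.1 * b (y.1.erase y.2) := by
    rw [Finset.sum_sigma]
    refine Finset.sum_congr rfl fun τ hτ => ?_
    rw [dl_apply (hTX τ hτ), Finset.mul_sum]
  rw [e1, e2]
  refine Finset.sum_of_injOn
    (fun x : (_ : Finset P) × P => (⟨insert x.2 x.1, x.2⟩ : (_ : Finset P) × P)) ?_ ?_ ?_ ?_
  · rintro ⟨σ, q⟩ h1 ⟨σ', q'⟩ h2 h3
    have h4 : insert q σ = insert q' σ' := congrArg Sigma.fst h3
    have h5 : q = q' := by
      have := congrArg (fun y : (_ : Finset P) × P => y.2) h3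
      exact this
    subst h5
    rw [Finset.mem_coe, Finset.mem_sigma] at h1 h2
    have h6 : q ∉ σ := ((hX.mem_nb (hSX σ ((Set.Finite.mem_toFinset hfin).mp h1.1))).mp h1.2).1
    have h7 : q ∉ σ' := ((hX.mem_nb (hSX σ' ((Set.Finite.mem_toFinset hfin).mp h2.1))).mp h2.2).1
    have h8 : σ = σ' := by
      rw [← Finset.erase_insert h6, h4, Finset.erase_insert h7]
    rw [h8]
  · rintro ⟨σ, q⟩ h1
    rw [Finset.mem_coe, Finset.mem_sigma] at h1 ⊢
    exact ⟨Finset.mem_biUnion.mpr ⟨σ, h1.1, Finset.mem_image.mpr ⟨q, h1.2, rfl⟩⟩,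
      Finset.mem_insert_self q σ⟩
  · rintro ⟨τ, p⟩ h1 h2
    rw [Finset.mem_sigma] at h1
    show z τ * b (τ.erase p) = 0
    by_contra h3
    have h4 : b (τ.erase p) ≠ 0 := fun h5 => h3 (by rw [h5, mul_zero])
    apply h2
    refine ⟨⟨τ.erase p, p⟩, ?_, ?_⟩
    · rw [Finset.mem_coe, Finset.mem_sigma]
      refine ⟨(Set.Finite.mem_toFinset hfin).mpr h4, ?_⟩
      rw [hX.mem_nb (hSX _ h4), Finset.insert_erase h1.2]
      exact ⟨Finset.notMem_erase p τ, hTX τ h1.1⟩
    · show (⟨insert p (τ.erase p), p⟩ : (_ : Finset P) × P) = ⟨τ, p⟩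
      rw [Finset.insert_erase h1.2]
  · rintro ⟨σ, q⟩ h1
    rw [Finset.mem_sigma] at h1
    have h6 : q ∉ σ := ((hX.mem_nb (hSX σ ((Set.Finite.mem_toFinset hfin).mp h1.1))).mp h1.2).1
    show z (insert q σ) * b σ = z (insert q σ) * b ((insert q σ).erase q)
    rw [Finset.erase_insert h6]

theorem pdc_form {k : ℕ} (f : (Finset P → ZMod 2) →ₗ[ZMod 2] ZMod 2)
    {z : Finset P → ZMod 2}
    (hz : ∀ σ, σ ∈ X ∧ σ.card = k → z σ = f (Pi.single σ 1)) {c : Finset P → ZMod 2}
    (hc : c ∈ Ch (ZMod 2) X k) (hfin : (Function.support c).Finite) :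
    f c = ∑ᶠ σ, z σ * c σ := by
  classical
  rw [finsum_eq_sum_of_support_subset (s := hfin.toFinset) (fun σ => z σ * c σ) (by
    intro σ hσ
    rw [Set.Finite.coe_toFinset]
    intro h1
    apply hσ
    show z σ * c σ = 0
    rw [h1, mul_zero])]
  have h1 : c = ∑ σ ∈ hfin.toFinset, c σ • (Pi.single σ (1 : ZMod 2) : Finset P → ZMod 2) := by
    funext τ
    rw [Finset.sum_apply]
    by_cases hτ : τ ∈ hfin.toFinset
    · rw [Finset.sum_eq_single τ]
      · rw [Pi.smul_apply, Pi.single_eq_same, smul_eq_mul, mul_one]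
      · intro σ _ h2
        rw [Pi.smul_apply, Pi.single_eq_of_ne h2.symm, smul_zero]
      · intro h2
        exact (h2 hτ).elim
    · have h2 : c τ = 0 := by
        by_contra h3
        exact hτ ((Set.Finite.mem_toFinset hfin).mpr h3)
      rw [h2]
      symm
      refine Finset.sum_eq_zero fun σ hσ => ?_
      rw [Pi.smul_apply, Pi.single_eq_of_ne (fun h3 : τ = σ => hτ (by rw [h3]; exact hσ)), smul_zero]
  conv_lhs => rw [h1]
  rw [map_sum]
  refine Finset.sum_congr rfl fun σ hσ => ?_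
  have h2 : σ ∈ X ∧ σ.card = k := by
    by_contra h3
    exact ((Set.Finite.mem_toFinset hfin).mp hσ) (hc σ h3)
  rw [map_smul, hz σ h2, smul_eq_mul, mul_comm]

theorem pdc_core (hX : FreeCx H X) {k : ℕ} {c : Finset P → ZMod 2}
    (hc : c ∈ Ch (ZMod 2) X (k + 1)) (hfin : (Function.support c).Finite)
    (hz : ∀ z ∈ Ch (ZMod 2) X (k + 1), bd X z = 0 → ∑ᶠ σ, z σ * c σ = 0) :
    ∃ b ∈ Ch (ZMod 2) X k, (Function.support b).Finite ∧ dl X b = c := by
  classical
  let FS : Submodule (ZMod 2) (Finset P → ZMod 2) :=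
    { carrier := {b | (Function.support b).Finite}
      add_mem' := fun {a b} ha hb => (ha.union hb).subset (Function.support_add a b)
      zero_mem' := by
        show (Function.support (0 : Finset P → ZMod 2)).Finite
        rw [Function.support_zero]
        exact Set.finite_empty
      smul_mem' := fun r b hb => Set.Finite.subset hb (Function.support_const_smul_subset r b) }
  by_contra hno
  have hB : c ∉ Submodule.map (dl X) (Ch (ZMod 2) X k ⊓ FS) := by
    rintro ⟨b, ⟨hb1, hb2⟩, hb3⟩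
    exact hno ⟨b, hb1, hb2, hb3⟩
  obtain ⟨f, hf1, hf2⟩ := Submodule.exists_le_ker_of_notMem hB
  set z : Finset P → ZMod 2 := fun σ => if σ ∈ X ∧ σ.card = k + 1 then f (Pi.single σ 1) else 0
    with hzdef
  have hz1 : ∀ σ, σ ∈ X ∧ σ.card = k + 1 → z σ = f (Pi.single σ 1) := fun σ hσ => if_pos hσ
  have hz2 : z ∈ Ch (ZMod 2) X (k + 1) := fun σ hσ => if_neg hσ
  have hz3 : bd X z = 0 := by
    funext σ
    by_cases hσ : σ ∈ X ∧ σ.card = k
    · have hb : (Pi.single σ 1 : Finset P → ZMod 2) ∈ Ch (ZMod 2) X k := by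
        intro τ hτ
        exact Pi.single_eq_of_ne (fun h1 : τ = σ => hτ (by rw [h1]; exact hσ)) 1
      have hbf : (Function.support (Pi.single σ 1 : Finset P → ZMod 2)).Finite :=
        (Set.finite_singleton σ).subset Pi.support_single_subset
      have h1 := pdc_adj hX hb hbf z
      have h2 : (Function.support (dl X (Pi.single σ 1 : Finset P → ZMod 2))).Finite :=
        (Finset.finite_toSet _).subset (pdc_dlfin hX hb hbf)
      rw [← pdc_form f hz1 (hX.ch_dl hb) h2] at h1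
      have h3 : f (dl X (Pi.single σ 1 : Finset P → ZMod 2)) = 0 :=
        hf2 (Submodule.mem_map_of_mem ⟨hb, hbf⟩)
      rw [h3, finsum_eq_single (fun τ => bd X z τ * (Pi.single σ 1 : Finset P → ZMod 2) τ) σ
        (fun τ hτ => by rw [Pi.single_eq_of_ne hτ, mul_zero]), Pi.single_eq_same, mul_one] at h1
      exact h1
    · exact hX.ch_bd hz2 σ hσ
  apply hf1
  rw [pdc_form f hz1 hc hfin]
  exact hz z hz2 hz3

omit [DecidableEq P] in
theorem pdc_suppfin {c : Finset P → N} (hfin : (Function.support c).Finite)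
    (ψ : N →ₗ[ZMod 2] N') : (Function.support (fun σ => ψ (c σ))).Finite := by
  refine hfin.subset fun σ hσ h1 => hσ ?_
  show ψ (c σ) = 0
  rw [h1, map_zero]

omit [DecidableEq P] in
theorem pdc_ch {k : ℕ} {c : Finset P → N} (hc : c ∈ Ch N X k) (ψ : N →ₗ[ZMod 2] N') :
    (fun σ => ψ (c σ)) ∈ Ch N' X k := by
  intro σ hσ
  show ψ (c σ) = 0
  rw [hc σ hσ, map_zero]

/-- A cycle which is orthogonal to the finitely supported cocycles is a boundary. -/
theorem pdc_annih (hX : FreeCx H X) {k : ℕ} {ξ : Finset P → ZMod 2}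
    (hξ : ξ ∈ Ch (ZMod 2) X (k + 1))
    (h : ∀ z ∈ Ch (ZMod 2) X (k + 1), (Function.support z).Finite → dl X z = 0 →
      ∑ᶠ σ, ξ σ * z σ = 0) :
    ∃ b ∈ Ch (ZMod 2) X (k + 2), bd X b = ξ := by
  classical
  let FS : Submodule (ZMod 2) (Finset P → ZMod 2) :=
    { carrier := {b | (Function.support b).Finite}
      add_mem' := fun {a b} ha hb => (ha.union hb).subset (Function.support_add a b)
      zero_mem' := by
        show (Function.support (0 : Finset P → ZMod 2)).Finite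
        rw [Function.support_zero]
        exact Set.finite_empty
      smul_mem' := fun r b hb => Set.Finite.subset hb (Function.support_const_smul_subset r b) }
  have hfs : ∀ z : Finset P → ZMod 2, (Function.support z).Finite →
      (Function.support fun σ => ξ σ * z σ).Finite := by
    intro z hz
    refine hz.subset fun σ hσ h1 => hσ ?_
    show ξ σ * z σ = 0
    rw [h1, mul_zero]
  let A : Submodule (ZMod 2) (Finset P → ZMod 2) := Ch (ZMod 2) X (k + 1) ⊓ FS
  let T : A →ₗ[ZMod 2] (Finset P → ZMod 2) := (dl X).comp A.subtype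
  let g : A →ₗ[ZMod 2] ZMod 2 :=
    { toFun := fun z => ∑ᶠ σ, ξ σ * z.1 σ
      map_add' := by
        intro x y
        rw [← finsum_add_distrib (hfs x.1 x.2.2) (hfs y.1 y.2.2)]
        refine finsum_congr fun σ => ?_
        show ξ σ * (x.1 σ + y.1 σ) = _
        rw [mul_add]
      map_smul' := by
        intro r x
        have e1 : ∀ σ, ξ σ * (r • x).1 σ = r * (ξ σ * x.1 σ) := by
          intro σ
          show ξ σ * (r * x.1 σ) = r * (ξ σ * x.1 σ)
          ring
        rw [finsum_congr e1, RingHom.id_apply, smul_eq_mul]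
        exact (mul_finsum _ r).symm }
  have hg : g ∈ (LinearMap.ker T).dualAnnihilator := by
    rw [Submodule.mem_dualAnnihilator]
    intro z hz
    exact h z.1 z.2.1 z.2.2 (LinearMap.mem_ker.mp hz)
  rw [← LinearMap.range_dualMap_eq_dualAnnihilator_ker] at hg
  obtain ⟨f, hf⟩ := hg
  have hfT : ∀ z ∈ Ch (ZMod 2) X (k + 1), (Function.support z).Finite →
      f (dl X z) = ∑ᶠ σ, ξ σ * z σ := fun z h1 h2 => LinearMap.congr_fun hf (⟨z, h1, h2⟩ : A)
  set b : Finset P → ZMod 2 := fun σ => if σ ∈ X ∧ σ.card = k + 2 then f (Pi.single σ 1) else 0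
    with hbdef
  have hb1 : ∀ σ, σ ∈ X ∧ σ.card = k + 2 → b σ = f (Pi.single σ 1) := fun σ hσ => if_pos hσ
  have hb2 : b ∈ Ch (ZMod 2) X (k + 2) := fun σ hσ => if_neg hσ
  refine ⟨b, hb2, ?_⟩
  funext σ
  by_cases hσ : σ ∈ X ∧ σ.card = k + 1
  · have hs : (Pi.single σ 1 : Finset P → ZMod 2) ∈ Ch (ZMod 2) X (k + 1) := by
      intro τ hτ
      exact Pi.single_eq_of_ne (fun h1 : τ = σ => hτ (by rw [h1]; exact hσ)) 1
    have hsf : (Function.support (Pi.single σ 1 : Finset P → ZMod 2)).Finite :=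
      (Set.finite_singleton σ).subset Pi.support_single_subset
    have h1 := pdc_adj hX hs hsf b
    have h2 : (Function.support (dl X (Pi.single σ 1 : Finset P → ZMod 2))).Finite :=
      (Finset.finite_toSet _).subset (pdc_dlfin hX hs hsf)
    rw [← pdc_form f hb1 (hX.ch_dl hs) h2, hfT _ hs hsf,
      finsum_eq_single (fun τ => bd X b τ * (Pi.single σ 1 : Finset P → ZMod 2) τ) σ
      (fun τ hτ => by rw [Pi.single_eq_of_ne hτ, mul_zero]), Pi.single_eq_same, mul_one,
      finsum_eq_single (fun τ => ξ τ * (Pi.single σ 1 : Finset P → ZMod 2) τ) σ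
      (fun τ hτ => by rw [Pi.single_eq_of_ne hτ, mul_zero]), Pi.single_eq_same, mul_one] at h1
    exact h1
  · rw [hX.ch_bd hb2 σ hσ, hξ σ hσ]

/-- Finitely supported cocycles outside the dimension `n` are coboundaries. -/
theorem pd_fin_dl (hX : FreeCx H X) {n : ℕ} (hlf : PdR n X) {p : ℕ} (hp : p ≠ n + 1)
    {c : Finset P → N} (hc : c ∈ Ch N X p) (hfin : (Function.support c).Finite)
    (h0 : dl X c = 0) :
    ∃ b ∈ Ch N X (p - 1), (Function.support b).Finite ∧ dl X b = c := by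
  rcases Nat.eq_zero_or_pos p with rfl | hp0
  · have hc0 : c = 0 := by
      funext σ
      refine hc σ ?_
      rintro ⟨h1, h2⟩
      exact (Finset.card_pos.mpr (hX.ne σ h1)).ne' h2
    refine ⟨0, Submodule.zero_mem _, ?_, ?_⟩
    · rw [Function.support_zero]
      exact Set.finite_empty
    · rw [map_zero, hc0]
  · obtain ⟨k, rfl⟩ : ∃ k, p = k + 1 := ⟨p - 1, by omega⟩
    rw [Nat.add_sub_cancel]
    refine pdc_solve (dl X) (dl X) (fun φ b σ => dl_map φ b σ) hfin (fun ψ => ?_)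
    refine pdc_core hX (pdc_ch hc ψ) (pdc_suppfin hfin ψ) ?_
    intro z hz1 hz2
    obtain ⟨w, _, hw2⟩ := hlf.low (k + 1) (by omega) hp z hz1 hz2
    rw [← hw2, pdc_adj hX (pdc_ch hc ψ) (pdc_suppfin hfin ψ) w]
    refine finsum_eq_zero_of_forall_eq_zero fun τ => ?_
    rw [dl_map ψ c τ, h0]
    show w τ * ψ 0 = 0
    rw [map_zero, mul_zero]

/-- In the dimension `n`. -/
theorem pd_fin_dl_top (hX : FreeCx H X) {n : ℕ} {ξ : Finset P → ZMod 2}
    (hξ : ∀ z ∈ Ch (ZMod 2) X (n + 1), bd X z = 0 → ∃ b ∈ Ch (ZMod 2) X (n + 2),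
      bd X b = z ∨ bd X b = z + ξ) {c : Finset P → N}
    (hc : c ∈ Ch N X (n + 1)) (hfin : (Function.support c).Finite) (hd : dl X c = 0)
    (h0 : ∑ᶠ σ, ξ σ • c σ = 0) :
    ∃ b ∈ Ch N X n, (Function.support b).Finite ∧ dl X b = c := by
  refine pdc_solve (dl X) (dl X) (fun φ b σ => dl_map φ b σ) hfin (fun ψ => ?_)
  refine pdc_core hX (pdc_ch hc ψ) (pdc_suppfin hfin ψ) ?_
  intro z hz1 hz2
  obtain ⟨w, _, hw2⟩ := hξ z hz1 hz2
  have hw3 : ∑ᶠ σ, bd X w σ * ψ (c σ) = 0 := by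
    rw [pdc_adj hX (pdc_ch hc ψ) (pdc_suppfin hfin ψ) w]
    refine finsum_eq_zero_of_forall_eq_zero fun τ => ?_
    rw [dl_map ψ c τ, hd]
    show w τ * ψ 0 = 0
    rw [map_zero, mul_zero]
  have hz3 : ∑ᶠ σ, ξ σ * ψ (c σ) = 0 := by
    have h1 : (Function.support (fun σ => ξ σ • c σ)).Finite := by
      refine hfin.subset fun σ hσ h2 => hσ ?_
      show ξ σ • c σ = 0
      rw [h2, smul_zero]
    have h2 := (ψ.toAddMonoidHom).map_finsum h1
    rw [h0, map_zero] at h2
    rw [h2]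
    refine finsum_congr fun σ => ?_
    show ξ σ * ψ (c σ) = ψ (ξ σ • c σ)
    rw [map_smul, smul_eq_mul]
  rcases hw2 with hw2 | hw2
  · rw [← hw2]
    exact hw3
  · have hzw : z = bd X w + ξ := by
      rw [hw2]
      funext σ
      show z σ = z σ + ξ σ + ξ σ
      rw [add_assoc, ZModModule.add_self, add_zero]
    have hfs : ∀ y : Finset P → ZMod 2, (Function.support fun σ => y σ * ψ (c σ)).Finite := by
      intro y
      refine hfin.subset fun σ hσ h1 => hσ ?_
      show y σ * ψ (c σ) = 0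
      rw [h1, map_zero, mul_zero]
    have e1 : ∀ σ, z σ * ψ (c σ) = bd X w σ * ψ (c σ) + ξ σ * ψ (c σ) := by
      intro σ
      rw [hzw, Pi.add_apply, add_mul]
    rw [finsum_congr e1, finsum_add_distrib (hfs _) (hfs _), hw3, hz3, add_zero]

end

end SingerRN
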