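import Mathlib
import Pool.Agent.Lib_MP_394d50_vs.VBase

/-!
# Piece CNT: the group is countable (about 100 lines)

Let `{v₀} ∈ X` (`hac.pt`). Let `C` be the set of the vertices `w` (`{w} ∈ X`) which can be reached from `v₀`
by finitely many edges `{p, q} ∈ X` (`Relation.ReflTransGen`). `C` is countable: the vertices at distance
`≤ m` are finitely many, by induction (`hX.star_finite`: every vertex is in finitely many simplices); or
`Set.Countable` of an iterated union. Every vertex `w` is in `C`: the chain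
`c = single {v₀} + single {w}` (if `w ≠ v₀`), i.e. `c σ = 1` if `σ = {v₀}` or `σ = {w}`, `0` otherwise, is in
`Ch (ZMod 2) X 1`, has finite support and `∑ᶠ v, c {v} = 1 + 1 = 0`. `hac.conn` gives `b ∈ Ch (ZMod 2) X 2`
with finite support and `bd X b = c`. Sum `bd X b {v}` over the vertices `v ∈ C` in a finite set
containing all vertices of the edges in the support of `b` and `v₀`, `w`: every edge `e` of the
support has both or none of its ends in `C`, so it contributes `0` (twice `b e`); but if `w ∉ C` the sum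
of `c {v}` over `v ∈ C` is `c {v₀} = 1`. Contradiction.
So the set of the vertices of `X` is countable, and `h ↦ h • v₀` is injective from `H` to it
(`hX.vfree`).
-/

namespace SingerRN

open SingerVS

private theorem cnt_comp {H P : Type} [Group H] [DecidableEq P] [MulAction H P]
    {X : Set (Finset P)} (hX : FreeCx H X) (v₀ : P) :
    ∃ C : Set P, C.Countable ∧ v₀ ∈ C ∧
      ∀ p q, q ∉ ({p} : Finset P) ∧ insert q {p} ∈ X → p ∈ C → q ∈ C := by
  classical
  obtain ⟨S, hS⟩ : ∃ S : ℕ → Set P, S = fun n => Nat.rec {v₀} (fun _ T =>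
      ⋃ p ∈ T, {q | q ∉ ({p} : Finset P) ∧ insert q {p} ∈ X}) n := ⟨_, rfl⟩
  have hS0 : S 0 = {v₀} := by
    rw [hS]
    rfl
  have hS1 : ∀ n, S (n + 1) = ⋃ p ∈ S n, {q | q ∉ ({p} : Finset P) ∧ insert q {p} ∈ X} := by
    intro n
    rw [hS]
  have hfin : ∀ p : P, {q | q ∉ ({p} : Finset P) ∧ insert q {p} ∈ X}.Finite := by
    intro p
    by_cases hp : {p} ∈ X
    · exact hX.nb_finite hp
    · refine Set.finite_empty.subset ?_
      rintro q ⟨_, hq⟩
      exact (hp (hX.single_mem hq (Finset.mem_insert_of_mem (Finset.mem_singleton_self p)))).elim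
  refine ⟨⋃ n, S n, ?_, ?_, ?_⟩
  · refine Set.countable_iUnion fun n => ?_
    induction n with
    | zero =>
      rw [hS0]
      exact Set.countable_singleton v₀
    | succ n ih =>
      rw [hS1]
      exact ih.biUnion fun p _ => (hfin p).countable
  · refine Set.mem_iUnion.mpr ⟨0, ?_⟩
    rw [hS0]
    rfl
  · intro p q hq hp
    obtain ⟨n, hn⟩ := Set.mem_iUnion.mp hp
    refine Set.mem_iUnion.mpr ⟨n + 1, ?_⟩
    rw [hS1]
    exact Set.mem_iUnion₂.mpr ⟨p, hn, hq⟩

private theorem cnt_mem {H P : Type} [Group H] [DecidableEq P] [MulAction H P]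
    {X : Set (Finset P)} (hX : FreeCx H X) (hac : Acyc X) {v₀ w : P} (h0 : {v₀} ∈ X)
    (hw : {w} ∈ X) {C : Set P} (hC0 : v₀ ∈ C)
    (hC : ∀ p q, q ∉ ({p} : Finset P) ∧ insert q {p} ∈ X → p ∈ C → q ∈ C) : w ∈ C := by
  classical
  by_contra hwC
  have hne : v₀ ≠ w := fun h => hwC (h ▸ hC0)
  obtain ⟨c, hc⟩ : ∃ c : Finset P → ZMod 2, ∀ σ, c σ = if σ = {v₀} ∨ σ = {w} then 1 else 0 :=
    ⟨_, fun _ => rfl⟩
  have hcCh : c ∈ Ch (ZMod 2) X 1 := by
    rw [mem_Ch]
    intro σ hσ
    rw [hc, if_neg]
    rintro (rfl | rfl)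
    · exact hσ ⟨h0, Finset.card_singleton _⟩
    · exact hσ ⟨hw, Finset.card_singleton _⟩
  have hcfin : (Function.support c).Finite := by
    refine (Set.toFinite {{v₀}, {w}}).subset fun σ hσ => ?_
    by_contra h
    refine hσ ?_
    rw [hc, if_neg]
    exact h
  have hcv : ∀ v, c {v} = if v = v₀ ∨ v = w then 1 else 0 := by
    intro v
    rw [hc]
    simp only [Finset.singleton_inj]
  have hcsum : ∑ᶠ v : P, c {v} = 0 := by
    rw [finsum_eq_sum_of_support_subset (s := {v₀, w}) _ (by
      intro v hv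
      rw [Finset.coe_insert, Finset.coe_singleton]
      by_contra h
      refine hv ?_
      beta_reduce
      rw [hcv, if_neg]
      exact h), Finset.sum_pair hne, hcv, hcv, if_pos (Or.inl rfl), if_pos (Or.inr rfl)]
    rfl
  obtain ⟨b, hb, hbfin, hbc⟩ := hac.conn c hcCh hcfin hcsum
  rw [mem_Ch] at hb
  obtain ⟨s, hs⟩ : ∃ s : Finset P, s =
      (hbfin.toFinset.biUnion id ∪ {v₀, w}).filter (fun v => v ∈ C) := ⟨_, rfl⟩
  have hsX : ∀ v ∈ s, {v} ∈ X := by
    intro v hv
    rw [hs, Finset.mem_filter, Finset.mem_union] at hv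
    rcases hv.1 with h | h
    · obtain ⟨σ, hσ, hvσ⟩ := Finset.mem_biUnion.mp h
      rw [Set.Finite.mem_toFinset] at hσ
      by_contra h1
      exact hσ (hb σ fun h2 => h1 (hX.single_mem h2.1 hvσ))
    · rw [Finset.mem_insert, Finset.mem_singleton] at h
      rcases h with rfl | rfl
      · exact h0
      · exact hw
  have hsC : ∀ v ∈ s, v ∈ C := fun v hv => by
    rw [hs, Finset.mem_filter] at hv
    exact hv.2
  have h1 : ∑ v ∈ s, bd X b {v} = 1 := by
    rw [hbc, Finset.sum_eq_single v₀]
    · rw [hcv, if_pos (Or.inl rfl)]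
    · intro v hv hv0
      rw [hcv, if_neg]
      rintro (h | h)
      · exact hv0 h
      · exact hwC (h ▸ hsC v hv)
    · intro h
      refine (h ?_).elim
      rw [hs, Finset.mem_filter, Finset.mem_union]
      exact ⟨Or.inr (Finset.mem_insert_self _ _), hC0⟩
  have h2 : ∑ v ∈ s, bd X b {v} = 0 := by
    have h3 : ∀ v ∈ s, bd X b {v} =
        ∑ p ∈ (nb X {v}).filter (fun p => p ∈ s), b (insert p {v}) := by
      intro v hv
      rw [bd_apply (hsX v hv), Finset.sum_filter]
      refine Finset.sum_congr rfl fun p hp => ?_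
      by_cases hps : p ∈ s
      · rw [if_pos hps]
      · rw [if_neg hps]
        by_contra hne0
        refine hps ?_
        rw [hs, Finset.mem_filter, Finset.mem_union]
        exact ⟨Or.inl (Finset.mem_biUnion.mpr ⟨insert p {v}, hbfin.mem_toFinset.mpr hne0,
          Finset.mem_insert_self _ _⟩), hC v p ((hX.mem_nb (hsX v hv)).mp hp) (hsC v hv)⟩
    rw [Finset.sum_congr rfl h3]
    refine sum_pairs_zero s (fun v => (nb X {v}).filter (fun p => p ∈ s))
      (fun v p => b (insert p {v})) ?_ ?_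
    · intro v hv p hp
      rw [Finset.mem_filter] at hp
      have h4 := (hX.mem_nb (hsX v hv)).mp hp.1
      refine ⟨hp.2, ?_, fun h => h4.1 (Finset.mem_singleton.mpr h)⟩
      rw [Finset.mem_filter]
      refine ⟨(hX.mem_nb (hsX p hp.2)).mpr ⟨fun h => h4.1 ?_, ?_⟩, hv⟩
      · rw [Finset.mem_singleton] at h ⊢
        exact h.symm
      · have h5 : insert v ({p} : Finset P) = insert p {v} := Finset.pair_comm v p
        rw [h5]
        exact h4.2
    · intro p q
      show b (insert q {p}) = b (insert p {q})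
      have h5 : insert q ({p} : Finset P) = insert p {q} := Finset.pair_comm q p
      rw [h5]
  rw [h1] at h2
  exact one_ne_zero h2

theorem countable_of_acyc {H P : Type} [Group H] [DecidableEq P] [MulAction H P]
    {X : Set (Finset P)} (hX : FreeCx H X) (hac : Acyc X) : Countable H := by
  obtain ⟨v₀, h0⟩ := hac.pt
  obtain ⟨C, hC, hC0, hC1⟩ := cnt_comp hX v₀
  have h1 : ∀ h : H, h • v₀ ∈ C := by
    intro h
    refine cnt_mem hX hac h0 ?_ hC0 hC1
    have h2 := hX.inv h _ h0
    rwa [Finset.smul_finset_singleton] at h2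
  have : Countable C := hC.to_subtype
  refine Function.Injective.countable (f := fun h : H => (⟨h • v₀, h1 h⟩ : C)) fun h h' e => ?_
  exact hX.vfree h0 (congrArg Subtype.val e)

end SingerRN
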