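import Mathlib
import Pool.Agent.Lib_MP_394d50_vs.VBase
import Pool.Agent.Lib_MP_394d50_vs.VCoef

/-!
# Permutation modules: definitions
-/

namespace SingerRN

open SingerRA SingerVS

/-- The permutation module `F₂[Y]`. -/
noncomputable def rhoF {H Y : Type} [Group H] (a : H →* Equiv.Perm Y) :
    H →* Module.End (ZMod 2) (Y →₀ ZMod 2) where
  toFun h := Finsupp.lmapDomain (ZMod 2) (ZMod 2) (a h)
  map_one' := by
    apply LinearMap.ext
    intro x
    rw [map_one]
    exact Finsupp.mapDomain_id
  map_mul' g h := by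
    apply LinearMap.ext
    intro x
    rw [map_mul]
    show Finsupp.mapDomain (⇑(a g) ∘ ⇑(a h)) x = Finsupp.mapDomain (a g) (Finsupp.mapDomain (a h) x)
    rw [Finsupp.mapDomain_comp]

theorem rhoF_apply {H Y : Type} [Group H] (a : H →* Equiv.Perm Y) (h : H) (x : Y →₀ ZMod 2)
    (y : Y) : rhoF a h x y = x (a h⁻¹ y) := by
  have h1 : y = a h (a h⁻¹ y) := by
    rw [map_inv]
    exact ((a h).apply_symm_apply y).symm
  conv_lhs => rw [h1]
  exact Finsupp.mapDomain_apply (a h).injective x (a h⁻¹ y)

/-- The action of `H` on `U × U`: `h (g, g') = (g h⁻¹, h g')`. -/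
def aUU {H U : Type} [Group H] [Group U] (j : H →* U) : H →* Equiv.Perm (U × U) where
  toFun h :=
    { toFun := fun y => (y.1 * (j h)⁻¹, j h * y.2)
      invFun := fun y => (y.1 * j h, (j h)⁻¹ * y.2)
      left_inv := fun y => by simp
      right_inv := fun y => by simp }
  map_one' := by
    ext y
    · simp
    · simp
  map_mul' g h := by
    ext y
    · simp [mul_assoc]
    · simp [mul_assoc]

theorem aUU_apply {H U : Type} [Group H] [Group U] (j : H →* U) (h : H) (y : U × U) :
    aUU j h y = (y.1 * (j h)⁻¹, j h * y.2) := rfl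

end SingerRN
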