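import Mathlib
import Pool.Agent.Lib_MP_394d50_rn.FCD
import Pool.Agent.Lib_MP_394d50_rn.PDC

/-!
# Piece FCX: cochains with values in a free permutation module (about 170 lines)

Let `c ∈ Co (rhoF a) X p`, `dl X c = 0`. The orbits of `H` on `Y` (relation `∃ h, a h y = y'`): choose a
representative `o y` of the orbit of `y` and the unique `e y : H` with `a (e y) (o y) = y` (unique
because the action is free). For `y₀ : Y` let `c^{y₀} σ = c σ y₀` (compose with the linear functional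
`Finsupp.lapply y₀`; `dl_map` in `DCoef` gives `dl X c^{y₀} = 0`). It is in `Ch (ZMod 2) X p`. Its support is
finite: with orbit representatives `R` (`hX.exists_reps`), `c (h • r) y₀ = c r (a h⁻¹ y₀)` (`rhoF_apply`),
so `h` is determined by `r` and an element `y = a h⁻¹ y₀` of the finite support of `c r` (free action).
`pd_fin_dl` gives `b^{y₀} ∈ Ch (ZMod 2) X (p - 1)` with finite support and `dl X b^{y₀} = c^{y₀}`; choose
`b^{y₀} = 0` when `c^{y₀} = 0`. Define `b σ y = b^{o y} ((e y)⁻¹ • σ)`. For fixed `σ` it has finite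
support: `c^{o y} ≠ 0` only if `o y` is in the orbit of an element of the support of some `c r`, finitely
many orbits; and for a given `y₀ = o y`, `(e y)⁻¹ • σ = τ` is in the finite support of `b^{y₀}`
(contained in `X`), and `τ` determines `e y` (free action on `X`: `hX.smul_inj`), hence `y`. So
`b σ : Y →₀ ZMod 2` (`Finsupp.ofSupportFinite`). Equivariance: `o (a h⁻¹ y) = o y`,
`e (a h⁻¹ y) = h⁻¹ * e y`, so `b (h • σ) y = b^{o y} ((e y)⁻¹ h σ) = b σ (a h⁻¹ y)`. `dl X b = c`: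
`dl X b σ y = ∑_{p ∈ σ} b^{o y} ((e y)⁻¹ • σ.erase p) = dl X b^{o y} ((e y)⁻¹ • σ)` (`smul_erase`, and
`Finset.sum` over `(e y)⁻¹ • σ` as an image) `= c ((e y)⁻¹ • σ) (o y) = c σ (a (e y) (o y)) = c σ y`.
(For `σ ∉ X` all is zero.)
-/

namespace SingerRN

open SingerRA SingerVS
open scoped Pointwise

theorem FCX_inj {H Y : Type} [Group H] {a : H →* Equiv.Perm Y}
    (hfree : ∀ h y, a h y = y → h = 1) {h h' : H} {y : Y} (e : a h y = a h' y) : h = h' := by
  have h1 : a (h'⁻¹ * h) y = y := by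
    rw [map_mul, Equiv.Perm.mul_apply, e, map_inv]
    exact (a h').symm_apply_apply y
  exact (inv_mul_eq_one.mp (hfree _ _ h1)).symm

theorem FCX_orb {H Y : Type} [Group H] (a : H →* Equiv.Perm Y)
    (hfree : ∀ h y, a h y = y → h = 1) : ∃ (o : Y → Y) (e : Y → H), (∀ y, a (e y) (o y) = y) ∧
      (∀ h y, o (a h y) = o y) ∧ ∀ h y, e (a h y) = h * e y := by
  let s : Setoid Y :=
    { r := fun y y' => ∃ h, a h y = y'
      iseqv :=
        { refl := fun y => ⟨1, by rw [map_one]; rfl⟩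
          symm := by
            rintro x _ ⟨h, rfl⟩
            exact ⟨h⁻¹, by rw [map_inv]; exact (a h).symm_apply_apply x⟩
          trans := by
            rintro x _ _ ⟨h, rfl⟩ ⟨g, rfl⟩
            exact ⟨g * h, by rw [map_mul]; rfl⟩ } }
  have h1 : ∀ y, ∃ h, a h (Quotient.out (Quotient.mk s y)) = y := fun y => Quotient.mk_out y
  choose e he using h1
  have ho : ∀ h y, Quotient.out (Quotient.mk s (a h y)) = Quotient.out (Quotient.mk s y) := by
    intro h y
    have h2 : Quotient.mk s (a h y) = Quotient.mk s y := (Quotient.sound (show s.r y (a h y) from ⟨h, rfl⟩)).symm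
    rw [h2]
  refine ⟨fun y => Quotient.out (Quotient.mk s y), e, he, ho, fun h y => ?_⟩
  apply FCX_inj hfree (y := Quotient.out (Quotient.mk s y))
  have h2 := he (a h y)
  rw [ho] at h2
  rw [h2, map_mul, Equiv.Perm.mul_apply, he]

theorem FCX_fin {H P Y : Type} [Group H] [DecidableEq P] [MulAction H P] {X : Set (Finset P)}
    {a : H →* Equiv.Perm Y} (hfree : ∀ h y, a h y = y → h = 1) {R : Finset (Finset P)}
    (hR : Reps H X R) {p : ℕ} {c : Finset P → (Y →₀ ZMod 2)} (hc : c ∈ Co (rhoF a) X p) (y : Y) :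
    (Function.support fun σ => c σ y).Finite := by
  refine Set.Finite.subset (Set.Finite.biUnion R.finite_toSet fun r _ =>
    Set.Finite.biUnion (c r).support.finite_toSet fun y' _ =>
      (?_ : {σ : Finset P | ∃ h : H, a h y' = y ∧ σ = h • r}.Finite)) ?_
  · refine Set.Subsingleton.finite ?_
    rintro _ ⟨h, e, rfl⟩ _ ⟨h', e', rfl⟩
    rw [FCX_inj hfree (e.trans e'.symm)]
  · intro σ hσ
    have h1 : c σ y ≠ 0 := hσ
    have hσX : σ ∈ X := by
      by_contra h2
      apply h1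
      rw [hc.1 σ (fun h3 => h2 h3.1)]
      rfl
    obtain ⟨h, r, hr, rfl⟩ := hR.cov σ hσX
    rw [hc.2 h r (hR.mem r hr), rhoF_apply] at h1
    refine Set.mem_iUnion₂.mpr ⟨r, hr, Set.mem_iUnion₂.mpr ⟨a h⁻¹ y, ?_, h, ?_, rfl⟩⟩
    · exact Finset.mem_coe.mpr (Finsupp.mem_support_iff.mpr h1)
    · rw [map_inv]
      exact (a h).apply_symm_apply y

theorem exCo_free {H P Y : Type} [Group H] [DecidableEq P] [MulAction H P] {X : Set (Finset P)}
    (hX : FreeCx H X) {n : ℕ} (hlf : PdR n X) (a : H →* Equiv.Perm Y)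
    (hfree : ∀ h y, a h y = y → h = 1) {p : ℕ} (hp : p ≠ n + 1) : ExCo (rhoF a) X p := by
  classical
  intro c hc h0
  obtain ⟨R, hR⟩ := hX.exists_reps
  obtain ⟨o, e, hoe, ho, he⟩ := FCX_orb a hfree
  -- the slices
  have hcy : ∀ y : Y, (fun σ => c σ y) ∈ Ch (ZMod 2) X p := by
    intro y σ hσ
    show c σ y = 0
    rw [hc.1 σ hσ]
    rfl
  have hdl : ∀ y : Y, dl X (fun σ => c σ y) = 0 := by
    intro y
    funext σ
    have h1 := dl_map (X := X) (Finsupp.lapply y : (Y →₀ ZMod 2) →ₗ[ZMod 2] ZMod 2) c σ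
    rw [h0] at h1
    exact h1.trans (map_zero _)
  have hex : ∀ y : Y, ∃ b : Finset P → ZMod 2, b ∈ Ch (ZMod 2) X (p - 1) ∧
      (Function.support b).Finite ∧ dl X b = (fun σ => c σ y) ∧
      ((fun σ => c σ y) = (0 : Finset P → ZMod 2) → b = 0) := by
    intro y
    by_cases hz : (fun σ => c σ y) = (0 : Finset P → ZMod 2)
    · refine ⟨0, Submodule.zero_mem _, ?_, ?_, fun _ => rfl⟩
      · rw [Function.support_zero]
        exact Set.finite_empty
      · rw [hz, map_zero]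
    · obtain ⟨b, hb1, hb2, hb3⟩ := pd_fin_dl hX hlf hp (hcy y) (FCX_fin hfree hR hc y) (hdl y)
      exact ⟨b, hb1, hb2, hb3, fun h1 => absurd h1 hz⟩
  choose β hβ1 hβ2 hβ3 hβ4 using hex
  have hoo : ∀ y, o (o y) = o y := by
    intro y
    conv_rhs => rw [← hoe y, ho]
  -- finitely many orbits
  have hW : {y₀ : Y | ∃ y, o y = y₀ ∧ β y₀ ≠ 0}.Finite := by
    refine Set.Finite.subset ((Set.Finite.biUnion R.finite_toSet fun r _ =>
      (c r).support.finite_toSet).image o) ?_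
    rintro _ ⟨y, rfl, hy⟩
    have h1 : (fun σ => c σ (o y)) ≠ (0 : Finset P → ZMod 2) := fun h2 => hy (hβ4 _ h2)
    obtain ⟨σ, hσ⟩ := Function.ne_iff.mp h1
    have h2 : c σ (o y) ≠ 0 := hσ
    have hσX : σ ∈ X := by
      by_contra h3
      apply h2
      rw [hc.1 σ (fun h4 => h3 h4.1)]
      rfl
    obtain ⟨h, r, hr, rfl⟩ := hR.cov σ hσX
    rw [hc.2 h r (hR.mem r hr), rhoF_apply] at h2
    refine ⟨a h⁻¹ (o y), Set.mem_iUnion₂.mpr ⟨r, hr, ?_⟩, ?_⟩
    · exact Finset.mem_coe.mpr (Finsupp.mem_support_iff.mpr h2)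
    · rw [ho, hoo]
  have hfin : ∀ σ : Finset P, (Function.support fun y => β (o y) ((e y)⁻¹ • σ)).Finite := by
    intro σ
    by_cases hσ : σ ∈ X
    · refine Set.Finite.subset (Set.Finite.biUnion hW fun y₀ _ =>
        (?_ : {y : Y | o y = y₀ ∧ β y₀ ((e y)⁻¹ • σ) ≠ 0}.Finite)) ?_
      · refine Set.Finite.of_finite_image (f := fun y => (e y)⁻¹ • σ) ((hβ2 y₀).subset ?_) ?_
        · rintro _ ⟨y, hy, rfl⟩
          exact hy.2
        · intro y hy y' hy' h1
          have h2 : (e y)⁻¹ = (e y')⁻¹ := hX.smul_inj hσ h1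
          have h3 : e y = e y' := inv_injective h2
          rw [← hoe y, ← hoe y', h3, hy.1, hy'.1]
      · intro y hy
        have h1 : β (o y) ((e y)⁻¹ • σ) ≠ 0 := hy
        refine Set.mem_iUnion₂.mpr ⟨o y, ⟨y, rfl, ?_⟩, rfl, h1⟩
        intro h2
        apply h1
        rw [h2]
        rfl
    · have h1 : (Function.support fun y => β (o y) ((e y)⁻¹ • σ)) = ∅ := by
        rw [Function.support_eq_empty_iff]
        funext y
        exact hβ1 (o y) _ (fun h2 => hσ ((hX.smul_mem_iff _ σ).mp h2.1))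
      rw [h1]
      exact Set.finite_empty
  set b : Finset P → (Y →₀ ZMod 2) := fun σ =>
    Finsupp.ofSupportFinite (fun y => β (o y) ((e y)⁻¹ • σ)) (hfin σ) with hb
  have hbv : ∀ σ y, b σ y = β (o y) ((e y)⁻¹ • σ) := fun σ y => rfl
  refine ⟨b, ⟨?_, ?_⟩, ?_⟩
  · intro σ hσ
    ext y
    rw [hbv]
    refine hβ1 (o y) _ (fun h1 => hσ ⟨(hX.smul_mem_iff _ σ).mp h1.1, ?_⟩)
    rw [← h1.2, card_smul]
  · intro h σ hσ
    ext y
    rw [hbv, rhoF_apply, hbv, ho, he, mul_inv_rev, inv_inv, mul_smul]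
  · funext σ
    by_cases hσ : σ ∈ X
    · ext y
      rw [dl_apply hσ, Finsupp.finsetSum_apply]
      simp only [hbv]
      have h1 := congrFun (hβ3 (o y)) ((e y)⁻¹ • σ)
      rw [dl_apply ((hX.smul_mem_iff _ σ).mpr hσ)] at h1
      have h2 : (e y)⁻¹ • σ = σ.image (fun x => (e y)⁻¹ • x) := rfl
      have h3 : ∑ q ∈ (e y)⁻¹ • σ, β (o y) (((e y)⁻¹ • σ).erase q) =
          ∑ q ∈ σ, β (o y) ((e y)⁻¹ • σ.erase q) := by
        conv_lhs => rw [h2]
        rw [Finset.sum_image (fun x _ y _ e => MulAction.injective _ e)]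
        refine Finset.sum_congr rfl fun q _ => ?_
        rw [← h2, ← smul_erase]
      rw [← h3, h1]
      show c ((e y)⁻¹ • σ) (o y) = c σ y
      rw [hc.2 _ σ hσ, rhoF_apply, inv_inv, hoe]
    · rw [dl_apply_not hσ, hc.1 σ (fun h1 => hσ h1.1)]

end SingerRN
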