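import Mathlib
import Pool.Agent.Lib_MP_394d50_all.UBase
import Pool.Agent.Lib_MP_394d50_all.OSub

/-!
# MP_394d50_gt, residually (amenable left-orderable) groups: definitions

Part 1: the class of groups. Part 2: well-ordered sets and left orders. Part 3: the group ring
`K[V]` acting on the functions `V → K` with well-ordered support. Part 4: groups with a tower of
splittings `U = V_i × W_i`. Part 5: the homogeneous components and the condition `Pr`.
-/

namespace SingerRN

open SingerRA

/-! ## Part 1: the class of groups -/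

open scoped Classical in
/-- `A` is amenable (Følner). -/
def Amen (A : Type) [Group A] : Prop :=
  ∀ (S : Finset A) (ε : ℝ), 0 < ε → ∃ F : Finset A, F.Nonempty ∧
    ∀ s ∈ S, ((F.filter fun x => x * s ∉ F).card : ℝ) ≤ ε * (F.card : ℝ)

/-- `r` is a strict total order on `A`, invariant under the left multiplications. -/
structure LOrd {A : Type} [Group A] (r : A → A → Prop) : Prop where
  irrefl : ∀ x, ¬ r x x
  trans : ∀ x y z, r x y → r y z → r x z
  total : ∀ x y, x ≠ y → r x y ∨ r y x
  left : ∀ g x y, r x y → r (g * x) (g * y)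

/-- `A` is residually finite. -/
def ResFin (A : Type) [Group A] : Prop :=
  ∀ a : A, a ≠ 1 → ∃ (Q : Type) (_ : Group Q) (_ : Finite Q) (f : A →* Q), f a ≠ 1

/-- `K` is residually (amenable, left-orderable and residually finite). -/
def ResLOA (K : Type) [Group K] : Prop :=
  ∀ h : K, h ≠ 1 → ∃ (A : Type) (_ : Group A), Amen A ∧ (∃ r : A → A → Prop, LOrd r) ∧
    ResFin A ∧ ∃ f : K →* A, f h ≠ 1

/-- `Γ` is virtually residually (amenable, left-orderable and residually finite). -/
def VirtRes (Γ : Type) [Group Γ] : Prop := ∃ K : Subgroup Γ, K.FiniteIndex ∧ ResLOA K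

/-! ## Part 2: well-ordered sets and left orders -/

/-- `S` is well-ordered by `r`. -/
def WO {A : Type} (r : A → A → Prop) (S : Set A) : Prop :=
  ∀ T ⊆ S, T.Nonempty → ∃ m ∈ T, ∀ x ∈ T, x ≠ m → r m x

/-- The right translate of a relation. -/
def rtr {A : Type} [Group A] (r : A → A → Prop) (g : A) : A → A → Prop :=
  fun x y => r (x * g) (y * g)

/-- The opposite relation. -/
def rev {A : Type} (r : A → A → Prop) : A → A → Prop := fun x y => r y x

/-! ## Part 3: the action of the group ring on functions -/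

section

variable {K V : Type} [DivisionRing K] [Group V]

/-- The action of the group ring `K[V]` on the functions `V → K`. -/
noncomputable def sact (s : MonoidAlgebra K V) (f : V → K) : V → K :=
  fun u => ∑ b ∈ s.coeff.support, s.coeff b * f (b⁻¹ * u)

/-- `v` is the leading exponent of `f`. -/
def Lead (r : V → V → Prop) (f : V → K) (v : V) : Prop :=
  f v ≠ 0 ∧ ∀ u, f u ≠ 0 → u ≠ v → r v u

variable {D : Type} [DivisionRing D]

/-- `D` is a division ring of left fractions of `K[V]`. -/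
structure OreExt (φ : MonoidAlgebra K V →+* D) : Prop where
  inj : Function.Injective φ
  den : ∀ x : D, ∃ s s' : MonoidAlgebra K V, s ≠ 0 ∧ φ s * x = φ s'

/-- `x • f = g`, in the functions with well-ordered support. -/
def DAct (φ : MonoidAlgebra K V →+* D) (r : V → V → Prop) (x : D) (f g : V → K) : Prop :=
  WO r (Function.support f) ∧ WO r (Function.support g) ∧
    ∀ s s' : MonoidAlgebra K V, φ s * x = φ s' → sact s g = sact s' f

end

/-! ## Part 4: towers -/

/-- A group `U` with splittings `U = V_i × W_i`, `V_i` the range and `W_i` the kernel of `tr i`. -/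
structure Tow (U : Type) [Group U] where
  /-- the projections -/
  tr : ℕ → U →* U
  tr_lo : ∀ i j, i ≤ j → ∀ u, tr i (tr j u) = tr i u
  tr_hi : ∀ i j, i ≤ j → ∀ u, tr j (tr i u) = tr i u
  comm : ∀ i u w, tr i w = 1 → tr i u * w = w * tr i u
  sep : ∀ u, u ≠ 1 → ∃ i, tr i u ≠ 1

variable {U : Type} [Group U]

/-- The group `V_i`. -/
def Tow.V (T : Tow U) (i : ℕ) : Subgroup U := (T.tr i).range

/-- The group `W_i`. -/
def Tow.W (T : Tow U) (i : ℕ) : Subgroup U := (T.tr i).ker

/-- The left orders which are compatible with the tower. -/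
structure TOrd (T : Tow U) (r : U → U → Prop) : Prop extends LOrd r where
  tr : ∀ i x y, r x y → T.tr i x ≠ T.tr i y → r (T.tr i x) (T.tr i y)

/-- The restriction of a relation to `V_i`. -/
def rV (T : Tow U) (r : U → U → Prop) (i : ℕ) : T.V i → T.V i → Prop := fun x y => r x y

section

variable {D : Type} [DivisionRing D]

/-- The division subring generated by `W_i`. -/
def Di (T : Tow U) (t : U →* Dˣ) (i : ℕ) : Subfield D :=
  Subfield.closure {x | ∃ w ∈ T.W i, x = ((t w : Dˣ) : D)}

/-- `D` is generated by `U`, and `V_i` is linearly independent over `D_i`. -/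
structure DSys (T : Tow U) (t : U →* Dˣ) : Prop where
  gen : ∀ K : Subfield D, (∀ u, ((t u : Dˣ) : D) ∈ K) → ∀ x : D, x ∈ K
  ind : ∀ (i : ℕ) (S : Finset U) (d : U → D), (∀ v ∈ S, v ∈ T.V i) →
    (∀ v ∈ S, d v ∈ Di T t i) → ∑ v ∈ S, d v * ((t v : Dˣ) : D) = 0 → ∀ v ∈ S, d v = 0

theorem mem_Di_of_mem (T : Tow U) (t : U →* Dˣ) {i : ℕ} {w : U} (hw : w ∈ T.W i) :
    ((t w : Dˣ) : D) ∈ Di T t i := Subfield.subset_closure ⟨w, hw, rfl⟩

theorem Di_comm (T : Tow U) (t : U →* Dˣ) {i : ℕ} {v : U} (hv : v ∈ T.V i) {x : D}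
    (hx : x ∈ Di T t i) : x * ((t v : Dˣ) : D) = ((t v : Dˣ) : D) * x := by
  induction hx using Subfield.closure_induction with
  | mem x hx =>
    obtain ⟨w, hw, rfl⟩ := hx
    obtain ⟨u, rfl⟩ := hv
    have h2 : T.tr i u * w = w * T.tr i u := T.comm i u w hw
    rw [← Units.val_mul, ← Units.val_mul, ← map_mul, ← map_mul, h2]
  | one => rw [one_mul, mul_one]
  | add x y _ _ hx hy => rw [add_mul, mul_add, hx, hy]
  | neg x _ hx => rw [neg_mul, mul_neg, hx]
  | inv x _ hx =>
    have h1 : Commute x ((t v : Dˣ) : D) := hx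
    exact h1.inv_left₀
  | mul x y _ _ hx hy => rw [mul_assoc, hy, ← mul_assoc, hx, mul_assoc]

/-- The ring homomorphism `D_i[V_i] → D`. -/
noncomputable def phiI (T : Tow U) (t : U →* Dˣ) (i : ℕ) :
    MonoidAlgebra (Di T t i) (T.V i) →+* D :=
  MonoidAlgebra.liftNCRingHom (Di T t i).subtype
    (((Units.coeHom D).comp t).comp (T.V i).subtype)
    (fun x v => Di_comm T t v.2 x.2)

theorem phiI_single (T : Tow U) (t : U →* Dˣ) (i : ℕ) (v : T.V i) (x : Di T t i) :
    phiI T t i (MonoidAlgebra.single v x) = (x : D) * ((t v : Dˣ) : D) := by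
  unfold phiI
  rw [MonoidAlgebra.liftNCRingHom_single]
  rfl

/-! ## Part 5: homogeneous components and the condition `Pr` -/

/-- The functions `U → F₂` whose support has a well-ordered image in `V_i`, with finite fibres. -/
def Good (T : Tow U) (r : U → U → Prop) (i : ℕ) (F : U → ZMod 2) : Prop :=
  WO r (T.tr i '' Function.support F) ∧ ∀ v, {u | F u ≠ 0 ∧ T.tr i u = v}.Finite

open scoped Classical in
/-- The homogeneous component `∑_{tr i u = v} F u • u` of degree `v`. -/
noncomputable def kp (T : Tow U) (t : U →* Dˣ) (i : ℕ) (F : U → ZMod 2) (v : U) : D :=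
  ∑ᶠ u : U, if F u ≠ 0 ∧ T.tr i u = v then ((t u : Dˣ) : D) else 0

theorem tr_V (T : Tow U) {i : ℕ} {v : U} (hv : v ∈ T.V i) : T.tr i v = v := by
  obtain ⟨u, rfl⟩ := hv
  exact T.tr_hi i i le_rfl u

theorem W_of_tr (T : Tow U) {i : ℕ} {u v : U} (hv : v ∈ T.V i) (h : T.tr i u = v) :
    u * v⁻¹ ∈ T.W i := by
  show T.tr i (u * v⁻¹) = 1
  rw [map_mul, map_inv, h, tr_V T hv, mul_inv_cancel]

theorem kp_mem (T : Tow U) (t : U →* Dˣ) (i : ℕ) (F : U → ZMod 2) {v : U} (hv : v ∈ T.V i) :
    kp T t i F v * (((t v)⁻¹ : Dˣ) : D) ∈ Di T t i := by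
  classical
  unfold kp
  have h0 : ∀ x : U → D, (Function.support x).Finite → (∀ u, x u * (((t v)⁻¹ : Dˣ) : D) ∈
      Di T t i) → (∑ᶠ u, x u) * (((t v)⁻¹ : Dˣ) : D) ∈ Di T t i := by
    intro x hx h
    rw [finsum_eq_sum_of_support_subset (s := hx.toFinset) x (by
      rw [Set.Finite.coe_toFinset]), Finset.sum_mul]
    exact sum_mem fun u _ => h u
  by_cases hfin : (Function.support fun u : U =>
      if F u ≠ 0 ∧ T.tr i u = v then ((t u : Dˣ) : D) else 0).Finite
  · refine h0 _ hfin fun u => ?_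
    split_ifs with h
    · rw [← Units.val_mul, ← map_inv, ← map_mul]
      exact mem_Di_of_mem T t (W_of_tr T hv h.2)
    · rw [zero_mul]
      exact zero_mem _
  · rw [finsum_of_infinite_support hfin, zero_mul]
    exact zero_mem _

/-- The function `V_i → D_i` of a function `U → F₂`. -/
noncomputable def EE (T : Tow U) (t : U →* Dˣ) (i : ℕ) (F : U → ZMod 2) : T.V i → Di T t i :=
  fun v => ⟨kp T t i F v * (((t (v : U))⁻¹ : Dˣ) : D), kp_mem T t i F v.2⟩

/-- For all `i₁ ≥ i` and all orders, `x` preserves the functions with values in `F₂[W_{i₁}]`. -/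
def Pr (T : Tow U) (t : U →* Dˣ) (i : ℕ) (x : D) : Prop :=
  ∀ i₁, i ≤ i₁ → ∀ r, TOrd T r → ∀ F, Good T r i₁ F → ∃ G, Good T r i₁ G ∧
    ∀ i₂, i₁ ≤ i₂ → DAct (phiI T t i₂) (rV T r i₂) x (EE T t i₂ F) (EE T t i₂ G)

end

end SingerRN
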