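import Mathlib
import Pool.Agent.Lib_MP_394d50_rn.RDefs

/-!
# Well-ordered sets and left orders: basic facts
-/

namespace SingerRN

open SingerRA

section

variable {A B : Type}

theorem WO.mono {r : A → A → Prop} {S T : Set A} (h : WO r S) (hT : T ⊆ S) : WO r T :=
  fun X hX => h X (hX.trans hT)

theorem WO.image {r : A → A → Prop} {r' : B → B → Prop} {S : Set A} (f : A → B)
    (hf : ∀ x ∈ S, ∀ y ∈ S, r x y → f x = f y ∨ r' (f x) (f y)) (h : WO r S) :
    WO r' (f '' S) := by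
  intro T hT hne
  obtain ⟨m, hm, hmin⟩ := h {x | x ∈ S ∧ f x ∈ T} (fun x hx => hx.1) (by
    obtain ⟨y, hy⟩ := hne
    obtain ⟨x, hx, rfl⟩ := hT hy
    exact ⟨x, hx, hy⟩)
  refine ⟨f m, hm.2, fun y hy hyne => ?_⟩
  obtain ⟨x, hx, rfl⟩ := hT hy
  have h1 : x ≠ m := fun h => hyne (by rw [h])
  rcases hf m hm.1 x hx (hmin x ⟨hx, hy⟩ h1) with h2 | h2
  · exact absurd h2.symm hyne
  · exact h2

theorem WO.empty (r : A → A → Prop) : WO r (∅ : Set A) := by
  intro T hT hne
  obtain ⟨x, hx⟩ := hne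
  exact (hT hx).elim

variable [Group A]

theorem LOrd.asymm {r : A → A → Prop} (hr : LOrd r) {x y : A} (h : r x y) : ¬ r y x :=
  fun h' => hr.irrefl x (hr.trans _ _ _ h h')

theorem LOrd.ne {r : A → A → Prop} (hr : LOrd r) {x y : A} (h : r x y) : x ≠ y := by
  rintro rfl
  exact hr.irrefl x h

theorem LOrd.left_iff {r : A → A → Prop} (hr : LOrd r) (g x y : A) :
    r (g * x) (g * y) ↔ r x y := by
  refine ⟨fun h => ?_, hr.left g x y⟩
  have h1 := hr.left g⁻¹ _ _ h
  rwa [inv_mul_cancel_left, inv_mul_cancel_left] at h1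

theorem WO.union {r : A → A → Prop} (hr : LOrd r) {S T : Set A} (hS : WO r S) (hT : WO r T) :
    WO r (S ∪ T) := by
  intro X hX hne
  by_cases h1 : (X ∩ S).Nonempty
  · obtain ⟨m, hm, hmin⟩ := hS (X ∩ S) (fun x hx => hx.2) h1
    by_cases h2 : (X ∩ T).Nonempty
    · obtain ⟨n, hn, hnin⟩ := hT (X ∩ T) (fun x hx => hx.2) h2
      by_cases hmn : m = n
      · subst hmn
        refine ⟨m, hm.1, fun x hx hxne => ?_⟩
        rcases hX hx with h | h
        · exact hmin x ⟨hx, h⟩ hxne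
        · exact hnin x ⟨hx, h⟩ hxne
      · rcases hr.total m n hmn with h3 | h3
        · refine ⟨m, hm.1, fun x hx hxne => ?_⟩
          rcases hX hx with h | h
          · exact hmin x ⟨hx, h⟩ hxne
          · by_cases hxn : x = n
            · rw [hxn]
              exact h3
            · exact hr.trans _ _ _ h3 (hnin x ⟨hx, h⟩ hxn)
        · refine ⟨n, hn.1, fun x hx hxne => ?_⟩
          rcases hX hx with h | h
          · by_cases hxm : x = m
            · rw [hxm]
              exact h3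
            · exact hr.trans _ _ _ h3 (hmin x ⟨hx, h⟩ hxm)
          · exact hnin x ⟨hx, h⟩ hxne
    · refine ⟨m, hm.1, fun x hx hxne => ?_⟩
      rcases hX hx with h | h
      · exact hmin x ⟨hx, h⟩ hxne
      · exact absurd ⟨x, hx, h⟩ h2
  · refine hT X (fun x hx => ?_) hne
    rcases hX hx with h | h
    · exact absurd ⟨x, hx, h⟩ h1
    · exact h

theorem WO.singleton (r : A → A → Prop) (a : A) : WO r ({a} : Set A) := by
  intro X hX hne
  obtain ⟨x, hx⟩ := hne
  refine ⟨x, hx, fun y hy hyx => ?_⟩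
  exact absurd ((hX hy).trans (hX hx).symm) hyx

theorem WO.biUnion {r : A → A → Prop} (hr : LOrd r) {ι : Type} (s : Finset ι) (f : ι → Set A)
    (h : ∀ i ∈ s, WO r (f i)) : WO r (⋃ i ∈ s, f i) := by
  classical
  induction s using Finset.induction_on with
  | empty =>
    simp only [Finset.notMem_empty, Set.iUnion_of_empty, Set.iUnion_empty]
    exact WO.empty r
  | insert i s hi ih =>
    rw [Finset.set_biUnion_insert]
    exact WO.union hr (h i (Finset.mem_insert_self i s))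
      (ih fun j hj => h j (Finset.mem_insert_of_mem hj))

theorem WO.of_finite {r : A → A → Prop} (hr : LOrd r) {S : Set A} (hS : S.Finite) : WO r S := by
  have h1 := WO.biUnion hr hS.toFinset (fun a => ({a} : Set A)) (fun a _ => WO.singleton r a)
  refine h1.mono fun x hx => ?_
  exact Set.mem_iUnion₂.mpr ⟨x, hS.mem_toFinset.mpr hx, rfl⟩

theorem WO.finite_of_rev {r : A → A → Prop} (hr : LOrd r) {S : Set A} (h : WO r S)
    (h' : WO (rev r) S) : S.Finite := by
  by_contra hinf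
  let T : Set A := {x | x ∈ S ∧ ¬ {y | y ∈ S ∧ (y = x ∨ r y x)}.Finite}
  have hTne : T.Nonempty := by
    have hSne : S.Nonempty := by
      rw [Set.nonempty_iff_ne_empty]
      rintro rfl
      exact hinf Set.finite_empty
    obtain ⟨m, hm, hmax⟩ := h' S subset_rfl hSne
    refine ⟨m, hm, fun hfin => hinf (hfin.subset fun y hy => ⟨hy, ?_⟩)⟩
    by_cases hym : y = m
    · exact Or.inl hym
    · exact Or.inr (hmax y hy hym)
  obtain ⟨m, hm, hmin⟩ := h T (fun x hx => hx.1) hTne
  have h1 : ¬ {y | y ∈ S ∧ r y m}.Finite := by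
    intro hfin
    refine hm.2 ((hfin.union (Set.finite_singleton m)).subset ?_)
    rintro y ⟨hy, rfl | hy'⟩
    · exact Or.inr rfl
    · exact Or.inl ⟨hy, hy'⟩
  have h2 : {y | y ∈ S ∧ r y m}.Nonempty := by
    rw [Set.nonempty_iff_ne_empty]
    intro h
    exact h1 (by rw [h]; exact Set.finite_empty)
  obtain ⟨n, hn, hmax⟩ := h' {y | y ∈ S ∧ r y m} (fun y hy => hy.1) h2
  have h3 : n ∈ T := by
    refine ⟨hn.1, fun hfin => h1 (hfin.subset fun y hy => ⟨hy.1, ?_⟩)⟩
    by_cases hyn : y = n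
    · exact Or.inl hyn
    · exact Or.inr (hmax y hy hyn)
  have h4 : n ≠ m := hr.ne hn.2
  exact hr.asymm hn.2 (hmin n h3 h4)

theorem LOrd.rtr {r : A → A → Prop} (hr : LOrd r) (g : A) : LOrd (rtr r g) where
  irrefl x := hr.irrefl _
  trans x y z h h' := hr.trans _ _ _ h h'
  total x y h := hr.total _ _ fun h' => h (mul_right_cancel h')
  left k x y h := by
    have h1 := hr.left k _ _ h
    rwa [← mul_assoc, ← mul_assoc] at h1

theorem LOrd.rev {r : A → A → Prop} (hr : LOrd r) : LOrd (rev r) where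
  irrefl x := hr.irrefl _
  trans x y z h h' := hr.trans _ _ _ h' h
  total x y h := (hr.total x y h).symm
  left k x y h := hr.left k _ _ h

end

section

variable {U : Type} [Group U] {T : Tow U}

theorem TOrd.tr_lt {r : U → U → Prop} (h : TOrd T r) {i : ℕ} {x y : U}
    (hxy : r (T.tr i x) (T.tr i y)) : r x y := by
  have hne : x ≠ y := by
    rintro rfl
    exact h.irrefl _ hxy
  rcases h.total x y hne with h1 | h1
  · exact h1
  · exact absurd (h.tr i y x h1 (h.toLOrd.ne hxy).symm) (h.toLOrd.asymm hxy)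

theorem TOrd.rtr {r : U → U → Prop} (h : TOrd T r) (g : U) : TOrd T (rtr r g) where
  toLOrd := h.toLOrd.rtr g
  tr i x y hxy hne := by
    have h1 : r (T.tr i (x * g)) (T.tr i (y * g)) := h.tr i _ _ hxy (by
      rw [map_mul, map_mul]
      exact fun h' => hne (mul_right_cancel h'))
    show r (T.tr i x * g) (T.tr i y * g)
    refine h.tr_lt (i := i) ?_
    rw [map_mul, map_mul, T.tr_lo i i le_rfl, T.tr_lo i i le_rfl, ← map_mul, ← map_mul]
    exact h1

theorem TOrd.rev {r : U → U → Prop} (h : TOrd T r) : TOrd T (rev r) where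
  toLOrd := h.toLOrd.rev
  tr i x y hxy hne := h.tr i _ _ hxy hne.symm

theorem TOrd.rV {r : U → U → Prop} (h : TOrd T r) (i : ℕ) : LOrd (rV T r i) where
  irrefl x := h.irrefl _
  trans x y z h1 h2 := h.trans _ _ _ h1 h2
  total x y h1 := h.total _ _ fun h2 => h1 (Subtype.ext h2)
  left g x y h1 := h.left g x y h1

theorem Good.mono {r : U → U → Prop} (hr : TOrd T r) {i j : ℕ} (hij : i ≤ j) {F : U → ZMod 2}
    (h : Good T r i F) : Good T r j F := by
  have hfib : ∀ v, {u | F u ≠ 0 ∧ T.tr j u = v}.Finite := by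
    intro v
    refine (h.2 (T.tr i v)).subset ?_
    rintro u ⟨hu, rfl⟩
    exact ⟨hu, (T.tr_lo i j hij u).symm⟩
  refine ⟨?_, hfib⟩
  intro X hX hne
  -- the least element of the image in `V_i`
  obtain ⟨m, hm, hmin⟩ := h.1 (T.tr i '' X) (by
    rintro _ ⟨x, hx, rfl⟩
    obtain ⟨u, hu, rfl⟩ := hX hx
    exact ⟨u, hu, (T.tr_lo i j hij u).symm⟩) (hne.image _)
  have hfin : {x | x ∈ X ∧ T.tr i x = m}.Finite := by
    refine ((h.2 m).image (T.tr j)).subset ?_
    rintro x ⟨hx, hxm⟩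
    obtain ⟨u, hu, rfl⟩ := hX hx
    refine ⟨u, ⟨hu, ?_⟩, rfl⟩
    rw [← hxm, T.tr_lo i j hij]
  obtain ⟨n, hn, hnin⟩ := WO.of_finite hr.toLOrd hfin {x | x ∈ X ∧ T.tr i x = m} subset_rfl (by
    obtain ⟨x, hx, hxm⟩ := hm
    exact ⟨x, hx, hxm⟩)
  refine ⟨n, hn.1, fun x hx hxn => ?_⟩
  by_cases hxm : T.tr i x = m
  · exact hnin x ⟨hx, hxm⟩ hxn
  · refine hr.tr_lt (i := i) ?_
    rw [hn.2]
    exact hmin _ ⟨x, hx, rfl⟩ hxm

end

end SingerRN
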