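import Mathlib
import Pool.Agent.Lib_MP_394d50_rn.WOB

/-!
# Piece SAC: the action of the group ring on functions (about 120 lines)

All statements are direct computations with `sact s f u = ∑ b ∈ supp s, s_b f (b⁻¹ u)`.
First prove: for every finite set `T ⊇ supp s`, `sact s f u = ∑ b ∈ T, s.coeff b * f (b⁻¹ * u)`
(the other terms vanish). `sact_mul`: by `sact_add_left` and `MonoidAlgebra.induction_linear` (or by
induction on the support) reduce to `s = single b x`, `s' = single c y`; then
`single b x * single c y = single (b * c) (x * y)` and both sides are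
`x * (y * f (c⁻¹ * (b⁻¹ * u)))`. `sact_wo`: the support of `sact s f` is contained in
`⋃ b ∈ supp s, (b * ·) '' supp f`; use `WO.biUnion`, `WO.image` (with `hr.left`), `WO.mono`.
`sact_delta`: `(Pi.single 1 1) (b⁻¹ * u) = 1` iff `b = u`.
-/

namespace SingerRN

section

variable {K V : Type} [DivisionRing K] [Group V]

theorem sac_eq_sum (s : MonoidAlgebra K V) (f : V → K) (u : V) (T : Finset V)
    (hT : s.coeff.support ⊆ T) : sact s f u = ∑ b ∈ T, s.coeff b * f (b⁻¹ * u) := by
  unfold sact
  refine Finset.sum_subset hT fun b _ hb => ?_
  rw [Finsupp.notMem_support_iff.1 hb, zero_mul]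

theorem sact_zero_right (s : MonoidAlgebra K V) : sact s (0 : V → K) = 0 := by
  funext u
  simp [sact]

theorem sact_zero_left (f : V → K) : sact (0 : MonoidAlgebra K V) f = 0 := by
  funext u
  simp [sact]

theorem sact_add_right (s : MonoidAlgebra K V) (f g : V → K) :
    sact s (f + g) = sact s f + sact s g := by
  funext u
  simp only [sact, Pi.add_apply, mul_add, Finset.sum_add_distrib]

theorem sact_sub_right (s : MonoidAlgebra K V) (f g : V → K) :
    sact s (f - g) = sact s f - sact s g := by
  funext u
  simp only [sact, Pi.sub_apply, mul_sub, Finset.sum_sub_distrib]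

theorem sact_sum_right {ι : Type} (s : MonoidAlgebra K V) (I : Finset ι) (f : ι → V → K) :
    sact s (∑ i ∈ I, f i) = ∑ i ∈ I, sact s (f i) := by
  classical
  induction I using Finset.induction_on with
  | empty => rw [Finset.sum_empty, Finset.sum_empty, sact_zero_right]
  | insert i I hi ih => rw [Finset.sum_insert hi, Finset.sum_insert hi, sact_add_right, ih]

theorem sact_add_left (s s' : MonoidAlgebra K V) (f : V → K) :
    sact (s + s') f = sact s f + sact s' f := by
  classical
  funext u
  rw [Pi.add_apply, sac_eq_sum (s + s') f u (s.coeff.support ∪ s'.coeff.support)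
      (by rw [MonoidAlgebra.coeff_add]; exact Finsupp.support_add),
    sac_eq_sum s f u (s.coeff.support ∪ s'.coeff.support) Finset.subset_union_left,
    sac_eq_sum s' f u (s.coeff.support ∪ s'.coeff.support) Finset.subset_union_right,
    ← Finset.sum_add_distrib]
  refine Finset.sum_congr rfl fun b _ => ?_
  rw [MonoidAlgebra.coeff_add, Finsupp.add_apply, add_mul]

theorem sact_single (b : V) (x : K) (f : V → K) (u : V) :
    sact (MonoidAlgebra.single b x) f u = x * f (b⁻¹ * u) := by
  rw [sac_eq_sum _ f u {b} (by
    rw [MonoidAlgebra.coeff_single]; exact Finsupp.support_single_subset), Finset.sum_singleton,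
    MonoidAlgebra.coeff_single, Finsupp.single_eq_same]

theorem sact_one (f : V → K) : sact (1 : MonoidAlgebra K V) f = f := by
  funext u
  rw [MonoidAlgebra.one_def, sact_single, one_mul, inv_one, one_mul]

theorem sact_mul (s s' : MonoidAlgebra K V) (f : V → K) :
    sact (s * s') f = sact s (sact s' f) := by
  induction s using MonoidAlgebra.induction_linear with
  | zero => rw [zero_mul, sact_zero_left, sact_zero_left]
  | add x y hx hy => rw [add_mul, sact_add_left, sact_add_left, hx, hy]
  | single b x =>
    induction s' using MonoidAlgebra.induction_linear with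
    | zero => rw [mul_zero, sact_zero_left, sact_zero_right]
    | add y z hy hz => rw [mul_add, sact_add_left, sact_add_left, sact_add_right, hy, hz]
    | single c y =>
      funext u
      rw [MonoidAlgebra.single_mul_single, sact_single, sact_single, sact_single, mul_inv_rev,
        mul_assoc, mul_assoc]

theorem sact_right (s : MonoidAlgebra K V) (f : V → K) (κ : K) :
    sact s (fun u => f u * κ) = fun u => sact s f u * κ := by
  funext u
  simp only [sact, Finset.sum_mul, mul_assoc]

theorem sact_rtr (s : MonoidAlgebra K V) (f : V → K) (g : V) :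
    sact s (fun u => f (u * g)) = fun u => sact s f (u * g) := by
  funext u
  simp only [sact, mul_assoc]

open scoped Classical in
theorem sact_delta (s : MonoidAlgebra K V) :
    sact s (fun u => if u = 1 then 1 else 0) = fun u => s.coeff u := by
  funext u
  rw [sac_eq_sum s _ u (insert u s.coeff.support) (Finset.subset_insert _ _)]
  rw [Finset.sum_eq_single_of_mem u (Finset.mem_insert_self _ _)]
  · simp
  · intro b _ hb
    have h : b⁻¹ * u ≠ 1 := fun h => hb (inv_mul_eq_one.1 h)
    simp [h]

theorem sact_wo {r : V → V → Prop} (hr : LOrd r) (s : MonoidAlgebra K V) {f : V → K}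
    (hf : WO r (Function.support f)) : WO r (Function.support (sact s f)) := by
  have h1 := WO.biUnion hr s.coeff.support (fun b => (fun u => b * u) '' Function.support f)
    fun b _ => WO.image (r := r) (r' := r) (fun u => b * u)
      (fun x _ y _ h => Or.inr (hr.left b x y h)) hf
  refine h1.mono fun u hu => ?_
  have h2 : sact s f u ≠ 0 := hu
  unfold sact at h2
  obtain ⟨b, hb, h3⟩ := Finset.exists_ne_zero_of_sum_ne_zero h2
  refine Set.mem_iUnion₂.2 ⟨b, hb, b⁻¹ * u, right_ne_zero_of_mul h3, ?_⟩
  exact mul_inv_cancel_left b u

end

end SingerRN
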