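import Mathlib
import Pool.Agent.Lib_MP_394d50_rn.SAC

/-!
# Piece LED: leading exponents (about 130 lines)

`lead_data`. Let `B = supp s` (nonempty, finite). For `v` the elements `b * v`, `b ∈ B`, are
distinct; let `bet v` be the `b ∈ B` with `b * v` least (finite nonempty set of a total order: use
`WO.of_finite` for the set `(fun b => b * v) '' B`), `lam v = bet v * v`. So
`r (lam v) (b * v)` for `b ∈ B`, `b ≠ bet v`.
* Strictly monotone: let `r v w`. With `b = bet w`: `lam w = b * w`, `r (b * v) (b * w)`, and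
  `lam v = b * v` or `r (lam v) (b * v)`; so `r (lam v) (lam w)` by transitivity.
* Surjective: given `w`, let `v` be the greatest of the `b⁻¹ * w`, `b ∈ B` (use `WO.of_finite`
  for `rev r`). For `b ∈ B`: `b⁻¹ * w = v` or `r (b⁻¹ * w) v`, hence `w = b * v` or `r w (b * v)`.
  Equality holds for the `b` with `b⁻¹ * w = v`. So `w = lam v`: if `bet v ≠ b` then
  `r (lam v) (b * v) = r (lam v) w`, and also `w = lam v` or `r w (lam v)`; contradiction in the
  second case by `hr.asymm` (and in the first by `hr.irrefl`), so `bet v = b` and `lam v = b v = w`.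
* Leading term: let `Lead r f v`, `b₀ = bet v`. `sact s f (lam v) = ∑_b s_b f (b⁻¹ * (b₀ * v))`. For
  `b ≠ b₀`, `b ∈ B`: `r (b₀ * v) (b * v)`, hence `r (b⁻¹ * (b₀ * v)) v`, so `f` vanishes there (else
  `r v (b⁻¹ b₀ v)` or equality, impossible). The sum is `s_{b₀} f v ≠ 0`. If
  `sact s f u ≠ 0`, `u ≠ lam v`: some `b ∈ B` has `f (b⁻¹ * u) ≠ 0`, so `b⁻¹ * u = v` or
  `r v (b⁻¹ * u)`, so `u = b * v` or `r (b * v) u`; and `lam v = b * v` or `r (lam v) (b * v)`; so
  `r (lam v) u` (as `u ≠ lam v`).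
`sact_inj`: if `f ≠ 0` it has a leading exponent (`exists_lead`), so `sact s f ≠ 0`.
-/

namespace SingerRN

section

variable {K V : Type} [DivisionRing K] [Group V]

theorem exists_lead {r : V → V → Prop} {f : V → K} (hf : WO r (Function.support f))
    (h0 : f ≠ 0) : ∃ v, Lead r f v := by
  obtain ⟨m, hm, hmin⟩ := hf (Function.support f) subset_rfl (Function.support_nonempty_iff.2 h0)
  exact ⟨m, hm, fun u hu hne => hmin u hu hne⟩

theorem lead_unique {r : V → V → Prop} (hr : LOrd r) {f : V → K} {v w : V} (hv : Lead r f v)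
    (hw : Lead r f w) : v = w := by
  by_contra hne
  exact hr.asymm (hv.2 w hw.1 (Ne.symm hne)) (hw.2 v hv.1 hne)

private theorem led_supp {s : MonoidAlgebra K V} (hs : s ≠ 0) : ∃ b, s.coeff b ≠ 0 := by
  by_contra hcon
  push Not at hcon
  apply hs
  apply MonoidAlgebra.coeff_injective
  rw [MonoidAlgebra.coeff_zero]
  ext b
  exact hcon b

private theorem led_bet {r : V → V → Prop} (hr : LOrd r) {s : MonoidAlgebra K V} (hs : s ≠ 0)
    (v : V) : ∃ b, s.coeff b ≠ 0 ∧ ∀ b', s.coeff b' ≠ 0 → b' ≠ b → r (b * v) (b' * v) := by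
  obtain ⟨b₀, hb₀⟩ := led_supp hs
  have hfin : ((fun b => b * v) '' {b | s.coeff b ≠ 0}).Finite := by
    refine Set.Finite.image _ ?_
    refine (s.coeff.support.finite_toSet).subset fun b hb => ?_
    exact Finsupp.mem_support_iff.2 hb
  obtain ⟨m, ⟨b, hb, rfl⟩, hmin⟩ := WO.of_finite hr hfin _ subset_rfl
    ⟨_, b₀, hb₀, rfl⟩
  refine ⟨b, hb, fun b' hb' hne => ?_⟩
  exact hmin _ ⟨b', hb', rfl⟩ fun h => hne (mul_right_cancel h)

private theorem led_sup {r : V → V → Prop} (hr : LOrd r) {s : MonoidAlgebra K V} (hs : s ≠ 0)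
    (w : V) : ∃ b, s.coeff b ≠ 0 ∧ ∀ b', s.coeff b' ≠ 0 → b' ≠ b → r (b'⁻¹ * w) (b⁻¹ * w) := by
  obtain ⟨b₀, hb₀⟩ := led_supp hs
  have hfin : ((fun b => b⁻¹ * w) '' {b | s.coeff b ≠ 0}).Finite := by
    refine Set.Finite.image _ ?_
    refine (s.coeff.support.finite_toSet).subset fun b hb => ?_
    exact Finsupp.mem_support_iff.2 hb
  obtain ⟨m, ⟨b, hb, rfl⟩, hmin⟩ := WO.of_finite hr.rev hfin _ subset_rfl
    ⟨_, b₀, hb₀, rfl⟩
  refine ⟨b, hb, fun b' hb' hne => ?_⟩
  exact hmin _ ⟨b', hb', rfl⟩ fun h => hne (inv_injective (mul_right_cancel h))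

/-- The leading exponents of `sact s f`. -/
theorem lead_data {r : V → V → Prop} (hr : LOrd r) {s : MonoidAlgebra K V} (hs : s ≠ 0) :
    ∃ (lam bet : V → V), (∀ v, s.coeff (bet v) ≠ 0) ∧ (∀ v, lam v = bet v * v) ∧
      (∀ v b, s.coeff b ≠ 0 → b ≠ bet v → r (lam v) (b * v)) ∧
      (∀ v w, r v w → r (lam v) (lam w)) ∧ Function.Surjective lam ∧
      ∀ (f : V → K) (v : V), Lead r f v →
        Lead r (sact s f) (lam v) ∧ sact s f (lam v) = s.coeff (bet v) * f v := by
  choose bet hb1 hb2 using led_bet hr hs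
  refine ⟨fun v => bet v * v, bet, hb1, fun _ => rfl, hb2, ?_, ?_, ?_⟩
  · intro v w hvw
    have h1 : r (bet w * v) (bet w * w) := hr.left _ _ _ hvw
    by_cases h2 : bet w = bet v
    · show r (bet v * v) (bet w * w)
      rw [← h2]
      exact h1
    · exact hr.trans _ _ _ (hb2 v (bet w) (hb1 w) h2) h1
  · intro w
    obtain ⟨b₁, h1, h2⟩ := led_sup hr hs w
    refine ⟨b₁⁻¹ * w, ?_⟩
    show bet (b₁⁻¹ * w) * (b₁⁻¹ * w) = w
    by_cases h3 : bet (b₁⁻¹ * w) = b₁
    · rw [h3, mul_inv_cancel_left]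
    · exfalso
      have h4 := hb2 (b₁⁻¹ * w) b₁ h1 (Ne.symm h3)
      rw [mul_inv_cancel_left] at h4
      have h5 := hr.left (bet (b₁⁻¹ * w)) _ _ (h2 _ (hb1 (b₁⁻¹ * w)) h3)
      rw [mul_inv_cancel_left] at h5
      exact hr.asymm h4 h5
  · intro f v hv
    have hval : sact s f (bet v * v) = s.coeff (bet v) * f v := by
      unfold sact
      rw [Finset.sum_eq_single (bet v)]
      · rw [inv_mul_cancel_left]
      · intro b hb hne
        have h1 := hb2 v b (Finsupp.mem_support_iff.1 hb) hne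
        have h2 := hr.left b⁻¹ _ _ h1
        rw [inv_mul_cancel_left] at h2
        have h3 : f (b⁻¹ * (bet v * v)) = 0 := by
          by_contra h4
          by_cases h5 : b⁻¹ * (bet v * v) = v
          · rw [h5] at h2
            exact hr.irrefl _ h2
          · exact hr.asymm h2 (hv.2 _ h4 h5)
        rw [h3, mul_zero]
      · intro h
        exact absurd (Finsupp.mem_support_iff.2 (hb1 v)) h
    refine ⟨⟨?_, ?_⟩, hval⟩
    · show sact s f (bet v * v) ≠ 0
      rw [hval]
      exact mul_ne_zero (hb1 v) hv.1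
    · intro u hu hne
      have hne' : u ≠ bet v * v := hne
      have hu' := hu
      unfold sact at hu'
      obtain ⟨b, hb, h3⟩ := Finset.exists_ne_zero_of_sum_ne_zero hu'
      have h4 : f (b⁻¹ * u) ≠ 0 := right_ne_zero_of_mul h3
      have hbs := Finsupp.mem_support_iff.1 hb
      have h5 : u = b * v ∨ r (b * v) u := by
        by_cases h6 : b⁻¹ * u = v
        · left
          rw [← h6, mul_inv_cancel_left]
        · right
          have h7 := hr.left b _ _ (hv.2 _ h4 h6)
          rwa [mul_inv_cancel_left] at h7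
      show r (bet v * v) u
      by_cases h8 : b = bet v
      · rcases h5 with h5 | h5
        · exact absurd (by rw [h5, h8]) hne'
        · rwa [h8] at h5
      · have h9 := hb2 v b hbs h8
        rcases h5 with h5 | h5
        · rw [h5]
          exact h9
        · exact hr.trans _ _ _ h9 h5

theorem sact_inj {r : V → V → Prop} (hr : LOrd r) {s : MonoidAlgebra K V} (hs : s ≠ 0)
    {f : V → K} (hf : WO r (Function.support f)) (h : sact s f = 0) : f = 0 := by
  by_contra h0
  obtain ⟨v, hv⟩ := exists_lead hf h0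
  obtain ⟨lam, bet, _, _, _, _, _, h1⟩ := lead_data hr hs
  exact (h1 f v hv).1.1 (by rw [h]; rfl)

end

end SingerRN
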