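import Mathlib
import Pool.Agent.Lib_MP_394d50_rn.LED

/-!
# Piece SUR: nonzero elements of the group ring act surjectively (about 150 lines)

Let `lam`, `bet` be as in `lead_data`. Call `f` (with well-ordered support) a partial solution if
`(*)  ∀ v, f v ≠ 0 → ∀ e, (g - sact s f) e ≠ 0 → r (lam v) e`.
Let `D f = {v | ∃ w, f w ≠ 0 ∧ (v = w ∨ r v w)}`, and `f ≤ f'` iff `∀ v ∈ D f, f' v = f v`. This is
reflexive and transitive (if `v ∈ D f`, `v ≤ w ∈ supp f`, then `f' w = f w ≠ 0`, so `v ∈ D f'`).
Use Zorn's lemma in the form `exists_maximal_of_chains_bounded` or `zorn_le₀` (for the preorder/set of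
partial solutions; or work with the relation and `exists_maximal_of_chains_bounded`).
* Chains have upper bounds: for a chain `C`, let `f∞ v = f v` if `v ∈ D f` for some `f ∈ C` (well
  defined: of two members of the chain one is `≤` the other), `0` otherwise. Its support is the union
  of the supports. It is well-ordered: let `X` be a nonempty subset of the support, `v ∈ X`, `v` in
  the support of `f ∈ C`; if `w ∈ X`, `r w v`, then `w ∈ D f`, `f∞ w = f w`, so `w ∈ supp f`; the
  least element of `X ∩ supp f` is the least element of `X` (an element of `X` outside `supp f` is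
  not below `v`). `(*)`: let `f∞ v ≠ 0`, `v ∈ supp f`, `f ∈ C`, and let `e` with
  `(g - sact s f∞) e ≠ 0`. If not `r (lam v) e` then `e = lam v` or `r e (lam v)`; for `b ∈ supp s`,
  `lam v = b v` or `r (lam v) (b v)`; so `b⁻¹ e = v` or `r (b⁻¹ e) v`, `b⁻¹ e ∈ D f`,
  `f∞ (b⁻¹ e) = f (b⁻¹ e)`. Hence `(sact s f∞) e = (sact s f) e` and `(*)` for `f` gives
  `r (lam v) e`, contradiction. And `f ≤ f∞` for `f ∈ C`. (The empty chain: `f = 0`.)
* A maximal `f` is a solution: let `h = g - sact s f ≠ 0`; its support is well-ordered (`WO.union`,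
  `sact_wo`); let `e` be its leading exponent, `e = lam v` (surjectivity), `b = bet v`,
  `c = (s.coeff b)⁻¹ * h e`, `δ = (fun u => if u = v then c else 0)`, `f' = f + δ`. If `f w ≠ 0` then
  `r (lam w) e = r (lam w) (lam v)` by `(*)`, so `r w v` (monotonicity and totality). So
  `f v = 0`, `f ≤ f'`, and `sact s δ` has leading exponent `e` with coefficient `h e` by `lead_data`;
  `g - sact s f' = h - sact s δ` has no exponent `≤ e`: if `(h - sact s δ) e' ≠ 0` then
  `e' ≠ e` and (`h e' ≠ 0` or `sact s δ e' ≠ 0`), so `r e e'`. So `f'` is a partial solution (for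
  `w ∈ supp f' ⊆ supp f ∪ {v}`: `lam w = e` or `r (lam w) e`). Maximality: `f' ≤ f`, so (as
  `v ∈ D f'`) `f v = f' v = c ≠ 0`, contradiction.
-/

namespace SingerRN

section

variable {K V : Type} [DivisionRing K] [Group V]

private def surD (r : V → V → Prop) (f : V → K) (v : V) : Prop :=
  ∃ w, f w ≠ 0 ∧ (v = w ∨ r v w)

private def surLe (r : V → V → Prop) (f f' : V → K) : Prop := ∀ v, surD r f v → f' v = f v

private theorem surLe_trans {r : V → V → Prop} {f f' f'' : V → K} (h1 : surLe r f f')
    (h2 : surLe r f' f'') : surLe r f f'' := by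
  intro v hv
  obtain ⟨w, hw, hvw⟩ := hv
  have h3 : f' w = f w := h1 w ⟨w, hw, Or.inl rfl⟩
  have h4 : surD r f' v := ⟨w, by rw [h3]; exact hw, hvw⟩
  rw [h2 v h4, h1 v ⟨w, hw, hvw⟩]

private theorem sur_chain {r : V → V → Prop} (C : Set (V → K))
    (hC : ∀ f ∈ C, ∀ f' ∈ C, surLe r f f' ∨ surLe r f' f) :
    ∃ F : V → K, (∀ f ∈ C, surLe r f F) ∧ (∀ v, F v ≠ 0 → ∃ f ∈ C, f v ≠ 0) := by
  classical
  let F : V → K := fun v => if h : ∃ f ∈ C, surD r f v then h.choose v else 0
  have hF : ∀ f ∈ C, surLe r f F := by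
    intro f hf v hv
    have h : ∃ f ∈ C, surD r f v := ⟨f, hf, hv⟩
    have h1 : F v = h.choose v := dif_pos h
    rw [h1]
    rcases hC f hf _ h.choose_spec.1 with h2 | h2
    · exact h2 v hv
    · exact (h2 v h.choose_spec.2).symm
  refine ⟨F, hF, fun v hv => ?_⟩
  by_cases h : ∃ f ∈ C, surD r f v
  · obtain ⟨f, hf, hD⟩ := h
    exact ⟨f, hf, by rw [← hF f hf v hD]; exact hv⟩
  · exact absurd (dif_neg h) hv

private theorem sur_wo {r : V → V → Prop} (hr : LOrd r) {C : Set (V → K)} {F : V → K}
    (h1 : ∀ f ∈ C, surLe r f F) (h2 : ∀ v, F v ≠ 0 → ∃ f ∈ C, f v ≠ 0)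
    (h3 : ∀ f ∈ C, WO r (Function.support f)) : WO r (Function.support F) := by
  intro X hX hne
  obtain ⟨v, hv⟩ := hne
  obtain ⟨f, hf, hfv⟩ := h2 v (hX hv)
  obtain ⟨m, hm, hmin⟩ := h3 f hf (X ∩ Function.support f) (fun x hx => hx.2) ⟨v, hv, hfv⟩
  refine ⟨m, hm.1, fun x hx hxm => ?_⟩
  by_cases hxf : f x = 0
  · have h4 : ¬ (x = v ∨ r x v) := by
      intro h5
      have h6 : surD r f x := ⟨v, hfv, h5⟩
      exact hX hx (by rw [h1 f hf x h6]; exact hxf)
    have h7 : r v x := by
      rcases hr.total x v (fun h => h4 (Or.inl h)) with h | h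
      · exact absurd (Or.inr h) h4
      · exact h
    by_cases hvm : v = m
    · rw [← hvm]
      exact h7
    · exact hr.trans _ _ _ (hmin v ⟨hv, hfv⟩ hvm) h7
  · exact hmin x ⟨hx, hxf⟩ hxm

private theorem sur_eq {r : V → V → Prop} (hr : LOrd r) {s : MonoidAlgebra K V} {lam : V → V}
    (hlam : ∀ v b, s.coeff b ≠ 0 → lam v = b * v ∨ r (lam v) (b * v)) {f F : V → K}
    (hle : surLe r f F) {v e : V} (hv : f v ≠ 0) (he : ¬ r (lam v) e) :
    sact s F e = sact s f e := by
  unfold sact
  refine Finset.sum_congr rfl fun b hb => ?_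
  have h1 : surD r f (b⁻¹ * e) := by
    refine ⟨v, hv, ?_⟩
    have h2 := hlam v b (Finsupp.mem_support_iff.1 hb)
    have h3 : e = lam v ∨ r e (lam v) := by
      by_cases h : e = lam v
      · exact Or.inl h
      · rcases hr.total e (lam v) h with h | h
        · exact Or.inr h
        · exact absurd h he
    have h4 : e = b * v ∨ r e (b * v) := by
      rcases h3 with h3 | h3 <;> rcases h2 with h2 | h2
      · left
        rw [h3, h2]
      · right
        rw [h3]
        exact h2
      · right
        rw [← h2]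
        exact h3
      · right
        exact hr.trans _ _ _ h3 h2
    rcases h4 with h4 | h4
    · left
      rw [h4, inv_mul_cancel_left]
    · right
      have h5 := hr.left b⁻¹ _ _ h4
      rwa [inv_mul_cancel_left] at h5
  rw [hle _ h1]

end

theorem sact_surj {K V : Type} [DivisionRing K] [Group V] {r : V → V → Prop} (hr : LOrd r)
    {s : MonoidAlgebra K V} (hs : s ≠ 0) (g : V → K) (hg : WO r (Function.support g)) :
    ∃ f : V → K, WO r (Function.support f) ∧ sact s f = g := by
  classical
  obtain ⟨lam, bet, hb1, hb2, hb3, hmono, hsur, hlead⟩ := lead_data hr hs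
  have hlam : ∀ v b, s.coeff b ≠ 0 → lam v = b * v ∨ r (lam v) (b * v) := by
    intro v b hb
    by_cases h : b = bet v
    · left
      rw [h]
      exact hb2 v
    · right
      exact hb3 v b hb h
  let P : Set (V → K) := {f | WO r (Function.support f) ∧
    ∀ v, f v ≠ 0 → ∀ e, (g - sact s f) e ≠ 0 → r (lam v) e}
  obtain ⟨m, hm⟩ := exists_maximal_of_chains_bounded (r := fun a b : P => surLe r a.1 b.1)
    (by
      intro c hc
      obtain ⟨F, hF1, hF2⟩ := sur_chain (r := r) (Subtype.val '' c) (by
        rintro _ ⟨a, ha, rfl⟩ _ ⟨b, hb, rfl⟩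
        by_cases hab : a = b
        · left
          rw [hab]
          exact fun _ _ => rfl
        · exact hc ha hb hab)
      have hFP : F ∈ P := by
        refine ⟨sur_wo hr hF1 hF2 ?_, ?_⟩
        · rintro _ ⟨a, ha, rfl⟩
          exact a.2.1
        · intro v hv e he
          obtain ⟨_, ⟨a, ha, rfl⟩, hav⟩ := hF2 v hv
          by_contra hcon
          have h1 := sur_eq hr hlam (hF1 a.1 ⟨a, ha, rfl⟩) hav hcon
          refine hcon (a.2.2 v hav e ?_)
          rw [Pi.sub_apply, h1] at he
          exact he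
      exact ⟨⟨F, hFP⟩, fun a ha => hF1 a.1 ⟨a, ha, rfl⟩⟩)
    (fun h1 h2 => surLe_trans h1 h2)
  obtain ⟨f, hf1, hf2⟩ := m
  refine ⟨f, hf1, ?_⟩
  by_contra hne
  have hh0 : g - sact s f ≠ 0 := fun h => hne (sub_eq_zero.1 h).symm
  have hhwo : WO r (Function.support (g - sact s f)) := by
    refine WO.mono (WO.union hr hg (sact_wo hr s hf1)) ?_
    intro u hu
    by_contra h1
    simp only [Set.mem_union, Function.mem_support, not_or, not_not] at h1
    exact hu (by rw [Pi.sub_apply, h1.1, h1.2, sub_zero])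
  obtain ⟨e, he⟩ := exists_lead hhwo hh0
  obtain ⟨v, rfl⟩ := hsur e
  -- the exponents of `f` are below `v`
  have hbelow : ∀ w, f w ≠ 0 → r w v := by
    intro w hw
    have h1 : r (lam w) (lam v) := hf2 w hw _ he.1
    by_cases h2 : w = v
    · rw [h2] at h1
      exact absurd h1 (hr.irrefl _)
    · rcases hr.total w v h2 with h3 | h3
      · exact h3
      · exact absurd (hmono _ _ h3) (hr.asymm h1)
  have hfv : f v = 0 := by
    by_contra h
    exact hr.irrefl _ (hbelow v h)
  set c : K := (s.coeff (bet v))⁻¹ * (g - sact s f) (lam v) with hc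
  have hc0 : c ≠ 0 := mul_ne_zero (inv_ne_zero (hb1 v)) he.1
  let δ : V → K := fun u => if u = v then c else 0
  have hδv : δ v = c := if_pos rfl
  have hδ0 : ∀ u, u ≠ v → δ u = 0 := fun u hu => if_neg hu
  have hδlead : Lead r δ v := by
    refine ⟨by rw [hδv]; exact hc0, fun u hu hne => ?_⟩
    exact absurd (hδ0 u hne) hu
  obtain ⟨hl1, hl2⟩ := hlead δ v hδlead
  have hl3 : sact s δ (lam v) = (g - sact s f) (lam v) := by
    rw [hl2, hδv, hc, mul_inv_cancel_left₀ (hb1 v)]
  have hsup' : Function.support (f + δ) ⊆ Function.support f ∪ {v} := by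
    intro u hu
    by_cases h : u = v
    · right
      exact h
    · left
      intro h2
      exact hu (by rw [Pi.add_apply, h2, hδ0 u h, add_zero])
  have hrem : ∀ e', (g - sact s (f + δ)) e' ≠ 0 → r (lam v) e' := by
    intro e' he'
    have h1 : (g - sact s (f + δ)) e' = (g - sact s f) e' - sact s δ e' := by
      rw [sact_add_right]
      simp only [Pi.sub_apply, Pi.add_apply]
      abel
    by_cases h2 : e' = lam v
    · exfalso
      rw [h1, h2, hl3, sub_self] at he'
      exact he' rfl
    · by_cases h3 : (g - sact s f) e' = 0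
      · refine hl1.2 e' ?_ h2
        intro h4
        rw [h1, h3, h4, sub_zero] at he'
        exact he' rfl
      · exact he.2 e' h3 h2
  have hP' : f + δ ∈ P := by
    refine ⟨WO.mono (WO.union hr hf1 (WO.singleton r v)) hsup', ?_⟩
    intro w hw e' he'
    have h1 := hrem e' he'
    rcases hsup' hw with h2 | h2
    · exact hr.trans _ _ _ (hmono _ _ (hbelow w h2)) h1
    · rw [show w = v from h2]
      exact h1
  have hle : surLe r f (f + δ) := by
    intro u hu
    obtain ⟨w, hw, huw⟩ := hu
    have h1 : r u v := by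
      rcases huw with rfl | h
      · exact hbelow _ hw
      · exact hr.trans _ _ _ h (hbelow w hw)
    rw [Pi.add_apply, hδ0 u (hr.ne h1), add_zero]
  have h9 := hm ⟨f + δ, hP'⟩ hle v ⟨v, by
    show (f + δ) v ≠ 0
    rw [Pi.add_apply, hfv, hδv, zero_add]
    exact hc0, Or.inl rfl⟩
  have h10 : f v = (f + δ) v := h9
  rw [Pi.add_apply, hfv, hδv, zero_add] at h10
  exact hc0 h10.symm

end SingerRN
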