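import Mathlib
import Pool.Agent.Lib_MP_394d50_rn.SUR

/-!
# Piece DAC: the action of the division ring (about 150 lines)

`DAct φ r x f g` says `x • f = g`. Let `inj' : s ≠ 0 → WO f → WO f' → sact s f = sact s f' → f = f'`
(`sact_sub_right`, `sact_inj`; the support of `f - f'` is contained in the union).
* `dact_unique`: take `s ≠ 0`, `s'` with `φ s * x = φ s'` (`hφ.den`); `sact s g = sact s' f =
  sact s g'`.
* `dact_intro`: given `s₀ ≠ 0`, `s₀'` with `φ s₀ * x = φ s₀'`, `sact s₀ g = sact s₀' f`, and any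
  `s, s'` with `φ s * x = φ s'`; we may assume `s ≠ 0` (if `s = 0`, `φ s' = 0`, `s' = 0`). `hφ.den` for
  `φ s * (φ s₀)⁻¹` gives `p ≠ 0`, `q` with `φ p * (φ s * (φ s₀)⁻¹) = φ q`, so `φ (p s) = φ (q s₀)`,
  `p s = q s₀`. Then `φ (p s') = φ p φ s x = φ q φ s₀ x = φ (q s₀')`, `p s' = q s₀'`. So
  `sact p (sact s g) = sact q (sact s₀ g) = sact q (sact s₀' f) = sact p (sact s' f)`; cancel `p`.
* `dact_exists`: `s ≠ 0`, `s'` with `φ s * x = φ s'`; `sact_surj` gives `g` with
  `sact s g = sact s' f`; then `dact_intro`.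
* `dact_phi`: if `φ s * φ a = φ s'` then `s' = s * a`, `sact_mul`.
* `dact_mul`: let `φ s * (y * x) = φ s'`. Choose `p ≠ 0`, `q` with `φ p * (φ s * y) = φ q`
  (`hφ.den`). By `h'`: `sact (p s) k = sact q g`. And `φ q * x = φ (p s')`, so by `h`:
  `sact q g = sact (p s') f`. Cancel `p` (if `s`… no condition needed).
* `dact_add`: let `φ s * (x + y) = φ s'`. Choose `p ≠ 0`, `q` with `φ p * (φ s * x) = φ q`; then
  `φ (p s) * y = φ (p s' - q)`. So `sact (p s) g = sact q f`, `sact (p s) g' = sact (p s' - q) f`; add,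
  cancel `p`.
* `dact_add_fun`: immediate (`sact_add_right`). `dact_sum_fun`: induction.
* `dact_inv`: let `φ s * x⁻¹ = φ s'`, so `φ s' * x = φ s`, so `sact s' g = sact s f`. Done.
* `dact_right`, `dact_rtr`: `sact_right`, `sact_rtr`, and the supports: `f u * κ ≠ 0` implies
  `f u ≠ 0`; the support of `u ↦ f (u * g₀⁻¹)` is the image of that of `f` under
  `u ↦ u * g₀` (use `WO.image`).
-/

namespace SingerRN

section

variable {K V D : Type} [DivisionRing K] [Group V] [DivisionRing D]
  {φ : MonoidAlgebra K V →+* D} {r : V → V → Prop}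

private theorem dac_inj (hr : LOrd r) {s : MonoidAlgebra K V} (hs : s ≠ 0) {f f' : V → K}
    (hf : WO r (Function.support f)) (hf' : WO r (Function.support f'))
    (h : sact s f = sact s f') : f = f' := by
  have h1 : sact s (f - f') = 0 := by rw [sact_sub_right, h, sub_self]
  have h2 : WO r (Function.support (f - f')) := by
    refine (WO.union hr hf hf').mono fun x hx => ?_
    by_contra hx'
    rw [Set.mem_union, not_or, Function.mem_support, Function.mem_support, not_not,
      not_not] at hx'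
    apply hx
    rw [Pi.sub_apply, hx'.1, hx'.2, sub_zero]
  exact sub_eq_zero.1 (sact_inj hr hs h2 h1)

private theorem dac_wo_add (hr : LOrd r) {f f' : V → K}
    (hf : WO r (Function.support f)) (hf' : WO r (Function.support f')) :
    WO r (Function.support (f + f')) := by
  refine (WO.union hr hf hf').mono fun x hx => ?_
  by_contra hx'
  rw [Set.mem_union, not_or, Function.mem_support, Function.mem_support, not_not,
    not_not] at hx'
  apply hx
  rw [Pi.add_apply, hx'.1, hx'.2, add_zero]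

private theorem dac_wo_sub (hr : LOrd r) {f f' : V → K}
    (hf : WO r (Function.support f)) (hf' : WO r (Function.support f')) :
    WO r (Function.support (f - f')) := by
  refine (WO.union hr hf hf').mono fun x hx => ?_
  by_contra hx'
  rw [Set.mem_union, not_or, Function.mem_support, Function.mem_support, not_not,
    not_not] at hx'
  apply hx
  rw [Pi.sub_apply, hx'.1, hx'.2, sub_zero]

theorem dact_unique (hφ : OreExt φ) (hr : LOrd r) {x : D} {f g g' : V → K}
    (h : DAct φ r x f g) (h' : DAct φ r x f g') : g = g' := by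
  obtain ⟨s, s', hs, h1⟩ := hφ.den x
  exact dac_inj hr hs h.2.1 h'.2.1 ((h.2.2 s s' h1).trans (h'.2.2 s s' h1).symm)

theorem dact_intro (hφ : OreExt φ) (hr : LOrd r) {x : D} {f g : V → K}
    (hf : WO r (Function.support f)) (hg : WO r (Function.support g))
    {s s' : MonoidAlgebra K V} (hs : s ≠ 0) (h1 : φ s * x = φ s') (h2 : sact s g = sact s' f) :
    DAct φ r x f g := by
  refine ⟨hf, hg, fun t t' ht => ?_⟩
  obtain ⟨p, q, hp, hpq⟩ := hφ.den (φ t * (φ s)⁻¹)
  have hs0 : φ s ≠ 0 := fun h0 => hs (hφ.inj (by rw [h0, map_zero]))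
  have e1 : p * t = q * s := by
    apply hφ.inj
    rw [map_mul, map_mul, ← hpq, mul_assoc, mul_assoc, inv_mul_cancel₀ hs0, mul_one]
  have e2 : p * t' = q * s' := by
    apply hφ.inj
    rw [map_mul, map_mul, ← ht, ← h1, ← mul_assoc, ← mul_assoc, ← map_mul, ← map_mul, e1]
  refine dac_inj hr hp (sact_wo hr t hg) (sact_wo hr t' hf) ?_
  rw [← sact_mul, ← sact_mul, e1, e2, sact_mul, sact_mul, h2]

theorem dact_exists (hφ : OreExt φ) (hr : LOrd r) (x : D) {f : V → K}
    (hf : WO r (Function.support f)) : ∃ g, DAct φ r x f g := by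
  obtain ⟨s, s', hs, h1⟩ := hφ.den x
  obtain ⟨g, hg, h⟩ := sact_surj hr hs (sact s' f) (sact_wo hr s' hf)
  exact ⟨g, dact_intro hφ hr hf hg hs h1 h⟩

theorem dact_phi (hφ : OreExt φ) (hr : LOrd r) (a : MonoidAlgebra K V) {f : V → K}
    (hf : WO r (Function.support f)) : DAct φ r (φ a) f (sact a f) := by
  refine ⟨hf, sact_wo hr a hf, fun s s' h => ?_⟩
  have h1 : s * a = s' := hφ.inj (by rw [map_mul, h])
  rw [← h1, sact_mul]

theorem dact_mul (hφ : OreExt φ) (hr : LOrd r) {x y : D} {f g k : V → K}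
    (h : DAct φ r x f g) (h' : DAct φ r y g k) : DAct φ r (y * x) f k := by
  refine ⟨h.1, h'.2.1, fun s s' hs => ?_⟩
  obtain ⟨p, q, hp, hpq⟩ := hφ.den (φ s * y)
  have e1 : sact (p * s) k = sact q g := h'.2.2 (p * s) q (by rw [map_mul, mul_assoc, hpq])
  have e2 : sact q g = sact (p * s') f := h.2.2 q (p * s') (by
    rw [← hpq, map_mul, ← hs]
    simp only [mul_assoc])
  refine dac_inj hr hp (sact_wo hr s h'.2.1) (sact_wo hr s' h.1) ?_
  rw [← sact_mul, ← sact_mul, e1, e2]

theorem dact_add (hφ : OreExt φ) (hr : LOrd r) {x y : D} {f g g' : V → K}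
    (h : DAct φ r x f g) (h' : DAct φ r y f g') : DAct φ r (x + y) f (g + g') := by
  have hw : WO r (Function.support (g + g')) := dac_wo_add hr h.2.1 h'.2.1
  refine ⟨h.1, hw, fun s s' hs => ?_⟩
  obtain ⟨p, q, hp, hpq⟩ := hφ.den (φ s * x)
  have e1 : sact (p * s) g = sact q f := h.2.2 (p * s) q (by rw [map_mul, mul_assoc, hpq])
  have e2 : sact (p * s) g' = sact (p * s' - q) f := h'.2.2 (p * s) (p * s' - q) (by
    rw [map_mul, map_sub, map_mul, ← hs, ← hpq, mul_add, mul_add, add_sub_cancel_left, mul_assoc])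
  refine dac_inj hr hp (sact_wo hr s hw) (sact_wo hr s' h.1) ?_
  rw [← sact_mul, ← sact_mul, sact_add_right, e1, e2, ← sact_add_left, add_sub_cancel]

theorem dact_add_fun (hr : LOrd r) {x : D} {f g f' g' : V → K}
    (h : DAct φ r x f g) (h' : DAct φ r x f' g') : DAct φ r x (f + f') (g + g') := by
  refine ⟨dac_wo_add hr h.1 h'.1, dac_wo_add hr h.2.1 h'.2.1, fun s s' hs => ?_⟩
  rw [sact_add_right, sact_add_right, h.2.2 s s' hs, h'.2.2 s s' hs]

theorem dact_sub_fun (hr : LOrd r) {x : D} {f g f' g' : V → K}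
    (h : DAct φ r x f g) (h' : DAct φ r x f' g') : DAct φ r x (f - f') (g - g') := by
  refine ⟨dac_wo_sub hr h.1 h'.1, dac_wo_sub hr h.2.1 h'.2.1, fun s s' hs => ?_⟩
  rw [sact_sub_right, sact_sub_right, h.2.2 s s' hs, h'.2.2 s s' hs]

theorem dact_sum_fun (hr : LOrd r) {ι : Type} (I : Finset ι) {x : D} {f g : ι → V → K}
    (h : ∀ i ∈ I, DAct φ r x (f i) (g i)) : DAct φ r x (∑ i ∈ I, f i) (∑ i ∈ I, g i) := by
  classical
  induction I using Finset.induction_on with
  | empty =>
    rw [Finset.sum_empty, Finset.sum_empty]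
    have h0 : WO r (Function.support (0 : V → K)) := by
      refine (WO.empty r).mono fun x hx => ?_
      exact absurd rfl hx
    refine ⟨h0, h0, fun s s' _ => ?_⟩
    rw [sact_zero_right, sact_zero_right]
  | insert i I hi ih =>
    rw [Finset.sum_insert hi, Finset.sum_insert hi]
    exact dact_add_fun hr (h i (Finset.mem_insert_self i I))
      (ih fun j hj => h j (Finset.mem_insert_of_mem hj))

theorem dact_inv {x : D} (hx : x ≠ 0) {f g : V → K} (h : DAct φ r x f g) :
    DAct φ r x⁻¹ g f := by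
  refine ⟨h.2.1, h.1, fun s s' hs => (h.2.2 s' s ?_).symm⟩
  rw [← hs, mul_assoc, inv_mul_cancel₀ hx, mul_one]

theorem dact_right {x : D} {f g : V → K} (h : DAct φ r x f g) (κ : K) :
    DAct φ r x (fun u => f u * κ) (fun u => g u * κ) := by
  refine ⟨h.1.mono fun u hu => ?_, h.2.1.mono fun u hu => ?_, fun s s' hs => ?_⟩
  · intro h0
    apply hu
    show f u * κ = 0
    rw [h0, zero_mul]
  · intro h0
    apply hu
    show g u * κ = 0
    rw [h0, zero_mul]
  · rw [sact_right, sact_right, h.2.2 s s' hs]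

theorem dact_rtr (g₀ : V) {x : D} {f g : V → K} (h : DAct φ (rtr r g₀) x f g) :
    DAct φ r x (fun u => f (u * g₀⁻¹)) (fun u => g (u * g₀⁻¹)) := by
  have key : ∀ f : V → K, WO (rtr r g₀) (Function.support f) →
      WO r (Function.support fun u => f (u * g₀⁻¹)) := by
    intro f hf
    have h1 : WO r ((fun u => u * g₀) '' Function.support f) :=
      WO.image (fun u => u * g₀) (fun x _ y _ hxy => Or.inr hxy) hf
    refine h1.mono fun u hu => ⟨u * g₀⁻¹, hu, ?_⟩
    show u * g₀⁻¹ * g₀ = u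
    rw [inv_mul_cancel_right]
  refine ⟨key f h.1, key g h.2.1, fun s s' hs => ?_⟩
  rw [sact_rtr, sact_rtr, h.2.2 s s' hs]

end

end SingerRN
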