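import Mathlib
import Pool.Agent.Lib_MP_394d50_rn.WOB

/-!
# Piece GRU: the group ring inside `D` (about 120 lines)

`IsGR T t i x`: `x` is a finite sum of distinct `t w`, `w ∈ W_i`.
* `tr_inj_on`: for `y ≠ y'` in `Y` there is `i₀` with `tr i₀ (y'⁻¹ * y) ≠ 1` (`T.sep`), hence
  `tr j y ≠ tr j y'` for all `j ≥ i₀` (`T.tr_lo`). Take the maximum over the pairs.
* `t_indep`: let `∑_{y ∈ Y} t y = 0`, `Y ≠ ∅`. Take `j` from `tr_inj_on`. Then
  `t y = t (y * (tr j y)⁻¹) * t (tr j y)`, `y * (tr j y)⁻¹ ∈ W_j`; the elements `tr j y` are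
  distinct; `h.ind j` with `S = Y.image (tr j)` and `d (tr j y) = t (y * (tr j y)⁻¹)` (zero elsewhere)
  gives `t (y * (tr j y)⁻¹) = 0`, contradiction with `Units.ne_zero`.
* `t_indep_eq`: in characteristic two, `∑_{Y} t + ∑_{Y'} t = ∑_{Y Δ Y'} t`; so `Y Δ Y' = ∅`.
* closure properties: `x + y`: symmetric difference; `t w * x`, `x * t w`: translates of `Y`.
-/

namespace SingerRN

open SingerRA

section

variable {U : Type} [Group U] {T : Tow U} {D : Type} [DivisionRing D] {t : U →* Dˣ}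

/-- `x` is in the group ring of `W_i`. -/
def IsGR (T : Tow U) (t : U →* Dˣ) (i : ℕ) (x : D) : Prop :=
  ∃ Y : Finset U, (∀ w ∈ Y, w ∈ T.W i) ∧ x = ∑ w ∈ Y, ((t w : Dˣ) : D)

theorem tr_inj_on (T : Tow U) (Y : Finset U) :
    ∃ i₀, ∀ j, i₀ ≤ j → ∀ y ∈ Y, ∀ y' ∈ Y, T.tr j y = T.tr j y' → y = y' := by
  classical
  have h1 : ∀ p : U × U, ∃ i, p.1 ≠ p.2 → T.tr i (p.2⁻¹ * p.1) ≠ 1 := by
    intro p
    by_cases h : p.1 = p.2
    · exact ⟨0, fun h' => absurd h h'⟩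
    · have h2 : p.2⁻¹ * p.1 ≠ 1 := fun h3 => h (inv_mul_eq_one.1 h3).symm
      obtain ⟨i, hi⟩ := T.sep _ h2
      exact ⟨i, fun _ => hi⟩
  choose f hf using h1
  refine ⟨(Y ×ˢ Y).sup f, fun j hj y hy y' hy' h => ?_⟩
  by_contra hne
  have h2 : f (y, y') ≤ j := (Finset.le_sup (Finset.mk_mem_product hy hy')).trans hj
  apply hf (y, y') hne
  have h3 : T.tr (f (y, y')) y = T.tr (f (y, y')) y' := by
    rw [← T.tr_lo _ j h2 y, h, T.tr_lo _ j h2 y']
  rw [map_mul, map_inv]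
  show (T.tr (f (y, y')) y')⁻¹ * T.tr (f (y, y')) y = 1
  rw [h3, inv_mul_cancel]

theorem t_indep (h : DSys T t) (Y : Finset U) (h0 : ∑ y ∈ Y, ((t y : Dˣ) : D) = 0) : Y = ∅ := by
  classical
  by_contra hne
  obtain ⟨y₀, hy₀⟩ := Finset.nonempty_iff_ne_empty.2 hne
  obtain ⟨j, hj⟩ := tr_inj_on T Y
  have hj' := hj j le_rfl
  have hW : ∀ y : U, y * (T.tr j y)⁻¹ ∈ T.W j := fun y =>
    W_of_tr T (v := T.tr j y) ⟨y, rfl⟩ rfl
  have h1 := h.ind j (Y.image (T.tr j))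
    (fun v => ∑ y ∈ Y with T.tr j y = v, ((t (y * (T.tr j y)⁻¹) : Dˣ) : D))
    (fun v hv => by
      obtain ⟨y, _, rfl⟩ := Finset.mem_image.1 hv
      exact ⟨y, rfl⟩)
    (fun v _ => sum_mem fun y _ => mem_Di_of_mem T t (hW y))
    (by
      rw [← h0, ← Finset.sum_fiberwise_of_maps_to (s := Y) (t := Y.image (T.tr j))
        (g := T.tr j) (fun y hy => Finset.mem_image_of_mem _ hy)
        (fun y => ((t y : Dˣ) : D))]
      refine Finset.sum_congr rfl fun v _ => ?_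
      rw [Finset.sum_mul]
      refine Finset.sum_congr rfl fun y hy => ?_
      rw [← (Finset.mem_filter.1 hy).2, ← Units.val_mul, ← map_mul, inv_mul_cancel_right])
    (T.tr j y₀) (Finset.mem_image_of_mem _ hy₀)
  have h2 : (Y.filter fun y => T.tr j y = T.tr j y₀) = {y₀} := by
    ext y
    rw [Finset.mem_filter, Finset.mem_singleton]
    constructor
    · rintro ⟨hy, hy'⟩
      exact hj' y hy y₀ hy₀ hy'
    · rintro rfl
      exact ⟨hy₀, rfl⟩
  rw [h2, Finset.sum_singleton] at h1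
  exact Units.ne_zero _ h1

variable [Algebra (ZMod 2) D]

theorem gru_two (x : D) : x + x = 0 := by
  have h1 : (2 : D) = 0 := by
    have h2 : algebraMap (ZMod 2) D 2 = 0 := by
      have h3 : (2 : ZMod 2) = 0 := rfl
      rw [h3, map_zero]
    rw [← h2, map_ofNat]
  rw [← two_mul, h1, zero_mul]

omit [Group U] in
theorem gru_symm [DecidableEq U] (f : U → D) (Y Y' : Finset U) :
    ∑ y ∈ symmDiff Y Y', f y = ∑ y ∈ Y, f y + ∑ y ∈ Y', f y := by
  rw [← Finset.sum_inter_add_sum_sdiff Y Y' f, ← Finset.sum_inter_add_sum_sdiff Y' Y f,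
    Finset.inter_comm Y' Y]
  have h1 : symmDiff Y Y' = (Y \ Y') ∪ (Y' \ Y) := rfl
  have h2 : Disjoint (Y \ Y') (Y' \ Y) := disjoint_sdiff_sdiff
  rw [h1, Finset.sum_union h2]
  have h3 := gru_two (∑ y ∈ Y ∩ Y', f y)
  calc ∑ y ∈ Y \ Y', f y + ∑ y ∈ Y' \ Y, f y
      = (∑ y ∈ Y ∩ Y', f y + ∑ y ∈ Y ∩ Y', f y) +
        (∑ y ∈ Y \ Y', f y + ∑ y ∈ Y' \ Y, f y) := by rw [h3, zero_add]
    _ = _ := by abel

theorem t_indep_eq (h : DSys T t) (Y Y' : Finset U)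
    (h0 : ∑ y ∈ Y, ((t y : Dˣ) : D) = ∑ y ∈ Y', ((t y : Dˣ) : D)) : Y = Y' := by
  classical
  have h1 := gru_symm (fun y : U => ((t y : Dˣ) : D)) Y Y'
  rw [h0, gru_two] at h1
  have h2 := t_indep h _ h1
  exact symmDiff_eq_bot.1 h2

omit [Algebra (ZMod 2) D] in
theorem isGR_zero (i : ℕ) : IsGR T t i (0 : D) :=
  ⟨∅, fun w hw => absurd hw (Finset.notMem_empty w), by rw [Finset.sum_empty]⟩

omit [Algebra (ZMod 2) D] in
theorem isGR_t {i : ℕ} {w : U} (hw : w ∈ T.W i) : IsGR T t i ((t w : Dˣ) : D) :=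
  ⟨{w}, fun v hv => by rwa [Finset.mem_singleton.1 hv], by rw [Finset.sum_singleton]⟩

theorem isGR_add {i : ℕ} {x y : D} (hx : IsGR T t i x) (hy : IsGR T t i y) :
    IsGR T t i (x + y) := by
  classical
  obtain ⟨Y, hY, rfl⟩ := hx
  obtain ⟨Y', hY', rfl⟩ := hy
  refine ⟨symmDiff Y Y', fun w hw => ?_, (gru_symm _ Y Y').symm⟩
  rcases Finset.mem_symmDiff.1 hw with ⟨hw, _⟩ | ⟨hw, _⟩
  · exact hY w hw
  · exact hY' w hw

omit [Algebra (ZMod 2) D] in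
theorem isGR_left {i : ℕ} {x : D} (hx : IsGR T t i x) {w : U} (hw : w ∈ T.W i) :
    IsGR T t i (((t w : Dˣ) : D) * x) := by
  obtain ⟨Y, hY, rfl⟩ := hx
  refine ⟨Y.map (mulLeftEmbedding w), fun v hv => ?_, ?_⟩
  · obtain ⟨y, hy, rfl⟩ := Finset.mem_map.1 hv
    exact (T.W i).mul_mem hw (hY y hy)
  · rw [Finset.sum_map, Finset.mul_sum]
    refine Finset.sum_congr rfl fun y _ => ?_
    rw [mulLeftEmbedding_apply, map_mul, Units.val_mul]

omit [Algebra (ZMod 2) D] in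
theorem isGR_right {i : ℕ} {x : D} (hx : IsGR T t i x) {w : U} (hw : w ∈ T.W i) :
    IsGR T t i (x * ((t w : Dˣ) : D)) := by
  obtain ⟨Y, hY, rfl⟩ := hx
  refine ⟨Y.map (mulRightEmbedding w), fun v hv => ?_, ?_⟩
  · obtain ⟨y, hy, rfl⟩ := Finset.mem_map.1 hv
    exact (T.W i).mul_mem (hY y hy) hw
  · rw [Finset.sum_map, Finset.sum_mul]
    refine Finset.sum_congr rfl fun y _ => ?_
    rw [mulRightEmbedding_apply, map_mul, Units.val_mul]

end

end SingerRN
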