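import Mathlib
import Pool.Agent.Lib_MP_394d50_rn.WOB

/-!
# Piece KPA: homogeneous components (about 150 lines)

`kp T t i F v = ∑_{u : F u ≠ 0, tr i u = v} t u`; the values of `F` are `0` or `1` and `D` has
characteristic two (`Algebra (ZMod 2) D`; see `SingerRA.two_eq_zero_alg`).
* `kp_eq_sum`: `finsum_eq_sum_of_support_subset`.
* `kp_add`: with a common finite set `Y` (the union of the two fibres) both sides are sums over `Y`;
  compare the terms by the cases `F u, G u = 0, 1` (`1 + 1 = 0` in `ZMod 2`, `t u + t u = 0` in `D`).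
* `kp_delta`: at most one nonzero term.
* `kp_left`: the fibre of `fun u => F (g⁻¹ * u)` over `v` is `g * (fibre of F over (tr i g)⁻¹ * v)`;
  reindex. `kp_right`: the fibre of `fun u => F (u * g⁻¹)` over `v` is
  `(fibre of F over v * (tr i g)⁻¹) * g`.
* `kp_star`: `star (t u) = t u⁻¹`; the fibre of `fun u => F u⁻¹` over `v⁻¹` is the inverse of the
  fibre of `F` over `v`.
* `good_left`: the image in `V_i` of the support of `fun u => F (g⁻¹ * u)` is `tr i g * (image)`;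
  `WO.image` with `hr.left`; the fibres are translates.
* `good_right`: if the image `I` of the support of `F` is well-ordered by `rtr r g` then
  `I * tr i g` is well-ordered by `r`: `WO.image (fun x => x * tr i g)`: for `x, y ∈ I ⊆ V_i` with
  `r (x * g) (y * g)`: either `x = y` or `tr i (x * g) = x * tr i g ≠ y * tr i g` and `hr.tr` applies.
* `good_add`: the support of `F + G` is contained in the union.
* `good_of_finite`: `WO.of_finite`.
-/

namespace SingerRN

open SingerRA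

section

variable {U : Type} [Group U] {T : Tow U} {D : Type} [DivisionRing D] {t : U →* Dˣ}

open scoped Classical in
private theorem kpa_sum {i : ℕ} {F : U → ZMod 2} {v : U} {Y : Finset U}
    (hY : ∀ u, F u ≠ 0 → T.tr i u = v → u ∈ Y) :
    kp T t i F v = ∑ u ∈ Y, if F u ≠ 0 ∧ T.tr i u = v then ((t u : Dˣ) : D) else 0 := by
  unfold kp
  refine finsum_eq_sum_of_support_subset _ fun u hu => ?_
  by_contra h
  exact hu (if_neg fun h' => h (hY u h'.1 h'.2))

private theorem kpa_zmod (a : ZMod 2) : a = 0 ∨ a = 1 := by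
  revert a
  decide

theorem kp_eq_sum {i : ℕ} {F : U → ZMod 2} {v : U} (hF : {u | F u ≠ 0 ∧ T.tr i u = v}.Finite) :
    kp T t i F v = ∑ u ∈ hF.toFinset, ((t u : Dˣ) : D) := by
  classical
  rw [kpa_sum (Y := hF.toFinset) fun u h1 h2 => hF.mem_toFinset.mpr ⟨h1, h2⟩]
  exact Finset.sum_congr rfl fun u hu => if_pos (hF.mem_toFinset.mp hu)

theorem kp_add [Algebra (ZMod 2) D] {i : ℕ} {F G : U → ZMod 2} {v : U}
    (hF : {u | F u ≠ 0 ∧ T.tr i u = v}.Finite) (hG : {u | G u ≠ 0 ∧ T.tr i u = v}.Finite) :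
    kp T t i (F + G) v = kp T t i F v + kp T t i G v := by
  classical
  rw [kpa_sum (F := F + G) (Y := hF.toFinset ∪ hG.toFinset) (fun u h1 h2 => ?_),
    kpa_sum (F := F) (Y := hF.toFinset ∪ hG.toFinset) (fun u h1 h2 =>
      Finset.mem_union_left _ (hF.mem_toFinset.mpr ⟨h1, h2⟩)),
    kpa_sum (F := G) (Y := hF.toFinset ∪ hG.toFinset) (fun u h1 h2 =>
      Finset.mem_union_right _ (hG.mem_toFinset.mpr ⟨h1, h2⟩)), ← Finset.sum_add_distrib]
  · refine Finset.sum_congr rfl fun u _ => ?_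
    by_cases hc : T.tr i u = v
    · rcases kpa_zmod (F u) with h1 | h1 <;> rcases kpa_zmod (G u) with h2 | h2
      · simp [Pi.add_apply, h1, h2]
      · simp [Pi.add_apply, h1, h2, hc]
      · simp [Pi.add_apply, h1, h2, hc]
      · have h3 : (F + G) u = 0 := by
          rw [Pi.add_apply, h1, h2]
          rfl
        have h4 : ((t u : Dˣ) : D) + ((t u : Dˣ) : D) = 0 := by
          rw [← two_mul, two_eq_zero_alg D, zero_mul]
        rw [if_neg (fun h => h.1 h3), if_pos ⟨by rw [h1]; exact one_ne_zero, hc⟩,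
          if_pos ⟨by rw [h2]; exact one_ne_zero, hc⟩, h4]
    · rw [if_neg (fun h => hc h.2), if_neg (fun h => hc h.2), if_neg (fun h => hc h.2), add_zero]
  · by_cases h3 : F u = 0
    · refine Finset.mem_union_right _ (hG.mem_toFinset.mpr ⟨fun h4 => h1 ?_, h2⟩)
      rw [Pi.add_apply, h3, h4, add_zero]
    · exact Finset.mem_union_left _ (hF.mem_toFinset.mpr ⟨h3, h2⟩)

open scoped Classical in
theorem kp_delta (i : ℕ) (u v : U) :
    kp T t i (fun x => if x = u then 1 else 0) v = if T.tr i u = v then ((t u : Dˣ) : D) else 0 := by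
  rw [kpa_sum (Y := {u}) (fun x h1 _ => ?_), Finset.sum_singleton]
  · by_cases h : T.tr i u = v
    · rw [if_pos ⟨by rw [if_pos rfl]; exact one_ne_zero, h⟩, if_pos h]
    · rw [if_neg (fun h' => h h'.2), if_neg h]
  · rw [Finset.mem_singleton]
    by_contra h
    exact h1 (if_neg h)

theorem kp_left (i : ℕ) {F : U → ZMod 2} (g v : U)
    (hF : {u | F u ≠ 0 ∧ T.tr i u = (T.tr i g)⁻¹ * v}.Finite) :
    kp T t i (fun u => F (g⁻¹ * u)) v = ((t g : Dˣ) : D) * kp T t i F ((T.tr i g)⁻¹ * v) := by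
  classical
  unfold kp
  rw [mul_finsum, ← finsum_comp_equiv (Equiv.mulLeft g)]
  refine finsum_congr fun u => ?_
  rw [Equiv.coe_mulLeft]
  beta_reduce
  rw [inv_mul_cancel_left, mul_ite, mul_zero, map_mul, map_mul, Units.val_mul]
  by_cases h : F u ≠ 0 ∧ T.tr i u = (T.tr i g)⁻¹ * v
  · rw [if_pos h, if_pos ⟨h.1, by rw [h.2, mul_inv_cancel_left]⟩]
  · rw [if_neg h, if_neg fun h' => h ⟨h'.1, by rw [← h'.2, inv_mul_cancel_left]⟩]

theorem kp_right (i : ℕ) {F : U → ZMod 2} (g v : U)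
    (hF : {u | F u ≠ 0 ∧ T.tr i u = v * (T.tr i g)⁻¹}.Finite) :
    kp T t i (fun u => F (u * g⁻¹)) v = kp T t i F (v * (T.tr i g)⁻¹) * ((t g : Dˣ) : D) := by
  classical
  unfold kp
  rw [finsum_mul, ← finsum_comp_equiv (Equiv.mulRight g)]
  refine finsum_congr fun u => ?_
  rw [Equiv.coe_mulRight]
  beta_reduce
  rw [mul_inv_cancel_right, ite_mul, zero_mul, map_mul, map_mul,
    Units.val_mul]
  by_cases h : F u ≠ 0 ∧ T.tr i u = v * (T.tr i g)⁻¹
  · rw [if_pos h, if_pos ⟨h.1, by rw [h.2, inv_mul_cancel_right]⟩]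
  · rw [if_neg h, if_neg fun h' => h ⟨h'.1, by rw [← h'.2, mul_inv_cancel_right]⟩]

theorem kp_star [StarRing D] (hs : ∀ u, star ((t u : Dˣ) : D) = (((t u)⁻¹ : Dˣ) : D)) (i : ℕ)
    {F : U → ZMod 2} (v : U) (hF : {u | F u ≠ 0 ∧ T.tr i u = v}.Finite) :
    star (kp T t i F v) = kp T t i (fun u => F u⁻¹) v⁻¹ := by
  classical
  rw [kp_eq_sum hF, star_sum, kpa_sum (Y := hF.toFinset.image fun u => u⁻¹) (fun u h1 h2 => ?_),
    Finset.sum_image (fun x _ y _ e => inv_injective e)]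
  · refine Finset.sum_congr rfl fun u hu => ?_
    have h3 := hF.mem_toFinset.mp hu
    rw [inv_inv, if_pos ⟨h3.1, by rw [map_inv, h3.2]⟩, hs, map_inv]
  · refine Finset.mem_image.mpr ⟨u⁻¹, hF.mem_toFinset.mpr ⟨h1, ?_⟩, inv_inv u⟩
    rw [map_inv, h2, inv_inv]

theorem good_zero (T : Tow U) (r : U → U → Prop) (i : ℕ) : Good T r i 0 := by
  refine ⟨?_, fun v => ?_⟩
  · refine (WO.empty r).mono ?_
    rintro _ ⟨u, hu, _⟩
    exact (hu rfl).elim
  · refine Set.finite_empty.subset ?_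
    rintro u ⟨hu, _⟩
    exact (hu rfl).elim

theorem good_of_finite {r : U → U → Prop} (hr : TOrd T r) (i : ℕ) {F : U → ZMod 2}
    (hF : (Function.support F).Finite) : Good T r i F := by
  exact ⟨WO.of_finite hr.toLOrd (hF.image _), fun v => hF.subset fun u hu => hu.1⟩

theorem good_add {r : U → U → Prop} (hr : TOrd T r) {i : ℕ} {F G : U → ZMod 2}
    (hF : Good T r i F) (hG : Good T r i G) : Good T r i (F + G) := by
  have h0 : ∀ u, (F + G) u ≠ 0 → F u ≠ 0 ∨ G u ≠ 0 := by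
    intro u hu
    by_contra h
    rw [not_or, not_not, not_not] at h
    exact hu (by rw [Pi.add_apply, h.1, h.2, add_zero])
  refine ⟨(WO.union hr.toLOrd hF.1 hG.1).mono ?_, fun v => ((hF.2 v).union (hG.2 v)).subset ?_⟩
  · rintro _ ⟨u, hu, rfl⟩
    rcases h0 u hu with h | h
    · exact Or.inl ⟨u, h, rfl⟩
    · exact Or.inr ⟨u, h, rfl⟩
  · rintro u ⟨hu, hv⟩
    rcases h0 u hu with h | h
    · exact Or.inl ⟨h, hv⟩
    · exact Or.inr ⟨h, hv⟩

theorem good_left {r : U → U → Prop} (hr : TOrd T r) {i : ℕ} {F : U → ZMod 2}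
    (hF : Good T r i F) (g : U) : Good T r i (fun u => F (g⁻¹ * u)) := by
  refine ⟨(WO.image (r' := r) (fun x => T.tr i g * x) (fun x _ y _ h =>
    Or.inr (hr.left _ _ _ h)) hF.1).mono ?_, fun v =>
      ((hF.2 ((T.tr i g)⁻¹ * v)).image fun x => g * x).subset ?_⟩
  · rintro _ ⟨u, hu, rfl⟩
    refine ⟨T.tr i (g⁻¹ * u), ⟨g⁻¹ * u, hu, rfl⟩, ?_⟩
    show T.tr i g * T.tr i (g⁻¹ * u) = T.tr i u
    rw [← map_mul, mul_inv_cancel_left]
  · rintro u ⟨hu, hv⟩
    refine ⟨g⁻¹ * u, ⟨hu, ?_⟩, mul_inv_cancel_left g u⟩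
    rw [map_mul, map_inv, hv]

theorem good_right {r : U → U → Prop} (hr : TOrd T r) {i : ℕ} {F : U → ZMod 2} (g : U)
    (hF : Good T (rtr r g) i F) : Good T r i (fun u => F (u * g⁻¹)) := by
  refine ⟨(WO.image (r' := r) (fun x => x * T.tr i g) ?_ hF.1).mono ?_, fun v =>
      ((hF.2 (v * (T.tr i g)⁻¹)).image fun x => x * g).subset ?_⟩
  · rintro _ ⟨u, _, rfl⟩ _ ⟨u', _, rfl⟩ h
    have h1 : ∀ w, T.tr i (T.tr i w * g) = T.tr i w * T.tr i g := by
      intro w
      rw [map_mul, T.tr_hi i i le_rfl w]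
    by_cases h2 : T.tr i u * T.tr i g = T.tr i u' * T.tr i g
    · exact Or.inl h2
    · have h3 := hr.tr i _ _ h (by rw [h1, h1]; exact h2)
      rw [h1, h1] at h3
      exact Or.inr h3
  · rintro _ ⟨u, hu, rfl⟩
    refine ⟨T.tr i (u * g⁻¹), ⟨u * g⁻¹, hu, rfl⟩, ?_⟩
    show T.tr i (u * g⁻¹) * T.tr i g = T.tr i u
    rw [← map_mul, inv_mul_cancel_right]
  · rintro u ⟨hu, hv⟩
    refine ⟨u * g⁻¹, ⟨hu, ?_⟩, inv_mul_cancel_right u g⟩
    rw [map_mul, map_inv, hv]

end

end SingerRN
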