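import Mathlib
import Pool.Agent.Lib_MP_394d50_rn.KPA
import Pool.Agent.Lib_MP_394d50_rn.GRU
import Pool.Agent.Lib_MP_394d50_rn.DAC

/-!
# Piece EEA: functions on `U` and functions `V_i → D_i` (about 180 lines)

`(EE T t i F v : D) = kp T t i F v * (t v)⁻¹`.
* `EE_val`: by definition. `EE_add`: `kp_add` (the fibres are finite by `Good`).
* `EE_zero`, `EE_delta`: `kp_delta`; for `u ∈ V_i`: `tr i u = u`, value `t u * (t u)⁻¹ = 1` at `u`.
* `EE_wo`: the support of `EE T t i F` is contained in `{v | ∃ u, F u ≠ 0 ∧ tr i u = v}` (if there is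
  no such `u` then `kp = 0`), the preimage in `V_i` of the image `I` of the support of `F`; a subset
  `X` of it has the image `(↑) '' X ⊆ I`, take its least element.
* `EE_gr`: `kp * (t v)⁻¹ = ∑ t (u * v⁻¹)` over the fibre, `u * v⁻¹ ∈ W_i` (`W_of_tr`); the map
  `u ↦ u * v⁻¹` is injective.
* `EE_inj`: let `H = F + G` (so `H u ≠ 0` iff `F u ≠ G u`), `EE H = EE F + EE G = 0`
  (characteristic two). If `H u ≠ 0`, with `v = tr i u ∈ V_i`: `kp H v = 0`, but it is the sum of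
  the `t u'` over a finite nonempty set (`kp_eq_sum`), contradiction with `t_indep`.
* `EE_surj`: choose for each `v : T.V i` a finite set `Y v ⊆ W_i` with `f v = ∑_{w ∈ Y v} t w`, and
  `Y v = ∅` if `f v = 0` (`t_indep` gives this automatically, or choose it so). Let
  `F u = 1` if `u * (tr i u)⁻¹ ∈ Y (tr i u)`, else `0`. The fibre over `v` is `{w * v | w ∈ Y v}`.
  The image of the support in `V_i` is contained in the support of `f` (as a subset of `U`).
* `dact_t`: `t g = phiI (single (tr i g) (t w))`, `w = g * (tr i g)⁻¹ ∈ W_i`. `dact_phi` and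
  `sact_single`: value at `v`: `t w * (EE F ((tr i g)⁻¹ * v))`. Compare with `kp_left`:
  `t g * kp F ((tr i g)⁻¹ v) * (t v)⁻¹` and `t g = t w * t (tr i g)`, and `t (tr i g)` commutes with
  `EE F (..) ∈ D_i` (`Di_comm`). The function on the right has well-ordered support (`EE_wo`,
  `good_left`); the functions are equal.
* `EE_right`: from `kp_right`: `kp F (v (tr i g)⁻¹) * t g * (t v)⁻¹`; with `w = g * (tr i g)⁻¹`:
  `t g = t (tr i g) t w = t w t (tr i g)`; `(t (v (tr i g)⁻¹))⁻¹ = t (tr i g) (t v)⁻¹`; `t w`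
  commutes with `t` of elements of `V_i`.
-/

namespace SingerRN

open SingerRA

section

variable {U : Type} [Group U] {T : Tow U} {D : Type} [DivisionRing D] {t : U →* Dˣ}

theorem EEA_comm {i : ℕ} {v w : U} (hv : v ∈ T.V i) (hw : w ∈ T.W i) : v * w = w * v := by
  obtain ⟨u, rfl⟩ := hv
  exact T.comm i u w hw

theorem EEA_W (T : Tow U) (i : ℕ) (g : U) : g * (T.tr i g)⁻¹ ∈ T.W i :=
  W_of_tr T ⟨g, rfl⟩ rfl

theorem EEA_kp_ne {i : ℕ} {F : U → ZMod 2} {v : U} (h : kp T t i F v ≠ 0) :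
    ∃ u, F u ≠ 0 ∧ T.tr i u = v := by
  classical
  by_contra hno
  push Not at hno
  apply h
  unfold kp
  have h0 : (fun u : U => if F u ≠ 0 ∧ T.tr i u = v then ((t u : Dˣ) : D) else 0) = fun _ => 0 := by
    funext u
    rw [if_neg]
    rintro ⟨h1, h2⟩
    exact hno u h1 h2
  rw [h0, finsum_zero]

theorem EEA_coe (i : ℕ) (F : U → ZMod 2) (v : T.V i) :
    ((EE T t i F v : Di T t i) : D) = kp T t i F v * (((t (v : U))⁻¹ : Dˣ) : D) := rfl

theorem EEA_sum {i : ℕ} {F : U → ZMod 2} (v : T.V i)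
    (hF : {u | F u ≠ 0 ∧ T.tr i u = v}.Finite) :
    ((EE T t i F v : Di T t i) : D) =
      ∑ u ∈ hF.toFinset, ((t (u * (v : U)⁻¹) : Dˣ) : D) := by
  rw [EEA_coe, kp_eq_sum hF, Finset.sum_mul]
  refine Finset.sum_congr rfl fun u _ => ?_
  rw [map_mul, map_inv, Units.val_mul]

theorem EE_val (i : ℕ) (F : U → ZMod 2) (v : T.V i) :
    ((EE T t i F v : Di T t i) : D) * ((t (v : U) : Dˣ) : D) = kp T t i F v := by
  rw [EEA_coe, Units.inv_mul_cancel_right]

theorem EE_wo {r : U → U → Prop} {i : ℕ} {F : U → ZMod 2} (hF : Good T r i F) :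
    WO (rV T r i) (Function.support (EE T t i F)) := by
  intro X hX hne
  have hsub : (fun v : T.V i => (v : U)) '' X ⊆ T.tr i '' Function.support F := by
    rintro _ ⟨v, hv, rfl⟩
    have h1 : EE T t i F v ≠ 0 := hX hv
    have h2 : kp T t i F v ≠ 0 := by
      intro h0
      apply h1
      apply Subtype.ext
      rw [EEA_coe, h0, zero_mul]
      rfl
    obtain ⟨u, hu, hu'⟩ := EEA_kp_ne h2
    exact ⟨u, hu, hu'⟩
  obtain ⟨_, ⟨m, hm, rfl⟩, hmin⟩ := hF.1 _ hsub (hne.image _)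
  refine ⟨m, hm, fun x hx hxm => hmin x ⟨x, hx, rfl⟩ fun h => hxm (Subtype.ext h)⟩

theorem EE_zero (i : ℕ) : EE T t i (0 : U → ZMod 2) = 0 := by
  funext v
  apply Subtype.ext
  have h : kp T t i (0 : U → ZMod 2) v = 0 := by
    by_contra h
    obtain ⟨u, hu, -⟩ := EEA_kp_ne h
    exact hu rfl
  rw [EEA_coe, h, zero_mul]
  rfl

open scoped Classical in
theorem EE_delta (i : ℕ) (u : T.V i) :
    EE T t i (fun x => if x = (u : U) then 1 else 0) = fun v => if v = u then 1 else 0 := by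
  funext v
  apply Subtype.ext
  rw [EEA_coe, kp_delta, tr_V T u.2]
  by_cases h : v = u
  · subst h
    rw [if_pos rfl, if_pos rfl, Units.mul_inv]
    rfl
  · rw [if_neg h, if_neg (fun h' => h (Subtype.ext h'.symm)), zero_mul]
    rfl

open scoped Classical in
/-- A point of `U`. -/
theorem EE_point (i : ℕ) (u : U) (v : T.V i) :
    ((EE T t i (fun x => if x = u then 1 else 0) v : Di T t i) : D) =
      if (v : U) = T.tr i u then ((t (u * (T.tr i u)⁻¹) : Dˣ) : D) else 0 := by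
  rw [EEA_coe, kp_delta]
  by_cases h : (v : U) = T.tr i u
  · rw [if_pos h.symm, if_pos h, h, map_mul, map_inv, Units.val_mul]
  · rw [if_neg h, if_neg (fun h' => h h'.symm), zero_mul]

theorem EE_gr {i : ℕ} {r : U → U → Prop} {F : U → ZMod 2} (hF : Good T r i F) (v : T.V i) :
    IsGR T t i ((EE T t i F v : Di T t i) : D) := by
  classical
  refine ⟨(hF.2 v).toFinset.image (fun u => u * (v : U)⁻¹), ?_, ?_⟩
  · intro w hw
    rw [Finset.mem_image] at hw
    obtain ⟨u, hu, rfl⟩ := hw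
    rw [Set.Finite.mem_toFinset] at hu
    exact W_of_tr T v.2 hu.2
  · rw [EEA_sum v (hF.2 v), Finset.sum_image]
    intro a _ b _ hab
    exact mul_right_cancel hab

theorem EE_right {i : ℕ} {r : U → U → Prop} {F : U → ZMod 2} (hF : Good T r i F) (g : U)
    (v : T.V i) : ((EE T t i (fun u => F (u * g⁻¹)) v : Di T t i) : D) =
      ((EE T t i F (v * ⟨T.tr i g, ⟨g, rfl⟩⟩⁻¹) : Di T t i) : D) *
        ((t (g * (T.tr i g)⁻¹) : Dˣ) : D) := by
  rw [EEA_coe, EEA_coe, kp_right i g v (hF.2 _), mul_assoc, mul_assoc]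
  change kp T t i F ((v : U) * (T.tr i g)⁻¹) * _ = kp T t i F ((v : U) * (T.tr i g)⁻¹) *
    ((((t ((v : U) * (T.tr i g)⁻¹))⁻¹ : Dˣ) : D) * ((t (g * (T.tr i g)⁻¹) : Dˣ) : D))
  congr 1
  rw [← Units.val_mul, ← Units.val_mul, ← map_inv, ← map_inv, ← map_mul, ← map_mul]
  congr 2
  have h1 : (v : U)⁻¹ * (g * (T.tr i g)⁻¹) = (g * (T.tr i g)⁻¹) * (v : U)⁻¹ :=
    EEA_comm (inv_mem v.2) (EEA_W T i g)
  have h2 : T.tr i g * (g * (T.tr i g)⁻¹) = (g * (T.tr i g)⁻¹) * T.tr i g :=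
    EEA_comm ⟨g, rfl⟩ (EEA_W T i g)
  rw [mul_inv_rev, inv_inv, mul_assoc, h1, ← mul_assoc, h2, inv_mul_cancel_right]

variable [Algebra (ZMod 2) D]

theorem EE_add {r : U → U → Prop} {i : ℕ} {F G : U → ZMod 2} (hF : Good T r i F)
    (hG : Good T r i G) : EE T t i (F + G) = EE T t i F + EE T t i G := by
  funext v
  apply Subtype.ext
  rw [EEA_coe, kp_add (hF.2 v) (hG.2 v), add_mul]
  rfl

theorem EE_inj (h : DSys T t) {r : U → U → Prop} (hr : TOrd T r) {i : ℕ} {F G : U → ZMod 2}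
    (hF : Good T r i F) (hG : Good T r i G) (he : EE T t i F = EE T t i G) : F = G := by
  have key : ∀ v : T.V i, (hF.2 v).toFinset = (hG.2 v).toFinset := by
    intro v
    refine t_indep_eq h _ _ ?_
    rw [← kp_eq_sum (hF.2 v), ← kp_eq_sum (hG.2 v), ← EE_val, ← EE_val, he]
  have h2 : ∀ a : ZMod 2, a = 0 ∨ a = 1 := by decide
  funext u
  have h3 := key ⟨T.tr i u, ⟨u, rfl⟩⟩
  have h4 : (F u ≠ 0) ↔ (G u ≠ 0) := by
    have h5 := Finset.ext_iff.1 h3 u
    rw [Set.Finite.mem_toFinset, Set.Finite.mem_toFinset] at h5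
    constructor
    · intro h6
      exact (h5.1 ⟨h6, rfl⟩).1
    · intro h6
      exact (h5.2 ⟨h6, rfl⟩).1
  rcases h2 (F u) with h6 | h6 <;> rcases h2 (G u) with h7 | h7
  · rw [h6, h7]
  · exact absurd h6 (h4.2 (by rw [h7]; decide))
  · exact absurd h7 (h4.1 (by rw [h6]; decide))
  · rw [h6, h7]

theorem EE_surj (h : DSys T t) {r : U → U → Prop} (hr : TOrd T r) {i : ℕ}
    {f : T.V i → Di T t i} (hf : WO (rV T r i) (Function.support f))
    (hgr : ∀ v, IsGR T t i ((f v : Di T t i) : D)) : ∃ F, Good T r i F ∧ EE T t i F = f := by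
  classical
  choose Y hYW hY using hgr
  set F : U → ZMod 2 := fun u => if u * (T.tr i u)⁻¹ ∈ Y ⟨T.tr i u, ⟨u, rfl⟩⟩ then 1 else 0 with hFd
  have hF1 : ∀ u, F u ≠ 0 ↔ u * (T.tr i u)⁻¹ ∈ Y ⟨T.tr i u, ⟨u, rfl⟩⟩ := by
    intro u
    by_cases h1 : u * (T.tr i u)⁻¹ ∈ Y ⟨T.tr i u, ⟨u, rfl⟩⟩
    · rw [hFd]
      simp only [if_pos h1]
      exact ⟨fun _ => h1, fun _ => one_ne_zero⟩
    · rw [hFd]
      simp only [if_neg h1]
      exact ⟨fun h2 => absurd rfl h2, fun h2 => absurd h2 h1⟩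
  have hfib : ∀ v : T.V i, {u | F u ≠ 0 ∧ T.tr i u = v} =
      ((Y v).image fun w => w * (v : U) : Finset U) := by
    intro v
    ext u
    rw [Set.mem_ofPred_eq, hF1, Finset.mem_coe, Finset.mem_image]
    constructor
    · rintro ⟨h1, h2⟩
      have h3 : (⟨T.tr i u, ⟨u, rfl⟩⟩ : T.V i) = v := Subtype.ext h2
      rw [h3, h2] at h1
      exact ⟨_, h1, inv_mul_cancel_right _ _⟩
    · rintro ⟨w, hw, rfl⟩
      have h4 : T.tr i w = 1 := hYW v w hw
      have h2 : T.tr i (w * (v : U)) = v := by rw [map_mul, h4, one_mul, tr_V T v.2]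
      have h3 : (⟨T.tr i (w * (v : U)), ⟨w * (v : U), rfl⟩⟩ : T.V i) = v := Subtype.ext h2
      refine ⟨?_, h2⟩
      rw [h3, h2, mul_inv_cancel_right]
      exact hw
  have hfin : ∀ v : T.V i, {u | F u ≠ 0 ∧ T.tr i u = v}.Finite := by
    intro v
    rw [hfib v]
    exact Finset.finite_toSet _
  have hgood : Good T r i F := by
    refine ⟨?_, ?_⟩
    · have h1 : T.tr i '' Function.support F ⊆ (fun v : T.V i => (v : U)) '' Function.support f := by
        rintro _ ⟨u, hu, rfl⟩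
        refine ⟨⟨T.tr i u, ⟨u, rfl⟩⟩, ?_, rfl⟩
        intro h0
        have h2 : ∑ w ∈ Y ⟨T.tr i u, ⟨u, rfl⟩⟩, ((t w : Dˣ) : D) = 0 := by
          rw [← hY, h0]
          rfl
        have h3 := t_indep h _ h2
        have h4 := (hF1 u).1 hu
        rw [h3] at h4
        exact Finset.notMem_empty _ h4
      refine (WO.image (r' := r) (fun v : T.V i => (v : U)) ?_ hf).mono h1
      intro x _ y _ hxy
      exact Or.inr hxy
    · intro v
      by_cases hv : v ∈ T.V i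
      · exact hfin ⟨v, hv⟩
      · refine Set.Finite.subset Set.finite_empty ?_
        rintro u ⟨-, h2⟩
        exact absurd ⟨u, h2⟩ hv
  refine ⟨F, hgood, ?_⟩
  funext v
  apply Subtype.ext
  rw [EEA_sum v (hfin v), hY v]
  have h1 : (hfin v).toFinset = (Y v).image fun w => w * (v : U) := by
    apply Finset.coe_injective
    rw [Set.Finite.coe_toFinset, hfib v]
  rw [h1, Finset.sum_image]
  · refine Finset.sum_congr rfl fun w _ => ?_
    rw [mul_inv_cancel_right]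
  · intro a _ b _ hab
    exact mul_right_cancel hab

theorem dact_t {i : ℕ} (hφ : OreExt (phiI T t i)) {r : U → U → Prop} (hr : TOrd T r) (g : U)
    {F : U → ZMod 2} (hF : Good T r i F) : DAct (phiI T t i) (rV T r i) ((t g : Dˣ) : D)
      (EE T t i F) (EE T t i (fun u => F (g⁻¹ * u))) := by
  have h1 := dact_phi hφ (hr.rV i) (MonoidAlgebra.single (⟨T.tr i g, ⟨g, rfl⟩⟩ : T.V i)
    (⟨((t (g * (T.tr i g)⁻¹) : Dˣ) : D), mem_Di_of_mem T t (EEA_W T i g)⟩ : Di T t i))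
    (EE_wo (t := t) hF)
  rw [phiI_single] at h1
  have h2 : ((t (g * (T.tr i g)⁻¹) : Dˣ) : D) * ((t (T.tr i g) : Dˣ) : D) = ((t g : Dˣ) : D) := by
    rw [← Units.val_mul, ← map_mul, inv_mul_cancel_right]
  simp only [h2] at h1
  convert h1 using 1
  funext v
  rw [sact_single]
  apply Subtype.ext
  have h3 : ((EE T t i F ((⟨T.tr i g, ⟨g, rfl⟩⟩ : T.V i)⁻¹ * v) : Di T t i) : D) *
      ((t (T.tr i g) : Dˣ) : D) = ((t (T.tr i g) : Dˣ) : D) *
      ((EE T t i F ((⟨T.tr i g, ⟨g, rfl⟩⟩ : T.V i)⁻¹ * v) : Di T t i) : D) :=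
    Di_comm T t ⟨g, rfl⟩ (Subtype.property _)
  have h4 := EE_val (t := t) i F ((⟨T.tr i g, ⟨g, rfl⟩⟩ : T.V i)⁻¹ * v)
  change ((EE T t i F ((⟨T.tr i g, ⟨g, rfl⟩⟩ : T.V i)⁻¹ * v) : Di T t i) : D) *
    ((t ((T.tr i g)⁻¹ * (v : U)) : Dˣ) : D) = kp T t i F ((T.tr i g)⁻¹ * v) at h4
  rw [EEA_coe, kp_left i g v (hF.2 _), ← h4, ← h2]
  change _ = ((t (g * (T.tr i g)⁻¹) : Dˣ) : D) *
    ((EE T t i F ((⟨T.tr i g, ⟨g, rfl⟩⟩ : T.V i)⁻¹ * v) : Di T t i) : D)
  generalize ((EE T t i F ((⟨T.tr i g, ⟨g, rfl⟩⟩ : T.V i)⁻¹ * v) : Di T t i) : D) = E at *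
  have h5 : ((t (T.tr i g) : Dˣ) : D) * (((t ((T.tr i g)⁻¹ * (v : U)) : Dˣ) : D) *
      (((t (v : U))⁻¹ : Dˣ) : D)) = 1 := by
    rw [← Units.val_mul, ← Units.val_mul, ← map_inv t (v : U), ← map_mul t, ← map_mul t]
    have h6 : T.tr i g * ((T.tr i g)⁻¹ * (v : U) * (v : U)⁻¹) = 1 := by group
    rw [h6, map_one, Units.val_one]
  calc ((t (g * (T.tr i g)⁻¹) : Dˣ) : D) * ((t (T.tr i g) : Dˣ) : D) *
        (E * ((t ((T.tr i g)⁻¹ * (v : U)) : Dˣ) : D)) * (((t (v : U))⁻¹ : Dˣ) : D)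
      = ((t (g * (T.tr i g)⁻¹) : Dˣ) : D) * (((t (T.tr i g) : Dˣ) : D) * E) *
        (((t ((T.tr i g)⁻¹ * (v : U)) : Dˣ) : D) * (((t (v : U))⁻¹ : Dˣ) : D)) := by
        simp only [mul_assoc]
    _ = ((t (g * (T.tr i g)⁻¹) : Dˣ) : D) * E * (((t (T.tr i g) : Dˣ) : D) *
        (((t ((T.tr i g)⁻¹ * (v : U)) : Dˣ) : D) * (((t (v : U))⁻¹ : Dˣ) : D))) := by
        rw [← h3]
        simp only [mul_assoc]
    _ = ((t (g * (T.tr i g)⁻¹) : Dˣ) : D) * E := by rw [h5, mul_one]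

end

end SingerRN
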