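import Mathlib
import Pool.Agent.Lib_MP_394d50_rn.EEA

/-!
# Piece PRB: the elements with the property `Pr` form a ring (about 80 lines)

* `pr_mono`: immediate. `pr_zero`: `G = 0` (`good_zero`, `EE_zero`): `DAct φ r 0 f 0` because
  `φ s * 0 = φ s'` gives `s' = 0` (injectivity) and `sact_zero_left`, `sact_zero_right`; the support of
  `EE T t i₂ F` is well-ordered by `EE_wo` and `Good.mono`.
* `pr_t`: `G = fun u => F (g⁻¹ * u)`, `good_left`, `dact_t` (with `Good.mono` for the levels `i₂`).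
* `pr_add`: `G + G'`, `dact_add`, `EE_add`. `pr_mul`: `dact_mul`. Use the maximum of the levels.
* `pr_neg`: `-x = x` in characteristic two.
-/

namespace SingerRN

open SingerRA

section

variable {U : Type} [Group U] {T : Tow U} {D : Type} [DivisionRing D] [Algebra (ZMod 2) D]
  {t : U →* Dˣ}

omit [Algebra (ZMod 2) D] in
theorem pr_mono {i j : ℕ} (hij : i ≤ j) {x : D} (h : Pr T t i x) : Pr T t j x :=
  fun i₁ hi r hr F hF => h i₁ (hij.trans hi) r hr F hF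

omit [Algebra (ZMod 2) D] in
theorem pr_zero (hO : ∀ i, OreExt (phiI T t i)) : Pr T t 0 (0 : D) := by
  intro i₁ _ r hr F hF
  refine ⟨0, good_zero T r i₁, fun i₂ h2 => ⟨EE_wo (hF.mono hr h2), EE_wo (good_zero T r i₂),
    fun s s' hs => ?_⟩⟩
  have h0 : s' = 0 := (hO i₂).inj (by rw [← hs, mul_zero, map_zero])
  rw [EE_zero, h0, sact_zero_left, sact_zero_right]

theorem pr_t (hO : ∀ i, OreExt (phiI T t i)) (g : U) : Pr T t 0 ((t g : Dˣ) : D) := by
  intro i₁ _ r hr F hF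
  exact ⟨fun u => F (g⁻¹ * u), good_left hr hF g,
    fun i₂ h2 => dact_t (hO i₂) hr g (hF.mono hr h2)⟩

theorem pr_add (hO : ∀ i, OreExt (phiI T t i)) {i : ℕ} {x y : D} (hx : Pr T t i x)
    (hy : Pr T t i y) : Pr T t i (x + y) := by
  intro i₁ hi r hr F hF
  obtain ⟨G, hG, hG'⟩ := hx i₁ hi r hr F hF
  obtain ⟨K, hK, hK'⟩ := hy i₁ hi r hr F hF
  refine ⟨G + K, good_add hr hG hK, fun i₂ h2 => ?_⟩
  rw [EE_add (hG.mono hr h2) (hK.mono hr h2)]
  exact dact_add (hO i₂) (hr.rV i₂) (hG' i₂ h2) (hK' i₂ h2)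

omit [Algebra (ZMod 2) D] in
theorem pr_mul (hO : ∀ i, OreExt (phiI T t i)) {i : ℕ} {x y : D} (hx : Pr T t i x)
    (hy : Pr T t i y) : Pr T t i (x * y) := by
  intro i₁ hi r hr F hF
  obtain ⟨G, hG, hG'⟩ := hy i₁ hi r hr F hF
  obtain ⟨K, hK, hK'⟩ := hx i₁ hi r hr G hG
  exact ⟨K, hK, fun i₂ h2 => dact_mul (hO i₂) (hr.rV i₂) (hG' i₂ h2) (hK' i₂ h2)⟩

theorem pr_neg {i : ℕ} {x : D} (hx : Pr T t i x) : Pr T t i (-x) := by
  have h2 : x + x = 0 := by
    have h3 : ((1 : ZMod 2) + 1) • x = 0 := by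
      have h4 : (1 : ZMod 2) + 1 = 0 := by decide
      rw [h4, zero_smul]
    rwa [add_smul, one_smul] at h3
  rw [neg_eq_of_add_eq_zero_left h2]
  exact hx

end

end SingerRN
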