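import Mathlib
import Pool.Agent.Lib_MP_394d50_rn.DAC

/-!
# Piece LCF: finitely many leading coefficients, for all orders at once (about 70 lines)

Let `φ s * x = φ s'`, `s ≠ 0`; `s' ≠ 0` as `x ≠ 0`. Let `C` be the finite set of the
`(s.coeff b)⁻¹ * s'.coeff b'`, `b ∈ supp s`, `b' ∈ supp s'`. Let `r` be a left order, `lam, bet` and
`lam', bet'` the data of `lead_data` for `s` and `s'`. For `v` choose `v'` with `lam v' = lam' v`
(surjectivity) and `c = (s.coeff (bet v'))⁻¹ * s'.coeff (bet' v) ∈ C`, `c ≠ 0`. Let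
`DAct φ r x f g`, `Lead r f v`. Then `sact s g = sact s' f` has leading exponent `lam' v` and
coefficient `s'.coeff (bet' v) * f v` there. `g ≠ 0` (else `sact s' f = 0`), so `g` has a leading
exponent `v''` (`exists_lead`), `sact s g` has leading exponent `lam v''`, so
`lam v'' = lam' v = lam v'` (`lead_unique`) and `v'' = v'` (strict monotonicity and totality), and
`s.coeff (bet v') * g v' = s'.coeff (bet' v) * f v`.
-/

namespace SingerRN

theorem dact_lead {K V D : Type} [DivisionRing K] [Group V] [DivisionRing D]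
    {φ : MonoidAlgebra K V →+* D} (hφ : OreExt φ) {x : D} (hx : x ≠ 0) :
    ∃ C : Finset K, ∀ r : V → V → Prop, LOrd r → ∀ v : V, ∃ (v' : V) (c : K), c ∈ C ∧ c ≠ 0 ∧
      ∀ f g : V → K, DAct φ r x f g → Lead r f v → Lead r g v' ∧ g v' = c * f v := by
  classical
  obtain ⟨s, s', hs, hss⟩ := hφ.den x
  have hs' : s' ≠ 0 := by
    rintro rfl
    rw [map_zero] at hss
    rcases mul_eq_zero.1 hss with h | h
    · exact hs (hφ.inj (by rw [h, map_zero]))
    · exact hx h
  refine ⟨(s.coeff.support ×ˢ s'.coeff.support).image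
    (fun q => (s.coeff q.1)⁻¹ * s'.coeff q.2), fun r hr v => ?_⟩
  obtain ⟨lam, bet, hb, -, -, hmono, hsurj, hlead⟩ := lead_data hr hs
  obtain ⟨lam', bet', hb', -, -, -, -, hlead'⟩ := lead_data hr hs'
  obtain ⟨v', hv'⟩ := hsurj (lam' v)
  refine ⟨v', (s.coeff (bet v'))⁻¹ * s'.coeff (bet' v), ?_,
    mul_ne_zero (inv_ne_zero (hb v')) (hb' v), ?_⟩
  · refine Finset.mem_image.2 ⟨(bet v', bet' v), Finset.mem_product.2 ⟨?_, ?_⟩, rfl⟩
    · exact Finsupp.mem_support_iff.2 (hb v')
    · exact Finsupp.mem_support_iff.2 (hb' v)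
  · intro f g h hL
    have heq : sact s g = sact s' f := h.2.2 s s' hss
    obtain ⟨hL1, hL2⟩ := hlead' f v hL
    have hg : g ≠ 0 := by
      rintro rfl
      rw [sact_zero_right] at heq
      apply hL1.1
      rw [← heq]
      rfl
    obtain ⟨v'', hv''⟩ := exists_lead h.2.1 hg
    obtain ⟨hM1, hM2⟩ := hlead g v'' hv''
    rw [← heq] at hL1 hL2
    have h1 : lam v'' = lam' v := lead_unique hr hM1 hL1
    have h2 : v'' = v' := by
      by_contra hne
      rcases hr.total _ _ hne with h3 | h3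
      · have h4 := hmono _ _ h3
        rw [h1, hv'] at h4
        exact hr.irrefl _ h4
      · have h4 := hmono _ _ h3
        rw [h1, hv'] at h4
        exact hr.irrefl _ h4
    subst h2
    refine ⟨hv'', ?_⟩
    rw [h1] at hM2
    rw [hM2] at hL2
    rw [mul_assoc, ← hL2, inv_mul_cancel_left₀ (hb v'')]

end SingerRN
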