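import Mathlib
import Pool.Agent.Lib_MP_394d50_rn.LCF
import Pool.Agent.Lib_MP_394d50_rn.EEA

/-!
# Piece PRL: at a deeper level all leading coefficients are group elements (about 180 lines)

`dact_lead (hO i) hx` gives a finite set `C ⊆ D_i` containing the leading coefficients of `x` at the
level `i` for all orders. For `c ∈ C` with `IsGR T t i c` choose a finite set `Y c ⊆ W_i` with
`c = ∑_{w ∈ Y c} t w`. Let `j ≥ i` be such that `tr j₁` is injective on every such `Y c` for all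
`j₁ ≥ j` (`tr_inj_on`, finitely many `c`).
Let `i₂ ≥ j`, `r` a compatible order, `v : T.V i₂`. Let `δ_v = fun x => if x = v then 1 else 0` on
`U` (finite support, `good_of_finite`). `hp i le_rfl r hr δ_v` gives `G`, `Good T r i G`, with
`x • EE i₁ δ_v = EE i₁ G` for all `i₁ ≥ i`.
Level `i`: let `v₁ = tr i v`, `w = v * v₁⁻¹ ∈ W_i`. `EE i δ_v` is the function with the only value
`t w` at `v₁` (`EE_point`), so `Lead (EE i δ_v) v₁`. By `dact_lead` for the order `rV T r i` and `v₁`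
there are `v'` and `c ∈ C` with `Lead (EE i G) v'` and `EE i G v' = c * t w`. As `EE i G v'` is in
the group ring (`EE_gr`), so is `c = EE i G v' * t w⁻¹` (`isGR_right`). With `Y = Y c`:
`kp i G v' = c * t w * t v' = ∑_{y ∈ Y} t (y * w * v')`, and `kp i G v'` is the sum of the `t u` over the
fibre `A = {u | G u ≠ 0, tr i u = v'}` (`kp_eq_sum`). By `t_indep_eq`, `A = {y * w * v' | y ∈ Y}`. For
`u, u' ∈ A` with `tr i₂ u = tr i₂ u'`: `tr i₂ y = tr i₂ y'`, `y = y'`, `u = u'`. So `tr i₂` is injective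
on the finite nonempty set `A` (nonempty as `EE i G v' ≠ 0`).
Level `i₂`: let `u₀ ∈ A` be such that `tr i₂ u₀` is the least element of `tr i₂ '' A`
(`WO.of_finite`). If `G u ≠ 0` and `u ≠ u₀` then `r (tr i₂ u₀) (tr i₂ u)`: if `tr i u = v'` because
`u ∈ A` and `tr i₂` is injective on `A`; otherwise `tr i u ≠ v'` is in the support of `EE i G`…
(careful: use instead the well-ordered image `tr i '' supp G`: its elements `z` with `EE i G z ≠ 0`;
for `u` with `G u ≠ 0` the value `EE i G (tr i u) ≠ 0` by `t_indep`, since the fibre is nonempty)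
so `r v' (tr i u)` by `Lead`, that is `r (tr i (tr i₂ u₀)) (tr i (tr i₂ u))`, and
`TOrd.tr_lt` gives `r (tr i₂ u₀) (tr i₂ u)`.
So `EE i₂ G` has leading exponent `tr i₂ u₀ =: v''`, its fibre there is `{u₀}`, and
`EE i₂ G v'' = t (u₀ * (tr i₂ u₀)⁻¹)`, an element `t w₀` with `w₀ ∈ W_{i₂}`. Also `EE i₂ δ_v` is the
function `δ` with value `1` at `v` (`EE_delta`), `Lead δ v`. Now apply `dact_lead (hO i₂) hx` (the
statement for the level `i₂`, order `rV T r i₂`, exponent `v`): there are `v'`, `c` such that for all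
`f, g` with `x • f = g`, `Lead f v`: `Lead g v'`, `g v' = c * f v`. For `f = EE i₂ δ_v`: `v' = v''`
(`lead_unique`) and `c = t w₀`.
-/

namespace SingerRN

open SingerRA

section

variable {U : Type} [Group U] {T : Tow U} {D : Type} [DivisionRing D] {t : U →* Dˣ}

/-- If the component of degree `v` is nonzero then there is a point of the support over `v`. -/
private theorem prl_exists {i : ℕ} {r : U → U → Prop} {F : U → ZMod 2} (hF : Good T r i F)
    {v : T.V i} (h0 : EE T t i F v ≠ 0) : ∃ u, F u ≠ 0 ∧ T.tr i u = v := by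
  by_contra hcon
  push Not at hcon
  apply h0
  have h1 : (hF.2 (v : U)).toFinset = ∅ := by
    rw [Set.Finite.toFinset_eq_empty, Set.eq_empty_iff_forall_notMem]
    rintro u ⟨hu, hu'⟩
    exact hcon u hu hu'
  have h2 : kp T t i F (v : U) = 0 := by
    rw [kp_eq_sum (hF.2 (v : U)), h1, Finset.sum_empty]
  refine Subtype.ext ?_
  show kp T t i F v * (((t (v : U))⁻¹ : Dˣ) : D) = ((0 : Di T t i) : D)
  rw [h2, zero_mul]
  rfl

/-- If there is a point of the support over `v` then the component of degree `v` is nonzero. -/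
private theorem prl_ne_zero (h : DSys T t) {i : ℕ} {r : U → U → Prop} {F : U → ZMod 2}
    (hF : Good T r i F) {v : T.V i} {u : U} (hu : F u ≠ 0) (hv : T.tr i u = v) :
    EE T t i F v ≠ 0 := by
  intro h0
  have h1 : kp T t i F (v : U) = 0 := by
    rw [← EE_val, h0]
    show ((0 : Di T t i) : D) * _ = 0
    rw [ZeroMemClass.coe_zero, zero_mul]
  rw [kp_eq_sum (hF.2 (v : U))] at h1
  have h2 := t_indep h _ h1
  have h3 : u ∈ (hF.2 (v : U)).toFinset := (Set.Finite.mem_toFinset _).2 ⟨hu, hv⟩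
  rw [h2] at h3
  exact Finset.notMem_empty _ h3

end

theorem pr_lead {U : Type} [Group U] {T : Tow U} {D : Type} [DivisionRing D]
    [Algebra (ZMod 2) D] {t : U →* Dˣ} (h : DSys T t) (hO : ∀ i, OreExt (phiI T t i)) {x : D}
    (hx : x ≠ 0) {i : ℕ} (hp : Pr T t i x) :
    ∃ j, i ≤ j ∧ ∀ i₂, j ≤ i₂ → ∀ r, TOrd T r → ∀ v : T.V i₂, ∃ (v' : T.V i₂) (w : U),
      w ∈ T.W i₂ ∧ ∀ f g, DAct (phiI T t i₂) (rV T r i₂) x f g → Lead (rV T r i₂) f v →
        Lead (rV T r i₂) g v' ∧ ((g v' : Di T t i₂) : D) = ((t w : Dˣ) : D) * ((f v : Di T t i₂) : D) := by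
  classical
  obtain ⟨C, hC⟩ := dact_lead (hO i) hx
  have hY : ∀ c : Di T t i, ∃ Y : Finset U, IsGR T t i (c : D) →
      (∀ w ∈ Y, w ∈ T.W i) ∧ (c : D) = ∑ w ∈ Y, ((t w : Dˣ) : D) := by
    intro c
    by_cases hc : IsGR T t i (c : D)
    · obtain ⟨Y, hY⟩ := hc
      exact ⟨Y, fun _ => hY⟩
    · exact ⟨∅, fun hc' => absurd hc' hc⟩
  choose Y hY using hY
  have hJ := fun c : Di T t i => tr_inj_on T (Y c)
  choose J hJ using hJ
  refine ⟨max i (C.sup J), le_max_left _ _, fun i₂ hi₂ r hr v => ?_⟩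
  have hii : i ≤ i₂ := (le_max_left _ _).trans hi₂
  have hJC : ∀ c ∈ C, J c ≤ i₂ := fun c hc =>
    (Finset.le_sup (f := J) hc).trans ((le_max_right _ _).trans hi₂)
  -- the point `v`
  obtain ⟨δ, hδ⟩ : ∃ δ : U → ZMod 2, δ = fun x => if x = (v : U) then 1 else 0 := ⟨_, rfl⟩
  have hδg : Good T r i δ := by
    refine good_of_finite hr i ((Set.finite_singleton (v : U)).subset ?_)
    intro u hu
    by_contra hne
    apply hu
    rw [hδ]
    exact if_neg hne
  obtain ⟨G, hG, hact⟩ := hp i le_rfl r hr δ hδg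
  -- level `i`
  obtain ⟨v₁, hv₁⟩ : ∃ v₁ : T.V i, v₁ = ⟨T.tr i (v : U), ⟨_, rfl⟩⟩ := ⟨_, rfl⟩
  have hval : ∀ z : T.V i, ((EE T t i δ z : Di T t i) : D) =
      if (z : U) = T.tr i (v : U) then ((t ((v : U) * (T.tr i (v : U))⁻¹) : Dˣ) : D) else 0 := by
    intro z
    rw [hδ]
    exact EE_point i (v : U) z
  have hval₁ : ((EE T t i δ v₁ : Di T t i) : D) = ((t ((v : U) * (T.tr i (v : U))⁻¹) : Dˣ) : D) := by
    rw [hval, if_pos (by rw [hv₁])]
  have hL₁ : Lead (rV T r i) (EE T t i δ) v₁ := by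
    refine ⟨fun h0 => ?_, fun z hz hzne => ?_⟩
    · rw [h0, ZeroMemClass.coe_zero] at hval₁
      exact Units.ne_zero _ hval₁.symm
    · exfalso
      apply hz
      refine Subtype.ext ?_
      rw [hval, if_neg (fun h0 => hzne (Subtype.ext (by rw [h0, hv₁])))]
      rfl
  obtain ⟨v', c, hcC, hc0, hlead⟩ := hC (rV T r i) (hr.rV i) v₁
  obtain ⟨hL', hc⟩ := hlead _ _ (hact i le_rfl) hL₁
  obtain ⟨w, hw⟩ : ∃ w : U, w = (v : U) * (T.tr i (v : U))⁻¹ := ⟨_, rfl⟩
  have hwW : w ∈ T.W i := by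
    rw [hw]
    exact W_of_tr T ⟨_, rfl⟩ rfl
  have hc' : ((EE T t i G v' : Di T t i) : D) = (c : D) * ((t w : Dˣ) : D) := by
    rw [hc, hw, ← hval₁]
    rfl
  have hcgr : IsGR T t i (c : D) := by
    have h1 := isGR_right (EE_gr (t := t) hG v') ((T.W i).inv_mem hwW)
    rw [hc', mul_assoc, ← Units.val_mul, ← map_mul, mul_inv_cancel, map_one, Units.val_one,
      mul_one] at h1
    exact h1
  obtain ⟨hYW, hYc⟩ := hY c hcgr
  -- the fibre
  have hfib : (hG.2 (v' : U)).toFinset = (Y c).map (mulRightEmbedding (w * v')) := by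
    refine t_indep_eq h _ _ ?_
    rw [← kp_eq_sum (hG.2 (v' : U)), ← EE_val, hc', hYc, Finset.sum_map, mul_assoc,
      Finset.sum_mul]
    refine Finset.sum_congr rfl fun y _ => ?_
    rw [mulRightEmbedding_apply, map_mul, map_mul, Units.val_mul, Units.val_mul]
  have hinj : ∀ u u', G u ≠ 0 → T.tr i u = v' → G u' ≠ 0 → T.tr i u' = v' →
      T.tr i₂ u = T.tr i₂ u' → u = u' := by
    intro u u' hu hu1 hu' hu1' he
    have h1 : u ∈ (hG.2 (v' : U)).toFinset := (Set.Finite.mem_toFinset _).2 ⟨hu, hu1⟩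
    have h2 : u' ∈ (hG.2 (v' : U)).toFinset := (Set.Finite.mem_toFinset _).2 ⟨hu', hu1'⟩
    rw [hfib] at h1 h2
    obtain ⟨y, hy, rfl⟩ := Finset.mem_map.1 h1
    obtain ⟨y', hy', rfl⟩ := Finset.mem_map.1 h2
    rw [mulRightEmbedding_apply, mulRightEmbedding_apply, map_mul (T.tr i₂) y,
      map_mul (T.tr i₂) y'] at he
    have h3 : y = y' := hJ c i₂ (hJC c hcC) y hy y' hy' (mul_right_cancel he)
    rw [h3]
  -- the least point of the fibre
  have hne : Set.Nonempty {u | G u ≠ 0 ∧ T.tr i u = v'} := prl_exists hG hL'.1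
  obtain ⟨m, ⟨u₀, hu₀, hm⟩, hmin⟩ := WO.of_finite hr.toLOrd
    ((hG.2 (v' : U)).image (T.tr i₂)) _ subset_rfl (hne.image _)
  have hlt : ∀ u, G u ≠ 0 → u ≠ u₀ → r (T.tr i₂ u₀) (T.tr i₂ u) := by
    intro u hu hne
    by_cases h1 : T.tr i u = v'
    · rw [hm]
      refine hmin _ ⟨u, ⟨hu, h1⟩, rfl⟩ ?_
      rw [← hm]
      exact fun h2 => hne (hinj u u₀ hu h1 hu₀.1 hu₀.2 h2)
    · have h2 : EE T t i G ⟨T.tr i u, ⟨_, rfl⟩⟩ ≠ 0 := prl_ne_zero h hG hu rfl
      have h3 := hL'.2 _ h2 (fun h4 => h1 (by rw [← h4]))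
      refine hr.tr_lt (i := i) ?_
      rw [T.tr_lo i i₂ hii, T.tr_lo i i₂ hii, hu₀.2]
      exact h3
  -- level `i₂`
  have hG₂ : Good T r i₂ G := hG.mono hr hii
  obtain ⟨v'', hv''⟩ : ∃ v'' : T.V i₂, v'' = ⟨T.tr i₂ u₀, ⟨_, rfl⟩⟩ := ⟨_, rfl⟩
  have hfib₂ : (hG₂.2 (v'' : U)).toFinset = {u₀} := by
    ext u
    rw [Set.Finite.mem_toFinset, Finset.mem_singleton]
    constructor
    · rintro ⟨hu, hu'⟩
      by_contra hne
      have h1 := hlt u hu hne
      rw [hu', hv''] at h1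
      exact hr.irrefl _ h1
    · rintro rfl
      exact ⟨hu₀.1, by rw [hv'']⟩
  have hkp₂ : kp T t i₂ G (v'' : U) = ((t u₀ : Dˣ) : D) := by
    rw [kp_eq_sum (hG₂.2 (v'' : U)), hfib₂, Finset.sum_singleton]
  have hEE₂ : ((EE T t i₂ G v'' : Di T t i₂) : D) = ((t (u₀ * (T.tr i₂ u₀)⁻¹) : Dˣ) : D) := by
    show kp T t i₂ G v'' * (((t (v'' : U))⁻¹ : Dˣ) : D) = _
    rw [hkp₂, ← map_inv, ← Units.val_mul, ← map_mul, hv'']
  have hL'' : Lead (rV T r i₂) (EE T t i₂ G) v'' := by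
    refine ⟨prl_ne_zero h hG₂ hu₀.1 (by rw [hv'']), fun z hz hzne => ?_⟩
    obtain ⟨u, hu, hu'⟩ := prl_exists hG₂ hz
    have h1 : u ≠ u₀ := by
      rintro rfl
      exact hzne (Subtype.ext (by rw [← hu', hv'']))
    have h2 := hlt u hu h1
    show r v'' z
    rw [hv'', ← hu']
    exact h2
  have hδ₂ : EE T t i₂ δ = fun z => if z = v then 1 else 0 := by
    rw [hδ]
    exact EE_delta i₂ v
  have hL₂ : Lead (rV T r i₂) (EE T t i₂ δ) v := by
    rw [hδ₂]
    refine ⟨?_, fun z hz hzne => ?_⟩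
    · show (if v = v then (1 : Di T t i₂) else 0) ≠ 0
      rw [if_pos rfl]
      exact one_ne_zero
    · exact absurd (if_neg hzne) hz
  obtain ⟨C₂, hC₂⟩ := dact_lead (hO i₂) hx
  obtain ⟨v₂, c₂, -, -, hlead₂⟩ := hC₂ (rV T r i₂) (hr.rV i₂) v
  obtain ⟨hL₃, hc₂⟩ := hlead₂ _ _ (hact i₂ hii) hL₂
  have hvv : v₂ = v'' := lead_unique (hr.rV i₂) hL₃ hL''
  have hc₂' : (c₂ : D) = ((t (u₀ * (T.tr i₂ u₀)⁻¹) : Dˣ) : D) := by
    rw [← hEE₂, ← hvv, hc₂, hδ₂]
    show (c₂ : D) = (c₂ : D) * (((if v = v then (1 : Di T t i₂) else 0) : Di T t i₂) : D)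
    rw [if_pos rfl, OneMemClass.coe_one, mul_one]
  refine ⟨v₂, u₀ * (T.tr i₂ u₀)⁻¹, W_of_tr T ⟨_, rfl⟩ rfl, fun f g hfg hL => ?_⟩
  obtain ⟨h1, h2⟩ := hlead₂ f g hfg hL
  refine ⟨h1, ?_⟩
  rw [h2, ← hc₂']
  rfl

end SingerRN
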