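import Mathlib
import Pool.Agent.Lib_MP_394d50_rn.PRL
import Pool.Agent.Lib_MP_394d50_rn.PRB

/-!
# Piece PRI: inverses, and `Pr` for all elements (about 130 lines)

`pr_inv`: let `j ≥ i` be as in `pr_lead`. Claim `Pr T t j x⁻¹`. Let `i₂ ≥ j`, `r` a compatible order,
`Good T r i₂ F`. `dact_exists (hO i₂)` gives `f` with `x⁻¹ • EE i₂ F = f`, so `x • f = EE i₂ F`
(`dact_inv`, `inv_inv`).
Claim: `IsGR T t i₂ (f v)` for all `v`. If not, the set of the `v` for which it fails is a nonempty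
subset of the support of `f` (`isGR_zero`), let `v` be its least element. Let `f₁ u = f u` if `r u v`
(that is `rV T r i₂ u v`), else `0`, and `f₂ = f - f₁`. All values of `f₁` are `IsGR`, so `f₁ = EE i₂ F₁`
with `F₁` good (`EE_surj`), and `x • f₁ = EE i₂ G₁` by `hp` (with `i₁ = i₂`). So
`x • f₂ = EE i₂ F - EE i₂ G₁ = EE i₂ (F + G₁)` (`dact_sub_fun`; in characteristic two, `EE_add`), all of
whose values are `IsGR` (`EE_gr`). `Lead f₂ v`: `f₂ v = f v ≠ 0` and `f₂ u ≠ 0` implies not `r u v`. So by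
`pr_lead`: `(EE i₂ (F + G₁)) v' = t w * f v`, hence `f v = t w⁻¹ * ...` is `IsGR` (`isGR_left`),
contradiction.
So `f = EE i₂ G` with `Good T r i₂ G` (`EE_surj`). For `i₃ ≥ i₂`: `hp i₂ _ r hr G` gives `G'` with
`x • EE i₃ G = EE i₃ G'` for all `i₃ ≥ i₂`; at `i₃ = i₂`: `EE i₂ G' = EE i₂ F` (`dact_unique`), so
`G' = F` (`EE_inj`). So `x • EE i₃ G = EE i₃ F` and `x⁻¹ • EE i₃ F = EE i₃ G` (`dact_inv`).
`pr_all`: the set `{x | ∃ i, Pr T t i x}` is a subfield (`pr_zero`, `pr_t 1` for `1`, `pr_add`, `pr_mul`,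
`pr_neg`, `pr_inv`; `0⁻¹ = 0`; use `pr_mono` and the maximum of the levels) which contains all `t u`;
`h.gen`.
-/

namespace SingerRN

open SingerRA

theorem PRI_two {D : Type} [DivisionRing D] [Algebra (ZMod 2) D] (x : D) : x + x = 0 := by
  have h1 : (2 : ZMod 2) • x = x + x := by
    have h2 : (2 : ZMod 2) = 1 + 1 := by decide
    rw [h2, add_smul, one_smul]
  rw [← h1]
  have h3 : (2 : ZMod 2) = 0 := by decide
  rw [h3, zero_smul]

theorem PRI_gr {U : Type} [Group U] {T : Tow U} {D : Type} [DivisionRing D]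
    [Algebra (ZMod 2) D] {t : U →* Dˣ} (h : DSys T t) {x : D}
    {i : ℕ} (hp : Pr T t i x) {i₁ : ℕ} (hi : i ≤ i₁) {r : U → U → Prop} (hr : TOrd T r)
    (hlead : ∀ v : T.V i₁, ∃ (v' : T.V i₁) (w : U),
      w ∈ T.W i₁ ∧ ∀ f g, DAct (phiI T t i₁) (rV T r i₁) x f g → Lead (rV T r i₁) f v →
        Lead (rV T r i₁) g v' ∧ ((g v' : Di T t i₁) : D) = ((t w : Dˣ) : D) * ((f v : Di T t i₁) : D))
    {F : U → ZMod 2} (hF : Good T r i₁ F) {f : T.V i₁ → Di T t i₁}
    (hf : DAct (phiI T t i₁) (rV T r i₁) x f (EE T t i₁ F)) (v : T.V i₁) :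
    IsGR T t i₁ ((f v : Di T t i₁) : D) := by
  classical
  by_contra hno
  have hrV := hr.rV i₁
  obtain ⟨m, hm, hmin⟩ := hf.1 {u | ¬ IsGR T t i₁ ((f u : Di T t i₁) : D)} (fun u hu => by
    rw [Function.mem_support]
    intro h0
    apply hu
    show IsGR T t i₁ ((f u : Di T t i₁) : D)
    rw [h0]
    exact isGR_zero i₁) ⟨v, hno⟩
  have hm' : ¬ IsGR T t i₁ ((f m : Di T t i₁) : D) := hm
  set f₁ : T.V i₁ → Di T t i₁ := fun u => if rV T r i₁ u m then f u else 0 with hf₁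
  have hwo₁ : WO (rV T r i₁) (Function.support f₁) := by
    refine hf.1.mono fun u hu => ?_
    rw [Function.mem_support] at hu ⊢
    intro h0
    apply hu
    simp only [hf₁, h0, ite_self]
  have hgr₁ : ∀ u, IsGR T t i₁ ((f₁ u : Di T t i₁) : D) := by
    intro u
    simp only [hf₁]
    split_ifs with hu
    · by_contra hu'
      have hne : u ≠ m := hrV.ne hu
      exact hrV.asymm hu (hmin u hu' hne)
    · exact isGR_zero i₁
  obtain ⟨F₁, hF₁, hEF₁⟩ := EE_surj h hr hwo₁ hgr₁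
  obtain ⟨G₁, hG₁, hD₁⟩ := hp i₁ hi r hr F₁ hF₁
  have hD₂ := hD₁ i₁ le_rfl
  rw [hEF₁] at hD₂
  have hD₃ := dact_sub_fun hrV hf hD₂
  have hEE : EE T t i₁ F - EE T t i₁ G₁ = EE T t i₁ (F + G₁) := by
    rw [EE_add hF hG₁]
    funext u
    apply Subtype.ext
    show ((EE T t i₁ F u : Di T t i₁) : D) - ((EE T t i₁ G₁ u : Di T t i₁) : D) =
      ((EE T t i₁ F u : Di T t i₁) : D) + ((EE T t i₁ G₁ u : Di T t i₁) : D)
    have h2 := PRI_two ((EE T t i₁ G₁ u : Di T t i₁) : D)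
    rw [sub_eq_iff_eq_add, add_assoc, h2, add_zero]
  rw [hEE] at hD₃
  obtain ⟨v', w, hw, hlead'⟩ := hlead m
  have hfm : f m ≠ 0 := by
    intro h0
    apply hm'
    rw [h0]
    exact isGR_zero i₁
  have hf₂ : (f - f₁) m = f m := by
    rw [Pi.sub_apply]
    simp only [hf₁]
    rw [if_neg (hrV.irrefl m), sub_zero]
  have hL : Lead (rV T r i₁) (f - f₁) m := by
    refine ⟨by rw [hf₂]; exact hfm, fun u hu hum => ?_⟩
    rcases hrV.total u m hum with h3 | h3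
    · exfalso
      apply hu
      rw [Pi.sub_apply]
      simp only [hf₁]
      rw [if_pos h3, sub_self]
    · exact h3
  obtain ⟨-, hval⟩ := hlead' _ _ hD₃ hL
  rw [hf₂] at hval
  have h4 : ((f m : Di T t i₁) : D) = ((t w⁻¹ : Dˣ) : D) *
      ((EE T t i₁ (F + G₁) v' : Di T t i₁) : D) := by
    rw [hval, ← mul_assoc, ← Units.val_mul, ← map_mul, inv_mul_cancel, map_one, Units.val_one,
      one_mul]
  apply hm'
  rw [h4]
  exact isGR_left (EE_gr (good_add hr hF hG₁) v') ((T.W i₁).inv_mem hw)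

theorem pr_inv {U : Type} [Group U] {T : Tow U} {D : Type} [DivisionRing D]
    [Algebra (ZMod 2) D] {t : U →* Dˣ} (h : DSys T t) (hO : ∀ i, OreExt (phiI T t i)) {x : D}
    (hx : x ≠ 0) {i : ℕ} (hp : Pr T t i x) : ∃ j, Pr T t j x⁻¹ := by
  obtain ⟨j, hij, hj⟩ := pr_lead h hO hx hp
  refine ⟨j, fun i₁ hi₁ r hr F hF => ?_⟩
  obtain ⟨f, hf⟩ := dact_exists (hO i₁) (hr.rV i₁) x⁻¹ (EE_wo (t := t) hF)
  have hf' := dact_inv (inv_ne_zero hx) hf
  rw [inv_inv] at hf'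
  have hgr := PRI_gr h hp (hij.trans hi₁) hr (hj i₁ hi₁ r hr) hF hf'
  obtain ⟨G, hG, hEG⟩ := EE_surj h hr hf'.1 hgr
  obtain ⟨G', hG', hD⟩ := hp i₁ (hij.trans hi₁) r hr G hG
  refine ⟨G, hG, fun i₂ hi₂ => ?_⟩
  have h1 := hD i₁ le_rfl
  rw [hEG] at h1
  have h2 := dact_unique (hO i₁) (hr.rV i₁) h1 hf'
  have h3 := EE_inj h hr hG' hF h2
  have h4 := hD i₂ hi₂
  rw [h3] at h4
  exact dact_inv hx h4

theorem pr_all {U : Type} [Group U] {T : Tow U} {D : Type} [DivisionRing D]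
    [Algebra (ZMod 2) D] {t : U →* Dˣ} (h : DSys T t) (hO : ∀ i, OreExt (phiI T t i)) (x : D) :
    ∃ i, Pr T t i x := by
  let K : Subfield D :=
    { carrier := {x | ∃ i, Pr T t i x}
      mul_mem' := by
        rintro a b ⟨i, hi⟩ ⟨j, hj⟩
        exact ⟨max i j, pr_mul hO (pr_mono (le_max_left i j) hi) (pr_mono (le_max_right i j) hj)⟩
      one_mem' := by
        refine ⟨0, ?_⟩
        have h1 := pr_t hO (1 : U)
        rwa [map_one, Units.val_one] at h1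
      add_mem' := by
        rintro a b ⟨i, hi⟩ ⟨j, hj⟩
        exact ⟨max i j, pr_add hO (pr_mono (le_max_left i j) hi) (pr_mono (le_max_right i j) hj)⟩
      zero_mem' := ⟨0, pr_zero hO⟩
      neg_mem' := by
        rintro a ⟨i, hi⟩
        exact ⟨i, pr_neg hi⟩
      inv_mem' := by
        rintro a ⟨i, hi⟩
        by_cases ha : a = 0
        · rw [ha, inv_zero]
          exact ⟨0, pr_zero hO⟩
        · exact pr_inv h hO ha hi }
  exact h.gen K (fun u => ⟨0, pr_t hO u⟩) x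

end SingerRN
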