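import Mathlib
import Pool.Agent.Lib_MP_394d50_rn.RDefs

/-!
# Piece ORE: the Ore condition for the group ring over a division ring of an amenable left-orderable
group (about 150 lines)

`LOrd.noZeroDiv`: a left order gives `LinearOrder V` with `MulLeftStrictMono V` (build it with
`r`-or-equal; `Classical` decidability), hence `TwoUniqueProds V` (`of_covariant_right`), hence
`NoZeroDivisors (MonoidAlgebra K V)`.
`ore_amen` (compare `SingerRA.ore_of_folQ` in `Lib_MP_394d50_all/GOre.lean`): let
`S = supp a ∪ supp b` and let `F` be a Følner set for `S ∪ {1}` and `ε = 1 / (2 (|S| + 1))`, so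
`F' = F ∪ ⋃_{s ∈ S} F s` has at most `|F| + ∑_s #{x ∈ F | x s ∉ F} ≤ (1 + 1/2) |F| < 2 |F|` elements.
The `K`-linear map (left multiplication by scalars of `K`) `(f, g) ↦ (f * a - g * b)` from
`(F → K) × (F → K)` to `F' → K` (`f` is considered as an element of the group ring supported on
`F`; `f * a` is supported on `F'`) has a non-trivial kernel by dimensions
(`LinearMap.ker_ne_bot_of_finrank_lt`, modules over the division ring `K`). So there are
`(f, g) ≠ 0` with `f * a = g * b`. If `f = 0` then `g * b = 0`, `g = 0`, contradiction.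
`isOreG_of_amen`: `K = ZMod 2`.
-/

namespace SingerRN

open SingerRA

/-- the linear order of a left order -/
private noncomputable abbrev ore_lo {V : Type} [Group V] {r : V → V → Prop} (hr : LOrd r) :
    LinearOrder V := by
  classical
  exact
  { le := fun x y => x = y ∨ r x y
    lt := r
    le_refl := fun x => Or.inl rfl
    le_trans := by
      rintro x y z (rfl | h1) (rfl | h2)
      · exact Or.inl rfl
      · exact Or.inr h2
      · exact Or.inr h1
      · exact Or.inr (hr.trans x y z h1 h2)
    lt_iff_le_not_ge := by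
      intro x y
      constructor
      · intro h
        refine ⟨Or.inr h, ?_⟩
        rintro (rfl | h2)
        · exact hr.irrefl _ h
        · exact hr.irrefl _ (hr.trans _ _ _ h h2)
      · rintro ⟨rfl | h1, h2⟩
        · exact absurd (Or.inl rfl) h2
        · exact h1
    le_antisymm := by
      rintro x y (rfl | h1) (h2 | h2)
      · rfl
      · rfl
      · exact h2.symm
      · exact absurd (hr.trans _ _ _ h1 h2) (hr.irrefl _)
    le_total := by
      intro x y
      by_cases h : x = y
      · exact Or.inl (Or.inl h)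
      · rcases hr.total x y h with h1 | h1
        · exact Or.inl (Or.inr h1)
        · exact Or.inr (Or.inr h1)
    toDecidableLE := fun _ _ => Classical.propDecidable _
    toDecidableEq := fun _ _ => Classical.propDecidable _
    toDecidableLT := fun _ _ => Classical.propDecidable _ }

theorem LOrd.noZeroDiv {V : Type} [Group V] {r : V → V → Prop} (hr : LOrd r) (K : Type) [Ring K]
    [NoZeroDivisors K] : NoZeroDivisors (MonoidAlgebra K V) := by
  letI : LinearOrder V := ore_lo hr
  haveI : MulLeftStrictMono V := ⟨fun g x y (h : r x y) => hr.left g x y h⟩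
  haveI : TwoUniqueProds V := TwoUniqueProds.of_covariant_right
  infer_instance

section

variable {K V : Type} [DivisionRing K] [Group V]

open scoped Classical in
/-- The elements of the group ring supported on a finite set. -/
private noncomputable def ore_emb (B : Finset V) : (B → K) →ₗ[K] MonoidAlgebra K V where
  toFun f := MonoidAlgebra.ofCoeff (Finsupp.onFinset B
    (fun g => if h : g ∈ B then f ⟨g, h⟩ else 0) fun g hg => by
      by_contra h
      rw [dif_neg h] at hg
      exact hg rfl)
  map_add' f g := by
    apply MonoidAlgebra.coeff_injective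
    ext x
    show (if h : x ∈ B then (f + g) ⟨x, h⟩ else 0) = (if h : x ∈ B then f ⟨x, h⟩ else 0) +
      (if h : x ∈ B then g ⟨x, h⟩ else 0)
    split_ifs
    · rfl
    · rw [add_zero]
  map_smul' r f := by
    apply MonoidAlgebra.coeff_injective
    ext x
    show (if h : x ∈ B then (r • f) ⟨x, h⟩ else 0) = r • (if h : x ∈ B then f ⟨x, h⟩ else 0)
    split_ifs
    · rfl
    · rw [smul_zero]

open scoped Classical in
private theorem ore_emb_coeff (B : Finset V) (f : B → K) (x : V) :
    (ore_emb B f).coeff x = if h : x ∈ B then f ⟨x, h⟩ else 0 := rfl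

private theorem ore_emb_supp (B : Finset V) (f : B → K) {x : V}
    (h : (ore_emb B f).coeff x ≠ 0) : x ∈ B := by
  classical
  by_contra hx
  rw [ore_emb_coeff, dif_neg hx] at h
  exact h rfl

private theorem ore_emb_inj (B : Finset V) (f : B → K) (h : ore_emb B f = 0) : f = 0 := by
  classical
  funext b
  have h1 : (ore_emb B f).coeff b.1 = 0 := by
    rw [h]
    rfl
  rw [ore_emb_coeff, dif_pos b.2] at h1
  exact h1

/-- The coefficients on a finite set. -/
private noncomputable def ore_res (F : Finset V) : MonoidAlgebra K V →ₗ[K] (F → K) where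
  toFun x := fun g => x.coeff g.1
  map_add' _ _ := rfl
  map_smul' _ _ := rfl

/-- The right multiplication. -/
private noncomputable def ore_mulR (a : MonoidAlgebra K V) :
    MonoidAlgebra K V →ₗ[K] MonoidAlgebra K V where
  toFun x := x * a
  map_add' x y := add_mul x y a
  map_smul' r x := smul_mul_assoc r x a

private theorem ore_mul_supp (B S F : Finset V) (hBF : ∀ b ∈ B, ∀ s ∈ S, b * s ∈ F) (f : B → K)
    (a : MonoidAlgebra K V) (ha : a.coeff.support ⊆ S) (x : V) (hx : x ∉ F) :
    (ore_emb B f * a).coeff x = 0 := by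
  classical
  rw [MonoidAlgebra.coeff_mul]
  refine Finset.sum_eq_zero fun g hg => Finset.sum_eq_zero fun s hs => ?_
  show (if g * s = x then (ore_emb B f).coeff g * a.coeff s else 0) = 0
  rw [if_neg]
  rintro rfl
  exact hx (hBF g (ore_emb_supp B f (Finsupp.mem_support_iff.1 hg)) s (ha hs))

private theorem ore_folner (hA : Amen V) (S : Finset V) : ∃ B F : Finset V,
    (∀ b ∈ B, ∀ s ∈ S, b * s ∈ F) ∧ F.card < B.card + B.card := by
  classical
  obtain ⟨B, hB, hS⟩ := hA S (1 / (2 * ((S.card : ℝ) + 1))) (by positivity)
  refine ⟨B, B ∪ S.biUnion fun s => (B.filter fun x => x * s ∉ B).image fun x => x * s, ?_, ?_⟩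
  · intro b hb s hs
    by_cases h : b * s ∈ B
    · exact Finset.mem_union_left _ h
    · refine Finset.mem_union_right _ (Finset.mem_biUnion.2 ⟨s, hs, ?_⟩)
      exact Finset.mem_image.2 ⟨b, Finset.mem_filter.2 ⟨hb, h⟩, rfl⟩
  · have h1 : ((B ∪ S.biUnion fun s => (B.filter fun x => x * s ∉ B).image
        fun x => x * s).card : ℝ) ≤ B.card + ∑ s ∈ S, ((B.filter fun x => x * s ∉ B).card : ℝ) := by
      have h2 := Finset.card_union_le B
        (S.biUnion fun s => (B.filter fun x => x * s ∉ B).image fun x => x * s)
      have h3 : (S.biUnion fun s => (B.filter fun x => x * s ∉ B).image fun x => x * s).card ≤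
          ∑ s ∈ S, (B.filter fun x => x * s ∉ B).card :=
        Finset.card_biUnion_le.trans (Finset.sum_le_sum fun s _ => Finset.card_image_le)
      calc _ ≤ ((B.card + ∑ s ∈ S, (B.filter fun x => x * s ∉ B).card : ℕ) : ℝ) := by
            exact_mod_cast h2.trans (Nat.add_le_add_left h3 _)
        _ = _ := by push_cast; rfl
    have h4 : ∑ s ∈ S, ((B.filter fun x => x * s ∉ B).card : ℝ) ≤
        S.card * (1 / (2 * ((S.card : ℝ) + 1)) * B.card) := by
      rw [← nsmul_eq_mul]
      refine Finset.sum_le_card_nsmul _ _ _ fun s hs => ?_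
      convert hS s hs
    have h5 : (0 : ℝ) < B.card := by exact_mod_cast hB.card_pos
    have h6 : (S.card : ℝ) * (1 / (2 * ((S.card : ℝ) + 1)) * B.card) < B.card := by
      have h7 : (S.card : ℝ) * (1 / (2 * ((S.card : ℝ) + 1))) < 1 := by
        rw [mul_one_div, div_lt_one (by positivity)]
        have : (0 : ℝ) ≤ S.card := Nat.cast_nonneg _
        linarith
      calc (S.card : ℝ) * (1 / (2 * ((S.card : ℝ) + 1)) * B.card) =
            ((S.card : ℝ) * (1 / (2 * ((S.card : ℝ) + 1)))) * B.card := by ring
        _ < 1 * B.card := mul_lt_mul_of_pos_right h7 h5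
        _ = B.card := one_mul _
    have h8 : ((B ∪ S.biUnion fun s => (B.filter fun x => x * s ∉ B).image
        fun x => x * s).card : ℝ) < B.card + B.card := by linarith
    exact_mod_cast h8

end

theorem ore_amen {V : Type} [Group V] (hA : Amen V) {r : V → V → Prop} (hr : LOrd r) (K : Type)
    [DivisionRing K] (a b : MonoidAlgebra K V) (hb : b ≠ 0) :
    ∃ p q : MonoidAlgebra K V, p ≠ 0 ∧ p * a = q * b := by
  classical
  haveI := hr.noZeroDiv K
  obtain ⟨B, F, hBF, hlt⟩ := ore_folner hA (a.coeff.support ∪ b.coeff.support)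
  let Φ : ((B → K) × (B → K)) →ₗ[K] (F → K) :=
    (ore_res F).comp (((ore_mulR a).comp (ore_emb B)).comp (LinearMap.fst _ _ _) -
      ((ore_mulR b).comp (ore_emb B)).comp (LinearMap.snd _ _ _))
  have hker : LinearMap.ker Φ ≠ ⊥ := by
    apply LinearMap.ker_ne_bot_of_finrank_lt
    rw [Module.finrank_prod, Module.finrank_fintype_fun_eq_card,
      Module.finrank_fintype_fun_eq_card, Fintype.card_coe, Fintype.card_coe]
    exact hlt
  obtain ⟨⟨f, g⟩, hfg, hne⟩ := (Submodule.ne_bot_iff _).1 hker
  have hΦ : ore_res F (ore_emb B f * a - ore_emb B g * b) = 0 := hfg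
  have heq : ore_emb B f * a = ore_emb B g * b := by
    rw [← sub_eq_zero]
    apply MonoidAlgebra.coeff_injective
    ext x
    by_cases hx : x ∈ F
    · exact congrFun hΦ ⟨x, hx⟩
    · show (ore_emb B f * a).coeff x - (ore_emb B g * b).coeff x = 0
      rw [ore_mul_supp B _ F hBF f a Finset.subset_union_left x hx,
        ore_mul_supp B _ F hBF g b Finset.subset_union_right x hx, sub_zero]
  refine ⟨ore_emb B f, ore_emb B g, fun h0 => ?_, heq⟩
  rw [h0, zero_mul] at heq
  rcases mul_eq_zero.1 heq.symm with h1 | h1
  · apply hne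
    rw [ore_emb_inj B f h0, ore_emb_inj B g h1]
    rfl
  · exact hb h1

theorem isOreG_of_amen {V : Type} [Group V] (hA : Amen V) {r : V → V → Prop} (hr : LOrd r) :
    IsOreG V :=
  ⟨fun a b hb => ore_amen hA hr (ZMod 2) a b hb⟩

end SingerRN
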