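import Mathlib
import Pool.Agent.Lib_MP_394d50_rn.ORE
import Pool.Agent.Lib_MP_394d50_rn.WOB
import Pool.Agent.Lib_MP_394d50_all.OPv

/-!
# Piece DEN: denominators (about 150 lines)

`phiI_inj`: let `phiI a = 0`, `a = ∑_{v ∈ supp a} single v a_v`, so
`∑_{v ∈ supp a} a_v * t v = 0` (`phiI_single`); apply `h.ind i` with `S` = the image of the support
in `U` and `d u = a_u` for `u ∈ V_i`, `0` otherwise. So `a_v = 0`.
`oreExt_phiI`: `inj` is `phiI_inj`. `SingerRA.sf_ext` with `R' = ⊤` (`NoZeroDivisors` and the Ore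
condition from `ore_amen`, for the group `V_i` with the order `rV T r i`, `TOrd.rV`) gives a subfield
`F` of `D` with `x ∈ F` iff `∃ s p, s ≠ 0 ∧ phiI s * x = phiI p`. It contains `t u` for all `u ∈ U`:
`u = (u * (tr i u)⁻¹) * tr i u` with `w = u * (tr i u)⁻¹ ∈ W_i`, so
`t u = phiI (single (tr i u) (t w))`. So `F = D` by `h.gen`.
`common_den`: induction on the finite set: `φ s * x = φ s'` for `x ∈ A`, `φ q * y = φ q'`. By
`hφ.den` for `φ s * (φ q)⁻¹` there are `p ≠ 0`, `p'` with `φ p * (φ s * (φ q)⁻¹) = φ p'`, that is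
`p s = p' q`; take `p s` (nonzero because its image under `φ` is nonzero).
`star_Di`: `star` maps the subfield `D_i` into itself: closure induction (`star (t w) = t w⁻¹`,
`star` is additive, antimultiplicative, commutes with inverses).
`common_den_right`: apply `common_den` to the set of the `star b`, `b ∈ B`: `φ s * star b = φ z`.
Applying `star`: `b * star (φ s) = star (φ z)`, and `star (phiI z)` is in the range of `phiI`: for
`z = single v x`: `star (x * t v) = t v⁻¹ * star x = star x * t v⁻¹ = phiI (single v⁻¹ (star x))` by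
`Di_comm`; extend additively.
-/

namespace SingerRN

open SingerRA

section

variable {U : Type} [Group U] {T : Tow U} {D : Type} [DivisionRing D] {t : U →* Dˣ}

private theorem den_phiI_sum (T : Tow U) (t : U →* Dˣ) (i : ℕ)
    (a : MonoidAlgebra (Di T t i) (T.V i)) :
    phiI T t i a = ∑ v ∈ a.coeff.support, ((a.coeff v : Di T t i) : D) * ((t v : Dˣ) : D) := by
  have h1 : phiI T t i a = phiI T t i (a.coeff.sum MonoidAlgebra.single) := by
    rw [MonoidAlgebra.sum_coeff_single]
  rw [h1, Finsupp.sum, map_sum]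
  exact Finset.sum_congr rfl fun v _ => phiI_single T t i v _

theorem phiI_inj (h : DSys T t) (i : ℕ) : Function.Injective (phiI T t i) := by
  classical
  rw [injective_iff_map_eq_zero]
  intro a ha
  rw [den_phiI_sum] at ha
  let d : U → D := fun u => if hu : u ∈ T.V i then ((a.coeff ⟨u, hu⟩ : Di T t i) : D) else 0
  have hd : ∀ v : T.V i, d (v : U) = ((a.coeff v : Di T t i) : D) := fun v => dif_pos v.2
  have h2 := h.ind i (a.coeff.support.image fun v : T.V i => (v : U)) d
    (fun v hv => by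
      obtain ⟨w, _, rfl⟩ := Finset.mem_image.1 hv
      exact w.2)
    (fun v hv => by
      obtain ⟨w, _, rfl⟩ := Finset.mem_image.1 hv
      rw [hd]
      exact (a.coeff w).2)
    (by
      rw [Finset.sum_image (fun x _ y _ hxy => Subtype.ext hxy), ← ha]
      exact Finset.sum_congr rfl fun v _ => by rw [hd])
  apply MonoidAlgebra.coeff_injective
  refine Finsupp.ext fun v => ?_
  by_contra hv
  have h3 : v ∈ a.coeff.support := Finsupp.mem_support_iff.2 hv
  have h4 := h2 (v : U) (Finset.mem_image_of_mem _ h3)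
  rw [hd] at h4
  exact hv (Subtype.ext h4)

theorem oreExt_phiI (h : DSys T t) (hA : ∀ i, Amen (T.V i)) {r : U → U → Prop} (hr : TOrd T r)
    (i : ℕ) : OreExt (phiI T t i) := by
  haveI : NoZeroDivisors (MonoidAlgebra (Di T t i) (T.V i)) := (hr.rV i).noZeroDiv _
  obtain ⟨F, hF⟩ := sf_ext (phiI T t i) (phiI_inj h i) (⊤ : Subring _) (by
    intro a _ b _ hb
    obtain ⟨p, q, hp, hpq⟩ := ore_amen (hA i) (hr.rV i) (Di T t i) a b hb
    exact ⟨p, Subring.mem_top p, q, Subring.mem_top q, hp, hpq⟩)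
  refine ⟨phiI_inj h i, fun x => ?_⟩
  have hx : x ∈ F := by
    refine h.gen F (fun u => ?_) x
    rw [hF]
    have hw : u * (T.tr i u)⁻¹ ∈ T.W i := W_of_tr T ⟨u, rfl⟩ rfl
    refine ⟨1, Subring.mem_top _,
      MonoidAlgebra.single ⟨T.tr i u, ⟨u, rfl⟩⟩ ⟨_, mem_Di_of_mem T t hw⟩, Subring.mem_top _,
      one_ne_zero, ?_⟩
    rw [map_one, one_mul, phiI_single]
    show ((t u : Dˣ) : D) = ((t (u * (T.tr i u)⁻¹) : Dˣ) : D) * ((t (T.tr i u) : Dˣ) : D)
    rw [← Units.val_mul, ← map_mul, inv_mul_cancel_right]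
  obtain ⟨s, _, p, _, hs, hp⟩ := (hF x).1 hx
  exact ⟨s, p, hs, hp⟩

private theorem den_ne_zero {K V : Type} [DivisionRing K] [Group V] {φ : MonoidAlgebra K V →+* D}
    (hφ : OreExt φ) {a : MonoidAlgebra K V} (ha : a ≠ 0) : φ a ≠ 0 := by
  intro h
  exact ha (hφ.inj (by rw [h, map_zero]))

theorem common_den {K V : Type} [DivisionRing K] [Group V] {φ : MonoidAlgebra K V →+* D}
    (hφ : OreExt φ) (A : Finset D) :
    ∃ s : MonoidAlgebra K V, s ≠ 0 ∧ ∀ x ∈ A, ∃ s', φ s * x = φ s' := by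
  classical
  induction A using Finset.induction_on with
  | empty => exact ⟨1, one_ne_zero, fun x hx => absurd hx (Finset.notMem_empty x)⟩
  | insert y A hy ih =>
    obtain ⟨s, hs, hA⟩ := ih
    obtain ⟨q, q', hq, hq'⟩ := hφ.den y
    obtain ⟨p, p', hp, hp'⟩ := hφ.den (φ s * (φ q)⁻¹)
    have h1 : φ (p * s) = φ (p' * q) := by
      rw [map_mul, map_mul, ← hp', mul_assoc, mul_assoc, inv_mul_cancel₀ (den_ne_zero hφ hq),
        mul_one]
    have h2 : p * s ≠ 0 := by
      intro h
      have h3 : φ p * φ s = 0 := by rw [← map_mul, h, map_zero]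
      rcases mul_eq_zero.1 h3 with h4 | h4
      · exact den_ne_zero hφ hp h4
      · exact den_ne_zero hφ hs h4
    refine ⟨p * s, h2, fun x hx => ?_⟩
    rcases Finset.mem_insert.1 hx with rfl | hx
    · exact ⟨p' * q', by rw [h1, map_mul, mul_assoc, hq', map_mul]⟩
    · obtain ⟨s', hs'⟩ := hA x hx
      exact ⟨p * s', by rw [map_mul, mul_assoc, hs', map_mul]⟩

variable [StarRing D]

theorem star_Di (hs : ∀ u, star ((t u : Dˣ) : D) = (((t u)⁻¹ : Dˣ) : D)) {i : ℕ} {x : D}
    (hx : x ∈ Di T t i) : star x ∈ Di T t i := by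
  induction hx using Subfield.closure_induction with
  | mem x hx =>
    obtain ⟨w, hw, rfl⟩ := hx
    rw [hs, ← map_inv]
    exact mem_Di_of_mem T t (inv_mem hw)
  | one => rw [star_one]; exact one_mem _
  | add x y _ _ hx hy => rw [star_add]; exact add_mem hx hy
  | neg x _ hx => rw [star_neg]; exact neg_mem hx
  | inv x _ hx => rw [star_inv₀]; exact inv_mem hx
  | mul x y _ _ hx hy => rw [star_mul]; exact mul_mem hy hx

/-- The involution on the range of `phiI`. -/
theorem star_phiI (hs : ∀ u, star ((t u : Dˣ) : D) = (((t u)⁻¹ : Dˣ) : D)) {i : ℕ}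
    (z : MonoidAlgebra (Di T t i) (T.V i)) :
    ∃ z' : MonoidAlgebra (Di T t i) (T.V i), star (phiI T t i z) = phiI T t i z' ∧
      ∀ v, ((z'.coeff v : Di T t i) : D) = star ((z.coeff v⁻¹ : Di T t i) : D) := by
  classical
  induction z using MonoidAlgebra.induction_linear with
  | zero =>
    refine ⟨0, by rw [map_zero, star_zero], fun v => ?_⟩
    show (0 : D) = star (0 : D)
    rw [star_zero]
  | add a b ha hb =>
    obtain ⟨a', ha1, ha2⟩ := ha
    obtain ⟨b', hb1, hb2⟩ := hb
    refine ⟨a' + b', by rw [map_add, star_add, ha1, hb1, map_add], fun v => ?_⟩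
    have h1 := ha2 v
    have h2 := hb2 v
    show ((a'.coeff v : Di T t i) : D) + ((b'.coeff v : Di T t i) : D) =
      star (((a.coeff v⁻¹ : Di T t i) : D) + ((b.coeff v⁻¹ : Di T t i) : D))
    rw [h1, h2, star_add]
  | single v x =>
    refine ⟨MonoidAlgebra.single v⁻¹ ⟨star (x : D), star_Di hs x.2⟩, ?_, fun w => ?_⟩
    · rw [phiI_single, phiI_single, star_mul, hs, ← map_inv]
      exact (Di_comm T t (v⁻¹).2 (star_Di hs x.2)).symm
    · rw [MonoidAlgebra.coeff_single_apply, MonoidAlgebra.coeff_single_apply]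
      by_cases hvw : v⁻¹ = w
      · have h2 : v = w⁻¹ := by rw [← hvw, inv_inv]
        rw [if_pos hvw, if_pos h2]
      · have h2 : v ≠ w⁻¹ := fun h => hvw (by rw [h, inv_inv])
        rw [if_neg hvw, if_neg h2]
        show (0 : D) = star (0 : D)
        rw [star_zero]

theorem common_den_right (hs : ∀ u, star ((t u : Dˣ) : D) = (((t u)⁻¹ : Dˣ) : D)) {i : ℕ}
    (hφ : OreExt (phiI T t i)) (B : Finset D) :
    ∃ s : MonoidAlgebra (Di T t i) (T.V i), s ≠ 0 ∧ ∀ x ∈ B, ∃ s', x * phiI T t i s =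
      phiI T t i s' := by
  classical
  obtain ⟨s, hs0, hB⟩ := common_den hφ (B.image star)
  obtain ⟨s1, h1, _⟩ := star_phiI (T := T) hs s
  refine ⟨s1, ?_, fun x hx => ?_⟩
  · rintro rfl
    rw [map_zero] at h1
    exact den_ne_zero hφ hs0 (star_eq_zero.1 h1)
  · obtain ⟨z, hz⟩ := hB (star x) (Finset.mem_image_of_mem _ hx)
    obtain ⟨z', hz', _⟩ := star_phiI (T := T) hs z
    refine ⟨z', ?_⟩
    rw [← hz', ← hz, star_mul, star_star, h1]

end

end SingerRN
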