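import Mathlib
import Pool.Agent.Lib_MP_394d50_rn.PRB

/-!
# Piece SER: the expansion of an element (about 110 lines)

`ser T t r i b`: the function `F : U → F₂` with `b • δ₁ = EE i F` (if it exists).
* `ser_spec`: `hp i le_rfl r hr F₀` for `F₀ = fun x => if x = 1 then 1 else 0` (finite support, `Good`)
  and `EE_delta` at `u = 1` give the existence.
* `ser_unique`: `dact_unique` and `EE_inj`.
* `ser_add`: `dact_add`, `EE_add`, `good_add`, `ser_unique`.
* `ser_smul`: the scalar is `0` or `1`.
* `ser_left`: `good_left`, `dact_mul` and `dact_t`: `(t g * b) • δ₁ = t g • EE F = EE (F (g⁻¹ * ·))`.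
  (Also `Pr T t i (t g * b)`, from `pr_mul`, `pr_t`, `pr_mono`.)
-/

namespace SingerRN

open SingerRA

section

variable {U : Type} [Group U] {D : Type} [DivisionRing D]

theorem ser_two (c : ZMod 2) : c = 0 ∨ c = 1 := by
  revert c
  decide

open scoped Classical in
/-- The expansion of `b` at the level `i` for the order `r`. -/
noncomputable def ser (T : Tow U) (t : U →* Dˣ) (r : U → U → Prop) (i : ℕ) (b : D) :
    U → ZMod 2 :=
  if h : ∃ F, Good T r i F ∧
      DAct (phiI T t i) (rV T r i) b (fun v => if v = 1 then 1 else 0) (EE T t i F) then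
    h.choose else 0

variable {T : Tow U} {t : U →* Dˣ} [Algebra (ZMod 2) D]

omit [Algebra (ZMod 2) D] in
open scoped Classical in
theorem ser_spec {r : U → U → Prop} (hr : TOrd T r) {i : ℕ} {b : D} (hp : Pr T t i b) :
    Good T r i (ser T t r i b) ∧
      DAct (phiI T t i) (rV T r i) b (fun v => if v = 1 then 1 else 0)
        (EE T t i (ser T t r i b)) := by
  have hex : ∃ F, Good T r i F ∧
      DAct (phiI T t i) (rV T r i) b (fun v => if v = 1 then 1 else 0) (EE T t i F) := by
    have hfin : (Function.support (fun x : U => if x = ((1 : T.V i) : U) then (1 : ZMod 2)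
        else 0)).Finite := by
      refine (Set.finite_singleton ((1 : T.V i) : U)).subset fun x hx => ?_
      by_contra h
      exact hx (if_neg h)
    obtain ⟨G, hG, hG'⟩ := hp i le_rfl r hr _ (good_of_finite hr i hfin)
    refine ⟨G, hG, ?_⟩
    have h2 := hG' i le_rfl
    rw [EE_delta (T := T) (t := t) i 1] at h2
    exact h2
  unfold ser
  rw [dif_pos hex]
  exact hex.choose_spec

open scoped Classical in
theorem ser_unique (h : DSys T t) (hO : ∀ i, OreExt (phiI T t i)) {r : U → U → Prop}
    (hr : TOrd T r) {i : ℕ} {b : D} {F : U → ZMod 2} (hF : Good T r i F)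
    (hd : DAct (phiI T t i) (rV T r i) b (fun v => if v = 1 then 1 else 0) (EE T t i F)) :
    ser T t r i b = F := by
  have hex : ∃ F, Good T r i F ∧
      DAct (phiI T t i) (rV T r i) b (fun v => if v = 1 then 1 else 0) (EE T t i F) := ⟨F, hF, hd⟩
  have h1 : Good T r i (ser T t r i b) ∧
      DAct (phiI T t i) (rV T r i) b (fun v => if v = 1 then 1 else 0)
        (EE T t i (ser T t r i b)) := by
    unfold ser
    rw [dif_pos hex]
    exact hex.choose_spec
  exact EE_inj h hr h1.1 hF (dact_unique (hO i) (hr.rV i) h1.2 hd)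

theorem ser_add (h : DSys T t) (hO : ∀ i, OreExt (phiI T t i)) {r : U → U → Prop}
    (hr : TOrd T r) {i : ℕ} {b b' : D} (hp : Pr T t i b) (hp' : Pr T t i b') :
    ser T t r i (b + b') = ser T t r i b + ser T t r i b' := by
  classical
  have h1 := ser_spec hr hp
  have h2 := ser_spec hr hp'
  refine ser_unique h hO hr (good_add hr h1.1 h2.1) ?_
  rw [EE_add h1.1 h2.1]
  exact dact_add (hO i) (hr.rV i) h1.2 h2.2

theorem ser_smul (h : DSys T t) (hO : ∀ i, OreExt (phiI T t i)) {r : U → U → Prop}
    (hr : TOrd T r) {i : ℕ} (c : ZMod 2) {b : D} (hp : Pr T t i b) :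
    ser T t r i (c • b) = c • ser T t r i b := by
  classical
  rcases ser_two c with rfl | rfl
  · rw [zero_smul, zero_smul]
    have h1 := ser_add h hO hr (pr_mono (Nat.zero_le i) (pr_zero (T := T) (t := t) hO))
      (pr_mono (Nat.zero_le i) (pr_zero (T := T) (t := t) hO))
    rw [add_zero] at h1
    exact left_eq_add.1 h1
  · rw [one_smul, one_smul]

theorem pr_smul (hO : ∀ i, OreExt (phiI T t i)) {i : ℕ} (c : ZMod 2) {b : D}
    (hp : Pr T t i b) : Pr T t i (c • b) := by
  rcases ser_two c with rfl | rfl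
  · rw [zero_smul]
    exact pr_mono (Nat.zero_le i) (pr_zero hO)
  · rw [one_smul]
    exact hp

theorem pr_left (hO : ∀ i, OreExt (phiI T t i)) {i : ℕ} {b : D} (hp : Pr T t i b) (g : U) :
    Pr T t i (((t g : Dˣ) : D) * b) :=
  pr_mul hO (pr_mono (Nat.zero_le i) (pr_t hO g)) hp

theorem ser_left (h : DSys T t) (hO : ∀ i, OreExt (phiI T t i)) {r : U → U → Prop}
    (hr : TOrd T r) {i : ℕ} {b : D} (hp : Pr T t i b) (g : U) :
    ser T t r i (((t g : Dˣ) : D) * b) = fun u => ser T t r i b (g⁻¹ * u) := by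
  classical
  have h1 := ser_spec hr hp
  exact ser_unique h hO hr (good_left hr h1.1 g)
    (dact_mul (hO i) (hr.rV i) h1.2 (dact_t (hO i) hr g h1.1))

end

end SingerRN
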