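import Mathlib
import Pool.Agent.Lib_MP_394d50_rn.SER
import Pool.Agent.Lib_MP_394d50_rn.DEN

/-!
# Piece TLL: the expansion of a product (about 150 lines)

`ser_mul`. Let `K = D_i`, `V = V_i`, `δ₁ v = if v = 1 then 1 else 0`. `sact z δ₁` is the function
`v ↦ z.coeff v` (`sact_delta`), so `(phiI z) • δ₁ = z.coeff` (`dact_phi`). Similarly
`(phiI s) • δ₁ = s.coeff = ∑_{δ ∈ supp s} (fun v => δ₁ (v * δ⁻¹) * s.coeff δ)`. For each `δ`:
`ser_spec` for the order `rtr r δ` (`TOrd.rtr`) gives `b • δ₁ = EE G_δ`, `G_δ = ser T t (rtr r δ) i b`, with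
respect to `rV T (rtr r δ) i = rtr (rV T r i) δ` (definitionally; `δ : T.V i`). `dact_rtr` and
`dact_right`: `b • (fun v => δ₁ (v * δ⁻¹) * s.coeff δ) = fun v => EE G_δ (v * δ⁻¹) * s.coeff δ`. Sum over `δ`
(`dact_sum_fun`): `b • s.coeff = ∑_δ EE G_δ (v * δ⁻¹) * s.coeff δ`. `dact_mul`: this is
`(b * phiI s) • δ₁ = (phiI z) • δ₁`. `dact_unique`: `z.coeff v = ∑_δ EE G_δ (v δ⁻¹) * s.coeff δ`. Multiply by
`t v` on the right: `EE G_δ (v δ⁻¹) * s_δ * t v`; here `t v = t (v δ⁻¹) * t δ` commutes with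
`s_δ ∈ D_i` (`Di_comm`), so it is `EE G_δ (v δ⁻¹) * t (v δ⁻¹) * t δ * s_δ = kp G_δ (v δ⁻¹) * (t δ * s_δ)`
(`EE_val`).
`ser_mul_left`: `star (phiI s * a) = star a * star (phiI s)`; `star_phiI` gives `s'`, `y'` with
`star (phiI s) = phiI s'`, `s'.coeff v = star (s.coeff v⁻¹)`, the same for `y`. Apply `ser_mul` to
`b = star a` at `v⁻¹`: `y'.coeff v⁻¹ * t v⁻¹ = ∑_{δ ∈ supp s'} kp (G_δ) (v⁻¹ * δ⁻¹) * (t δ * s'.coeff δ)`,
`G_δ = ser T t (rtr r δ) i (star a)`. Apply `star`: the left side becomes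
`t v * y.coeff v = y.coeff v * t v` (`Di_comm`), the term `δ = β⁻¹` on the right becomes
`star (s'.coeff δ) * star (t δ) * star (kp G_δ (v⁻¹ β)) = s.coeff β * t β * kp (fun u => G_δ u⁻¹) (β⁻¹ v)`
(`kp_star`; the fibres are finite by `ser_spec`). `supp s' = (supp s)⁻¹`.
-/

namespace SingerRN

open SingerRA

section

variable {U : Type} [Group U] {T : Tow U} {D : Type} [DivisionRing D] [Algebra (ZMod 2) D]
  {t : U →* Dˣ}

theorem ser_mul (h : DSys T t) (hO : ∀ i, OreExt (phiI T t i)) {r : U → U → Prop}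
    (hr : TOrd T r) {i : ℕ} {b : D} (hp : Pr T t i b) {s z : MonoidAlgebra (Di T t i) (T.V i)}
    (hz : b * phiI T t i s = phiI T t i z) (v : T.V i) :
    ((z.coeff v : Di T t i) : D) * ((t (v : U) : Dˣ) : D) =
      ∑ δ ∈ s.coeff.support, kp T t i (ser T t (rtr r (δ : U)) i b) (v * (δ : U)⁻¹) *
        (((t (δ : U) : Dˣ) : D) * ((s.coeff δ : Di T t i) : D)) := by
  classical
  set d1 : T.V i → Di T t i := fun v => if v = 1 then 1 else 0 with hd1
  have hρ : LOrd (rV T r i) := hr.rV i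
  have hw : WO (rV T r i) (Function.support d1) := by
    refine WO.of_finite hρ ((Set.finite_singleton (1 : T.V i)).subset fun x hx => ?_)
    by_contra hne
    exact hx (if_neg hne)
  have hz1 : DAct (phiI T t i) (rV T r i) (phiI T t i z) d1 (fun u => z.coeff u) := by
    have h1 := dact_phi (hO i) hρ z hw
    have h2 : sact z d1 = fun u => z.coeff u := by
      have h3 := sact_delta z
      convert h3
    rwa [h2] at h1
  have hs1 : DAct (phiI T t i) (rV T r i) (phiI T t i s) d1 (fun u => s.coeff u) := by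
    have h1 := dact_phi (hO i) hρ s hw
    have h2 : sact s d1 = fun u => s.coeff u := by
      have h3 := sact_delta s
      convert h3
    rwa [h2] at h1
  have hsum : DAct (phiI T t i) (rV T r i) b
      (∑ δ ∈ s.coeff.support, fun v => d1 (v * δ⁻¹) * s.coeff δ)
      (∑ δ ∈ s.coeff.support, fun v => EE T t i (ser T t (rtr r (δ : U)) i b) (v * δ⁻¹) *
        s.coeff δ) := by
    refine dact_sum_fun hρ _ fun δ _ => ?_
    have h1 := (ser_spec (hr.rtr (δ : U)) hp).2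
    have h2 : DAct (phiI T t i) (rtr (rV T r i) δ) b d1
        (EE T t i (ser T t (rtr r (δ : U)) i b)) := h1
    exact dact_right (dact_rtr δ h2) (s.coeff δ)
  have he : (∑ δ ∈ s.coeff.support, fun v : T.V i => d1 (v * δ⁻¹) * s.coeff δ) =
      fun u => s.coeff u := by
    funext v
    rw [Finset.sum_apply]
    by_cases hv : v ∈ s.coeff.support
    · rw [Finset.sum_eq_single_of_mem v hv]
      · rw [hd1]
        simp
      · intro δ _ hne
        have h1 : v * δ⁻¹ ≠ 1 := fun h2 => hne (mul_inv_eq_one.1 h2).symm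
        rw [hd1]
        simp only [h1, if_false, zero_mul]
    · have h0 : s.coeff v = 0 := by
        by_contra h1
        exact hv (Finsupp.mem_support_iff.2 h1)
      rw [h0]
      refine Finset.sum_eq_zero fun δ hδ => ?_
      have h1 : v * δ⁻¹ ≠ 1 := by
        intro h2
        exact hv ((mul_inv_eq_one.1 h2).symm ▸ hδ)
      rw [hd1]
      simp only [h1, if_false, zero_mul]
  rw [he] at hsum
  have hmul := dact_mul (hO i) hρ hs1 hsum
  rw [hz] at hmul
  have huniq := dact_unique (hO i) hρ hz1 hmul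
  have hv := congrFun huniq v
  rw [Finset.sum_apply] at hv
  have hv2 : ((z.coeff v : Di T t i) : D) = ∑ δ ∈ s.coeff.support,
      ((EE T t i (ser T t (rtr r (δ : U)) i b) (v * δ⁻¹) : Di T t i) : D) *
        ((s.coeff δ : Di T t i) : D) := by
    rw [hv]
    push_cast
    rfl
  rw [hv2, Finset.sum_mul]
  refine Finset.sum_congr rfl fun δ _ => ?_
  have h1 := EE_val (T := T) (t := t) i (ser T t (rtr r (δ : U)) i b) (v * δ⁻¹)
  have h2 : (((v * δ⁻¹ : T.V i)) : U) = (v : U) * (δ : U)⁻¹ := rfl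
  rw [h2] at h1
  rw [← h1]
  have h3 := Di_comm T t v.2 (s.coeff δ).2
  have h4 : ((t (v : U) : Dˣ) : D) =
      ((t ((v : U) * (δ : U)⁻¹) : Dˣ) : D) * ((t (δ : U) : Dˣ) : D) := by
    rw [← Units.val_mul, ← map_mul, inv_mul_cancel_right]
  rw [mul_assoc, h3, h4]
  simp only [mul_assoc]

theorem ser_mul_left [StarRing D] (hs : ∀ u, star ((t u : Dˣ) : D) = (((t u)⁻¹ : Dˣ) : D))
    (h : DSys T t) (hO : ∀ i, OreExt (phiI T t i)) {r : U → U → Prop}
    (hr : TOrd T r) {i : ℕ} {a : D} (hp : Pr T t i (star a))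
    {s y : MonoidAlgebra (Di T t i) (T.V i)} (hy : phiI T t i s * a = phiI T t i y) (v : T.V i) :
    ((y.coeff v : Di T t i) : D) * ((t (v : U) : Dˣ) : D) =
      ∑ β ∈ s.coeff.support, (((s.coeff β : Di T t i) : D) * ((t (β : U) : Dˣ) : D)) *
        kp T t i (fun u => ser T t (rtr r (β : U)⁻¹) i (star a) u⁻¹) ((β : U)⁻¹ * v) := by
  classical
  obtain ⟨s', hs1, hs2⟩ := star_phiI hs s
  obtain ⟨y', hy1, hy2⟩ := star_phiI hs y
  have hz : star a * phiI T t i s' = phiI T t i y' := by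
    rw [← hs1, ← star_mul, hy, hy1]
  have h1 := congrArg star (ser_mul h hO hr hp hz v⁻¹)
  rw [star_mul, star_sum] at h1
  have h2 : star (((t ((v⁻¹ : T.V i) : U) : Dˣ)) : D) = ((t (v : U) : Dˣ) : D) := by
    rw [hs]
    rw [show ((v⁻¹ : T.V i) : U) = (v : U)⁻¹ from rfl, map_inv, inv_inv]
  have h3 : star ((y'.coeff v⁻¹ : Di T t i) : D) = ((y.coeff v : Di T t i) : D) := by
    rw [hy2, inv_inv, star_star]
  rw [h2, h3, ← Di_comm T t v.2 (y.coeff v).2] at h1
  rw [h1]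
  have hsupp : ∀ β : T.V i, β ∈ s.coeff.support ↔ β⁻¹ ∈ s'.coeff.support := by
    intro β
    rw [Finsupp.mem_support_iff, Finsupp.mem_support_iff]
    have h4 := hs2 β⁻¹
    rw [inv_inv] at h4
    constructor
    · intro h5 h6
      rw [h6] at h4
      have h7 : star ((s.coeff β : Di T t i) : D) = 0 := by rw [← h4]; rfl
      rw [star_eq_zero] at h7
      exact h5 (Subtype.ext h7)
    · intro h5 h6
      rw [h6] at h4
      have h7 : ((s'.coeff β⁻¹ : Di T t i) : D) = 0 := by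
        rw [h4]
        exact star_zero D
      exact h5 (Subtype.ext h7)
  refine Finset.sum_nbij' (fun δ => δ⁻¹) (fun β => β⁻¹) ?_ ?_ ?_ ?_ ?_
  · intro δ hδ
    show δ⁻¹ ∈ s.coeff.support
    rw [hsupp, inv_inv]
    exact hδ
  · intro β hβ
    exact (hsupp β).1 hβ
  · intro δ _
    exact inv_inv δ
  · intro β _
    exact inv_inv β
  · intro δ _
    have hgood := (ser_spec (T := T) (t := t) (hr.rtr (δ : U)) hp).1
    have h5 := kp_star hs i ((v⁻¹ : T.V i) * (δ : U)⁻¹) (hgood.2 ((v⁻¹ : T.V i) * (δ : U)⁻¹))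
    have h6 : star ((t (δ : U) : Dˣ) : D) = ((t ((δ⁻¹ : T.V i) : U) : Dˣ) : D) := by
      rw [hs, show ((δ⁻¹ : T.V i) : U) = (δ : U)⁻¹ from rfl, map_inv]
    have h7 : star ((s'.coeff δ : Di T t i) : D) = ((s.coeff δ⁻¹ : Di T t i) : D) := by
      rw [hs2, star_star]
    rw [star_mul, star_mul, h5, h6, h7]
    have h8 : ((((v⁻¹ : T.V i) : U) * (δ : U)⁻¹)⁻¹ : U) = ((δ⁻¹ : T.V i) : U)⁻¹ * (v : U) := by
      rw [show ((δ⁻¹ : T.V i) : U) = (δ : U)⁻¹ from rfl,
        show ((v⁻¹ : T.V i) : U) = (v : U)⁻¹ from rfl]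
      group
    have h9 : ((δ⁻¹ : T.V i) : U)⁻¹ = (δ : U) := by
      rw [show ((δ⁻¹ : T.V i) : U) = (δ : U)⁻¹ from rfl, inv_inv]
    rw [h8, h9]

end

end SingerRN
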