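import Mathlib
import Pool.Agent.Lib_MP_394d50_rn.WOB

/-!
# Piece TLF: finitely many pairs (about 80 lines)

`pairs_finite`: let `P` be the set of pairs. Let `I = {tr i g' | (g, g') ∈ P}`, a subset of `V_i`.
* `I` is well-ordered by `rtr r δ` (it is contained in the image of the support of `F`).
* The map `x ↦ x * δ * q⁻¹ * β` maps `I` into the image `J` of the support of `G` under `tr i`: for
  `(g, g') ∈ P`: `tr i g * tr i g' = β⁻¹ q δ⁻¹` (as `β, q, δ ∈ V_i`), so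
  `tr i g⁻¹ = tr i g' * δ * q⁻¹ * β`. `J` is well-ordered by `r' = rtr (rev (rtr r q)) β⁻¹`,
  `r' x y ↔ r (y * β⁻¹ * q) (x * β⁻¹ * q)`. For `x = x₁ * δ * q⁻¹ * β`, `y = y₁ * δ * q⁻¹ * β`:
  `r' x y ↔ r (y₁ * δ) (x₁ * δ) ↔ rev (rtr r δ) x₁ y₁`. So `I` is well-ordered by `rev (rtr r δ)`.
So `I` is finite (`WO.finite_of_rev`). For each `x ∈ I` there are finitely many `g'` with
`F g' ≠ 0`, `tr i g' = x`, and finitely many `g` with `G g⁻¹ ≠ 0` and `tr i g⁻¹ = x * δ * q⁻¹ * β`.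
-/

namespace SingerRN

open SingerRA

theorem pairs_finite {U : Type} [Group U] {T : Tow U} {r : U → U → Prop} (hr : TOrd T r) {i : ℕ}
    {q β δ : U} (hq : q ∈ T.V i) (hβ : β ∈ T.V i) (hδ : δ ∈ T.V i) {F G : U → ZMod 2}
    (hF : Good T (rtr r δ) i F) (hG : Good T (rtr (rev (rtr r q)) β⁻¹) i G) :
    {y : U × U | G y.1⁻¹ ≠ 0 ∧ F y.2 ≠ 0 ∧ T.tr i (y.1 * y.2) = β⁻¹ * q * δ⁻¹}.Finite := by
  have hkey : ∀ y : U × U, T.tr i (y.1 * y.2) = β⁻¹ * q * δ⁻¹ →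
      T.tr i y.1⁻¹ = T.tr i y.2 * δ * q⁻¹ * β := by
    intro y hy
    rw [map_mul] at hy
    rw [map_inv]
    have h1 : T.tr i y.1 = β⁻¹ * q * δ⁻¹ * (T.tr i y.2)⁻¹ := by
      rw [← hy, mul_inv_cancel_right]
    rw [h1]
    group
  set P : Set (U × U) :=
    {y : U × U | G y.1⁻¹ ≠ 0 ∧ F y.2 ≠ 0 ∧ T.tr i (y.1 * y.2) = β⁻¹ * q * δ⁻¹} with hP
  let I : Set U := (fun y : U × U => T.tr i y.2) '' P
  have h1 : WO (rtr r δ) I := by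
    refine hF.1.mono ?_
    rintro _ ⟨y, hy, rfl⟩
    exact ⟨y.2, hy.2.1, rfl⟩
  have h2 : WO (rev (rtr r δ)) I := by
    have h3 := WO.image (r' := rev (rtr r δ)) (fun z => z * β⁻¹ * q * δ⁻¹) (by
      intro x _ y _ hxy
      right
      show r (y * β⁻¹ * q * δ⁻¹ * δ) (x * β⁻¹ * q * δ⁻¹ * δ)
      rw [inv_mul_cancel_right, inv_mul_cancel_right]
      exact hxy) hG.1
    refine h3.mono ?_
    rintro _ ⟨y, hy, rfl⟩
    refine ⟨T.tr i y.1⁻¹, ⟨y.1⁻¹, hy.1, rfl⟩, ?_⟩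
    show T.tr i y.1⁻¹ * β⁻¹ * q * δ⁻¹ = T.tr i y.2
    rw [hkey y hy.2.2]
    group
  have h3 : I.Finite := WO.finite_of_rev (hr.toLOrd.rtr δ) h1 h2
  refine (h3.biUnion (t := fun x => (fun z : U × U => (z.1⁻¹, z.2)) ''
    ({u | G u ≠ 0 ∧ T.tr i u = x * δ * q⁻¹ * β} ×ˢ {u | F u ≠ 0 ∧ T.tr i u = x}))
    (fun x _ => ((hG.2 _).prod (hF.2 x)).image _)).subset ?_
  intro y hy
  refine Set.mem_iUnion₂.mpr ⟨T.tr i y.2, ⟨y, hy, rfl⟩, (y.1⁻¹, y.2), ⟨⟨hy.1, ?_⟩, hy.2.1, rfl⟩, ?_⟩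
  · exact hkey y hy.2.2
  · simp only [inv_inv]

end SingerRN
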