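import Mathlib
import Pool.Agent.Lib_MP_394d50_rn.KPA
import Pool.Agent.Lib_MP_394d50_rn.TLF

/-!
# Piece TLP: the sum over the pairs (about 110 lines)

`sum_pairs`. Let `P` be the set of pairs `(g, g')` with `G g⁻¹ ≠ 0`, `F g' ≠ 0`,
`tr i (g g') = β⁻¹ q δ⁻¹` (finite, `hP`). The right side is `∑_{(g, g') ∈ P} t g ⊗ t g'` (the values
of `F`, `G` are `0` or `1`). For `v ∈ V'`: `kp (fun u => G u⁻¹) (β⁻¹ v)` is the sum of the `t g` with
`G g⁻¹ ≠ 0`, `tr i g = β⁻¹ v`, and `kp F (v⁻¹ q δ⁻¹)` that of the `t g'` with `F g' ≠ 0`,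
`tr i g' = v⁻¹ q δ⁻¹` (`kp_eq_sum`; the fibres are finite by `hF`, `hG`). So the term `v` on the left is
the sum of `t g ⊗ t g'` over the product of the two fibres, which is the set of the pairs
`(g, g') ∈ P` with `β * tr i g = v` (if `tr i g = β⁻¹ v` then `tr i (g g') = β⁻¹ q δ⁻¹` iff
`tr i g' = v⁻¹ q δ⁻¹`). `P` is the disjoint union of these over `v ∈ V'`
(`Finset.sum_fiberwise_of_maps_to`), by `hV`.
-/

namespace SingerRN

open SingerRA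
open scoped TensorProduct

theorem sum_pairs {U : Type} [Group U] {T : Tow U} {D : Type} [DivisionRing D]
    [Algebra (ZMod 2) D] {t : U →* Dˣ} {i : ℕ} {q β δ : U} (hq : q ∈ T.V i) (hβ : β ∈ T.V i)
    (hδ : δ ∈ T.V i) {F G : U → ZMod 2} (hF : ∀ v, {u | F u ≠ 0 ∧ T.tr i u = v}.Finite)
    (hG : ∀ v, {u | G u ≠ 0 ∧ T.tr i u = v}.Finite)
    (hP : {y : U × U | G y.1⁻¹ ≠ 0 ∧ F y.2 ≠ 0 ∧ T.tr i (y.1 * y.2) = β⁻¹ * q * δ⁻¹}.Finite)
    (V' : Finset U) (hV : ∀ y : U × U, G y.1⁻¹ ≠ 0 → F y.2 ≠ 0 →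
      T.tr i (y.1 * y.2) = β⁻¹ * q * δ⁻¹ → β * T.tr i y.1 ∈ V') [DecidableEq U] :
    ∑ v ∈ V', kp T t i (fun u => G u⁻¹) (β⁻¹ * v) ⊗ₜ[ZMod 2] kp T t i F (v⁻¹ * q * δ⁻¹) =
      ∑ᶠ y : U × U, (if T.tr i (y.1 * y.2) = β⁻¹ * q * δ⁻¹ then G y.1⁻¹ * F y.2 else 0) •
        (((t y.1 : Dˣ) : D) ⊗ₜ[ZMod 2] ((t y.2 : Dˣ) : D)) := by
  have hone : ∀ c : ZMod 2, c ≠ 0 → c = 1 := by decide
  -- the right side
  have hR : (∑ᶠ y : U × U, (if T.tr i (y.1 * y.2) = β⁻¹ * q * δ⁻¹ then G y.1⁻¹ * F y.2 else 0) •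
        (((t y.1 : Dˣ) : D) ⊗ₜ[ZMod 2] ((t y.2 : Dˣ) : D))) =
      ∑ y ∈ hP.toFinset, (((t y.1 : Dˣ) : D) ⊗ₜ[ZMod 2] ((t y.2 : Dˣ) : D)) := by
    rw [finsum_eq_sum_of_support_subset (s := hP.toFinset)]
    · refine Finset.sum_congr rfl fun y hy => ?_
      rw [Set.Finite.mem_toFinset] at hy
      rw [if_pos hy.2.2, hone _ hy.1, hone _ hy.2.1, mul_one, one_smul]
    · intro y hy
      rw [Set.Finite.coe_toFinset]
      rw [Function.mem_support] at hy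
      by_cases h1 : T.tr i (y.1 * y.2) = β⁻¹ * q * δ⁻¹
      · rw [if_pos h1] at hy
        refine ⟨fun h2 => hy ?_, fun h2 => hy ?_, h1⟩
        · rw [h2, zero_mul, zero_smul]
        · rw [h2, mul_zero, zero_smul]
      · rw [if_neg h1, zero_smul] at hy
        exact absurd rfl hy
  have hG' : ∀ v, {u | G u⁻¹ ≠ 0 ∧ T.tr i u = v}.Finite := by
    intro v
    refine ((hG v⁻¹).image fun u => u⁻¹).subset ?_
    rintro u ⟨h1, h2⟩
    refine ⟨u⁻¹, ⟨h1, ?_⟩, inv_inv u⟩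
    rw [map_inv, h2]
  have hL : ∀ v ∈ V', kp T t i (fun u => G u⁻¹) (β⁻¹ * v) ⊗ₜ[ZMod 2]
        kp T t i F (v⁻¹ * q * δ⁻¹) =
      ∑ y ∈ hP.toFinset.filter (fun y => β * T.tr i y.1 = v),
        (((t y.1 : Dˣ) : D) ⊗ₜ[ZMod 2] ((t y.2 : Dˣ) : D)) := by
    intro v _
    rw [kp_eq_sum (F := fun u => G u⁻¹) (hG' (β⁻¹ * v)), kp_eq_sum (hF (v⁻¹ * q * δ⁻¹)),
      TensorProduct.sum_tmul]
    have h1 : hP.toFinset.filter (fun y => β * T.tr i y.1 = v) =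
        (hG' (β⁻¹ * v)).toFinset ×ˢ (hF (v⁻¹ * q * δ⁻¹)).toFinset := by
      ext ⟨g, g'⟩
      rw [Finset.mem_filter, Finset.mem_product, Set.Finite.mem_toFinset,
        Set.Finite.mem_toFinset, Set.Finite.mem_toFinset]
      constructor
      · rintro ⟨⟨h2, h3, h4⟩, h5⟩
        have h6 : T.tr i g = β⁻¹ * v := by
          have h7 : β * T.tr i g = v := h5
          rw [← h7, inv_mul_cancel_left]
        refine ⟨⟨h2, h6⟩, h3, ?_⟩
        have h8 : T.tr i (g * g') = β⁻¹ * q * δ⁻¹ := h4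
        rw [map_mul, h6] at h8
        have h9 : T.tr i g' = (β⁻¹ * v)⁻¹ * (β⁻¹ * q * δ⁻¹) := by
          rw [← h8, inv_mul_cancel_left]
        rw [h9]
        group
      · rintro ⟨⟨h2, h3⟩, h4, h5⟩
        have h6 : T.tr i g = β⁻¹ * v := h3
        have h7 : T.tr i g' = v⁻¹ * q * δ⁻¹ := h5
        refine ⟨⟨h2, h4, ?_⟩, ?_⟩
        · change T.tr i (g * g') = _
          rw [map_mul, h6, h7]
          group
        · change β * T.tr i g = v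
          rw [h6, mul_inv_cancel_left]
    rw [h1, Finset.sum_product]
    refine Finset.sum_congr rfl fun g _ => ?_
    rw [TensorProduct.tmul_sum]
  rw [hR, Finset.sum_congr rfl hL]
  refine Finset.sum_fiberwise_of_maps_to (g := fun y : U × U => β * T.tr i y.1) ?_ _
  intro y hy
  rw [Set.Finite.mem_toFinset] at hy
  exact hV y hy.1 hy.2.1 hy.2.2

end SingerRN
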