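import Mathlib
import Pool.Agent.Lib_MP_394d50_rn.SER
import Pool.Agent.Lib_MP_394d50_rn.DEN

/-!
# Piece TLQ: linear maps on the tensor product (about 100 lines)

`exists_lin`: the set `M = {b | Pr T t i b}` is a submodule over `F₂` (`pr_zero` with `pr_mono`, `pr_add`,
`pr_smul`) and `ser T t r i` is linear on it (`ser_add`, `ser_smul`); extend it to `D`
(`LinearMap.exists_extend`, `ZMod 2` is a field).
`exists_theta`: let `Λ₁` for the order `r₁`, `Λ₂` for the order `r₂`. The map
`(a, b) ↦ (y ↦ if tr i (y.1 * y.2) = p then Λ₁ (star a) y.1⁻¹ * Λ₂ b y.2 else 0)` is bilinear over `F₂`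
(`star` is additive, and `star (c • a) = c • star a` as `c` is `0` or `1`); use `LinearMap.mk₂` and
`TensorProduct.lift`.
-/

namespace SingerRN

open SingerRA
open scoped TensorProduct

section

variable {U : Type} [Group U] {T : Tow U} {D : Type} [DivisionRing D] [Algebra (ZMod 2) D]
  {t : U →* Dˣ}

theorem exists_lin (h : DSys T t) (hO : ∀ i, OreExt (phiI T t i)) {r : U → U → Prop}
    (hr : TOrd T r) (i : ℕ) :
    ∃ L : D →ₗ[ZMod 2] (U → ZMod 2), ∀ b, Pr T t i b → L b = ser T t r i b := by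
  let M : Submodule (ZMod 2) D :=
    { carrier := {b | Pr T t i b}
      add_mem' := fun {a b} ha hb => pr_add hO ha hb
      zero_mem' := pr_mono (Nat.zero_le i) (pr_zero hO)
      smul_mem' := fun c x hx => pr_smul hO c hx }
  let f : M →ₗ[ZMod 2] (U → ZMod 2) :=
    { toFun := fun b => ser T t r i (b : D)
      map_add' := fun a b => ser_add h hO hr a.2 b.2
      map_smul' := fun c a => ser_smul h hO hr c a.2 }
  obtain ⟨L, hL⟩ := LinearMap.exists_extend f
  refine ⟨L, fun b hb => ?_⟩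
  have h1 : (L ∘ₗ M.subtype) ⟨b, hb⟩ = f ⟨b, hb⟩ := by rw [hL]
  exact h1

private theorem tlq_star_smul [StarRing D] (c : ZMod 2) (a : D) : star (c • a) = c • star a := by
  have hc : c = 0 ∨ c = 1 := by revert c; decide
  rcases hc with rfl | rfl
  · rw [zero_smul, zero_smul, star_zero]
  · rw [one_smul, one_smul]

theorem exists_theta [StarRing D] (h : DSys T t) (hO : ∀ i, OreExt (phiI T t i))
    {r₁ r₂ : U → U → Prop} (hr₁ : TOrd T r₁) (hr₂ : TOrd T r₂) (i : ℕ) (p : U) [DecidableEq U] :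
    ∃ Θ : TT D →ₗ[ZMod 2] (U × U → ZMod 2), ∀ a b, Pr T t i (star a) → Pr T t i b →
      ∀ y, Θ (a ⊗ₜ[ZMod 2] b) y = if T.tr i (y.1 * y.2) = p then
        ser T t r₁ i (star a) y.1⁻¹ * ser T t r₂ i b y.2 else 0 := by
  obtain ⟨L₁, hL₁⟩ := exists_lin h hO hr₁ i
  obtain ⟨L₂, hL₂⟩ := exists_lin h hO hr₂ i
  let f : D → D → (U × U → ZMod 2) := fun a b y =>
    if T.tr i (y.1 * y.2) = p then L₁ (star a) y.1⁻¹ * L₂ b y.2 else 0
  have h1 : ∀ a a' b, f (a + a') b = f a b + f a' b := by
    intro a a' b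
    funext y
    simp only [f, Pi.add_apply]
    split_ifs
    · rw [star_add, map_add, Pi.add_apply, add_mul]
    · rw [add_zero]
  have h2 : ∀ (c : ZMod 2) a b, f (c • a) b = c • f a b := by
    intro c a b
    funext y
    simp only [f, Pi.smul_apply]
    split_ifs
    · rw [tlq_star_smul, map_smul, Pi.smul_apply, smul_mul_assoc]
    · rw [smul_zero]
  have h3 : ∀ a b b', f a (b + b') = f a b + f a b' := by
    intro a b b'
    funext y
    simp only [f, Pi.add_apply]
    split_ifs
    · rw [map_add, Pi.add_apply, mul_add]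
    · rw [add_zero]
  have h4 : ∀ (c : ZMod 2) a b, f a (c • b) = c • f a b := by
    intro c a b
    funext y
    simp only [f, Pi.smul_apply]
    split_ifs
    · rw [map_smul, Pi.smul_apply, mul_smul_comm]
    · rw [smul_zero]
  refine ⟨TensorProduct.lift (LinearMap.mk₂ (ZMod 2) f h1 h2 h3 h4), fun a b ha hb y => ?_⟩
  rw [TensorProduct.lift.tmul, LinearMap.mk₂_apply]
  change (if T.tr i (y.1 * y.2) = p then L₁ (star a) y.1⁻¹ * L₂ b y.2 else 0) = _
  rw [hL₁ _ ha, hL₂ _ hb]

end

end SingerRN
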