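import Mathlib
import Pool.Agent.Lib_MP_394d50_rn.TLL
import Pool.Agent.Lib_MP_394d50_rn.TLP
import Pool.Agent.Lib_MP_394d50_rn.TLQ
import Pool.Agent.Lib_MP_394d50_rn.PRI

/-!
# Piece TLM: the transfer through free modules (about 250 lines)

Notation: `a ⊗ b` is mapped by `act (t u)` to `a (t u)⁻¹ ⊗ t u b`, `outer s s' (a ⊗ b) = s a ⊗ b s'`.
Choose a level `i` with `Pr T t i (star a)` for `a ∈ A` and `Pr T t i b` for `b ∈ B` (`pr_all`, `pr_mono`,
maximum), `s₀ ≠ 0` with `phiI s₀ * a = phiI (y a)` for `a ∈ A` (`common_den`) and `s₀' ≠ 0` with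
`b * phiI s₀' = phiI (z b)` for `b ∈ B` (`common_den_right`). `s = phiI s₀`, `s' = phiI s₀'` (nonzero by
injectivity). `N` = the span of the `a (t u)⁻¹ ⊗ t u b`, `a ∈ A`, `b ∈ B`, `u : U`. Let `Q ⊆ V_i` be the
finite set of the products `v v'`, `v ∈ supp (y a)`, `v' ∈ supp (z b)`, `a ∈ A`, `b ∈ B`. The index set is
`ι = Q × supp s₀ × supp s₀'` (as subtypes of `Finset`s). For `m = (q, β, δ)` let `Θ m` be given by
`exists_theta` with `r₁ = rtr (rev (rtr r q)) β⁻¹`, `r₂ = rtr r δ`, `p = β⁻¹ q δ⁻¹`, and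
`w m (g, g') = (s₀_β t (β g)) ⊗ (t (g' δ) s₀'_δ)`.
* `act (t u)` maps generators of `N` to generators.
* Finite supports: on a generator `a (t u)⁻¹ ⊗ t u b` the support of `Θ m` is contained in a set as in
  `pairs_finite` (with `G = ser r₁ (star (a (t u)⁻¹))`, `star (a (t u)⁻¹) = t u * star a`, `Pr` by
  `pr_left`; `ser_spec`); then `Submodule.span_induction`.
* Equivariance of `Θ m`: on a generator `x = a ⊗ b` (with `Pr (star a)`, `Pr b`):
  `act (t u) x = a (t u)⁻¹ ⊗ t u b`, `star (a (t u)⁻¹) = t u * star a`, `ser_left`: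
  `ser r₁ (t u * star a) g⁻¹ = ser r₁ (star a) (u⁻¹ * g⁻¹) = ser r₁ (star a) (g u)⁻¹`,
  `ser r₂ (t u b) g' = ser r₂ b (u⁻¹ g')`, and `(g u) (u⁻¹ g') = g g'`. Then linearity.
* Equivariance of `w m`: `t (β (g u⁻¹)) = t (β g) (t u)⁻¹`, `t ((u g') δ) = t u * t (g' δ)`.
* The formula. Both sides are linear on `N` (finite sums over the finite supports:
  `finsum_add_distrib`), and compatible with `act (t u)` (by the two equivariances, reindexing the
  finite sum by `(g, g') ↦ (g u⁻¹, u g')`; `outer s s'` commutes with `act`), so it is enough to prove it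
  for `x = a ⊗ b`, `a ∈ A`, `b ∈ B`. With `Y v = (y a).coeff v * t v`, `Z v = (z b).coeff v * t v`:
  `s a ⊗ b s' = ∑_{v ∈ supp (y a)} ∑_{v' ∈ supp (z b)} Y v ⊗ Z v'
    = ∑_{q ∈ Q} ∑_{v ∈ supp (y a)} Y v ⊗ Z (v⁻¹ q)`. Fix `q ∈ Q`. By `ser_mul_left` for the order
  `rev (rtr r q)` and `ser_mul` for the order `r`, for every finite set `V' ⊆ V_i` containing
  `supp (y a)`: `∑_{v ∈ V'} Y v ⊗ Z (v⁻¹ q) = ∑_β ∑_δ ∑_{v ∈ V'} (s₀_β t β * kp (fun u => G_β u⁻¹) (β⁻¹ v)) ⊗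
  (kp F_δ (v⁻¹ q δ⁻¹) * (t δ s₀'_δ))` with `G_β = ser r₁ (star a)`, `F_δ = ser r₂ b`. Take `V'` so large that
  it contains the `β * tr i g` for the finitely many pairs of `pairs_finite` for all `β, δ`; by
  `sum_pairs` the inner sum is `∑ᶠ_y Θ m (a ⊗ b) y • w m y` (apply the linear map
  `outer (s₀_β t β) (t δ s₀'_δ)` to the identity of `sum_pairs`).
-/

namespace SingerRN

open SingerRA
open scoped TensorProduct

/-- Multiplication of the first factor on the left and of the second factor on the right. -/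
noncomputable def outer {D : Type} [DivisionRing D] [Algebra (ZMod 2) D] (s s' : D) :
    TT D →ₗ[ZMod 2] TT D :=
  TensorProduct.map (LinearMap.mulLeft (ZMod 2) s) (LinearMap.mulRight (ZMod 2) s')

section

variable {U : Type} [Group U] {T : Tow U} {D : Type} [DivisionRing D] {t : U →* Dˣ}

private theorem tlm_phi (i : ℕ) (x : MonoidAlgebra (Di T t i) (T.V i)) :
    phiI T t i x =
      ∑ v ∈ x.coeff.support, ((x.coeff v : Di T t i) : D) * ((t (v : U) : Dˣ) : D) := by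
  have h1 : x = ∑ v ∈ x.coeff.support, MonoidAlgebra.single v (x.coeff v) := by
    apply MonoidAlgebra.coeff_injective
    rw [MonoidAlgebra.coeff_sum]
    conv_lhs => rw [← Finsupp.sum_single x.coeff]
    rfl
  conv_lhs => rw [h1]
  rw [map_sum]
  exact Finset.sum_congr rfl fun v _ => phiI_single T t i v _

variable [Algebra (ZMod 2) D]

private theorem tlm_outer_tmul (s s' a b : D) :
    outer s s' (a ⊗ₜ[ZMod 2] b) = (s * a) ⊗ₜ[ZMod 2] (b * s') := rfl

private theorem tlm_act_tmul (u : Dˣ) (a b : D) :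
    act u (a ⊗ₜ[ZMod 2] b) = (a * ((u⁻¹ : Dˣ) : D)) ⊗ₜ[ZMod 2] ((u : D) * b) := rfl

private theorem tlm_outer_act (u : Dˣ) (s s' : D) (x : TT D) :
    outer s s' (act u x) = act u (outer s s' x) := by
  induction x using TensorProduct.induction_on with
  | zero => simp only [map_zero]
  | tmul a b => rw [tlm_act_tmul, tlm_outer_tmul, tlm_outer_tmul, tlm_act_tmul, mul_assoc, mul_assoc]
  | add x y hx hy => rw [map_add, map_add, map_add, map_add, hx, hy]

/-- The tensor product of two elements of the group ring, sorted by the product of the degrees. -/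
private theorem tlm_sort {V : Type} [Group V] [DecidableEq V] {Y Z : V → D} {SY SZ Q V' : Finset V}
    (hY : ∀ v, v ∉ SY → Y v = 0) (hZ : ∀ v, v ∉ SZ → Z v = 0) (hV : SY ⊆ V')
    (hQ : ∀ v ∈ SY, ∀ v' ∈ SZ, v * v' ∈ Q) :
    (∑ v ∈ SY, Y v) ⊗ₜ[ZMod 2] (∑ v ∈ SZ, Z v) =
      ∑ q ∈ Q, ∑ v ∈ V', Y v ⊗ₜ[ZMod 2] Z (v⁻¹ * q) := by
  rw [Finset.sum_comm, TensorProduct.sum_tmul]
  have h1 : ∀ v ∈ V', v ∉ SY → (Y v ⊗ₜ[ZMod 2] ∑ v' ∈ SZ, Z v' : TT D) = 0 := fun v _ hv => by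
    rw [hY v hv, TensorProduct.zero_tmul]
  rw [Finset.sum_subset hV h1]
  refine Finset.sum_congr rfl fun v _ => ?_
  by_cases hv : v ∈ SY
  · rw [← TensorProduct.tmul_sum]
    congr 1
    have h2 : SZ.image (fun v' => v * v') ⊆ Q := by
      intro q hq
      obtain ⟨v', hv', rfl⟩ := Finset.mem_image.1 hq
      exact hQ v hv v' hv'
    rw [← Finset.sum_subset h2, Finset.sum_image]
    · exact Finset.sum_congr rfl fun v' _ => by rw [inv_mul_cancel_left]
    · intro x _ y _ hxy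
      exact mul_left_cancel hxy
    · intro q _ hq
      refine hZ _ fun hq' => hq (Finset.mem_image.2 ⟨_, hq', ?_⟩)
      exact mul_inv_cancel_left v q
  · rw [hY v hv, TensorProduct.zero_tmul]
    exact (Finset.sum_eq_zero fun q _ => TensorProduct.zero_tmul _ _).symm

private theorem tlm_main [StarRing D]
    (hs : ∀ u, star ((t u : Dˣ) : D) = (((t u)⁻¹ : Dˣ) : D)) (h : DSys T t)
    (hO : ∀ i, OreExt (phiI T t i)) {r : U → U → Prop} (hr : TOrd T r) {i : ℕ} {a b : D}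
    (ha : Pr T t i (star a)) (hb : Pr T t i b)
    {s₀ s₁ y z : MonoidAlgebra (Di T t i) (T.V i)}
    (hy : phiI T t i s₀ * a = phiI T t i y) (hz : b * phiI T t i s₁ = phiI T t i z)
    (Q : Finset (T.V i)) (hQ : ∀ v ∈ y.coeff.support, ∀ v' ∈ z.coeff.support, v * v' ∈ Q)
    [DecidableEq U] :
    (phiI T t i s₀ * a) ⊗ₜ[ZMod 2] (b * phiI T t i s₁) =
      ∑ m ∈ Q ×ˢ (s₀.coeff.support ×ˢ s₁.coeff.support),
        ∑ᶠ x : U × U, (if T.tr i (x.1 * x.2) = (m.2.1 : U)⁻¹ * (m.1 : U) * (m.2.2 : U)⁻¹ then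
          ser T t (rtr (rev (rtr r (m.1 : U))) (m.2.1 : U)⁻¹) i (star a) x.1⁻¹ *
            ser T t (rtr r (m.2.2 : U)) i b x.2 else 0) •
          ((((s₀.coeff m.2.1 : Di T t i) : D) * ((t ((m.2.1 : U) * x.1) : Dˣ) : D)) ⊗ₜ[ZMod 2]
            (((t (x.2 * (m.2.2 : U)) : Dˣ) : D) * ((s₁.coeff m.2.2 : Di T t i) : D)) : TT D) := by
  classical
  have hfin : ∀ m : T.V i × T.V i × T.V i,
      {x : U × U | ser T t (rtr (rev (rtr r (m.1 : U))) (m.2.1 : U)⁻¹) i (star a) x.1⁻¹ ≠ 0 ∧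
        ser T t (rtr r (m.2.2 : U)) i b x.2 ≠ 0 ∧
        T.tr i (x.1 * x.2) = (m.2.1 : U)⁻¹ * (m.1 : U) * (m.2.2 : U)⁻¹}.Finite :=
    fun m => pairs_finite hr m.1.2 m.2.1.2 m.2.2.2 (ser_spec (hr.rtr _) hb).1
      (ser_spec ((hr.rtr _).rev.rtr _) ha).1
  let tv : U → T.V i := fun u => ⟨T.tr i u, u, rfl⟩
  let V' : Finset (T.V i) := y.coeff.support ∪
    (Q ×ˢ (s₀.coeff.support ×ˢ s₁.coeff.support)).biUnion fun m =>
      (hfin m).toFinset.image fun x => m.2.1 * tv x.1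
  rw [hy, hz, tlm_phi i y, tlm_phi i z,
    tlm_sort (Y := fun v => ((y.coeff v : Di T t i) : D) * ((t (v : U) : Dˣ) : D))
      (Z := fun v => ((z.coeff v : Di T t i) : D) * ((t (v : U) : Dˣ) : D)) (V' := V') (Q := Q)
      (fun v hv => by
        rw [Finsupp.notMem_support_iff.1 hv, ZeroMemClass.coe_zero, zero_mul])
      (fun v hv => by
        rw [Finsupp.notMem_support_iff.1 hv, ZeroMemClass.coe_zero, zero_mul])
      Finset.subset_union_left hQ, Finset.sum_product]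
  refine Finset.sum_congr rfl fun q hq => ?_
  rw [Finset.sum_product]
  have h1 : ∀ v ∈ V', ((((y.coeff v : Di T t i) : D) * ((t (v : U) : Dˣ) : D)) ⊗ₜ[ZMod 2]
      (((z.coeff (v⁻¹ * q) : Di T t i) : D) * ((t ((v⁻¹ * q : T.V i) : U) : Dˣ) : D)) : TT D) =
      ∑ β ∈ s₀.coeff.support, ∑ δ ∈ s₁.coeff.support,
        outer (((s₀.coeff β : Di T t i) : D) * ((t (β : U) : Dˣ) : D))
          (((t (δ : U) : Dˣ) : D) * ((s₁.coeff δ : Di T t i) : D))
          (kp T t i (fun u => ser T t (rtr (rev (rtr r (q : U))) (β : U)⁻¹) i (star a) u⁻¹)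
            ((β : U)⁻¹ * v) ⊗ₜ[ZMod 2]
            kp T t i (ser T t (rtr r (δ : U)) i b) ((v : U)⁻¹ * q * (δ : U)⁻¹)) := by
    intro v _
    rw [ser_mul_left hs h hO ((hr.rtr (q : U)).rev) ha hy v, ser_mul h hO hr hb hz (v⁻¹ * q),
      TensorProduct.sum_tmul]
    refine Finset.sum_congr rfl fun β _ => ?_
    rw [TensorProduct.tmul_sum]
    refine Finset.sum_congr rfl fun δ _ => ?_
    rw [tlm_outer_tmul]
    rfl
  rw [Finset.sum_congr rfl h1, Finset.sum_comm]
  refine Finset.sum_congr rfl fun β hβ => ?_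
  rw [Finset.sum_comm]
  refine Finset.sum_congr rfl fun δ hδ => ?_
  rw [← map_sum]
  have h2 := sum_pairs (T := T) (t := t) (i := i) q.2 β.2 δ.2
    (ser_spec (hr.rtr (δ : U)) hb).1.2 (ser_spec ((hr.rtr (q : U)).rev.rtr (β : U)⁻¹) ha).1.2
    (hfin (q, β, δ)) (V'.map (Function.Embedding.subtype _)) (by
      intro x hx1 hx2 hx3
      refine Finset.mem_map.2 ⟨β * tv x.1, ?_, rfl⟩
      refine Finset.mem_union_right _ (Finset.mem_biUnion.2 ⟨(q, β, δ), ?_, ?_⟩)
      · exact Finset.mem_product.2 ⟨hq, Finset.mem_product.2 ⟨hβ, hδ⟩⟩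
      · exact Finset.mem_image.2 ⟨x, (Set.Finite.mem_toFinset _).2 ⟨hx1, hx2, hx3⟩, rfl⟩)
  rw [Finset.sum_map] at h2
  have h3 := congrArg (outer (((s₀.coeff β : Di T t i) : D) * ((t (β : U) : Dˣ) : D))
          (((t (δ : U) : Dˣ) : D) * ((s₁.coeff δ : Di T t i) : D))) h2
  refine Eq.trans h3 ?_
  have hsup : (Function.support fun x : U × U =>
      (if T.tr i (x.1 * x.2) = (β : U)⁻¹ * (q : U) * (δ : U)⁻¹ then
          ser T t (rtr (rev (rtr r (q : U))) (β : U)⁻¹) i (star a) x.1⁻¹ *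
            ser T t (rtr r (δ : U)) i b x.2 else 0) •
        (((t x.1 : Dˣ) : D) ⊗ₜ[ZMod 2] ((t x.2 : Dˣ) : D))).Finite := by
    refine (hfin (q, β, δ)).subset fun x hx => ?_
    rw [Function.mem_support] at hx
    by_cases h4 : T.tr i (x.1 * x.2) = (β : U)⁻¹ * (q : U) * (δ : U)⁻¹
    · rw [if_pos h4] at hx
      refine ⟨fun h5 => hx ?_, fun h5 => hx ?_, h4⟩
      · show (_ * _) • _ = _
        rw [h5, zero_mul, zero_smul]
      · show (_ * _) • _ = _
        rw [h5, mul_zero, zero_smul]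
    · rw [if_neg h4, zero_smul] at hx
      exact absurd rfl hx
  refine Eq.trans (AddMonoidHom.map_finsum (outer (((s₀.coeff β : Di T t i) : D) *
    ((t (β : U) : Dˣ) : D)) (((t (δ : U) : Dˣ) : D) *
      ((s₁.coeff δ : Di T t i) : D))).toAddMonoidHom hsup) ?_
  refine finsum_congr fun x => ?_
  have e1 : ((s₀.coeff β : Di T t i) : D) * ((t (β : U) : Dˣ) : D) * ((t x.1 : Dˣ) : D) =
      ((s₀.coeff β : Di T t i) : D) * ((t ((β : U) * x.1) : Dˣ) : D) := by
    rw [map_mul, Units.val_mul, mul_assoc]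
  have e2 : ((t x.2 : Dˣ) : D) * (((t (δ : U) : Dˣ) : D) * ((s₁.coeff δ : Di T t i) : D)) =
      ((t (x.2 * (δ : U)) : Dˣ) : D) * ((s₁.coeff δ : Di T t i) : D) := by
    rw [map_mul, Units.val_mul, mul_assoc]
  rw [LinearMap.toAddMonoidHom_coe, map_smul, tlm_outer_tmul, e1, e2]

end

theorem tl_main {U : Type} [Group U] {T : Tow U} {D : Type} [DivisionRing D]
    [Algebra (ZMod 2) D] [StarRing D] {t : U →* Dˣ}
    (hs : ∀ u, star ((t u : Dˣ) : D) = (((t u)⁻¹ : Dˣ) : D)) (h : DSys T t)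
    (hO : ∀ i, OreExt (phiI T t i)) {r : U → U → Prop} (hr : TOrd T r) (A B : Finset D) :
    ∃ (N : Submodule (ZMod 2) (TT D)) (s s' : D) (ι : Type) (_ : Fintype ι)
      (Θ : ι → TT D →ₗ[ZMod 2] (U × U → ZMod 2)) (w : ι → U × U → TT D), s ≠ 0 ∧ s' ≠ 0 ∧
      (∀ a ∈ A, ∀ b ∈ B, a ⊗ₜ[ZMod 2] b ∈ N) ∧ (∀ u, ∀ x ∈ N, act (t u) x ∈ N) ∧
      (∀ m, ∀ x ∈ N, (Function.support (Θ m x)).Finite) ∧
      (∀ m u, ∀ x ∈ N, ∀ g g', Θ m (act (t u) x) (g, g') = Θ m x (g * u, u⁻¹ * g')) ∧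
      (∀ m u g g', w m (g * u⁻¹, u * g') = act (t u) (w m (g, g'))) ∧
      ∀ x ∈ N, outer s s' x = ∑ m, ∑ᶠ y, Θ m x y • w m y := by
  classical
  -- the level
  obtain ⟨i, hA, hB⟩ : ∃ i, (∀ a ∈ A, Pr T t i (star a)) ∧ ∀ b ∈ B, Pr T t i b := by
    choose f hf using pr_all (T := T) (t := t) h hO
    refine ⟨(A.sup fun a => f (star a)) ⊔ B.sup f, fun a ha => pr_mono ?_ (hf (star a)),
      fun b hb => pr_mono ?_ (hf b)⟩
    · exact le_trans (Finset.le_sup (f := fun a => f (star a)) ha) le_sup_left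
    · exact le_trans (Finset.le_sup (f := f) hb) le_sup_right
  -- the denominators
  obtain ⟨s₀, hs₀, hy⟩ := common_den (hO i) A
  obtain ⟨s₁, hs₁, hz⟩ := common_den_right hs (hO i) B
  choose! y hy using hy
  choose! z hz using hz
  let Q : Finset (T.V i) := A.biUnion fun a => B.biUnion fun b =>
    ((y a).coeff.support ×ˢ (z b).coeff.support).image fun v => v.1 * v.2
  have hQ : ∀ a ∈ A, ∀ b ∈ B, ∀ v ∈ (y a).coeff.support, ∀ v' ∈ (z b).coeff.support,
      v * v' ∈ Q := by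
    intro a ha b hb v hv v' hv'
    refine Finset.mem_biUnion.2 ⟨a, ha, Finset.mem_biUnion.2 ⟨b, hb, Finset.mem_image.2
      ⟨(v, v'), Finset.mem_product.2 ⟨hv, hv'⟩, rfl⟩⟩⟩
  -- the linear maps
  choose Θ hΘ using fun m : T.V i × T.V i × T.V i => exists_theta (T := T) (t := t) h hO
    ((hr.rtr (m.1 : U)).rev.rtr (m.2.1 : U)⁻¹) (hr.rtr (m.2.2 : U)) i
    ((m.2.1 : U)⁻¹ * (m.1 : U) * (m.2.2 : U)⁻¹)
  let w : T.V i × T.V i × T.V i → U × U → TT D := fun m x =>
    (((s₀.coeff m.2.1 : Di T t i) : D) * ((t ((m.2.1 : U) * x.1) : Dˣ) : D)) ⊗ₜ[ZMod 2]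
      (((t (x.2 * (m.2.2 : U)) : Dˣ) : D) * ((s₁.coeff m.2.2 : Di T t i) : D))
  have hw : ∀ m u g g', w m (g * u⁻¹, u * g') = act (t u) (w m (g, g')) := by
    intro m u g g'
    show _ ⊗ₜ[ZMod 2] _ = act (t u) (_ ⊗ₜ[ZMod 2] _)
    rw [tlm_act_tmul]
    have e1 : ((s₀.coeff m.2.1 : Di T t i) : D) * ((t ((m.2.1 : U) * (g * u⁻¹)) : Dˣ) : D) =
        ((s₀.coeff m.2.1 : Di T t i) : D) * ((t ((m.2.1 : U) * g) : Dˣ) : D) *
          (((t u)⁻¹ : Dˣ) : D) := by
      rw [← mul_assoc, map_mul t _ u⁻¹, Units.val_mul, map_inv, mul_assoc]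
    have e2 : ((t (u * g' * (m.2.2 : U)) : Dˣ) : D) * ((s₁.coeff m.2.2 : Di T t i) : D) =
        ((t u : Dˣ) : D) * (((t (g' * (m.2.2 : U)) : Dˣ) : D) *
          ((s₁.coeff m.2.2 : Di T t i) : D)) := by
      rw [mul_assoc u, map_mul t u, Units.val_mul, mul_assoc]
    rw [e1, e2]
  -- the generators
  have hst : ∀ (a : D) (u : U), star (a * (((t u)⁻¹ : Dˣ) : D)) = ((t u : Dˣ) : D) * star a := by
    intro a u
    rw [star_mul, ← map_inv, hs, ← map_inv, inv_inv]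
  let gen : D → D → U → TT D := fun a b u =>
    (a * (((t u)⁻¹ : Dˣ) : D)) ⊗ₜ[ZMod 2] (((t u : Dˣ) : D) * b)
  have hgen : ∀ a b u, gen a b u = act (t u) (a ⊗ₜ[ZMod 2] b) := fun a b u => rfl
  have hactact : ∀ (u u' : U) (x : TT D), act (t u) (act (t u') x) = act (t (u * u')) x := by
    intro u u' x
    induction x using TensorProduct.induction_on with
    | zero => simp only [map_zero]
    | tmul a b =>
      rw [tlm_act_tmul, tlm_act_tmul, tlm_act_tmul, map_mul, mul_inv_rev, Units.val_mul,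
        Units.val_mul, mul_assoc, mul_assoc]
    | add x y hx hy => rw [map_add, map_add, map_add, hx, hy]
  let N : Submodule (ZMod 2) (TT D) :=
    Submodule.span (ZMod 2) {x | ∃ a ∈ A, ∃ b ∈ B, ∃ u, x = gen a b u}
  have hNact : ∀ u, ∀ x ∈ N, act (t u) x ∈ N := by
    intro u
    have h1 : N ≤ N.comap (act (t u)) := by
      refine Submodule.span_le.2 ?_
      rintro x ⟨a, ha, b, hb, u', rfl⟩
      refine Submodule.subset_span ⟨a, ha, b, hb, u * u', ?_⟩
      rw [hgen, hgen, hactact]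
    exact h1
  -- the values on the generators
  have hval : ∀ a ∈ A, ∀ b ∈ B, ∀ m u g g',
      Θ m (gen a b u) (g, g') = Θ m (a ⊗ₜ[ZMod 2] b) (g * u, u⁻¹ * g') := by
    intro a ha b hb m u g g'
    have hp1 : Pr T t i (star (a * (((t u)⁻¹ : Dˣ) : D))) := by
      rw [hst]
      exact pr_left hO (hA a ha) u
    show Θ m ((a * (((t u)⁻¹ : Dˣ) : D)) ⊗ₜ[ZMod 2] (((t u : Dˣ) : D) * b)) (g, g') = _
    rw [hΘ m _ _ hp1 (pr_left hO (hB b hb) u), hΘ m _ _ (hA a ha) (hB b hb), hst,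
      ser_left h hO ((hr.rtr (m.1 : U)).rev.rtr (m.2.1 : U)⁻¹) (hA a ha),
      ser_left h hO (hr.rtr (m.2.2 : U)) (hB b hb)]
    have e1 : g * u * (u⁻¹ * g') = g * g' := by group
    have e2 : (g * u)⁻¹ = u⁻¹ * g⁻¹ := mul_inv_rev g u
    simp only [e1, e2]
  have hfin0 : ∀ a ∈ A, ∀ b ∈ B, ∀ m, (Function.support (Θ m (a ⊗ₜ[ZMod 2] b))).Finite := by
    intro a ha b hb m
    refine (pairs_finite hr m.1.2 m.2.1.2 m.2.2.2 (ser_spec (hr.rtr _) (hB b hb)).1
      (ser_spec ((hr.rtr _).rev.rtr _) (hA a ha)).1).subset fun x hx => ?_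
    rw [Function.mem_support, hΘ m a b (hA a ha) (hB b hb)] at hx
    split_ifs at hx with h4
    · exact ⟨left_ne_zero_of_mul hx, right_ne_zero_of_mul hx, h4⟩
    · exact absurd rfl hx
  have hfin : ∀ m, ∀ x ∈ N, (Function.support (Θ m x)).Finite := by
    intro m x hx
    induction hx using Submodule.span_induction with
    | mem x hx =>
      obtain ⟨a, ha, b, hb, u, rfl⟩ := hx
      have h1 : Set.InjOn (fun p : U × U => (p.1 * u, u⁻¹ * p.2))
          ((fun p : U × U => (p.1 * u, u⁻¹ * p.2)) ⁻¹'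
            Function.support (Θ m (a ⊗ₜ[ZMod 2] b))) := by
        rintro ⟨g, g'⟩ _ ⟨k, k'⟩ _ hgk
        rw [Prod.mk.injEq] at hgk
        exact Prod.ext (mul_right_cancel hgk.1) (mul_left_cancel hgk.2)
      refine ((hfin0 a ha b hb m).preimage h1).subset fun p hp => ?_
      rw [Function.mem_support, show p = (p.1, p.2) from rfl, hval a ha b hb m u] at hp
      exact hp
    | zero =>
      rw [map_zero, Function.support_zero]
      exact Set.finite_empty
    | add x y _ _ hx hy =>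
      rw [map_add]
      exact (hx.union hy).subset (Function.support_add _ _)
    | smul c x _ hx =>
      rw [map_smul]
      exact hx.subset (Function.support_const_smul_subset c _)
  have hequi : ∀ m u, ∀ x ∈ N, ∀ g g',
      Θ m (act (t u) x) (g, g') = Θ m x (g * u, u⁻¹ * g') := by
    intro m u x hx g g'
    induction hx using Submodule.span_induction with
    | mem x hx =>
      obtain ⟨a, ha, b, hb, u', rfl⟩ := hx
      have e0 : act (t u) (gen a b u') = gen a b (u * u') := by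
        rw [hgen, hgen, hactact]
      rw [e0, hval a ha b hb, hval a ha b hb]
      have e1 : g * (u * u') = g * u * u' := (mul_assoc _ _ _).symm
      have e2 : (u * u')⁻¹ * g' = u'⁻¹ * (u⁻¹ * g') := by group
      rw [e1, e2]
    | zero => rw [map_zero, map_zero]; rfl
    | add x y _ _ hx hy =>
      rw [map_add, map_add, map_add, Pi.add_apply, Pi.add_apply, hx, hy]
    | smul c x _ hx =>
      rw [map_smul, map_smul, map_smul, Pi.smul_apply, Pi.smul_apply, hx]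
  let S := Q ×ˢ (s₀.coeff.support ×ˢ s₁.coeff.support)
  have hform : ∀ x ∈ N, outer (phiI T t i s₀) (phiI T t i s₁) x =
      ∑ m ∈ S, ∑ᶠ p, Θ m x p • w m p := by
    have hsupp : ∀ m, ∀ x ∈ N, (Function.support fun p => Θ m x p • w m p).Finite := by
      intro m x hx
      refine (hfin m x hx).subset fun p hp hp' => hp ?_
      show _ • _ = _
      rw [hp', zero_smul]
    intro x hx
    induction hx using Submodule.span_induction with
    | mem x hx =>
      obtain ⟨a, ha, b, hb, u, rfl⟩ := hx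
      have h0 : a ⊗ₜ[ZMod 2] b ∈ N := Submodule.subset_span ⟨a, ha, b, hb, 1, by
        show a ⊗ₜ[ZMod 2] b = (a * (((t 1)⁻¹ : Dˣ) : D)) ⊗ₜ[ZMod 2] (((t 1 : Dˣ) : D) * b)
        rw [map_one, inv_one, Units.val_one, mul_one, one_mul]⟩
      rw [hgen, tlm_outer_act, tlm_outer_tmul, tlm_main hs h hO hr (hA a ha) (hB b hb)
        (hy a ha) (hz b hb) Q (hQ a ha b hb), map_sum]
      refine Finset.sum_congr rfl fun m _ => ?_
      have h1 : ∀ p : U × U, (if T.tr i (p.1 * p.2) = (m.2.1 : U)⁻¹ * (m.1 : U) * (m.2.2 : U)⁻¹ then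
          ser T t (rtr (rev (rtr r (m.1 : U))) (m.2.1 : U)⁻¹) i (star a) p.1⁻¹ *
            ser T t (rtr r (m.2.2 : U)) i b p.2 else 0) •
          ((((s₀.coeff m.2.1 : Di T t i) : D) * ((t ((m.2.1 : U) * p.1) : Dˣ) : D)) ⊗ₜ[ZMod 2]
            (((t (p.2 * (m.2.2 : U)) : Dˣ) : D) * ((s₁.coeff m.2.2 : Di T t i) : D)) : TT D) =
          Θ m (a ⊗ₜ[ZMod 2] b) p • w m p := by
        intro p
        rw [hΘ m a b (hA a ha) (hB b hb)]
      rw [finsum_congr h1]
      refine Eq.trans (AddMonoidHom.map_finsum (act (t u)).toAddMonoidHom (hsupp m _ h0)) ?_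
      let e : U × U ≃ U × U := (Equiv.mulRight u⁻¹).prodCongr (Equiv.mulLeft u)
      have h2 : ∀ p : U × U, (act (t u)).toAddMonoidHom (Θ m (a ⊗ₜ[ZMod 2] b) p • w m p) =
          Θ m (act (t u) (a ⊗ₜ[ZMod 2] b)) (e p) • w m (e p) := by
        rintro ⟨g, g'⟩
        have he : e (g, g') = (g * u⁻¹, u * g') := rfl
        rw [he, hw, hequi m u _ h0, inv_mul_cancel_right, inv_mul_cancel_left,
          LinearMap.toAddMonoidHom_coe, map_smul]
      rw [finsum_congr h2]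
      exact finsum_comp_equiv (f := fun p => Θ m (act (t u) (a ⊗ₜ[ZMod 2] b)) p • w m p) e
    | zero =>
      simp only [map_zero, Pi.zero_apply, zero_smul, finsum_zero, Finset.sum_const_zero]
    | add x y hx' hy' hx hy =>
      rw [map_add, hx, hy, ← Finset.sum_add_distrib]
      refine Finset.sum_congr rfl fun m _ => ?_
      rw [← finsum_add_distrib (hsupp m x hx') (hsupp m y hy')]
      exact finsum_congr fun p => by rw [map_add, Pi.add_apply, add_smul]
    | smul c x hx' hx =>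
      rw [map_smul, hx, Finset.smul_sum]
      refine Finset.sum_congr rfl fun m _ => ?_
      rw [smul_finsum' c (hsupp m x hx')]
      exact finsum_congr fun p => by rw [map_smul, Pi.smul_apply, smul_smul, smul_eq_mul]
  refine ⟨N, phiI T t i s₀, phiI T t i s₁, {m // m ∈ S}, inferInstance, fun m => Θ m,
    fun m => w m, ?_, ?_, ?_, hNact, fun m => hfin m, fun m => hequi m, fun m => hw m, ?_⟩
  · exact fun h0 => hs₀ ((hO i).inj (h0.trans (map_zero _).symm))
  · exact fun h0 => hs₁ ((hO i).inj (h0.trans (map_zero _).symm))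
  · intro a ha b hb
    refine Submodule.subset_span ⟨a, ha, b, hb, 1, ?_⟩
    show a ⊗ₜ[ZMod 2] b = (a * (((t 1)⁻¹ : Dˣ) : D)) ⊗ₜ[ZMod 2] (((t 1 : Dˣ) : D) * b)
    rw [map_one, inv_one, Units.val_one, mul_one, one_mul]
  · intro x hx
    rw [hform x hx]
    exact (Finset.sum_coe_sort S fun m => ∑ᶠ p, Θ m x p • w m p).symm

end SingerRN
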