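import Mathlib
import Pool.Agent.Lib_MP_394d50_rn.FCX
import Pool.Agent.Lib_MP_394d50_rn.TLM

/-!
# Piece COC: the vanishing theorem (about 170 lines)

Let `c ∈ Co (rhoT (t.comp j)) X p`, `dl X c = 0`, `R` orbit representatives (`hX.exists_reps`). Every
element of `TT D` is in the span of the `a ⊗ b` with `a`, `b` in suitable finite sets
(`TensorProduct.induction_on`), so there are finite sets `A`, `B` such that all `c r`, `r ∈ R`, are in the
span of the `a ⊗ b`, `a ∈ A`, `b ∈ B`. Take `N, s, s', ι, Θ, w` from `tl_main`. Then `c r ∈ N`, and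
`c σ ∈ N` for all `σ` (`c (h • r) = act (t (j h)) (c r)`, `rhoT_apply`; zero outside). For `m : ι` let
`C m σ : U × U →₀ ZMod 2` be `Θ m (c σ)` (`Finsupp.ofSupportFinite`). `C m ∈ Co (rhoF (aUU j)) X p`
(`rhoF_apply`, `aUU_apply`, the equivariance of `Θ m`: `(C m (h • σ)) (g, g') = Θ m (c σ) (g * j h, (j h)⁻¹ * g')`
and `aUU j h⁻¹ (g, g') = (g * j h, (j h)⁻¹ * g')`) and `dl X (C m) = 0` (evaluate at `y`; `Θ m` is
linear). The action `aUU j` is free: `(j h) * g' = g'` gives `j h = 1`, `h = 1`. `exCo_free` gives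
`b m ∈ Co (rhoF (aUU j)) X (p - 1)` with `dl X (b m) = C m`. Let
`d σ = outer s⁻¹ s'⁻¹ (∑ m, Finsupp.linearCombination (ZMod 2) (w m) (b m σ))`.
* `d ∈ Co (rhoT (t.comp j)) X (p - 1)`: `linearCombination (w m) (rhoF (aUU j) h x) =
  act (t (j h)) (linearCombination (w m) x)` by the equivariance of `w m` (check on `Finsupp.single`), and
  `outer` commutes with `act` (check on pure tensors).
* `dl X d = c`: `dl` commutes with linear maps (`dl_map`), so
  `dl X d σ = outer s⁻¹ s'⁻¹ (∑ m, linearCombination (w m) (C m σ))`, and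
  `∑ m, linearCombination (w m) (C m σ) = ∑ m, ∑ᶠ y, Θ m (c σ) y • w m y = outer s s' (c σ)`
  (`finsum_eq_sum_of_support_subset`); `outer s⁻¹ s'⁻¹ (outer s s' x) = x`.
-/

namespace SingerRN

open SingerRA SingerVS
open scoped TensorProduct Pointwise

private theorem coc_span {D : Type} [DivisionRing D] [Algebra (ZMod 2) D] (x : TT D) :
    ∃ A B : Finset D, x ∈ Submodule.span (ZMod 2)
      {z : TT D | ∃ a ∈ A, ∃ b ∈ B, z = a ⊗ₜ[ZMod 2] b} := by
  classical
  induction x using TensorProduct.induction_on with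
  | zero => exact ⟨∅, ∅, Submodule.zero_mem _⟩
  | tmul a b =>
    exact ⟨{a}, {b}, Submodule.subset_span ⟨a, Finset.mem_singleton_self a, b,
      Finset.mem_singleton_self b, rfl⟩⟩
  | add x y hx hy =>
    obtain ⟨A, B, h1⟩ := hx
    obtain ⟨A', B', h2⟩ := hy
    refine ⟨A ∪ A', B ∪ B', Submodule.add_mem _ (Submodule.span_mono ?_ h1)
      (Submodule.span_mono ?_ h2)⟩
    · rintro z ⟨a, ha, b, hb, rfl⟩
      exact ⟨a, Finset.mem_union_left _ ha, b, Finset.mem_union_left _ hb, rfl⟩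
    · rintro z ⟨a, ha, b, hb, rfl⟩
      exact ⟨a, Finset.mem_union_right _ ha, b, Finset.mem_union_right _ hb, rfl⟩

private theorem coc_span_finset {D S : Type} [DivisionRing D] [Algebra (ZMod 2) D]
    (R : Finset S) (c : S → TT D) :
    ∃ A B : Finset D, ∀ r ∈ R, c r ∈ Submodule.span (ZMod 2)
      {z : TT D | ∃ a ∈ A, ∃ b ∈ B, z = a ⊗ₜ[ZMod 2] b} := by
  classical
  choose A B hAB using fun r => coc_span (c r)
  refine ⟨R.biUnion A, R.biUnion B, fun r hr => Submodule.span_mono ?_ (hAB r)⟩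
  rintro z ⟨a, ha, b, hb, rfl⟩
  exact ⟨a, Finset.mem_biUnion.2 ⟨r, hr, ha⟩, b, Finset.mem_biUnion.2 ⟨r, hr, hb⟩, rfl⟩

private theorem coc_outer_act {D : Type} [DivisionRing D] [Algebra (ZMod 2) D] (s s' : D)
    (g : Dˣ) (x : TT D) : outer s s' (act g x) = act g (outer s s' x) := by
  induction x using TensorProduct.induction_on with
  | zero => simp only [map_zero]
  | tmul a b =>
    show (s * (a * ((g⁻¹ : Dˣ) : D))) ⊗ₜ[ZMod 2] (((g : D) * b) * s') =
      ((s * a) * ((g⁻¹ : Dˣ) : D)) ⊗ₜ[ZMod 2] ((g : D) * (b * s'))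
    rw [mul_assoc, mul_assoc]
  | add x y hx hy => simp only [map_add, hx, hy]

private theorem coc_outer_inv {D : Type} [DivisionRing D] [Algebra (ZMod 2) D] {s s' : D}
    (hs : s ≠ 0) (hs' : s' ≠ 0) (x : TT D) : outer s⁻¹ s'⁻¹ (outer s s' x) = x := by
  induction x using TensorProduct.induction_on with
  | zero => simp only [map_zero]
  | tmul a b =>
    show (s⁻¹ * (s * a)) ⊗ₜ[ZMod 2] ((b * s') * s'⁻¹) = a ⊗ₜ[ZMod 2] b
    rw [inv_mul_cancel_left₀ hs, mul_inv_cancel_right₀ hs']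
  | add x y hx hy => simp only [map_add, hx, hy]

private theorem coc_lin {H U D : Type} [Group H] [Group U] [DivisionRing D]
    [Algebra (ZMod 2) D] {t : U →* Dˣ} (j : H →* U) (w : U × U → TT D)
    (hw : ∀ u g g', w (g * u⁻¹, u * g') = act (t u) (w (g, g'))) (h : H)
    (x : (U × U) →₀ ZMod 2) :
    Finsupp.linearCombination (ZMod 2) w (rhoF (aUU j) h x) =
      act (t (j h)) (Finsupp.linearCombination (ZMod 2) w x) := by
  induction x using Finsupp.induction_linear with
  | zero => simp only [map_zero]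
  | add x y hx hy => simp only [map_add, hx, hy]
  | single y a =>
    have h1 : rhoF (aUU j) h (Finsupp.single y a) = Finsupp.single (aUU j h y) a := by
      show Finsupp.mapDomain (aUU j h) (Finsupp.single y a) = _
      rw [Finsupp.mapDomain_single]
    rw [h1, Finsupp.linearCombination_single, Finsupp.linearCombination_single, map_smul,
      aUU_apply, hw]

theorem exCo_rhoT_rn {U : Type} [Group U] {T : Tow U} {D : Type} [DivisionRing D]
    [Algebra (ZMod 2) D] [StarRing D] {t : U →* Dˣ}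
    (hs : ∀ u, star ((t u : Dˣ) : D) = (((t u)⁻¹ : Dˣ) : D)) (h : DSys T t)
    (hO : ∀ i, OreExt (phiI T t i)) {r : U → U → Prop} (hr : TOrd T r)
    {H P : Type} [Group H] [DecidableEq P] [MulAction H P] {X : Set (Finset P)}
    (hX : FreeCx H X) {n : ℕ} (hlf : PdR n X) (j : H →* U) (hj : Function.Injective j) {p : ℕ}
    (h1 : 1 ≤ p) (hp : p ≤ n) : ExCo (rhoT (t.comp j)) X p := by
  classical
  intro c hc hdc
  obtain ⟨R, hR⟩ := hX.exists_reps
  obtain ⟨A, B, hAB⟩ := coc_span_finset R c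
  obtain ⟨N, s, s', ι, fι, Θ, w, hs0, hs0', hN, hNact, hfin, hΘ, hw, hform⟩ :=
    tl_main hs h hO hr A B
  have hcR : ∀ r ∈ R, c r ∈ N := by
    intro r hrR
    refine Submodule.span_le.2 ?_ (hAB r hrR)
    rintro z ⟨a, ha, b, hb, rfl⟩
    exact hN a ha b hb
  have hcN : ∀ σ, c σ ∈ N := by
    intro σ
    by_cases hσ : σ ∈ X
    · obtain ⟨g, r, hrR, rfl⟩ := hR.cov σ hσ
      rw [hc.2 g r (hR.mem r hrR), rhoT_apply]
      exact hNact (j g) _ (hcR r hrR)
    · rw [hc.1 σ fun h2 => hσ h2.1]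
      exact Submodule.zero_mem _
  let C : ι → Finset P → ((U × U) →₀ ZMod 2) := fun m σ =>
    Finsupp.ofSupportFinite (Θ m (c σ)) (hfin m (c σ) (hcN σ))
  have hC : ∀ m σ y, C m σ y = Θ m (c σ) y := fun m σ y => rfl
  have hCo : ∀ m, C m ∈ Co (rhoF (aUU j)) X p := by
    intro m
    refine ⟨fun σ hσ => ?_, fun g σ hσ => ?_⟩
    · ext y
      rw [hC, hc.1 σ hσ, map_zero]
      rfl
    · ext y
      rw [hC, hc.2 g σ hσ, rhoF_apply, hC, rhoT_apply]
      have h2 := hΘ m (j g) (c σ) (hcN σ) y.1 y.2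
      rw [aUU_apply, map_inv, inv_inv]
      exact h2
  have hCdl : ∀ m, dl X (C m) = 0 := by
    intro m
    funext σ
    ext y
    have h2 := dl_map (X := X) (Finsupp.lapply (R := ZMod 2) (M := ZMod 2) y) (C m) σ
    have h3 := dl_map (X := X) ((LinearMap.proj y : (U × U → ZMod 2) →ₗ[ZMod 2] ZMod 2).comp (Θ m))
      c σ
    have h4 : (fun τ => Finsupp.lapply (R := ZMod 2) (M := ZMod 2) y (C m τ)) = fun τ =>
        ((LinearMap.proj y : (U × U → ZMod 2) →ₗ[ZMod 2] ZMod 2).comp (Θ m)) (c τ) := by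
      funext τ
      rfl
    rw [h4, h3, hdc] at h2
    have h5 : Finsupp.lapply (R := ZMod 2) (M := ZMod 2) y (dl X (C m) σ) = 0 := by
      rw [← h2]
      show ((LinearMap.proj y : (U × U → ZMod 2) →ₗ[ZMod 2] ZMod 2).comp (Θ m)) 0 = 0
      rw [map_zero]
    exact h5
  have hfree : ∀ (g : H) (y : U × U), aUU j g y = y → g = 1 := by
    intro g y hy
    rw [aUU_apply] at hy
    have h2 : j g * y.2 = y.2 := congrArg Prod.snd hy
    have h3 : j g = 1 := mul_eq_right.1 h2
    exact hj (h3.trans (map_one j).symm)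
  choose b hb hb' using fun m => exCo_free hX hlf (aUU j) hfree (Nat.ne_of_lt (Nat.lt_succ_of_le hp)) (C m) (hCo m) (hCdl m)
  refine ⟨∑ m, fun σ => (outer s⁻¹ s'⁻¹)
    (Finsupp.linearCombination (ZMod 2) (w m) (b m σ)), ?_, ?_⟩
  · refine Submodule.sum_mem _ fun m _ => ⟨fun σ hσ => ?_, fun g σ hσ => ?_⟩
    · show outer s⁻¹ s'⁻¹ (Finsupp.linearCombination (ZMod 2) (w m) (b m σ)) = 0
      rw [(hb m).1 σ hσ, map_zero, map_zero]
    · show outer s⁻¹ s'⁻¹ (Finsupp.linearCombination (ZMod 2) (w m) (b m (g • σ))) =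
        act (t (j g)) (outer s⁻¹ s'⁻¹ (Finsupp.linearCombination (ZMod 2) (w m) (b m σ)))
      rw [(hb m).2 g σ hσ, coc_lin j (w m) (hw m) g, coc_outer_act]
  · rw [map_sum]
    funext σ
    rw [Finset.sum_apply]
    have h2 : ∀ m : ι, dl X (fun σ => (outer s⁻¹ s'⁻¹)
        (Finsupp.linearCombination (ZMod 2) (w m) (b m σ))) σ =
        outer s⁻¹ s'⁻¹ (∑ᶠ y, Θ m (c σ) y • w m y) := by
      intro m
      have h3 := dl_map (X := X) ((outer s⁻¹ s'⁻¹).comp
        (Finsupp.linearCombination (ZMod 2) (w m))) (b m) σ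
      refine Eq.trans h3 ?_
      rw [hb' m]
      show outer s⁻¹ s'⁻¹ (Finsupp.linearCombination (ZMod 2) (w m) (C m σ)) = _
      congr 1
      rw [Finsupp.linearCombination_apply, Finsupp.sum]
      symm
      refine finsum_eq_sum_of_support_subset _ ?_
      intro y hy
      rw [Finset.mem_coe, Finsupp.mem_support_iff, hC]
      intro h4
      apply hy
      show Θ m (c σ) y • w m y = 0
      rw [h4, zero_smul]
    rw [Finset.sum_congr rfl fun m _ => h2 m, ← map_sum, ← hform (c σ) (hcN σ),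
      coc_outer_inv hs0 hs0']

end SingerRN
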