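import Mathlib
import Pool.Agent.Lib_MP_394d50_rn.DEN
import Pool.Agent.Lib_MP_394d50_all.USys
import Pool.Agent.Lib_MP_394d50_all.ODefs

/-!
# The division ring generated by `U` in the ultraproduct of the division rings of fractions of
`F₂[V_c]`
-/

namespace SingerRN

open SingerRA Filter

section

variable {U : Type} [Group U] (T : Tow U) [∀ c, NoZeroDivisors (FN (T.V c))]
  [∀ c, IsOreG (T.V c)]

omit [∀ c, NoZeroDivisors (FN (T.V c))] [∀ c, IsOreG (T.V c)] in
/-- The projection to `V_c`. -/
def prV (c : ℕ) : U →* T.V c := (T.tr c).rangeRestrict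

/-- The ultraproduct. -/
abbrev UT : Type := UP (fun c => DN (T.V c))

/-- The units of the elements of `U`. -/
noncomputable def tUP : U →* (UT T)ˣ where
  toFun u := unUP (fun c => DN (T.V c)) (fun c => unN (T.V c) (prV T c u))
  map_one' := by
    have h : (fun c => unN (T.V c) (prV T c (1 : U))) = 1 := by
      funext c
      rw [map_one, map_one]
      rfl
    rw [h, unUP_one]
  map_mul' u v := by
    rw [← unUP_mul]
    refine congrArg _ (funext fun c => ?_)
    rw [map_mul, map_mul]
    rfl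

theorem tUP_val (u : U) : ((tUP T u : (UT T)ˣ) : UT T) =
    upm (fun c => DN (T.V c)) (fun c => io (T.V c) (MonoidAlgebra.of (ZMod 2) _ (prV T c u))) := rfl

theorem star_tUP (u : U) : star ((tUP T u : (UT T)ˣ) : UT T) = (((tUP T u)⁻¹ : (UT T)ˣ) : UT T) := by
  show star (upm (fun c => DN (T.V c)) (fun c => ((unN (T.V c) (prV T c u) : (DN (T.V c))ˣ) :
    DN (T.V c)))) = _
  rw [star_upm]
  show _ = upm (fun c => DN (T.V c)) (fun c => ((((unN (T.V c) (prV T c u)))⁻¹ :
    (DN (T.V c))ˣ) : DN (T.V c)))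
  exact congrArg _ (funext fun c => star_unN (T.V c) (prV T c u))

/-- The division ring generated by `U`. -/
noncomputable def DF : Subfield (UT T) := Subfield.closure (Set.range fun u => ((tUP T u : (UT T)ˣ) : UT T))

theorem tUP_mem (u : U) : ((tUP T u : (UT T)ˣ) : UT T) ∈ DF T :=
  Subfield.subset_closure ⟨u, rfl⟩

theorem star_mem_DF {x : UT T} (hx : x ∈ DF T) : star x ∈ DF T := by
  unfold DF at hx
  induction hx using Subfield.closure_induction with
  | mem x hx =>
    obtain ⟨u, rfl⟩ := hx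
    show star ((tUP T u : (UT T)ˣ) : UT T) ∈ _
    rw [star_tUP, ← map_inv]
    exact tUP_mem T u⁻¹
  | one => rw [star_one]; exact one_mem _
  | add x y _ _ hx hy => rw [star_add]; exact add_mem hx hy
  | neg x _ hx => rw [star_neg]; exact neg_mem hx
  | inv x _ hx => rw [star_inv₀]; exact inv_mem hx
  | mul x y _ _ hx hy => rw [star_mul]; exact mul_mem hy hx

/-- The division ring generated by `U`, as a type. -/
abbrev DT : Type := DF T

instance instCharDT : CharP (DT T) 2 :=
  CharTwo.of_one_ne_zero_of_two_eq_zero one_ne_zero (by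
    apply Subtype.ext
    show ((2 : DT T) : UT T) = 0
    have h : ((2 : DT T) : UT T) = 2 := rfl
    rw [h]
    exact CharP.ofNat_eq_zero (UT T) 2)

noncomputable instance instAlgDT : Algebra (ZMod 2) (DT T) := ZMod.algebra (DT T) 2

noncomputable instance instStarDT : StarRing (DT T) where
  star x := ⟨star x.1, star_mem_DF T x.2⟩
  star_involutive x := Subtype.ext (star_star x.1)
  star_mul x y := Subtype.ext (star_mul x.1 y.1)
  star_add x y := Subtype.ext (star_add x.1 y.1)

/-- The units of `D`. -/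
noncomputable def tD : U →* (DT T)ˣ where
  toFun u :=
    { val := ⟨((tUP T u : (UT T)ˣ) : UT T), tUP_mem T u⟩
      inv := ⟨(((tUP T u)⁻¹ : (UT T)ˣ) : UT T), by
        rw [← map_inv]
        exact tUP_mem T u⁻¹⟩
      val_inv := Subtype.ext (tUP T u).mul_inv
      inv_val := Subtype.ext (tUP T u).inv_mul }
  map_one' := by
    apply Units.ext
    apply Subtype.ext
    show ((tUP T 1 : (UT T)ˣ) : UT T) = 1
    rw [map_one]
    rfl
  map_mul' u v := by
    apply Units.ext
    apply Subtype.ext
    show ((tUP T (u * v) : (UT T)ˣ) : UT T) =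
      ((tUP T u : (UT T)ˣ) : UT T) * ((tUP T v : (UT T)ˣ) : UT T)
    rw [map_mul]
    rfl

theorem tD_val (u : U) : (((tD T u : (DT T)ˣ) : DT T) : UT T) = ((tUP T u : (UT T)ˣ) : UT T) := rfl

theorem star_tD (u : U) : star ((tD T u : (DT T)ˣ) : DT T) = (((tD T u)⁻¹ : (DT T)ˣ) : DT T) :=
  Subtype.ext (star_tUP T u)

theorem gen_tD (K : Subfield (DT T)) (hK : ∀ u, ((tD T u : (DT T)ˣ) : DT T) ∈ K) (x : DT T) :
    x ∈ K := by
  have h1 : DF T ≤ K.map (DF T).subtype := by
    unfold DF
    rw [Subfield.closure_le]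
    rintro _ ⟨u, rfl⟩
    exact ⟨_, hK u, rfl⟩
  obtain ⟨y, hy, e⟩ := h1 x.2
  have h2 : y = x := Subtype.ext e
  rw [← h2]
  exact hy

end

end SingerRN
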