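import Mathlib
import Pool.Agent.Lib_MP_394d50_rn.SYD
import Pool.Agent.Lib_MP_394d50_all.OPv

/-!
# Piece IND: `V_i` is linearly independent over `D_i` (about 200 lines)

`ind_ore`. `sf_ext (io N) (io_inj N) (subF W') (subF_ore W')` gives a subfield `F` of `DN N` with `x ∈ F`
iff `∃ s p ∈ subF W', s ≠ 0 ∧ io s * x = io p`; it contains the `unN N w`, `w ∈ W'` (`of_mem_subF`), so it
contains the closure. Common denominators by induction on `S`, using `subF_ore`: there is
`s ∈ subF W'`, `s ≠ 0`, and `p v ∈ subF W'` with `io s * d v = io (p v)` for all `v ∈ S`. (If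
`io s * x = io p`, `io s' * y = io p'`, take `u s = w s'`, `u ≠ 0`, from `subF_ore`, `u, w ∈ subF W'`.)
Multiply `h0` by `io s`: `io (∑ p v * of v) = 0`, so `∑_{v ∈ S} p v * single v 1 = 0` in `FN N`
(`io_inj`). The coefficient at `w * v₀` (`w ∈ W'`, `v₀ ∈ S`) of `p v * single v 1` is
`(p v).coeff (w * v₀ * v⁻¹)`, zero for `v ≠ v₀` (else `w * v₀ * v⁻¹ ∈ W'`, `v₀ * v⁻¹ ∈ W'`, `v₀ = v`). So
`(p v₀).coeff w = 0` for all `w ∈ W'`, so `p v₀ = 0`, `io s * d v₀ = 0`, `d v₀ = 0`.
`ind_tUP`. Let `W' c` be the subgroup `(T.W i).subgroupOf (T.V c)` of `T.V c` and `E c` the subfield of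
`DN (T.V c)` generated by the `unN w`, `w ∈ W' c`. Every `x` in the closure in the statement is
`upm _ f` with `f c ∈ E c` for all `c ≥ i`: closure induction (`tUP w` for `w ∈ T.W i`: for `c ≥ i`
`prV T c w ∈ W' c` since `tr i (tr c w) = tr i w = 1`; inverses: `upm_inv`). Write `d v = upm _ (f v)`,
`v ∈ S`. `upm _ (∑_{v ∈ S} f v * unN (prV v)) = 0`, so for almost all `c` (`upm_zero_iff`, and
`c ≥ i` almost always: `Nat.hyperfilter_le_atTop`) `∑_{v ∈ S} f v c * unN (prV T c v) = 0`. For `c ≥ i`,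
`prV T c v = v` for `v ∈ V_i` (`T.tr_hi`), injective on `S`; apply `ind_ore` with `S.image (prV T c)` (if
`v * v'⁻¹ ∈ W_i` then `v v'⁻¹ = tr i (v v'⁻¹) = 1`). So `f v c = 0` for almost all `c`, `d v = 0`.
`dsys_tD`: `gen` is `gen_tD`; for `ind` map everything to `UT T` by the inclusion (`Di T (tD T) i` is mapped
into the closure of the statement of `ind_tUP`: closure induction or `Subfield.map_closure`-type lemma).
-/

namespace SingerRN

open SingerRA Filter

/-- fractions of elements of the subring -/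
private theorem ind_frac {N : Type} [Group N] [NoZeroDivisors (FN N)] [IsOreG N] (W' : Subgroup N)
    {x : DN N}
    (hx : x ∈ Subfield.closure {x | ∃ w ∈ W', x = ((unN N w : (DN N)ˣ) : DN N)}) :
    ∃ s ∈ subF W', ∃ p ∈ subF W', s ≠ 0 ∧ io N s * x = io N p := by
  obtain ⟨F, hF⟩ := sf_ext (io N) (io_inj N) (subF W')
    (fun a ha b hb hb0 => subF_ore W' a ha b hb hb0)
  rw [← hF]
  have h1 : Subfield.closure {x | ∃ w ∈ W', x = ((unN N w : (DN N)ˣ) : DN N)} ≤ F := by
    rw [Subfield.closure_le]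
    rintro _ ⟨w, hw, rfl⟩
    show _ ∈ F
    rw [hF]
    refine ⟨1, one_mem _, MonoidAlgebra.of (ZMod 2) N w, of_mem_subF W' w hw, one_ne_zero, ?_⟩
    rw [map_one, one_mul, unN_val]
  exact h1 hx

/-- common denominators in the subring -/
private theorem ind_common {N : Type} [Group N] [NoZeroDivisors (FN N)] [IsOreG N]
    (W' : Subgroup N) (S : Finset N) (d : N → DN N)
    (hd : ∀ v ∈ S, ∃ s ∈ subF W', ∃ p ∈ subF W', s ≠ 0 ∧ io N s * d v = io N p) :
    ∃ s ∈ subF W', s ≠ 0 ∧ ∀ v ∈ S, ∃ p ∈ subF W', io N s * d v = io N p := by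
  classical
  induction S using Finset.induction_on with
  | empty => exact ⟨1, one_mem _, one_ne_zero, fun v hv => absurd hv (Finset.notMem_empty v)⟩
  | insert a S _ ih =>
    obtain ⟨s, hs, hs0, h1⟩ := ih fun v hv => hd v (Finset.mem_insert_of_mem hv)
    obtain ⟨s', hs', p', hp', hs'0, h2⟩ := hd a (Finset.mem_insert_self a S)
    obtain ⟨u, hu, w, hw, hu0, h3⟩ := subF_ore W' s hs s' hs' hs'0
    refine ⟨u * s, mul_mem hu hs, mul_ne_zero hu0 hs0, ?_⟩
    intro v hv
    rw [Finset.mem_insert] at hv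
    rcases hv with rfl | hv
    · refine ⟨w * p', mul_mem hw hp', ?_⟩
      rw [h3, map_mul, mul_assoc, h2, map_mul]
    · obtain ⟨p, hp, h4⟩ := h1 v hv
      refine ⟨u * p, mul_mem hu hp, ?_⟩
      rw [map_mul, mul_assoc, h4, map_mul]

theorem ind_ore {N : Type} [Group N] [NoZeroDivisors (FN N)] [IsOreG N] (W' : Subgroup N)
    (S : Finset N) (hS : ∀ v ∈ S, ∀ v' ∈ S, v * v'⁻¹ ∈ W' → v = v') (d : N → DN N)
    (hd : ∀ v ∈ S, d v ∈ Subfield.closure {x | ∃ w ∈ W', x = ((unN N w : (DN N)ˣ) : DN N)})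
    (h0 : ∑ v ∈ S, d v * ((unN N v : (DN N)ˣ) : DN N) = 0) : ∀ v ∈ S, d v = 0 := by
  classical
  obtain ⟨s, _, hs0, h1⟩ := ind_common W' S d fun v hv => ind_frac W' (hd v hv)
  have h2 : ∀ v, ∃ p : FN N, v ∈ S → p ∈ subF W' ∧ io N s * d v = io N p := by
    intro v
    by_cases hv : v ∈ S
    · obtain ⟨p, hp, h⟩ := h1 v hv
      exact ⟨p, fun _ => ⟨hp, h⟩⟩
    · exact ⟨0, fun h => absurd h hv⟩
  choose p hp using h2
  have h3 : ∑ v ∈ S, p v * MonoidAlgebra.of (ZMod 2) N v = 0 := by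
    apply io_inj N
    rw [map_zero, map_sum, ← mul_zero (io N s), ← h0, Finset.mul_sum]
    refine Finset.sum_congr rfl fun v hv => ?_
    rw [map_mul, ← (hp v hv).2, unN_val, mul_assoc]
  have h4 : ∀ g : N, ∑ v ∈ S, (p v).coeff (g * v⁻¹) = 0 := by
    intro g
    have h5 := congrArg (fun z : FN N => z.coeff g) h3
    simp only [MonoidAlgebra.coeff_sum, Finsupp.coe_finsetSum, Finset.sum_apply,
      MonoidAlgebra.of_apply, MonoidAlgebra.coeff_mul_single_apply, mul_one,
      MonoidAlgebra.coeff_zero, Finsupp.coe_zero, Pi.zero_apply] at h5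
    exact h5
  intro v₀ hv₀
  have h6 : p v₀ = 0 := by
    refine MonoidAlgebra.ext ?_
    refine Finsupp.ext fun w => ?_
    by_cases hw : w ∈ W'
    · have h7 := h4 (w * v₀)
      rw [Finset.sum_eq_single_of_mem v₀ hv₀] at h7
      · rw [mul_inv_cancel_right] at h7
        exact h7
      · intro v hv hne
        by_contra hcon
        have h8 : w * v₀ * v⁻¹ ∈ W' := (hp v hv).1 _ (Finsupp.mem_support_iff.2 hcon)
        rw [mul_assoc] at h8
        have h9 : v₀ * v⁻¹ ∈ W' := (W'.mul_mem_cancel_left hw).1 h8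
        exact hne (hS v₀ hv₀ v hv h9).symm
    · by_contra hcon
      exact hw ((hp v₀ hv₀).1 w (Finsupp.mem_support_iff.2 hcon))
  have h7 := (hp v₀ hv₀).2
  rw [h6, map_zero] at h7
  rcases mul_eq_zero.1 h7 with h8 | h8
  · exact absurd h8 (io_ne_zero N hs0)
  · exact h8

section

variable {U : Type} [Group U] (T : Tow U) [∀ c, NoZeroDivisors (FN (T.V c))]
  [∀ c, IsOreG (T.V c)]

/-- the subfield generated by `W_i` -/
private noncomputable def indE (i c : ℕ) : Subfield (DN (T.V c)) :=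
  Subfield.closure {x | ∃ w ∈ (T.W i).subgroupOf (T.V c), x = ((unN (T.V c) w : (DN (T.V c))ˣ) :
    DN (T.V c))}

open scoped Classical in
private noncomputable def indE' (i c : ℕ) : Subfield (DN (T.V c)) := if i ≤ c then indE T i c else ⊤

private theorem ind_seq (i : ℕ) {x : UT T}
    (hx : x ∈ Subfield.closure {x | ∃ w ∈ T.W i, x = ((tUP T w : (UT T)ˣ) : UT T)}) :
    ∃ f : (c : ℕ) → DN (T.V c), (∀ c, i ≤ c → f c ∈ indE T i c) ∧
      upm (fun c => DN (T.V c)) f = x := by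
  have h1 : Subfield.closure {x | ∃ w ∈ T.W i, x = ((tUP T w : (UT T)ˣ) : UT T)} ≤
      sfUP (fun c => DN (T.V c)) (indE' T i) := by
    rw [Subfield.closure_le]
    rintro _ ⟨w, hw, rfl⟩
    refine ⟨fun c => ((unN (T.V c) (prV T c w) : (DN (T.V c))ˣ) : DN (T.V c)), fun c => ?_, rfl⟩
    unfold indE'
    split_ifs with hc
    · refine Subfield.subset_closure ⟨prV T c w, ?_, rfl⟩
      rw [Subgroup.mem_subgroupOf]
      show T.tr i (T.tr c w) = 1
      rw [T.tr_lo i c hc]
      exact hw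
    · exact Subfield.mem_top _
  obtain ⟨f, hf, he⟩ := h1 hx
  refine ⟨f, fun c hc => ?_, he⟩
  have h2 := hf c
  unfold indE' at h2
  rwa [if_pos hc] at h2

theorem ind_tUP (i : ℕ) (S : Finset U) (d : U → UT T) (hS : ∀ v ∈ S, v ∈ T.V i)
    (hd : ∀ v ∈ S, d v ∈ Subfield.closure {x | ∃ w ∈ T.W i, x = ((tUP T w : (UT T)ˣ) : UT T)})
    (h0 : ∑ v ∈ S, d v * ((tUP T v : (UT T)ˣ) : UT T) = 0) : ∀ v ∈ S, d v = 0 := by
  classical
  have h1 : ∀ v, ∃ f : (c : ℕ) → DN (T.V c), v ∈ S → (∀ c, i ≤ c → f c ∈ indE T i c) ∧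
      upm (fun c => DN (T.V c)) f = d v := by
    intro v
    by_cases hv : v ∈ S
    · obtain ⟨f, hf⟩ := ind_seq T i (hd v hv)
      exact ⟨f, fun _ => hf⟩
    · exact ⟨0, fun h => absurd h hv⟩
  choose f hf using h1
  have h2 : upm (fun c => DN (T.V c)) (∑ v ∈ S, f v *
      fun c => ((unN (T.V c) (prV T c v) : (DN (T.V c))ˣ) : DN (T.V c))) = 0 := by
    rw [map_sum, ← h0]
    refine Finset.sum_congr rfl fun v hv => ?_
    rw [map_mul, (hf v hv).2]
    rfl
  rw [upm_zero_iff] at h2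
  have h3 : ∀ᶠ c in (hyperfilter ℕ : Filter ℕ), i ≤ c := by
    have : ∀ᶠ c in (cofinite : Filter ℕ), i ≤ c := by
      rw [Nat.cofinite_eq_atTop]
      exact eventually_ge_atTop _
    exact hyperfilter_le_cofinite this
  have hpr : ∀ c, i ≤ c → ∀ v ∈ S, ((prV T c v : T.V c) : U) = v := by
    intro c hc v hv
    obtain ⟨u, rfl⟩ := hS v hv
    exact T.tr_hi i c hc u
  have h4 : ∀ᶠ c in (hyperfilter ℕ : Filter ℕ), ∀ v ∈ S, f v c = 0 := by
    filter_upwards [h2, h3] with c hc hic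
    rw [Finset.sum_apply] at hc
    have hinj : Set.InjOn (prV T c) (S : Set U) := by
      intro v hv v' hv' h
      rw [← hpr c hic v hv, ← hpr c hic v' hv', h]
    have h5 := ind_ore ((T.W i).subgroupOf (T.V c)) (S.image (prV T c)) (by
      intro x hx x' hx' h
      rw [Finset.mem_image] at hx hx'
      obtain ⟨v, hv, rfl⟩ := hx
      obtain ⟨v', hv', rfl⟩ := hx'
      rw [Subgroup.mem_subgroupOf] at h
      have h6 : T.tr i (((prV T c v : T.V c) : U) * ((prV T c v' : T.V c) : U)⁻¹) = 1 := h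
      rw [hpr c hic v hv, hpr c hic v' hv',
        tr_V T ((T.V i).mul_mem (hS v hv) ((T.V i).inv_mem (hS v' hv')))] at h6
      rw [mul_inv_eq_one.1 h6]) (fun x => f (x : U) c) (by
      intro x hx
      rw [Finset.mem_image] at hx
      obtain ⟨v, hv, rfl⟩ := hx
      show f ((prV T c v : T.V c) : U) c ∈ _
      rw [hpr c hic v hv]
      exact (hf v hv).1 c hic) (by
      rw [Finset.sum_image hinj, ← hc]
      refine Finset.sum_congr rfl fun v hv => ?_
      rw [hpr c hic v hv]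
      rfl)
    intro v hv
    have h6 := h5 (prV T c v) (Finset.mem_image_of_mem _ hv)
    have h7 : f ((prV T c v : T.V c) : U) c = 0 := h6
    rwa [hpr c hic v hv] at h7
  intro v hv
  rw [← (hf v hv).2, upm_zero_iff]
  filter_upwards [h4] with c hc
  exact hc v hv

theorem dsys_tD : DSys T (tD T) := by
  refine ⟨gen_tD T, ?_⟩
  intro i S d hS hd h0 v hv
  have h1 : ∀ x : DT T, x ∈ Di T (tD T) i →
      (x : UT T) ∈ Subfield.closure {x | ∃ w ∈ T.W i, x = ((tUP T w : (UT T)ˣ) : UT T)} := by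
    intro x hx
    have h2 : Di T (tD T) i ≤ (Subfield.closure {x | ∃ w ∈ T.W i,
        x = ((tUP T w : (UT T)ˣ) : UT T)}).comap (DF T).subtype := by
      unfold Di
      rw [Subfield.closure_le]
      rintro _ ⟨w, hw, rfl⟩
      exact Subfield.subset_closure ⟨w, hw, rfl⟩
    exact h2 hx
  have h3 := ind_tUP T i S (fun v => (d v : UT T)) hS (fun v hv => h1 _ (hd v hv)) (by
    have h4 := congrArg (DF T).subtype h0
    rw [map_sum, map_zero] at h4
    rw [← h4]
    refine Finset.sum_congr rfl fun v _ => ?_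
    rw [map_mul]
    rfl) v hv
  exact Subtype.ext h3

end

end SingerRN
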