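import Mathlib
import Pool.Agent.Lib_MP_394d50_vs.DZig
import Pool.Agent.Lib_MP_394d50_rn.PDC

/-!
# Duality `H^j ⇒ H_{n-j}` for a complex with the locally finite homology of `ℝⁿ`

The complex `X` is allowed to have any dimension.
-/

namespace SingerRN

open SingerVS
open scoped Pointwise

variable {H P : Type} [Group H] [DecidableEq P] [MulAction H P] {X : Set (Finset P)}
variable {N : Type} [AddCommGroup N] [Module (ZMod 2) N] {ρ : H →* Module.End (ZMod 2) N}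

/-- The translates of a locally finite chain. -/
theorem pdz_bd_smul (hX : FreeCx H X) (c : Finset P → N) (h : H) (τ : Finset P) :
    bd X (fun s => c (h • s)) τ = bd X c (h • τ) := by
  by_cases hτ : τ ∈ X
  · rw [bd_apply hτ, bd_apply ((hX.smul_mem_iff h τ).mpr hτ), hX.nb_smul h hτ]
    have h3 : h • nb X τ = (nb X τ).image (fun x => h • x) := rfl
    rw [h3, Finset.sum_image (fun x _ y _ e => MulAction.injective h e)]
    refine Finset.sum_congr rfl fun p _ => ?_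
    rw [Finset.smul_finset_insert]
  · rw [bd_apply_not hτ, bd_apply_not (fun h1 => hτ ((hX.smul_mem_iff h τ).mp h1))]

theorem pdz_dl_smul (hX : FreeCx H X) (c : Finset P → N) (h : H) (τ : Finset P) :
    dl X (fun s => c (h • s)) τ = dl X c (h • τ) := by
  by_cases hτ : τ ∈ X
  · rw [dl_apply hτ, dl_apply ((hX.smul_mem_iff h τ).mpr hτ)]
    have h3 : h • τ = τ.image (fun x => h • x) := rfl
    conv_rhs => rw [h3]
    rw [Finset.sum_image (fun x _ y _ e => MulAction.injective h e)]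
    refine Finset.sum_congr rfl fun p _ => ?_
    rw [← h3, ← smul_erase]
  · rw [dl_apply_not hτ, dl_apply_not (fun h1 => hτ ((hX.smul_mem_iff h τ).mp h1))]

theorem pdz_ch_smul (hX : FreeCx H X) {c : Finset P → N} {k : ℕ} (hc : c ∈ Ch N X k) (h : H) :
    (fun s => c (h • s)) ∈ Ch N X k := by
  intro τ hτ
  refine hc (h • τ) fun h2 => hτ ⟨(hX.smul_mem_iff h τ).mp h2.1, ?_⟩
  rw [← card_smul h τ]
  exact h2.2

/-- The translates of the fundamental cycle are homologous to it. -/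
theorem pdz_xi (hX : FreeCx H X) {n : ℕ} {ξ : Finset P → ZMod 2} (hξ : ξ ∈ Ch (ZMod 2) X (n + 1))
    (hb : bd X ξ = 0) (h0 : ∀ b ∈ Ch (ZMod 2) X (n + 2), bd X b ≠ ξ)
    (h1 : ∀ z ∈ Ch (ZMod 2) X (n + 1), bd X z = 0 → ∃ b ∈ Ch (ZMod 2) X (n + 2),
      bd X b = z ∨ bd X b = z + ξ) (h : H) :
    ∃ w ∈ Ch (ZMod 2) X (n + 2), ∀ σ, ξ (h • σ) = ξ σ + bd X w σ := by
  have hbz : bd X (fun τ : Finset P => ξ (h • τ)) = 0 := by
    funext τ
    rw [pdz_bd_smul hX ξ h τ, hb]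
    rfl
  obtain ⟨b, hb1, hb2⟩ := h1 _ (pdz_ch_smul hX hξ h) hbz
  rcases hb2 with hb2 | hb2
  · exfalso
    refine h0 _ (pdz_ch_smul hX hb1 h⁻¹) ?_
    funext τ
    rw [pdz_bd_smul hX b h⁻¹ τ, hb2]
    show ξ (h • (h⁻¹ • τ)) = ξ τ
    rw [smul_inv_smul]
  · refine ⟨b, hb1, fun σ => ?_⟩
    have h2 : bd X b σ = ξ (h • σ) + ξ σ := congrFun hb2 σ
    rw [h2, add_comm (ξ (h • σ)) (ξ σ), ← add_assoc, ZModModule.add_self, zero_add]

/-- The pairing with a cycle does not change under a homology, for a closed function. -/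
theorem pdz_pair (hX : FreeCx H X) {ξ ξ' w : Finset P → ZMod 2}
    (hw : ∀ σ, ξ' σ = ξ σ + bd X w σ) {c : Finset P → N} {k : ℕ} (hc : c ∈ Ch N X k)
    (hfin : {s | c s ≠ 0}.Finite) (hd : dl X c = 0) :
    ∑ᶠ σ, ξ' σ • c σ = ∑ᶠ σ, ξ σ • c σ := by
  have hcX : ∀ s, c s ≠ 0 → s ∈ X := by
    intro s hs
    by_contra h6
    exact hs (hc s fun h7 => h6 h7.1)
  have e1 : ∀ σ, ξ' σ • c σ = ξ σ • c σ + bd X w σ • c σ := by
    intro σ
    rw [hw, add_smul]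
  rw [finsum_congr e1, finsum_add_distrib (DAug_smul_fin hfin) (DAug_smul_fin hfin),
    ← DAug_adj hX w hcX hfin, hd]
  have e2 : ∀ σ, w σ • (0 : Finset P → N) σ = 0 := fun σ => smul_zero _
  rw [finsum_congr e2, finsum_zero, add_zero]

section aug

variable {n : ℕ} {ξ : Finset P → ZMod 2} {F : Finset P → Finset P → N} {q : ℕ}

theorem pdz_augX_mem (hX : FreeCx H X)
    (hξ : ∀ h : H, ∃ w ∈ Ch (ZMod 2) X (n + 2), ∀ σ, ξ (h • σ) = ξ σ + bd X w σ)
    (hF : F ∈ PairS ρ X (n + 1) q) (hd : D1 X F = 0) : augX ξ F ∈ Co ρ X q := by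
  obtain ⟨h1, h2, h3, h4⟩ := hF
  refine ⟨fun τ hτ => ?_, fun h τ _ => ?_⟩
  · show ∑ᶠ σ, ξ σ • F σ τ = 0
    have h5 : ∀ σ, ξ σ • F σ τ = 0 := fun σ => by rw [h1 σ τ fun h6 => hτ h6.2, smul_zero]
    rw [finsum_congr h5, finsum_zero]
  · show ∑ᶠ σ, ξ σ • F σ (h • τ) = ρ h (∑ᶠ σ, ξ σ • F σ τ)
    obtain ⟨w, _, hw⟩ := hξ h
    have e1 : ∑ᶠ σ, ξ (h • σ) • F (h • σ) (h • τ) = ∑ᶠ σ, ξ σ • F σ (h • τ) :=
      finsum_comp_equiv (MulAction.toPerm h : Equiv.Perm (Finset P))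
        (f := fun σ => ξ σ • F σ (h • τ))
    rw [← e1]
    have e2 : ∀ σ, ξ (h • σ) • F (h • σ) (h • τ) = ρ h (ξ (h • σ) • F σ τ) := fun σ => by
      rw [h2, map_smul]
    rw [finsum_congr e2]
    have e3 : ∑ᶠ σ, ρ h (ξ (h • σ) • F σ τ) = ρ h (∑ᶠ σ, ξ (h • σ) • F σ τ) :=
      ((ρ h).toAddMonoidHom.map_finsum (DAug_smul_fin (h3 τ))).symm
    rw [e3]
    refine congrArg (ρ h) ?_
    refine pdz_pair (k := n + 1) hX hw (fun σ hσ => h1 σ τ fun h6 => hσ h6.1) (h3 τ) ?_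
    funext σ
    exact congrFun (congrFun hd σ) τ

/-- The closed lifts. -/
theorem pdz_liftX (hX : FreeCx H X)
    (hξ : ∀ h : H, ∃ w ∈ Ch (ZMod 2) X (n + 2), ∀ σ, ξ (h • σ) = ξ σ + bd X w σ)
    {z : Finset P → ZMod 2} (hz : z ∈ Ch (ZMod 2) X (n + 1)) (hzf : (Function.support z).Finite)
    (hzd : dl X z = 0) (h1 : ∑ᶠ σ, ξ σ * z σ = 1) {b : Finset P → N} (hb : b ∈ Co ρ X q) :
    ∃ F ∈ PairS ρ X (n + 1) q, D1 X F = 0 ∧ augX ξ F = b := by
  classical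
  obtain ⟨R, hR⟩ := hX.exists_reps
  obtain ⟨F, hF, hF'⟩ := pair_ext_row (ρ := ρ) hX hR (n + 1) q (fun τ σ => z σ • b τ)
    (fun τ σ hσ => by
      show z σ • b τ = 0
      rw [hz σ hσ, zero_smul])
    (fun τ => hzf.subset fun σ hσ h2 => hσ (by
      show z σ • b τ = 0
      rw [h2, zero_smul]))
  have e1 : ∀ τ, τ ∈ X ∧ τ.card = q → ∀ s, F s τ = z ((hR.el τ)⁻¹ • s) • b τ := by
    intro τ hτ s
    have hr := hR.rep_mem hτ.1
    have hrc : (hR.rep τ).card = q := (hR.rep_card hτ.1).trans hτ.2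
    have h2 := hF.2.1 (hR.el τ) ((hR.el τ)⁻¹ • s) (hR.rep τ)
    rw [smul_inv_smul, hR.el_rep hτ.1, hF' _ hr hrc, map_smul, ← hX.co_eqv hb,
      hR.el_rep hτ.1] at h2
    exact h2
  refine ⟨F, hF, ?_, ?_⟩
  · funext σ τ
    show dl X (fun s => F s τ) σ = 0
    by_cases hτ : τ ∈ X ∧ τ.card = q
    · have e2 : (fun s => F s τ) = fun s =>
          LinearMap.toSpanSingleton (ZMod 2) N (b τ) (z ((hR.el τ)⁻¹ • s)) := by
        funext s
        rw [e1 τ hτ s, LinearMap.toSpanSingleton_apply]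
      rw [e2, dl_map, pdz_dl_smul hX z _ σ, hzd]
      exact map_zero _
    · have e2 : (fun s => F s τ) = 0 := by
        funext s
        exact hF.1 s τ (fun h2 => hτ h2.2)
      rw [e2, map_zero]
      rfl
  · funext τ
    show ∑ᶠ σ, ξ σ • F σ τ = b τ
    by_cases hτ : τ ∈ X ∧ τ.card = q
    · obtain ⟨w, _, hw⟩ := hξ (hR.el τ)
      have e2 : ∑ᶠ s, ξ (hR.el τ • s) • (z s • b τ) = ∑ᶠ σ, ξ σ • F σ τ := by
        rw [← finsum_comp_equiv (MulAction.toPerm (hR.el τ) : Equiv.Perm (Finset P))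
          (f := fun σ => ξ σ • F σ τ)]
        refine finsum_congr fun s => ?_
        show _ = ξ (hR.el τ • s) • F (hR.el τ • s) τ
        rw [e1 τ hτ, inv_smul_smul]
      have hzf' : {s | z s ≠ 0}.Finite := hzf
      have e3 : ∑ᶠ s, ξ (hR.el τ • s) • z s = 1 := by
        rw [pdz_pair (k := n + 1) (ξ := ξ) (ξ' := fun s => ξ (hR.el τ • s)) hX hw hz hzf' hzd]
        exact h1
      have e4 : ∀ s, ξ (hR.el τ • s) • (z s • b τ) =
          LinearMap.toSpanSingleton (ZMod 2) N (b τ) (ξ (hR.el τ • s) • z s) := by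
        intro s
        rw [LinearMap.toSpanSingleton_apply, smul_assoc]
      have e5 : ∑ᶠ s, LinearMap.toSpanSingleton (ZMod 2) N (b τ) (ξ (hR.el τ • s) • z s) =
          LinearMap.toSpanSingleton (ZMod 2) N (b τ) (∑ᶠ s, ξ (hR.el τ • s) • z s) :=
        ((LinearMap.toSpanSingleton (ZMod 2) N (b τ)).toAddMonoidHom.map_finsum
          (DAug_smul_fin hzf')).symm
      rw [← e2, finsum_congr e4, e5, e3, LinearMap.toSpanSingleton_apply, one_smul]
    · rw [hb.1 τ hτ]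
      refine finsum_eq_zero_of_forall_eq_zero fun σ => ?_
      rw [hF.1 σ τ (fun h2 => hτ h2.2), smul_zero]

end aug

/-! ## Rows and columns -/

theorem pdz_col (hX : FreeCx H X) (hac : Acyc X) {p q : ℕ} (hq : 2 ≤ q)
    {F : Finset P → Finset P → N} (hF : F ∈ PairS ρ X p q) (h0 : D2 X F = 0) :
    ∃ G ∈ PairS ρ X p (q + 1), D2 X G = F := by
  refine pair_col hX hF fun σ _ _ => ?_
  exact fin_bd hac hq (fun τ hτ => hF.1 σ τ fun h => hτ h.2) (hF.2.2.2 σ) (congrFun h0 σ)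

theorem pdz_col_one (hX : FreeCx H X) (hac : Acyc X) {p : ℕ}
    {F : Finset P → Finset P → N} (hF : F ∈ PairS ρ X p 1) (h0 : augV F = 0) :
    ∃ G ∈ PairS ρ X p 2, D2 X G = F := by
  refine pair_col hX hF fun σ _ _ => ?_
  exact fin_bd_one hac (fun τ hτ => hF.1 σ τ fun h => hτ h.2) (hF.2.2.2 σ) (congrFun h0 σ)

theorem pdz_row (hX : FreeCx H X) {n : ℕ} (hlf : PdR n X) {p q : ℕ} (hp : p ≠ n + 1)
    {F : Finset P → Finset P → N} (hF : F ∈ PairS ρ X p q) (h0 : D1 X F = 0) :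
    ∃ G ∈ PairS ρ X (p - 1) q, D1 X G = F := by
  refine pair_row hX hF fun τ _ _ => ?_
  refine pd_fin_dl hX hlf hp (fun σ hσ => hF.1 σ τ fun h => hσ h.1) (hF.2.2.1 τ) ?_
  funext σ
  exact congrFun (congrFun h0 σ) τ

theorem pdz_row_top (hX : FreeCx H X) {n : ℕ} {ξ : Finset P → ZMod 2}
    (hξ : ∀ z ∈ Ch (ZMod 2) X (n + 1), bd X z = 0 → ∃ b ∈ Ch (ZMod 2) X (n + 2),
      bd X b = z ∨ bd X b = z + ξ) {q : ℕ}
    {F : Finset P → Finset P → N} (hF : F ∈ PairS ρ X (n + 1) q) (hd : D1 X F = 0)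
    (h0 : augX ξ F = 0) :
    ∃ G ∈ PairS ρ X n q, D1 X G = F := by
  refine pair_row hX hF fun τ _ _ => ?_
  refine pd_fin_dl_top hX hξ (fun σ hσ => hF.1 σ τ fun h => hσ h.1) (hF.2.2.1 τ) ?_ (congrFun h0 τ)
  funext σ
  exact congrFun (congrFun hd σ) τ

/-- Above the dimension `n`: what is closed in both directions is `D1 D2` of something. -/
theorem pdz_high (hX : FreeCx H X) {n : ℕ} (hlf : PdR n X) (hac : Acyc X) {B : ℕ}
    (hB : ∀ σ ∈ X, σ.card < B) : ∀ (m p q : ℕ), B ≤ p + m → n + 2 ≤ p → 2 ≤ q →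
    ∀ G ∈ PairS ρ X p q, D1 X G = 0 → D2 X G = 0 →
    ∃ E ∈ PairS ρ X (p - 1) (q + 1), G = D1 X (D2 X E) := by
  intro m
  induction m with
  | zero =>
    intro p q hm _ _ G hG _ _
    refine ⟨0, Submodule.zero_mem _, ?_⟩
    rw [map_zero, map_zero]
    funext σ τ
    refine hG.1 σ τ ?_
    rintro ⟨⟨h1, h2⟩, _⟩
    have := hB σ h1
    omega
  | succ m ih =>
    intro p q hm hp hq G hG h1 h2
    obtain ⟨A, hA, hA2⟩ := pdz_col hX hac hq hG h2
    have hA3 : D2 X (D1 X A) = 0 := by rw [← D1_D2, hA2, h1]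
    obtain ⟨E, hE, hE2⟩ := ih (p + 1) (q + 1) (by omega) (by omega) (by omega) (D1 X A)
      (D1_mem hX hA) (D1_D1 hX A) hA3
    rw [Nat.add_sub_cancel] at hE
    have hA' : A + D2 X E ∈ PairS ρ X p (q + 1) := Submodule.add_mem _ hA (D2_mem hX hE)
    have hA1 : D1 X (A + D2 X E) = 0 := by
      rw [map_add, hE2]
      funext σ τ
      exact ZModModule.add_self _
    obtain ⟨E', hE', hE3⟩ := pdz_row hX hlf (by omega) hA' hA1
    refine ⟨E', hE', ?_⟩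
    rw [D1_D2, hE3, map_add, D2_D2 hX, add_zero, hA2]

/-- The zigzag, started from `x = D1 u`. -/
theorem pdz_step (hX : FreeCx H X) {n : ℕ} (hlf : PdR n X) (hac : Acyc X) {k : ℕ}
    (h1k : 1 ≤ k) (hex : ExCo ρ X k) : ∀ (q p : ℕ), 1 ≤ q → p + 1 = k + q → p ≤ n →
    ∀ u ∈ PairS ρ X p q, (q = 1 → augV (D1 X u) = 0) → D2 X (D1 X u) = 0 →
    ∃ y ∈ PairS ρ X (p + 1) (q + 1), (∃ w ∈ PairS ρ X p (q + 1), y = D1 X w) ∧
      D2 X y = D1 X u := by
  intro q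
  induction q with
  | zero => intro p hq; omega
  | succ q ih =>
    intro p _ hpk hpn u hu hV hD
    by_cases hq : q = 0
    · subst hq
      have hpk' : p = k := by omega
      subst hpk'
      set a := augV u with ha
      have ham : a ∈ Co ρ X p := augV_mem hX hu
      have hda : dl X a = 0 := by
        rw [ha, ← augV_D1 hX hu]
        exact hV rfl
      obtain ⟨a', ha', haa⟩ := hex a ham hda
      obtain ⟨v₀, hv₀⟩ := hac.pt
      obtain ⟨G, hG, hGa⟩ := pair_liftV hX hv₀ ha'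
      have hp1 : p - 1 + 1 = p := by omega
      have hDG : D1 X G ∈ PairS ρ X p 1 := by
        have := D1_mem hX hG
        rwa [hp1] at this
      have hsum : u + D1 X G ∈ PairS ρ X p 1 := Submodule.add_mem _ hu hDG
      have hz : augV (u + D1 X G) = 0 := by
        rw [augV_add hu hDG, augV_D1 hX hG, hGa, haa, ← ha]
        funext σ
        exact ZModModule.add_self _
      obtain ⟨w, hw, hw2⟩ := pdz_col_one hX hac hsum hz
      refine ⟨D1 X w, D1_mem hX hw, ⟨w, hw, rfl⟩, ?_⟩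
      rw [← D1_D2, hw2, map_add, D1_D1 hX, add_zero]
    · have hp1 : 1 ≤ p := by omega
      have hD' : D1 X (D2 X u) = 0 := by rw [D1_D2]; exact hD
      have hDu : D2 X u ∈ PairS ρ X p q := D2_mem hX hu
      obtain ⟨u', hu', hu2⟩ := pdz_row hX hlf (by omega) hDu hD'
      obtain ⟨y, hy, ⟨w, hw, hyw⟩, hy2⟩ := ih (p - 1) (by omega) (by omega) (by omega) u' hu'
        (fun hq1 => by
          subst hq1
          rw [hu2]
          exact augV_D2 hX hu)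
        (by rw [hu2]; exact D2_D2 hX u)
      have hp2 : p - 1 + 1 = p := by omega
      rw [hp2] at hy
      have hsum : u + y ∈ PairS ρ X p (q + 1) := Submodule.add_mem _ hu hy
      have hz : D2 X (u + y) = 0 := by
        rw [map_add, hy2, hu2]
        funext σ τ
        exact ZModModule.add_self _
      obtain ⟨w', hw', hw2⟩ := pdz_col hX hac (by omega) hsum hz
      refine ⟨D1 X w', D1_mem hX hw', ⟨w', hw', rfl⟩, ?_⟩
      rw [← D1_D2, hw2, map_add, hyw, D1_D1 hX, add_zero]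

/-- The zigzag which ends in the empty simplices. -/
theorem pdz_step0 (hX : FreeCx H X) {n : ℕ} (hlf : PdR n X) (hac : Acyc X) :
    ∀ (p q : ℕ), p + 1 ≤ q → p ≤ n → ∀ u ∈ PairS ρ X p q, D2 X (D1 X u) = 0 →
    ∃ y ∈ PairS ρ X (p + 1) (q + 1), (∃ w ∈ PairS ρ X p (q + 1), y = D1 X w) ∧
      D2 X y = D1 X u := by
  intro p
  induction p with
  | zero =>
    intro q _ _ u hu _
    have hu0 : u = 0 := by
      funext σ τ
      refine hu.1 σ τ ?_
      rintro ⟨⟨h1, h2⟩, _⟩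
      exact (Finset.card_pos.mpr (hX.ne σ h1)).ne' h2
    refine ⟨0, Submodule.zero_mem _, ⟨0, Submodule.zero_mem _, by rw [map_zero]⟩, ?_⟩
    rw [hu0, map_zero, map_zero]
  | succ p ih =>
    intro q hq hpn u hu hD
    obtain ⟨q, rfl⟩ : ∃ q', q = q' + 1 := ⟨q - 1, by omega⟩
    have hD' : D1 X (D2 X u) = 0 := by rw [D1_D2]; exact hD
    have hDu : D2 X u ∈ PairS ρ X (p + 1) q := D2_mem hX hu
    obtain ⟨u', hu', hu2⟩ := pdz_row hX hlf (by omega) hDu hD'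
    rw [Nat.add_sub_cancel] at hu'
    obtain ⟨y, hy, ⟨w, hw, hyw⟩, hy2⟩ := ih q (by omega) (by omega) u' hu'
      (by rw [hu2]; exact D2_D2 hX u)
    have hsum : u + y ∈ PairS ρ X (p + 1) (q + 1) := Submodule.add_mem _ hu hy
    have hz : D2 X (u + y) = 0 := by
      rw [map_add, hy2, hu2]
      funext σ τ
      exact ZModModule.add_self _
    obtain ⟨w', hw', hw2⟩ := pdz_col hX hac (by omega) hsum hz
    refine ⟨D1 X w', D1_mem hX hw', ⟨w', hw', rfl⟩, ?_⟩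
    rw [← D1_D2, hw2, map_add, hyw, D1_D1 hX, add_zero]

/-- The duality, from the zigzag. -/
theorem pdz_dual (hX : FreeCx H X) {n : ℕ} (hlf : PdR n X) (hac : Acyc X) {q : ℕ} (hq : 1 ≤ q)
    (hstep : ∀ u ∈ PairS ρ X n q, (q = 1 → augV (D1 X u) = 0) → D2 X (D1 X u) = 0 →
      ∃ y ∈ PairS ρ X (n + 1) (q + 1), (∃ w ∈ PairS ρ X n (q + 1), y = D1 X w) ∧
        D2 X y = D1 X u) : ExBd ρ X (q + 1) := by
  classical
  obtain ⟨ξ, hξ, hξb, hξ0, hξ1⟩ := hlf.top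
  have hinv := pdz_xi (H := H) hX hξ hξb hξ0 hξ1
  obtain ⟨R, hR⟩ := hX.exists_reps
  obtain ⟨B, hB⟩ : ∃ B, ∀ σ ∈ X, σ.card < B := by
    refine ⟨R.sup Finset.card + 1, fun σ hσ => ?_⟩
    rw [← hR.rep_card hσ]
    exact Nat.lt_succ_of_le (Finset.le_sup (f := Finset.card) (hR.rep_mem hσ))
  -- the dual cocycle
  obtain ⟨z, hz, hzf, hzd, hz1⟩ : ∃ z ∈ Ch (ZMod 2) X (n + 1), (Function.support z).Finite ∧
      dl X z = 0 ∧ ∑ᶠ σ, ξ σ * z σ = 1 := by
    by_contra hno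
    obtain ⟨b, hb1, hb2⟩ := pdc_annih hX hξ (fun z h1 h2 h3 => by
      have h4 : ∀ x : ZMod 2, x ≠ 1 → x = 0 := by decide
      exact h4 _ fun h5 => hno ⟨z, h1, h2, h3, h5⟩)
    exact hξ0 b hb1 hb2
  intro b hb hb0
  obtain ⟨F, hF, hFd, hFb⟩ := pdz_liftX hX hinv hz hzf hzd hz1 hb
  have hx : D2 X F ∈ PairS ρ X (n + 1) q := D2_mem hX hF
  have hxd : D1 X (D2 X F) = 0 := by rw [D1_D2, hFd, map_zero]
  have hx0 : augX ξ (D2 X F) = 0 := by
    rw [augX_D2 hX hF, hFb, hb0]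
  obtain ⟨u, hu, hu2⟩ := pdz_row_top hX hξ1 hx hxd hx0
  obtain ⟨y, hy, ⟨w, hw, hyw⟩, hy2⟩ := hstep u hu (fun hq1 => by
      subst hq1
      rw [hu2]
      exact augV_D2 hX hF) (by rw [hu2]; exact D2_D2 hX F)
  have hsum : F + y ∈ PairS ρ X (n + 1) (q + 1) := Submodule.add_mem _ hF hy
  have hz : D2 X (F + y) = 0 := by
    rw [map_add, hy2, hu2]
    funext σ τ
    exact ZModModule.add_self _
  obtain ⟨G, hG, hG2⟩ := pdz_col hX hac (by omega) hsum hz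
  have hG3 : D2 X (D1 X G) = 0 := by
    rw [← D1_D2, hG2, map_add, hFd, hyw, D1_D1 hX, add_zero]
  obtain ⟨E, hE, hE2⟩ := pdz_high hX hlf hac hB B (n + 2) (q + 1 + 1) (by omega) le_rfl
    (by omega) (D1 X G) (D1_mem hX hG) (D1_D1 hX G) hG3
  have hE' : E ∈ PairS ρ X (n + 1) (q + 1 + 1 + 1) := hE
  have hG' : G + D2 X E ∈ PairS ρ X (n + 1) (q + 1 + 1) :=
    Submodule.add_mem _ hG (D2_mem hX hE')
  have hG'1 : D1 X (G + D2 X E) = 0 := by
    rw [map_add, hE2]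
    funext σ τ
    exact ZModModule.add_self _
  have hG'2 : D2 X (G + D2 X E) = F + y := by
    rw [map_add, D2_D2 hX, add_zero, hG2]
  refine ⟨augX ξ (G + D2 X E), pdz_augX_mem hX hinv hG' hG'1, ?_⟩
  have hnw : w ∈ PairS ρ X n (q + 1) := hw
  rw [← augX_D2 hX hG', hG'2, augX_add hF hy, hFb, hyw, augX_D1 hX hξ hξb hnw, add_zero]

/-- Duality: exactness of the cochains in degree `k - 1` gives exactness of the locally finite
chains in degree `n - (k - 1)`. -/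
theorem exBd_of_exCo_pd (hX : FreeCx H X) {n : ℕ} (hlf : PdR n X) (hac : Acyc X) {k : ℕ}
    (h1 : 1 ≤ k) (hk : k ≤ n) (hex : ExCo ρ X k) : ExBd ρ X (n + 2 - k) := by
  obtain ⟨q, hq⟩ : ∃ q, n + 2 - k = q + 1 := ⟨n + 1 - k, by omega⟩
  rw [hq]
  exact pdz_dual hX hlf hac (by omega)
    (pdz_step hX hlf hac h1 hex q n (by omega) (by omega) le_rfl)

/-- Above the dimension `n`. -/
theorem exBd_high_pd (hX : FreeCx H X) {n : ℕ} (hlf : PdR n X) (hac : Acyc X) {k : ℕ}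
    (hk : n + 2 ≤ k) : ExBd ρ X k := by
  obtain ⟨q, rfl⟩ : ∃ q, k = q + 1 := ⟨k - 1, by omega⟩
  exact pdz_dual hX hlf hac (by omega)
    (fun u hu _ hD => pdz_step0 hX hlf hac n q (by omega) le_rfl u hu hD)

end SingerRN
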