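import Mathlib

/-!
# Piece SHR: a Shearer type inequality for dimensions (about 90 lines)

The coordinate functionals `e i : K → k` (`i : I`, restricted to `K`) span the dual space of `K` (a
vector killed by all of them is zero; `K` is finite-dimensional). So there is a set `Π ⊆ I` with
`e i`, `i ∈ Π`, a basis of the dual: `|Π| = finrank K` and these functionals are linearly independent
(`exists_linearIndependent`, `Module.Dual` of a finite-dimensional space; or choose a maximal
independent family). For each `j`: the functionals `e i`, `i ∈ Π ∩ S j`, are linearly independent on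
`K` and factor through the restriction map `K → (S j → k)`, so the dimension of the image of `K` in
`S j → k` is at least `|Π ∩ S j|` (a surjection onto `k^{Π ∩ S j}`: independent functionals
`e i`, `i ∈ Π'`, give a surjective map `K → k^{Π'}`). So `∑_j |Π ∩ S j| ≤ |J| d`, and
`∑_j |Π ∩ S j| = ∑_{i ∈ Π} #{j | i ∈ S j} ≥ m |Π|`.
-/

namespace SingerRN

/-- the coordinate functionals on a subspace -/
noncomputable def shr_e {k I : Type} [Field k] (K : Submodule k (I → k)) (i : I) :
    Module.Dual k K :=
  (LinearMap.proj i : (I → k) →ₗ[k] k).comp K.subtype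

theorem shr_e_apply {k I : Type} [Field k] (K : Submodule k (I → k)) (i : I) (x : K) :
    shr_e K i x = (x : I → k) i := rfl

theorem shr_card_le {k I κ : Type} [Field k] [Fintype I] [DecidableEq I] [Fintype κ]
    (K : Submodule k (I → k)) (S : Finset I) (a : κ → I)
    (hli : LinearIndependent k (fun c => shr_e K (a c))) :
    (Finset.univ.filter fun c => a c ∈ S).card ≤
      Module.finrank k (K.map (LinearMap.funLeft k k (fun x : S => (x : I)))) := by
  classical
  let g : {c : κ // a c ∈ S} →
      Module.Dual k (K.map (LinearMap.funLeft k k (fun x : S => (x : I)))) := fun c =>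
    shr_e (K.map (LinearMap.funLeft k k (fun x : S => (x : I)))) ⟨a c.1, c.2⟩
  have h1 : LinearIndependent k
      (((LinearMap.funLeft k k (fun x : S => (x : I))).submoduleMap K).dualMap ∘ g) :=
    hli.comp (Subtype.val : {c : κ // a c ∈ S} → κ) Subtype.val_injective
  have h2 : LinearIndependent k g := LinearIndependent.of_comp _ h1
  have h3 := h2.fintype_card_le_finrank
  rw [Subspace.dual_finrank_eq] at h3
  rwa [Fintype.card_subtype] at h3

theorem shearer {k I J : Type} [Field k] [Fintype I] [DecidableEq I] [Fintype J]
    (K : Submodule k (I → k)) (S : J → Finset I) (m d : ℕ)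
    (hcov : ∀ i, m ≤ (Finset.univ.filter fun j => i ∈ S j).card)
    (hd : ∀ j, Module.finrank k
      (K.map (LinearMap.funLeft k k (fun x : S j => (x : I)))) ≤ d) :
    m * Module.finrank k K ≤ Fintype.card J * d := by
  classical
  obtain ⟨κ, a, ha, hspan, hli⟩ := exists_linearIndependent' k (shr_e K)
  have : Finite κ := Finite.of_injective a ha
  have : Fintype κ := Fintype.ofFinite κ
  -- the restriction to the chosen coordinates is injective
  have hA : Module.finrank k K ≤ Fintype.card κ := by
    have hinj : Function.Injective
        ((LinearMap.funLeft k k a).comp K.subtype) := by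
      rw [← LinearMap.ker_eq_bot, LinearMap.ker_eq_bot']
      intro x hx
      have h1 : ∀ c, shr_e K (a c) x = 0 := fun c => congrFun hx c
      have h2 : ∀ f ∈ Submodule.span k (Set.range (shr_e K)), f x = 0 := by
        rw [← hspan]
        intro f hf
        induction hf using Submodule.span_induction with
        | mem f hf =>
          obtain ⟨c, rfl⟩ := hf
          exact h1 c
        | zero => rfl
        | add f g _ _ hf hg => rw [LinearMap.add_apply, hf, hg, add_zero]
        | smul r f _ hf => rw [LinearMap.smul_apply, hf, smul_zero]
      apply Subtype.ext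
      funext i
      exact h2 (shr_e K i) (Submodule.subset_span ⟨i, rfl⟩)
    have h3 := LinearMap.finrank_le_finrank_of_injective hinj
    rwa [Module.finrank_fintype_fun_eq_card] at h3
  have h1 : m * Fintype.card κ ≤
      ∑ c : κ, (Finset.univ.filter fun j => a c ∈ S j).card := by
    calc m * Fintype.card κ = ∑ _c : κ, m := by
          rw [Finset.sum_const, Finset.card_univ, smul_eq_mul, mul_comm]
      _ ≤ _ := Finset.sum_le_sum fun c _ => hcov (a c)
  have h2 : ∑ c : κ, (Finset.univ.filter fun j => a c ∈ S j).card =
      ∑ j : J, (Finset.univ.filter fun c => a c ∈ S j).card := by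
    simp only [Finset.card_filter]
    exact Finset.sum_comm
  have h3 : ∑ j : J, (Finset.univ.filter fun c => a c ∈ S j).card ≤ Fintype.card J * d := by
    calc ∑ j : J, (Finset.univ.filter fun c => a c ∈ S j).card ≤ ∑ _j : J, d :=
          Finset.sum_le_sum fun j _ => (shr_card_le K (S j) a hli).trans (hd j)
      _ = Fintype.card J * d := by rw [Finset.sum_const, Finset.card_univ, smul_eq_mul]
  calc m * Module.finrank k K ≤ m * Fintype.card κ := Nat.mul_le_mul_left m hA
    _ ≤ _ := h1
    _ = _ := h2
    _ ≤ _ := h3

end SingerRN
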