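import Mathlib
import Pool.Agent.Lib_MP_394d50_rn.SHR
import Pool.Agent.Lib_MP_394d50_vs.VRank

/-!
# Piece RKS: ranks over finite quotients from a Følner set (about 170 lines)

Let `φ = mapDomainRingHom π`, `A = regM (M.map φ)`. Let `K` be the space of the `x : κ × Q → F₂` with
`∑_{(i, z)} x (i, z) • A (f i, z) = 0`, the kernel of `x ↦ x ᵥ* A'` with `A'` the submatrix of `A` with
the rows `(f i, z)`. `rank A ≥ rank A' = |κ| |Q| - finrank K` (`Matrix.rank_submatrix_le`, rank-nullity,
`Matrix.rank_transpose` or `rank_eq_finrank_span_row`). Apply `shearer` with `I = κ × Q`, `J = Q`,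
`S q = {(i, z) | z ∈ q * π(F)}`, `m = |F|` (`π` is injective on `F`, so every `(i, z)` is in exactly `|F|` of
the `S q`), `d = |b| |F'|`. To bound the dimension of the image of `K` in `S q → F₂`: it is isomorphic
to its image in `κ × F → F₂`, `x ↦ y (i, g) = x (i, q * π g)` (injective on the restrictions). For such `y`
let `y_i = ∑_{g ∈ F} y (i, g) g ∈ F₂[N]` and `Y j = ∑_i y_i * M (f i) j ∈ F₂[N]`. The coefficient of `Y j` at
`h` is `∑_i ∑_{g ∈ F} y (i, g) (M (f i) j).coeff (g⁻¹ h)`. It is zero if `h ∉ F S`. If `h = g₀ s₀` (`g₀ ∈ F`,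
`s₀ ∈ S`) and `h ∉ F'`, then `h s⁻¹ ∈ F` for all `s ∈ S` by `hF'`, so it is
`∑_i ∑_{s ∈ S} x (i, q π(h s⁻¹)) (M (f i) j).coeff s`, the coordinate `(j, q π h)` of `x ᵥ* A'` (there
`(φ (M (f i) j)).coeff z = ∑_{s ∈ S, π s = z} (M (f i) j).coeff s`), so it is zero. So `Y j` is supported on
`F'`. The linear map `y ↦ (Y j)_j`, into `b × F' → F₂`, is injective: if all `Y j = 0` then
`∑_i ι (y_i) • (ι (M (f i) j))_j = 0`, so `y_i = 0` by `hli` and `hι`. So the dimension is at most
`|b| |F'|`.
-/

namespace SingerRN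

open SingerRA SingerVS

theorem rks_finrank {k V W W' : Type} [Field k] [AddCommGroup V] [Module k V]
    [AddCommGroup W] [Module k W] [AddCommGroup W'] [Module k W'] [FiniteDimensional k V]
    (K : Submodule k V) (r : V →ₗ[k] W) (ps : V →ₗ[k] W') (h : ∀ x ∈ K, ps x = 0 → r x = 0) :
    Module.finrank k (K.map r) ≤ Module.finrank k (K.map ps) := by
  have h1 := LinearMap.finrank_range_add_finrank_ker (r.domRestrict K)
  have h2 := LinearMap.finrank_range_add_finrank_ker (ps.domRestrict K)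
  rw [LinearMap.range_domRestrict] at h1 h2
  have h3 : LinearMap.ker (ps.domRestrict K) ≤ LinearMap.ker (r.domRestrict K) := by
    rintro ⟨x, hx⟩ hx0
    rw [LinearMap.mem_ker] at hx0 ⊢
    exact h x hx hx0
  have h4 := Submodule.finrank_mono h3
  omega

theorem rks_map {N Q : Type} [Group N] [Group Q] [DecidableEq Q] (π : N →* Q)
    (m : MonoidAlgebra (ZMod 2) N) (S : Finset N) (hS : m.coeff.support ⊆ S) (w : Q) :
    (MonoidAlgebra.mapDomainRingHom (ZMod 2) π m).coeff w =
      ∑ s ∈ S, if π s = w then m.coeff s else 0 := by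
  show (Finsupp.mapDomain π m.coeff) w = _
  unfold Finsupp.mapDomain
  rw [Finsupp.sum_apply, Finsupp.sum_of_support_subset _ hS]
  · refine Finset.sum_congr rfl fun s _ => ?_
    rw [Finsupp.single_apply]
  · intro i _
    rw [Finsupp.single_zero, Finsupp.zero_apply]

theorem rks_coeff {N : Type} [Group N] (F : Finset N) (c : N → ZMod 2)
    (m : MonoidAlgebra (ZMod 2) N) (h : N) :
    ((∑ g ∈ F, c g • gN g) * m).coeff h = ∑ g ∈ F, c g * m.coeff (g⁻¹ * h) := by
  rw [Finset.sum_mul, MonoidAlgebra.coeff_sum, Finsupp.finsetSum_apply]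
  refine Finset.sum_congr rfl fun g _ => ?_
  rw [smul_mul_assoc]
  show c g • ((MonoidAlgebra.single g 1 * m).coeff h) = _
  rw [MonoidAlgebra.coeff_single_mul_apply, one_mul, smul_eq_mul]

theorem rks_coeff_gN {N : Type} [Group N] (F : Finset N) (c : N → ZMod 2) {h : N} (hh : h ∈ F) :
    (∑ g ∈ F, c g • gN g).coeff h = c h := by
  rw [MonoidAlgebra.coeff_sum, Finsupp.finsetSum_apply, Finset.sum_eq_single h]
  · show c h • (MonoidAlgebra.single h (1 : ZMod 2)).coeff h = c h
    rw [MonoidAlgebra.coeff_single, Finsupp.single_eq_same, smul_eq_mul, mul_one]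
  · intro g _ hg
    show c g • (MonoidAlgebra.single g (1 : ZMod 2)).coeff h = 0
    rw [MonoidAlgebra.coeff_single, Finsupp.single_eq_of_ne (Ne.symm hg), smul_zero]
  · intro h1
    exact absurd hh h1

/-- change of variables -/
theorem rks_change {N : Type} [Group N] (F S : Finset N) (m : N →₀ ZMod 2)
    (hS : m.support ⊆ S) (u : N → ZMod 2) (h : N) (hh : ∀ s ∈ S, h * s⁻¹ ∈ F) :
    ∑ g ∈ F, u g * m (g⁻¹ * h) = ∑ s ∈ S, u (h * s⁻¹) * m s := by
  classical
  have h1 : ∑ s ∈ S, u (h * s⁻¹) * m s =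
      ∑ g ∈ S.image (fun s => h * s⁻¹), u g * m (g⁻¹ * h) := by
    rw [Finset.sum_image]
    · refine Finset.sum_congr rfl fun s _ => ?_
      congr 2
      group
    · intro s _ s' _ hss
      exact inv_injective (mul_left_cancel hss)
  rw [h1]
  symm
  apply Finset.sum_subset
  · intro g hg
    obtain ⟨s, hs, rfl⟩ := Finset.mem_image.1 hg
    exact hh s hs
  · intro g _ hg
    have h2 : m (g⁻¹ * h) = 0 := by
      by_contra h3
      apply hg
      refine Finset.mem_image.2 ⟨g⁻¹ * h, hS (Finsupp.mem_support_iff.2 h3), ?_⟩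
      group
    rw [h2, mul_zero]

/-- the coordinates of `x ᵥ* A'` -/
theorem rks_vecMul {N Q : Type} [Group N] [Group Q] [Fintype Q] (π : N →* Q) {κ : Type}
    [Fintype κ] (m : κ → MonoidAlgebra (ZMod 2) N) (S : Finset N)
    (hS : ∀ i, (m i).coeff.support ⊆ S) (x : κ × Q → ZMod 2) (w : Q) :
    ∑ p : κ × Q, x p *
        (MonoidAlgebra.mapDomainRingHom (ZMod 2) π (m p.1)).coeff (p.2⁻¹ * w) =
      ∑ i, ∑ s ∈ S, x (i, w * (π s)⁻¹) * (m i).coeff s := by
  classical
  rw [Fintype.sum_prod_type]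
  refine Finset.sum_congr rfl fun i _ => ?_
  have h1 : ∀ z : Q, x (i, z) *
      (MonoidAlgebra.mapDomainRingHom (ZMod 2) π (m i)).coeff (z⁻¹ * w) =
      ∑ s ∈ S, if z = w * (π s)⁻¹ then x (i, z) * (m i).coeff s else 0 := by
    intro z
    rw [rks_map π (m i) S (hS i), Finset.mul_sum]
    refine Finset.sum_congr rfl fun s _ => ?_
    rw [mul_ite, mul_zero]
    refine if_congr ?_ rfl rfl
    constructor
    · intro h
      rw [h]
      group
    · intro h
      rw [h]
      group
  rw [Finset.sum_congr rfl fun z _ => h1 z, Finset.sum_comm]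
  refine Finset.sum_congr rfl fun s _ => ?_
  rw [Finset.sum_ite_eq' Finset.univ (w * (π s)⁻¹) (fun z => x (i, z) * (m i).coeff s),
    if_pos (Finset.mem_univ _)]

/-- the map into the boundary values -/
noncomputable def rksPsi {N Q : Type} [Group N] [Group Q] (π : N →* Q) {κ b : Type}
    [Fintype κ] (m : κ → b → MonoidAlgebra (ZMod 2) N) (F F' : Finset N) (q : Q) :
    (κ × Q → ZMod 2) →ₗ[ZMod 2] (b × F' → ZMod 2) where
  toFun x := fun p => ∑ i, ∑ g ∈ F, x (i, q * π g) * (m i p.1).coeff (g⁻¹ * (p.2 : N))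
  map_add' x y := by
    funext p
    simp only [Pi.add_apply, add_mul, Finset.sum_add_distrib]
  map_smul' c x := by
    funext p
    simp only [Pi.smul_apply, smul_eq_mul, RingHom.id_apply, Finset.mul_sum, mul_assoc]

theorem rks_inj {N Q : Type} [Group N] [Group Q] [Fintype Q] (π : N →* Q) {b : Type}
    [Fintype b] {D : Type} [DivisionRing D] (ι : MonoidAlgebra (ZMod 2) N →+* D)
    (hι : Function.Injective ι) {κ : Type} [Fintype κ] (m : κ → b → MonoidAlgebra (ZMod 2) N)
    (hli : LinearIndependent D (fun i => (fun j => ι (m i j) : b → D)))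
    (F F' S : Finset N) (hS : ∀ i j, (m i j).coeff.support ⊆ S)
    (hF' : ∀ g ∈ F, ∀ s ∈ S, g * s ∉ F' → ∀ s' ∈ S, g * s * s'⁻¹ ∈ F) (q : Q)
    (x : κ × Q → ZMod 2)
    (hx : ∀ (j : b) (w : Q), ∑ p : κ × Q, x p *
        (MonoidAlgebra.mapDomainRingHom (ZMod 2) π (m p.1 j)).coeff (p.2⁻¹ * w) = 0)
    (hx0 : rksPsi π m F F' q x = 0) (i : κ) (g : N) (hg : g ∈ F) : x (i, q * π g) = 0 := by
  classical
  have key : ∀ j, ∑ i, (∑ g ∈ F, x (i, q * π g) • gN g) * m i j = 0 := by
    intro j
    apply MonoidAlgebra.coeff_injective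
    ext h
    rw [MonoidAlgebra.coeff_sum, Finsupp.finsetSum_apply, MonoidAlgebra.coeff_zero,
      Finsupp.zero_apply]
    simp only [rks_coeff F (fun g => x (_, q * π g))]
    by_cases h1 : h ∈ F'
    · exact congrFun hx0 (j, ⟨h, h1⟩)
    · by_cases h2 : ∃ g₀ ∈ F, ∃ s₀ ∈ S, h = g₀ * s₀
      · obtain ⟨g₀, hg₀, s₀, hs₀, rfl⟩ := h2
        have h3 := hF' g₀ hg₀ s₀ hs₀ h1
        have h4 := hx j (q * π (g₀ * s₀))
        rw [rks_vecMul π (fun i => m i j) S (fun i => hS i j)] at h4
        refine Eq.trans (Finset.sum_congr rfl fun i _ => ?_) h4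
        rw [rks_change F S (m i j).coeff (hS i j) (fun g => x (i, q * π g)) (g₀ * s₀) h3]
        refine Finset.sum_congr rfl fun s _ => ?_
        rw [map_mul, map_inv, mul_assoc q]
      · refine Finset.sum_eq_zero fun i _ => Finset.sum_eq_zero fun g hg => ?_
        have h3 : (m i j).coeff (g⁻¹ * h) = 0 := by
          by_contra h4
          apply h2
          refine ⟨g, hg, g⁻¹ * h, hS i j (Finsupp.mem_support_iff.2 h4), ?_⟩
          group
        rw [h3, mul_zero]
  have key2 : ∑ i, ι (∑ g ∈ F, x (i, q * π g) • gN g) • (fun j => ι (m i j) : b → D) = 0 := by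
    funext j
    rw [Finset.sum_apply]
    have h1 := congrArg ι (key j)
    rw [map_zero, map_sum] at h1
    refine Eq.trans (Finset.sum_congr rfl fun i _ => ?_) h1
    show ι (∑ g ∈ F, x (i, q * π g) • gN g) * ι (m i j) = _
    rw [← map_mul]
  have key3 := Fintype.linearIndependent_iff.mp hli _ key2
  have h1 : ∑ g ∈ F, x (i, q * π g) • gN g = 0 := hι ((key3 i).trans (map_zero ι).symm)
  have h2 := rks_coeff_gN F (fun g => x (i, q * π g)) hg
  rw [h1] at h2
  exact h2.symm

theorem rank_folner {N Q : Type} [Group N] [Group Q] [Fintype Q] (π : N →* Q) {a b : Type}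
    [Fintype a] [Fintype b] (M : Matrix a b (MonoidAlgebra (ZMod 2) N)) {D : Type}
    [DivisionRing D] (ι : MonoidAlgebra (ZMod 2) N →+* D) (hι : Function.Injective ι)
    {κ : Type} [Fintype κ] (f : κ → a)
    (hli : LinearIndependent D (fun i => (fun j => ι (M (f i) j) : b → D)))
    (F F' S : Finset N) (hS : ∀ i j, (M i j).coeff.support ⊆ S) (hπ : Set.InjOn π F)
    (hF' : ∀ g ∈ F, ∀ s ∈ S, g * s ∉ F' → ∀ s' ∈ S, g * s * s'⁻¹ ∈ F) :
    Fintype.card κ * Fintype.card Q * F.card ≤
      (regM (M.map (MonoidAlgebra.mapDomainRingHom (ZMod 2) π))).rank * F.card +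
        Fintype.card b * F'.card * Fintype.card Q := by
  classical
  set φ := MonoidAlgebra.mapDomainRingHom (ZMod 2) π with hφ
  set A' : Matrix (κ × Q) (b × Q) (ZMod 2) :=
    (regM (M.map φ)).submatrix (fun p : κ × Q => (f p.1, p.2)) id with hA'
  have hr : A'.rank ≤ (regM (M.map φ)).rank := Matrix.rank_submatrix_le _ _ _
  have hrn := LinearMap.finrank_range_add_finrank_ker A'.vecMulLinear
  rw [Module.finrank_fintype_fun_eq_card, range_vecMulLinear,
    ← Matrix.rank_eq_finrank_span_row, Fintype.card_prod] at hrn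
  set K := LinearMap.ker A'.vecMulLinear with hK
  have hsh := shearer K (fun q : Q => (Finset.univ.filter fun p : κ × Q => ∃ g ∈ F, p.2 = q * π g))
    F.card (Fintype.card b * F'.card) ?_ ?_
  · calc Fintype.card κ * Fintype.card Q * F.card
        = (A'.rank + Module.finrank (ZMod 2) K) * F.card := by rw [hrn]
      _ = A'.rank * F.card + F.card * Module.finrank (ZMod 2) K := by ring
      _ ≤ (regM (M.map φ)).rank * F.card + Fintype.card Q * (Fintype.card b * F'.card) :=
          Nat.add_le_add (Nat.mul_le_mul_right _ hr) hsh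
      _ = _ := by ring
  · rintro ⟨i, z⟩
    have h1 : (F.image fun g => z * (π g)⁻¹) ⊆ Finset.univ.filter fun q : Q =>
        (i, z) ∈ Finset.univ.filter fun p : κ × Q => ∃ g ∈ F, p.2 = q * π g := by
      intro q hq
      obtain ⟨g, hg, rfl⟩ := Finset.mem_image.1 hq
      rw [Finset.mem_filter, Finset.mem_filter]
      refine ⟨Finset.mem_univ _, Finset.mem_univ _, g, hg, ?_⟩
      rw [inv_mul_cancel_right]
    refine le_trans (le_of_eq ?_) (Finset.card_le_card h1)
    rw [Finset.card_image_of_injOn]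
    intro g hg g' hg' hgg
    exact hπ hg hg' (inv_injective (mul_left_cancel hgg))
  · intro q
    refine le_trans (rks_finrank K _ (rksPsi π (fun i j => M (f i) j) F F' q) ?_) ?_
    · intro x hx hx0
      funext ⟨⟨i, z⟩, hp⟩
      rw [Finset.mem_filter] at hp
      obtain ⟨_, g, hg, hz⟩ := hp
      show x (i, z) = 0
      have hz' : z = q * π g := hz
      rw [hz']
      refine rks_inj π ι hι (fun i j => M (f i) j) hli F F' S (fun i j => hS _ _) hF' q x ?_ hx0
        i g hg
      intro j w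
      have h1 : Matrix.vecMul x A' = 0 := hx
      have h2 := congrFun h1 (j, w)
      exact h2
    · refine le_trans (Submodule.finrank_le _) ?_
      rw [Module.finrank_fintype_fun_eq_card, Fintype.card_prod, Fintype.card_coe]

end SingerRN
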