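import Mathlib
import Pool.Agent.Lib_MP_394d50_rn.RKS
import Pool.Agent.Lib_MP_394d50_rn.RDefs

/-!
# Piece RUP: ranks over finite group rings, amenable residually finite groups (about 150 lines)

`resFin_set`: induction on the finite set, with the product of the quotients (`MonoidHom.prod`).
`ranks_of_up_amen`: copy the proof of `SingerVS.ranks_of_up` (`Lib_MP_394d50_vs/VRank.lean`) up to the
choice of `c`, `κ, κ', f, f', hli, hli'` (`exMat_of_up`, `exMat_rows`) and of the finite set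
`T ⊆ N c` containing the supports of all entries, `1`, and `jN c h` for `h ∈ S`. Let `F` be a Følner set
for the finite set `{s * s'⁻¹ | s, s' ∈ T}` and a small `ε' > 0`, and
`F' = {g * s | g ∈ F, s ∈ T, ∃ s' ∈ T, g * s * s'⁻¹ ∉ F}`, so `|F'| ≤ |T|² ε' |F|` (for fixed `s, s'` the number of
`g ∈ F` with `g * (s * s'⁻¹) ∉ F` is `≤ ε' |F|`). `resFin_set` gives a finite quotient `π : N c →* Q` which is
injective on `F` (the elements `g⁻¹ g'`, `g ≠ g' ∈ F`, are not killed) and kills no `jN c h ≠ 1`, `h ∈ S`.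
`rank_folner` for both matrices (divide by `|F| > 0`): the sum of the ranks is at least
`(|κ| + |κ'|) |Q| - (|b| + |e|) |T|² ε' |Q| ≥ (|b| - ε) |Q|` for `ε' = ε / ((|b| + |e| + 1) (|T|² + 1))`.
-/

namespace SingerRN

open SingerRA SingerVS Matrix Filter

theorem resFin_set {A : Type} [Group A] (hA : ResFin A) (B : Finset A) :
    ∃ (Q : Type) (_ : Group Q) (_ : Finite Q) (f : A →* Q), ∀ a ∈ B, a ≠ 1 → f a ≠ 1 := by
  classical
  induction B using Finset.induction_on with
  | empty => exact ⟨Multiplicative (ZMod 1), inferInstance, inferInstance, 1, by simp⟩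
  | @insert x B hx ih =>
    obtain ⟨Q, iQ, fQ, f, hf⟩ := ih
    by_cases h1 : x = 1
    · refine ⟨Q, iQ, fQ, f, ?_⟩
      intro a ha hne
      rcases Finset.mem_insert.1 ha with h | h
      · exact absurd (h.trans h1) hne
      · exact hf a h hne
    · obtain ⟨Q', iQ', fQ', f', hf'⟩ := hA x h1
      refine ⟨Q' × Q, inferInstance, inferInstance, f'.prod f, ?_⟩
      intro a ha hne he
      rcases Finset.mem_insert.1 ha with h | h
      · subst h
        exact hf' (congrArg Prod.fst he)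
      · exact hf a h hne (congrArg Prod.snd he)

/-- the Følner set with its boundary -/
theorem rup_folner {A : Type} [Group A] (hA : Amen A) (T : Finset A) (ε : ℝ) (hε : 0 < ε) :
    ∃ F F' : Finset A, F.Nonempty ∧
      (∀ g ∈ F, ∀ s ∈ T, g * s ∉ F' → ∀ s' ∈ T, g * s * s'⁻¹ ∈ F) ∧
      (F'.card : ℝ) ≤ ((T.card : ℝ) ^ 2 * ε) * (F.card : ℝ) := by
  classical
  obtain ⟨F, hF, hF2⟩ := hA ((T ×ˢ T).image fun q => q.1 * q.2⁻¹) ε hε
  refine ⟨F, ((F ×ˢ T).filter fun q => ∃ s' ∈ T, q.1 * q.2 * s'⁻¹ ∉ F).image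
    (fun q => q.1 * q.2), hF, ?_, ?_⟩
  · intro g hg s hs hgs s' hs'
    by_contra hcon
    exact hgs (Finset.mem_image.2 ⟨(g, s), Finset.mem_filter.2 ⟨Finset.mem_product.2 ⟨hg, hs⟩,
      s', hs', hcon⟩, rfl⟩)
  · have h1 : ((F ×ˢ T).filter fun q => ∃ s' ∈ T, q.1 * q.2 * s'⁻¹ ∉ F) ⊆
        (T ×ˢ T).biUnion fun p => (F.filter fun x => x * (p.1 * p.2⁻¹) ∉ F).image
          fun g => (g, p.1) := by
      rintro ⟨g, s⟩ hq
      obtain ⟨hq1, s', hs', hq2⟩ := Finset.mem_filter.1 hq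
      obtain ⟨hg, hs⟩ := Finset.mem_product.1 hq1
      refine Finset.mem_biUnion.2 ⟨(s, s'), Finset.mem_product.2 ⟨hs, hs'⟩, ?_⟩
      refine Finset.mem_image.2 ⟨g, Finset.mem_filter.2 ⟨hg, ?_⟩, rfl⟩
      rw [← mul_assoc]
      exact hq2
    have h2 : (((F ×ˢ T).filter fun q => ∃ s' ∈ T, q.1 * q.2 * s'⁻¹ ∉ F).card : ℝ) ≤
        ∑ p ∈ T ×ˢ T, ε * (F.card : ℝ) := by
      refine (Nat.cast_le.2 ((Finset.card_le_card h1).trans Finset.card_biUnion_le)).trans ?_
      rw [Nat.cast_sum]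
      refine Finset.sum_le_sum fun p hp => ?_
      refine (Nat.cast_le.2 Finset.card_image_le).trans ?_
      have h3 := hF2 (p.1 * p.2⁻¹) (Finset.mem_image.2 ⟨p, hp, rfl⟩)
      refine le_trans (le_of_eq ?_) h3
      congr 2
    rw [Finset.sum_const, Finset.card_product, nsmul_eq_mul] at h2
    refine (Nat.cast_le.2 Finset.card_image_le).trans (h2.trans (le_of_eq ?_))
    push_cast
    ring

theorem ranks_of_up_amen {H : Type} [Group H] (N D : ℕ → Type) [∀ c, Group (N c)]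
    [∀ c, DivisionRing (D c)] (ι : ∀ c, MonoidAlgebra (ZMod 2) (N c) →+* D c)
    (hι : ∀ c, Function.Injective (ι c)) (hA : ∀ c, Amen (N c)) (hR : ∀ c, ResFin (N c))
    (jN : ∀ c, H →* N c)
    (hj : ∀ h : H, h ≠ 1 → ∀ᶠ c in (hyperfilter ℕ : Filter ℕ), jN c h ≠ 1)
    {a b e : Type} [Fintype a] [Fintype b] [Fintype e]
    (A : Matrix a b (MonoidAlgebra (ZMod 2) H)) (B : Matrix b e (MonoidAlgebra (ZMod 2) H))
    (hex : ExMat (Matrix.of fun i j => upm D (fun c =>
        ι c (MonoidAlgebra.mapDomainRingHom (ZMod 2) (jN c) (A i j))))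
      (Matrix.of fun i j => upm D (fun c =>
        ι c (MonoidAlgebra.mapDomainRingHom (ZMod 2) (jN c) (B i j)))))
    (S : Finset H) (ε : ℝ) (hε : 0 < ε) :
    ∃ (Q : Type) (_ : Group Q) (_ : Fintype Q) (f : H →* Q), (∀ h ∈ S, h ≠ 1 → f h ≠ 1) ∧
      ((Fintype.card b : ℝ) - ε) * (Nat.card Q : ℝ) ≤
        ((regM (A.map (MonoidAlgebra.mapDomainRingHom (ZMod 2) f))).rank : ℝ) +
        ((regM (B.map (MonoidAlgebra.mapDomainRingHom (ZMod 2) f))).rank : ℝ) := by
  classical
  have h1 := exMat_of_up D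
    (fun c => Matrix.of fun i j => ι c (MonoidAlgebra.mapDomainRingHom (ZMod 2) (jN c) (A i j)))
    (fun c => Matrix.of fun i j => ι c (MonoidAlgebra.mapDomainRingHom (ZMod 2) (jN c) (B i j)))
    hex
  have h2 : ∀ᶠ c in (hyperfilter ℕ : Filter ℕ), ∀ h ∈ S, h ≠ 1 → jN c h ≠ 1 := by
    rw [Finset.eventually_all]
    intro h _
    by_cases h1 : h = 1
    · exact Eventually.of_forall fun c h2 => absurd h1 h2
    · filter_upwards [hj h h1] with c hc _
      exact hc
  obtain ⟨c, hc1, hc2⟩ := (h1.and h2).exists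
  obtain ⟨κ, κ', i1, i2, f, f', hli, hli', hcard⟩ := exMat_rows hc1
  set MA : Matrix a b (MonoidAlgebra (ZMod 2) (N c)) :=
    A.map (MonoidAlgebra.mapDomainRingHom (ZMod 2) (jN c)) with hMA
  set MB : Matrix b e (MonoidAlgebra (ZMod 2) (N c)) :=
    B.map (MonoidAlgebra.mapDomainRingHom (ZMod 2) (jN c)) with hMB
  set T : Finset (N c) := (Finset.univ.biUnion fun p : a × b => (MA p.1 p.2).coeff.support) ∪
    (Finset.univ.biUnion fun p : b × e => (MB p.1 p.2).coeff.support) with hT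
  have hTA : ∀ i j, (MA i j).coeff.support ⊆ T := fun i j x hx => Finset.mem_union_left _
    (Finset.mem_biUnion.mpr ⟨(i, j), Finset.mem_univ _, hx⟩)
  have hTB : ∀ i j, (MB i j).coeff.support ⊆ T := fun i j x hx => Finset.mem_union_right _
    (Finset.mem_biUnion.mpr ⟨(i, j), Finset.mem_univ _, hx⟩)
  set K : ℝ := ((Fintype.card b : ℝ) + (Fintype.card e : ℝ)) * (T.card : ℝ) ^ 2 + 1 with hK
  have hKpos : 0 < K := by positivity
  obtain ⟨F, F', hFne, hF', hFc⟩ := rup_folner (hA c) T (ε / K) (div_pos hε hKpos)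
  obtain ⟨Q, iQ, fQ, π, hπ⟩ := resFin_set (hR c)
    (((F ×ˢ F).image fun q => q.1⁻¹ * q.2) ∪ S.image (jN c))
  have iF : Fintype Q := Fintype.ofFinite Q
  have hπF : Set.InjOn π F := by
    intro g hg g' hg' hgg
    by_contra hne
    refine hπ (g⁻¹ * g') (Finset.mem_union_left _ (Finset.mem_image.2
      ⟨(g, g'), Finset.mem_product.2 ⟨hg, hg'⟩, rfl⟩)) ?_ ?_
    · intro h
      exact hne (inv_mul_eq_one.1 h)
    · rw [map_mul, map_inv, hgg, inv_mul_cancel]
  refine ⟨Q, iQ, iF, π.comp (jN c), ?_, ?_⟩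
  · intro h hh hne
    exact hπ (jN c h) (Finset.mem_union_right _ (Finset.mem_image_of_mem _ hh)) (hc2 h hh hne)
  · have r1 := rank_folner π MA (ι c) (hι c) f hli F F' T hTA hπF hF'
    have r2 := rank_folner π MB (ι c) (hι c) f' hli' F F' T hTB hπF hF'
    have e1 : ∀ {x y : Type} (M : Matrix x y (MonoidAlgebra (ZMod 2) H)),
        (M.map (MonoidAlgebra.mapDomainRingHom (ZMod 2) (jN c))).map
          (MonoidAlgebra.mapDomainRingHom (ZMod 2) π) =
        M.map (MonoidAlgebra.mapDomainRingHom (ZMod 2) (π.comp (jN c))) := by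
      intro x y M
      apply Matrix.ext
      intro i j
      show MonoidAlgebra.mapDomainRingHom (ZMod 2) π
        (MonoidAlgebra.mapDomainRingHom (ZMod 2) (jN c) (M i j)) = _
      apply MonoidAlgebra.coeff_injective
      show Finsupp.mapDomain π (Finsupp.mapDomain (jN c) (M i j).coeff) =
        Finsupp.mapDomain (π.comp (jN c)) (M i j).coeff
      rw [← Finsupp.mapDomain_comp]
      rfl
    rw [hMA, e1] at r1
    rw [hMB, e1] at r2
    set RA : ℝ := ((regM (A.map
      (MonoidAlgebra.mapDomainRingHom (ZMod 2) (π.comp (jN c))))).rank : ℝ) with hRA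
    set RB : ℝ := ((regM (B.map
      (MonoidAlgebra.mapDomainRingHom (ZMod 2) (π.comp (jN c))))).rank : ℝ) with hRB
    rw [Nat.card_eq_fintype_card]
    have r1' : (Fintype.card κ : ℝ) * (Fintype.card Q : ℝ) * (F.card : ℝ) ≤
        RA * (F.card : ℝ) + (Fintype.card b : ℝ) * (F'.card : ℝ) * (Fintype.card Q : ℝ) := by
      rw [hRA]
      exact_mod_cast r1
    have r2' : (Fintype.card κ' : ℝ) * (Fintype.card Q : ℝ) * (F.card : ℝ) ≤
        RB * (F.card : ℝ) + (Fintype.card e : ℝ) * (F'.card : ℝ) * (Fintype.card Q : ℝ) := by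
      rw [hRB]
      exact_mod_cast r2
    have hFpos : (0 : ℝ) < (F.card : ℝ) := by exact_mod_cast Finset.card_pos.2 hFne
    have hcard' : (Fintype.card b : ℝ) ≤ (Fintype.card κ : ℝ) + (Fintype.card κ' : ℝ) := by
      exact_mod_cast hcard
    have hq : (0 : ℝ) ≤ (Fintype.card Q : ℝ) := Nat.cast_nonneg _
    have hbe : (0 : ℝ) ≤ (Fintype.card b : ℝ) + (Fintype.card e : ℝ) := by positivity
    have h3 : (Fintype.card b : ℝ) * ((Fintype.card Q : ℝ) * (F.card : ℝ)) ≤
        ((Fintype.card κ : ℝ) + (Fintype.card κ' : ℝ)) *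
          ((Fintype.card Q : ℝ) * (F.card : ℝ)) :=
      mul_le_mul_of_nonneg_right hcard' (by positivity)
    have h4 : ((Fintype.card b : ℝ) + (Fintype.card e : ℝ)) * (F'.card : ℝ) ≤
        ε * (F.card : ℝ) := by
      have h5 : ((Fintype.card b : ℝ) + (Fintype.card e : ℝ)) * (F'.card : ℝ) ≤
          ((Fintype.card b : ℝ) + (Fintype.card e : ℝ)) *
            (((T.card : ℝ) ^ 2 * (ε / K)) * (F.card : ℝ)) :=
        mul_le_mul_of_nonneg_left hFc hbe
      have h6 : ((Fintype.card b : ℝ) + (Fintype.card e : ℝ)) *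
            (((T.card : ℝ) ^ 2 * (ε / K)) * (F.card : ℝ)) =
          ((((Fintype.card b : ℝ) + (Fintype.card e : ℝ)) * (T.card : ℝ) ^ 2) / K) *
            (ε * (F.card : ℝ)) := by
        field_simp
      have h7 : (((Fintype.card b : ℝ) + (Fintype.card e : ℝ)) * (T.card : ℝ) ^ 2) / K ≤ 1 := by
        rw [div_le_one hKpos, hK]
        linarith
      have h8 : 0 ≤ ε * (F.card : ℝ) := by positivity
      rw [h6] at h5
      exact h5.trans (mul_le_of_le_one_left h8 h7)
    have h9 : (((Fintype.card b : ℝ) + (Fintype.card e : ℝ)) * (F'.card : ℝ)) *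
        (Fintype.card Q : ℝ) ≤ (ε * (F.card : ℝ)) * (Fintype.card Q : ℝ) :=
      mul_le_mul_of_nonneg_right h4 hq
    have h10 : (((Fintype.card b : ℝ) - ε) * (Fintype.card Q : ℝ)) * (F.card : ℝ) ≤
        (RA + RB) * (F.card : ℝ) := by
      nlinarith
    exact le_of_mul_le_mul_right h10 hFpos

end SingerRN
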