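import Mathlib
import Pool.Agent.Lib_MP_394d50_rn.COC
import Pool.Agent.Lib_MP_394d50_rn.IND
import Pool.Agent.Lib_MP_394d50_rn.RUP
import Pool.Agent.Lib_MP_394d50_rn.PDZ
import Pool.Agent.Lib_MP_394d50_vs.VUp

/-!
# Exactness over `D` and over the ultraproduct, ranks over finite group rings
-/

namespace SingerRN

open SingerRA SingerVS Filter Matrix
open scoped Pointwise

theorem exMat_map {D D' : Type} [DivisionRing D] [DivisionRing D'] (ψ : D →+* D') {a b e : Type}
    [Fintype a] [Fintype b] [Fintype e] {A : Matrix a b D} {B : Matrix b e D}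
    (h : ExMat A B) : ExMat (A.map ψ) (B.map ψ) := by
  classical
  obtain ⟨Y, Z, hYZ⟩ := exMat_split h
  refine exMat_of_split (Y.map ψ) (Z.map ψ) ?_
  rw [← Matrix.map_mul, ← Matrix.map_mul, ← Matrix.map_add _ (fun x y => map_add ψ x y), hYZ]
  exact Matrix.map_one _ (map_zero ψ) (map_one ψ)

section

variable {U : Type} [Group U] (T : Tow U) [∀ c, NoZeroDivisors (FN (T.V c))]
  [∀ c, IsOreG (T.V c)]
variable {H P : Type} [Group H] [LinearOrder P] [MulAction H P] {X : Set (Finset P)}

/-- Exactness over `D` outside the middle dimension. -/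
theorem exact_rn (hX : FreeCx H X) (ho : OrdInv H X) {n : ℕ} (hlf : PdR n X) (hac : Acyc X)
    (hA : ∀ i, Amen (T.V i)) {r : U → U → Prop} (hr : TOrd T r) (j : H →* U)
    (hj : Function.Injective j) (k : ℕ) (hk : 2 * k ≠ n) :
    ExCo (rhoD ((tD T).comp j)) X (k + 1) ∨ ExBd (rhoD ((tD T).comp j)) X (k + 1) := by
  have hO : ∀ i, OreExt (phiI T (tD T) i) := fun i => oreExt_phiI (dsys_tD T) hA hr i
  have hco : ∀ i, 1 ≤ i → 2 * (i - 1) < n → ExCo (rhoD ((tD T).comp j)) X i := by
    intro i h1 h2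
    exact tateV _ (fun h => star_tD T (j h)) hX ho
      (fun i h3 h4 => exCo_rhoT_rn (star_tD T) (dsys_tD T) hO hr hX hlf j hj h3 h4) i h1 h2
  rcases Nat.lt_or_ge (2 * k) n with h | h
  · exact Or.inl (hco (k + 1) (by omega) (by omega))
  · by_cases hkn : k ≤ n
    · right
      have h1 := exBd_of_exCo_pd hX hlf hac (k := n + 1 - k) (by omega) (by omega)
        (hco (n + 1 - k) (by omega) (by omega))
      have e : n + 2 - (n + 1 - k) = k + 1 := by omega
      rw [e] at h1
      exact h1
    · exact Or.inr (exBd_high_pd hX hlf hac (by omega))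

/-- The homomorphism from the group ring of `H` to `D`. -/
noncomputable def phiD (j : H →* U) : MonoidAlgebra (ZMod 2) H →+* DT T :=
  MonoidAlgebra.liftNCRingHom (algebraMap (ZMod 2) (DT T))
    ((Units.coeHom (DT T)).comp ((tD T).comp j)) (fun x y => Algebra.commutes x _)

theorem phiD_gN (j : H →* U) (h : H) :
    phiD T j (gN h) = ((((tD T).comp j) h : (DT T)ˣ) : DT T) := by
  unfold phiD gN
  rw [MonoidAlgebra.of_apply, MonoidAlgebra.liftNCRingHom_single, map_one, one_mul]
  rfl

/-- The homomorphism from the group ring of `H` to the ultraproduct. -/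
noncomputable def phiU (j : H →* U) : MonoidAlgebra (ZMod 2) H →+* UT T :=
  (upm (fun c => DN (T.V c))).comp (RingHom.pi fun c => (io (T.V c)).comp
    (MonoidAlgebra.mapDomainRingHom (ZMod 2) ((prV T c).comp j)))

theorem phiU_eq (j : H →* U) (x : MonoidAlgebra (ZMod 2) H) :
    ((phiD T j x : DT T) : UT T) = phiU T j x := by
  have h1 : (DF T).subtype.comp (phiD T j) = phiU T j := by
    refine MonoidAlgebra.ringHom_ext (fun r => ?_) (fun h => ?_)
    · have h2 : r = 0 ∨ r = 1 := zm2_cases r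
      rcases h2 with rfl | rfl
      · rw [MonoidAlgebra.single_zero, map_zero, map_zero]
      · rw [← MonoidAlgebra.one_def, map_one, map_one]
    · have e1 : (MonoidAlgebra.single h (1 : ZMod 2)) = gN h := rfl
      rw [e1, RingHom.comp_apply, phiD_gN]
      show ((tUP T (j h) : (UT T)ˣ) : UT T) = _
      rw [tUP_val]
      unfold phiU
      rw [RingHom.comp_apply]
      refine congrArg (upm (fun c => DN (T.V c))) (funext fun c => ?_)
      show _ = io (T.V c) (MonoidAlgebra.mapDomainRingHom (ZMod 2) ((prV T c).comp j) (gN h))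
      rw [ra_map_gN]
      rfl
  exact RingHom.congr_fun h1 x

theorem prV_ne_one {u : U} (hu : u ≠ 1) :
    ∀ᶠ c in (hyperfilter ℕ : Filter ℕ), prV T c u ≠ 1 := by
  obtain ⟨i, hi⟩ := T.sep u hu
  have h1 : ∀ᶠ c in (atTop : Filter ℕ), prV T c u ≠ 1 := by
    filter_upwards [eventually_ge_atTop i] with c hc h2
    apply hi
    have h3 : T.tr c u = 1 := congrArg Subtype.val h2
    rw [← T.tr_lo i c hc u, h3, map_one]
  exact h1.filter_mono Nat.hyperfilter_le_atTop

/-- Large ranks over finite group rings. -/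
theorem ranks_rn (hX : FreeCx H X) (ho : OrdInv H X) {n : ℕ} (hlf : PdR n X) (hac : Acyc X)
    (hA : ∀ i, Amen (T.V i)) (hRF : ∀ i, ResFin (T.V i)) {r : U → U → Prop} (hr : TOrd T r)
    (j : H →* U) (hj : Function.Injective j) {R : Finset (Finset P)} (hR : Reps H X R) (k : ℕ)
    (hk : 2 * k ≠ n) (S : Finset H) (ε : ℝ) (hε : 0 < ε) :
    ∃ (Q : Type) (_ : Group Q) (_ : Fintype Q) (g : H →* Q), (∀ h ∈ S, h ≠ 1 → g h ≠ 1) ∧
      ((Fintype.card (Rk R (k + 1)) : ℝ) - ε) * (Nat.card Q : ℝ) ≤
        ((regM ((dmat hR k (k + 1)).map (MonoidAlgebra.mapDomainRingHom (ZMod 2) g))).rank : ℝ) +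
        ((regM ((dmat hR (k + 1) (k + 2)).map
          (MonoidAlgebra.mapDomainRingHom (ZMod 2) g))).rank : ℝ) := by
  classical
  have hfaith : ∀ h : H, h ≠ 1 → ∀ᶠ c in (hyperfilter ℕ : Filter ℕ), (prV T c).comp j h ≠ 1 := by
    intro h hne
    exact prV_ne_one T (fun h1 => hne (hj (by rw [h1, map_one])))
  have key : ∀ {a b : Type} (M : Matrix a b (MonoidAlgebra (ZMod 2) H)),
      (Matrix.of fun x y => phiD T j (M x y)).map (DF T).subtype =
        Matrix.of fun x y => upm (fun c => DN (T.V c)) (fun c => io (T.V c)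
          (MonoidAlgebra.mapDomainRingHom (ZMod 2) ((prV T c).comp j) (M x y))) := by
    intro a b M
    apply Matrix.ext
    intro x y
    exact phiU_eq T j (M x y)
  rcases exact_rn T hX ho hlf hac hA hr j hj k hk with hex | hex
  · have h1 := exMat_map (DF T).subtype (exMat_of_exCo ((tD T).comp j) (phiD T j) hX hR
      (phiD_gN T j) hex)
    rw [key, key] at h1
    exact ranks_of_up_amen (fun c => T.V c) (fun c => DN (T.V c)) (fun c => io (T.V c))
      (fun c => io_inj (T.V c)) hA hRF (fun c => (prV T c).comp j) hfaith _ _ h1 S ε hε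
  · have h1 := exMat_map (DF T).subtype (exMat_of_exBd ((tD T).comp j) (phiD T j) hX hR
      (phiD_gN T j) hex)
    rw [key, key] at h1
    obtain ⟨Q, i1, i2, g, h2, h3⟩ := ranks_of_up_amen (fun c => T.V c) (fun c => DN (T.V c))
      (fun c => io (T.V c)) (fun c => io_inj (T.V c)) hA hRF (fun c => (prV T c).comp j) hfaith
      _ _ h1 S ε hε
    refine ⟨Q, i1, i2, g, h2, ?_⟩
    rw [regM_bmat hX hR (k + 1) g, regM_bmat hX hR k g, Matrix.rank_transpose,
      Matrix.rank_transpose] at h3
    exact h3.trans (le_of_eq (_root_.add_comm _ _))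

end

end SingerRN
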