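import Mathlib
import Pool.Agent.Lib_MP_394d50_rn.WOB

/-!
# Piece GPA: products of sequences of groups (about 200 lines)

`towPi A`: the tower of the product `∀ c, A c`; `tr i` replaces the coordinates `c ≥ i` by `1`.
* `exists_tord`: choose left orders `r c` of the `A c`; let `R u v` iff there is `c` with
  `u c' = v c'` for all `c' < c` and `r c (u c) (v c)`. Total: for `u ≠ v` let `c` be the least index with
  `u c ≠ v c` (`Nat.find`). Left invariant, transitive, irreflexive: compare the indices. Compatibility: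
  `R u v` at the index `c`; if `c < i` then `tr i u`, `tr i v` are compared at the same index; if
  `i ≤ c` then `tr i u = tr i v`.
* `amen_of_equiv`, `amen_prod`: for a finite set `S ⊆ A × B` and `ε`, take Følner sets `F₁`, `F₂` for the
  projections of `S` and `ε / 2`, and `F = F₁ ×ˢ F₂`.
* `amen_towPi`: induction on `i`: `V_0` is trivial (`amen_of_subsingleton`), `V_{i+1} ≃* V_i × A i`
  (`u ↦ (tr i u, u i)`; the inverse maps `(v, a)` to `Function.update v i a`).
* `resFin_towPi`: if `v ∈ V_i`, `v ≠ 1`, some coordinate `v c ≠ 1`; compose the coordinate with a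
  finite quotient of `A c`.
* `exists_seq`: `K` is countable; enumerate (`exists_surjective_nat`) the elements of `K` as `k c`. If
  `k c ≠ 1` take `A c`, `f c` from `h`; if `k c = 1` take `A c = Unit` (trivial group: `Amen`, `LOrd` with the
  empty relation, `ResFin`). `j x c = f c x`. Choose the data as a structure or by a sigma type
  for every `c` and then use `choose`.
-/

namespace SingerRN

section

variable (A : ℕ → Type) [∀ c, Group (A c)]

/-- The tower of a product. -/
def towPi : Tow (∀ c, A c) where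
  tr i :=
    { toFun := fun u c => if c < i then u c else 1
      map_one' := by
        funext c
        simp
      map_mul' := fun u v => by
        funext c
        show (if c < i then u c * v c else 1) = (if c < i then u c else 1) * (if c < i then v c else 1)
        split_ifs
        · rfl
        · rw [mul_one] }
  tr_lo i j hij u := by
    funext c
    show (if c < i then (if c < j then u c else 1) else 1) = if c < i then u c else 1
    split_ifs with h1 h2
    · rfl
    · omega
    · rfl
  tr_hi i j hij u := by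
    funext c
    show (if c < j then (if c < i then u c else 1) else 1) = if c < i then u c else 1
    split_ifs with h1 h2 h2
    · rfl
    · rfl
    · omega
    · rfl
  comm i u w hw := by
    funext c
    show (if c < i then u c else 1) * w c = w c * (if c < i then u c else 1)
    split_ifs with h1
    · have h2 : (if c < i then w c else 1) = 1 := congrFun hw c
      rw [if_pos h1] at h2
      rw [h2, mul_one, one_mul]
    · rw [mul_one, one_mul]
  sep u hu := by
    by_contra hno
    push Not at hno
    apply hu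
    funext c
    have h1 : (if c < c + 1 then u c else 1) = 1 := congrFun (hno (c + 1)) c
    rw [if_pos (Nat.lt_succ_self c)] at h1
    exact h1

theorem towPi_tr (i : ℕ) (u : ∀ c, A c) (c : ℕ) :
    (towPi A).tr i u c = if c < i then u c else 1 := rfl

theorem exists_tord (hO : ∀ c, ∃ r : A c → A c → Prop, LOrd r) :
    ∃ r, TOrd (towPi A) r := by
  classical
  choose r hr using hO
  refine ⟨fun u v => ∃ c, (∀ c' < c, u c' = v c') ∧ r c (u c) (v c), ⟨⟨?_, ?_, ?_, ?_⟩, ?_⟩⟩
  · rintro x ⟨c, -, hc⟩
    exact (hr c).irrefl _ hc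
  · rintro x y z ⟨c, hc, hc'⟩ ⟨d, hd, hd'⟩
    rcases lt_trichotomy c d with h | h | h
    · refine ⟨c, fun c' h' => (hc c' h').trans (hd c' (h'.trans h)), ?_⟩
      rw [← hd c h]
      exact hc'
    · subst h
      exact ⟨c, fun c' h' => (hc c' h').trans (hd c' h'), (hr c).trans _ _ _ hc' hd'⟩
    · refine ⟨d, fun c' h' => (hc c' (h'.trans h)).trans (hd c' h'), ?_⟩
      rw [hc d h]
      exact hd'
  · intro x y hxy
    have hex : ∃ c, x c ≠ y c := by
      by_contra hno
      push Not at hno
      exact hxy (funext hno)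
    have h1 : ∀ c' < Nat.find hex, x c' = y c' := by
      intro c' h'
      by_contra h2
      exact Nat.find_min hex h' h2
    rcases (hr _).total _ _ (Nat.find_spec hex) with h | h
    · exact Or.inl ⟨_, h1, h⟩
    · exact Or.inr ⟨_, fun c' h' => (h1 c' h').symm, h⟩
  · rintro g x y ⟨c, hc, hc'⟩
    refine ⟨c, fun c' h' => ?_, (hr c).left _ _ _ hc'⟩
    show g c' * x c' = g c' * y c'
    rw [hc c' h']
  · rintro i x y ⟨c, hc, hc'⟩ hne
    by_cases h : c < i
    · refine ⟨c, fun c' h' => ?_, ?_⟩
      · rw [towPi_tr, towPi_tr, hc c' h']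
      · rw [towPi_tr, towPi_tr, if_pos h, if_pos h]
        exact hc'
    · exfalso
      apply hne
      funext c'
      rw [towPi_tr, towPi_tr]
      split_ifs with h1
      · exact hc c' (by omega)
      · rfl

end

theorem amen_of_equiv {A B : Type} [Group A] [Group B] (e : A ≃* B) (h : Amen A) : Amen B := by
  classical
  intro S ε hε
  obtain ⟨F, hF, hFS⟩ := h (S.image e.symm) ε hε
  refine ⟨F.image e, hF.image e, fun s hs => ?_⟩
  have h1 := hFS (e.symm s) (Finset.mem_image_of_mem _ hs)
  have h2 : (F.image e).filter (fun x => x * s ∉ F.image e) =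
      (F.filter fun x => x * e.symm s ∉ F).image e := by
    ext x
    simp only [Finset.mem_filter, Finset.mem_image]
    constructor
    · rintro ⟨⟨y, hy, rfl⟩, h3⟩
      refine ⟨y, ⟨hy, fun h4 => h3 ⟨_, h4, ?_⟩⟩, rfl⟩
      rw [map_mul, MulEquiv.apply_symm_apply]
    · rintro ⟨y, ⟨hy, h3⟩, rfl⟩
      refine ⟨⟨y, hy, rfl⟩, ?_⟩
      rintro ⟨z, hz, h4⟩
      apply h3
      have h5 : z = y * e.symm s := by
        apply e.injective
        rw [h4, map_mul, MulEquiv.apply_symm_apply]
      rw [← h5]
      exact hz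
  rw [Finset.card_image_of_injective _ e.injective]
  have h3 : ((F.image e).filter (fun x => x * s ∉ F.image e)).card =
      (F.filter fun x => x * e.symm s ∉ F).card := by
    rw [h2, Finset.card_image_of_injective _ e.injective]
  refine le_trans (le_of_eq ?_) h1
  rw [← h3]

theorem GPA_sub {A : Type} [Group A] (hA : ∀ a b : A, a = b) : Amen A := by
  classical
  intro S ε hε
  refine ⟨{1}, Finset.singleton_nonempty 1, fun s _ => ?_⟩
  refine le_trans (le_of_eq (?_ : _ = (0 : ℝ))) (by positivity)
  rw [Nat.cast_eq_zero, Finset.card_eq_zero, Finset.filter_eq_empty_iff]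
  intro x _ h
  exact h (Finset.mem_singleton.mpr (hA _ _))

theorem amen_of_subsingleton {A : Type} [Group A] [Subsingleton A] : Amen A :=
  GPA_sub fun a b => Subsingleton.elim a b

theorem amen_prod {A B : Type} [Group A] [Group B] (hA : Amen A) (hB : Amen B) :
    Amen (A × B) := by
  classical
  intro S ε hε
  obtain ⟨F₁, hF₁, h1⟩ := hA (S.image Prod.fst) (ε / 2) (by positivity)
  obtain ⟨F₂, hF₂, h2⟩ := hB (S.image Prod.snd) (ε / 2) (by positivity)
  refine ⟨F₁ ×ˢ F₂, hF₁.product hF₂, fun s hs => ?_⟩
  have h3 := h1 s.1 (Finset.mem_image_of_mem _ hs)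
  have h4 := h2 s.2 (Finset.mem_image_of_mem _ hs)
  have h5 : (F₁ ×ˢ F₂).filter (fun x => x * s ∉ F₁ ×ˢ F₂) ⊆
      (F₁.filter fun x => x * s.1 ∉ F₁) ×ˢ F₂ ∪ F₁ ×ˢ (F₂.filter fun x => x * s.2 ∉ F₂) := by
    intro x hx
    rw [Finset.mem_filter, Finset.mem_product] at hx
    rw [Finset.mem_union, Finset.mem_product, Finset.mem_product, Finset.mem_filter,
      Finset.mem_filter]
    by_cases h6 : x.1 * s.1 ∈ F₁
    · right
      refine ⟨hx.1.1, hx.1.2, fun h7 => hx.2 ?_⟩
      rw [Finset.mem_product]
      exact ⟨h6, h7⟩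
    · left
      exact ⟨⟨hx.1.1, h6⟩, hx.1.2⟩
  have h6 : (((F₁ ×ˢ F₂).filter (fun x => x * s ∉ F₁ ×ˢ F₂)).card : ℝ) ≤
      ((F₁.filter fun x => x * s.1 ∉ F₁).card : ℝ) * F₂.card +
        (F₁.card : ℝ) * (F₂.filter fun x => x * s.2 ∉ F₂).card := by
    have h7 := (Finset.card_le_card h5).trans (Finset.card_union_le _ _)
    rw [Finset.card_product, Finset.card_product] at h7
    exact_mod_cast h7
  have h8 : ((F₁ ×ˢ F₂).card : ℝ) = F₁.card * F₂.card := by
    rw [Finset.card_product]
    push_cast
    rfl
  rw [h8]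
  have h9 : (0 : ℝ) ≤ F₁.card := Nat.cast_nonneg _
  have h10 : (0 : ℝ) ≤ F₂.card := Nat.cast_nonneg _
  have h11 := mul_le_mul_of_nonneg_right h3 h10
  have h12 := mul_le_mul_of_nonneg_left h4 h9
  refine le_trans (le_of_eq ?_) (h6.trans (by linarith))
  congr!

theorem GPA_mem (A : ℕ → Type) [∀ c, Group (A c)] (i : ℕ) (u : ∀ c, A c) :
    u ∈ (towPi A).V i ↔ ∀ c, i ≤ c → u c = 1 := by
  constructor
  · rintro ⟨v, rfl⟩ c hc
    rw [towPi_tr, if_neg (by omega)]
  · intro h
    refine ⟨u, ?_⟩
    funext c
    rw [towPi_tr]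
    split_ifs with h1
    · rfl
    · exact (h c (by omega)).symm

/-- `V_{i+1} = V_i × A i` -/
def GPA_equiv (A : ℕ → Type) [∀ c, Group (A c)] (i : ℕ) :
    (towPi A).V i × A i ≃* (towPi A).V (i + 1) where
  toFun p := ⟨fun c => if h : i = c then h ▸ p.2 else p.1.1 c, by
    rw [GPA_mem]
    intro c hc
    rw [dif_neg (by omega)]
    exact (GPA_mem A i _).mp p.1.2 c (by omega)⟩
  invFun u := (⟨fun c => if c < i then u.1 c else 1, by
    rw [GPA_mem]
    intro c hc
    rw [if_neg (by omega)]⟩, u.1 i)
  left_inv p := by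
    apply Prod.ext
    · apply Subtype.ext
      funext c
      show (if c < i then (if h : i = c then h ▸ p.2 else p.1.1 c) else 1) = p.1.1 c
      split_ifs with h1 h2
      · omega
      · rfl
      · exact ((GPA_mem A i _).mp p.1.2 c (by omega)).symm
    · show (if h : i = i then h ▸ p.2 else p.1.1 i) = p.2
      rw [dif_pos rfl]
  right_inv u := by
    apply Subtype.ext
    funext c
    show (if h : i = c then h ▸ u.1 i else (if c < i then u.1 c else 1)) = u.1 c
    split_ifs with h1 h2
    · subst h1
      rfl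
    · rfl
    · exact ((GPA_mem A (i + 1) _).mp u.2 c (by omega)).symm
  map_mul' p q := by
    apply Subtype.ext
    funext c
    show (if h : i = c then h ▸ (p.2 * q.2) else p.1.1 c * q.1.1 c) =
      (if h : i = c then h ▸ p.2 else p.1.1 c) * (if h : i = c then h ▸ q.2 else q.1.1 c)
    split_ifs with h1
    · subst h1
      rfl
    · rfl

theorem amen_towPi (A : ℕ → Type) [∀ c, Group (A c)] (hA : ∀ c, Amen (A c)) (i : ℕ) :
    Amen ((towPi A).V i) := by
  induction i with
  | zero =>
    have : Subsingleton ((towPi A).V 0) := by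
      constructor
      intro u v
      apply Subtype.ext
      funext c
      rw [(GPA_mem A 0 _).mp u.2 c (Nat.zero_le c), (GPA_mem A 0 _).mp v.2 c (Nat.zero_le c)]
    exact amen_of_subsingleton
  | succ i ih => exact amen_of_equiv (GPA_equiv A i) (amen_prod ih (hA i))

theorem resFin_towPi (A : ℕ → Type) [∀ c, Group (A c)] (hA : ∀ c, ResFin (A c)) (i : ℕ) :
    ResFin ((towPi A).V i) := by
  intro a ha
  have h1 : ∃ c, a.1 c ≠ 1 := by
    by_contra hno
    push Not at hno
    exact ha (Subtype.ext (funext hno))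
  obtain ⟨c, hc⟩ := h1
  obtain ⟨Q, iQ, fQ, f, hf⟩ := hA c (a.1 c) hc
  exact ⟨Q, iQ, fQ, f.comp ((Pi.evalMonoidHom A c).comp ((towPi A).V i).subtype), hf⟩

theorem exists_seq {K : Type} [Group K] [Countable K] (h : ResLOA K) :
    ∃ (A : ℕ → Type) (_ : ∀ c, Group (A c)), (∀ c, Amen (A c)) ∧
      (∀ c, ∃ r : A c → A c → Prop, LOrd r) ∧ (∀ c, ResFin (A c)) ∧
      ∃ j : K →* (∀ c, A c), Function.Injective j := by
  have key : ∀ x : K, ∃ (A : Type) (_ : Group A), Amen A ∧ (∃ r : A → A → Prop, LOrd r) ∧
      ResFin A ∧ ∃ f : K →* A, x ≠ 1 → f x ≠ 1 := by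
    intro x
    by_cases hx : x = 1
    · refine ⟨Unit, inferInstance, amen_of_subsingleton, ⟨fun _ _ => False, ?_, ?_, ?_, ?_⟩, ?_,
        1, fun h => absurd hx h⟩
      · exact fun _ h => h
      · exact fun _ _ _ h _ => h
      · exact fun x y h => absurd (Subsingleton.elim x y) h
      · exact fun _ _ _ h => h
      · exact fun a ha => absurd (Subsingleton.elim a 1) ha
    · obtain ⟨A, iA, h1, h2, h3, f, hf⟩ := h x hx
      exact ⟨A, iA, h1, h2, h3, f, fun _ => hf⟩
  obtain ⟨k, hk⟩ := exists_surjective_nat K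
  choose A iA h1 h2 h3 f hf using fun c => key (k c)
  refine ⟨A, iA, h1, h2, h3, MonoidHom.mk' (fun x c => f c x) (fun x y => ?_), ?_⟩
  · funext c
    exact map_mul (f c) x y
  · rw [injective_iff_map_eq_one]
    intro x hx
    by_contra hne
    obtain ⟨c, rfl⟩ := hk x
    exact hf c hne (congrFun hx c)

end SingerRN
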