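import Mathlib
import Pool.Agent.Lib_MP_394d50_rn.EXU
import Pool.Agent.Lib_MP_394d50_rn.GPA
import Pool.Agent.Lib_MP_394d50_rn.CNT
import Pool.Agent.Lib_MP_394d50_vs.VMain
import Pool.Agent.Lib_MP_394d50_top.AFin

/-!
# The Singer conjecture for virtually residually (amenable, left-orderable, residually finite) groups
-/

namespace SingerRN

open SingerRA SingerVS
open scoped Pointwise

/-! ## The subgroup of finite index -/

theorem ResLOA.of_injective {K L : Type} [Group K] [Group L] (h : ResLOA K) (f : L →* K)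
    (hf : Function.Injective f) : ResLOA L := by
  intro x hx
  obtain ⟨A, iA, h1, h2, h3, g, hg⟩ := h (f x) fun e => hx (hf (by rw [e, map_one]))
  exact ⟨A, iA, h1, h2, h3, g.comp f, hg⟩

theorem ResLOA.resFin {K : Type} [Group K] (h : ResLOA K) : ResFin K := by
  intro x hx
  obtain ⟨A, iA, _, _, h3, g, hg⟩ := h x hx
  obtain ⟨Q, iQ, fQ, π, hπ⟩ := h3 (g x) hg
  exact ⟨Q, iQ, fQ, π.comp g, hπ⟩

theorem exists_good_res {Γ P : Type} [Group Γ] [DecidableEq P] [MulAction Γ P]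
    {X : Set (Finset P)} (hX : FreeCx Γ X) (hΓ : VirtRes Γ) :
    ∃ (K : Subgroup Γ) (lo : LinearOrder P), K.FiniteIndex ∧ ResLOA K ∧
      ∀ h : K, ∀ σ ∈ X, ∀ x ∈ σ, ∀ y ∈ σ, lo.lt x y → lo.lt (h • x) (h • y) := by
  classical
  obtain ⟨K1, hK1, hres⟩ := hΓ
  have hX1 : FreeCx K1 X := hX.of_finiteIndex K1 hK1
  obtain ⟨K2, hK2, _, hsep⟩ := hX1.exists_sep (fun B => resFin_set hres.resFin B)
  obtain ⟨K3, hK3, hK3', f2, hf2, _⟩ := exists_map_subtype K1 hK1 K2 hK2
    (MonoidHom.id K2) Function.injective_id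
  have hsep' : SingerVS.Sep K3 X := by
    rintro ⟨h, hh⟩ σ hσ p hp hhp
    obtain ⟨k, hk, e'⟩ := hK3' h hh
    have h1 := hsep ⟨k, hk⟩ σ hσ p hp (by
      have h2 : ((⟨k, hk⟩ : K2) • p : P) = h • p := by
        rw [← e']
        rfl
      rw [h2]
      exact hhp)
    apply Subtype.ext
    show h = 1
    rw [← e']
    have h3 : k = 1 := congrArg Subtype.val h1
    rw [h3]
    rfl
  obtain ⟨lo, hlo⟩ := hsep'.exists_order
  exact ⟨K3, lo, hK3, (hres.of_injective K2.subtype K2.subtype_injective).of_injective f2 hf2, hlo⟩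

/-! ## Small gradients -/

theorem smallH_rn {H P : Type} [Group H] [LinearOrder P] [MulAction H P] {X : Set (Finset P)}
    [MulAction H {σ : Finset P // σ ∈ X}] {I : CellCx {σ : Finset P // σ ∈ X}}
    (hX : FreeCx H X) (ho : OrdInv H X)
    (hsm : ∀ (h : H) (c : {σ : Finset P // σ ∈ X}), (h • c).1 = h • c.1)
    (hdim : ∀ c : {σ : Finset P // σ ∈ X}, I.dim c = c.1.card - 1)
    (hinc : ∀ σ τ : {σ : Finset P // σ ∈ X}, ((I.inc σ τ : ℤ) : ZMod 2) =
      ((τ.1.filter (fun p => τ.1.erase p = σ.1)).card : ZMod 2))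
    (hF : FreeCell H I) {n : ℕ} (hlf : PdR n X) (hac : Acyc X) (hres : ResLOA H)
    (k : ℕ) (hk : 2 * k ≠ n) : SmallH H I k := by
  classical
  intro iF T ε hε
  have hcount : Countable H := countable_of_acyc hX hac
  obtain ⟨A, iA, hA, hO, hRF, j, hj⟩ := exists_seq hres
  obtain ⟨r, hr⟩ := exists_tord A hO
  have h1 : ∀ c, NoZeroDivisors (FN ((towPi A).V c)) := fun c => (hr.rV c).noZeroDiv (ZMod 2)
  have h2 : ∀ c, IsOreG ((towPi A).V c) := fun c => isOreG_of_amen (amen_towPi A hA c) (hr.rV c)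
  obtain ⟨Q, i1, i2, g, h1, h2⟩ := ranks_rn (towPi A) hX ho hlf hac (amen_towPi A hA)
    (resFin_towPi A hRF) hr j hj (reps_repSet hsm) k hk T ε hε
  refine ⟨Q, i1, i2, g, h1, ?_⟩
  have e1 : Fintype.card (Ob H I k) = Fintype.card (Rk (repSet H X) (k + 1)) :=
    Fintype.card_congr (obEquiv hX hdim k)
  rw [e1, ← Nat.card_eq_fintype_card (α := Q)]
  refine h2.trans (add_le_add ?_ ?_)
  · rcases Nat.eq_zero_or_pos k with h0 | h0
    · subst h0
      have h3 : (regM ((dmat (reps_repSet hsm) 0 (0 + 1)).map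
          (MonoidAlgebra.mapDomainRingHom (ZMod 2) g))).rank = 0 := by
        refine Nat.le_zero.mp ((Matrix.rank_le_card_height _).trans (le_of_eq ?_))
        rw [Fintype.card_eq_zero_iff]
        refine ⟨fun p => ?_⟩
        obtain ⟨r, hr, hk0⟩ := p.1
        exact (Finset.card_pos.mpr (hX.ne r ((reps_repSet hsm).mem r hr))).ne' hk0
      rw [h3, Nat.cast_zero]
      exact Nat.cast_nonneg _
    · obtain ⟨m, rfl⟩ : ∃ m, k = m + 1 := ⟨k - 1, by omega⟩
      exact_mod_cast rank_regM_le hX hsm hdim hinc hF m (m + 1) g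
  · exact_mod_cast rank_regM_le hX hsm hdim hinc hF k (k + 1) g

/-- Small gradients, for a separate instance of decidable equality. -/
theorem smallH_dec_rn {H P : Type} [Group H] [inst : DecidableEq P] [MulAction H P]
    {X : Set (Finset P)} [MulAction H {σ : Finset P // σ ∈ X}]
    (hX : FreeCx H X)
    (hsm : ∀ (h : H) (c : {σ : Finset P // σ ∈ X}), (h • c).1 = h • c.1)
    {n : ℕ} (hlf : PdR n X) (hac : Acyc X) (hres : ResLOA H)
    (k : ℕ) (hk : 2 * k ≠ n) (lo : LinearOrder P)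
    (ho : ∀ h : H, ∀ σ ∈ X, ∀ x ∈ σ, ∀ y ∈ σ, lo.lt x y → lo.lt (h • x) (h • y))
    (hF : FreeCell H (@simpCx P inst X lo.lt)) : SmallH H (@simpCx P inst X lo.lt) k := by
  have e : inst = lo.toDecidableEq := Subsingleton.elim _ _
  subst e
  exact smallH_rn hX ho hsm (fun _ => rfl) (fun σ τ => simpInc_mod2 _ σ.1 τ.1) hF hlf hac hres
    k hk

/-- The local dimensions vanish outside the middle dimension. -/
theorem locDim_zero_rn {Γ P : Type} [Group Γ] [inst : DecidableEq P] [MulAction Γ P]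
    {X : Set (Finset P)} (hX : FreeCx Γ X) (hA : Acyc X) {n : ℕ} (hM : PdR n X)
    (hΓ : VirtRes Γ) :
    ∃ (K : Subgroup Γ) (r : P → P → Prop), K.FiniteIndex ∧ (∀ σ ∈ X, TotOn r σ) ∧
      (∀ h : K, ∀ σ ∈ X, ∀ x ∈ σ, ∀ y ∈ σ, r x y → r (h • x) (h • y)) ∧
      ∀ c : {σ : Finset P // σ ∈ X}, 2 * (c.1.card - 1) ≠ n →
        locDim (simpCx X r) c = 0 := by
  obtain ⟨K, lo, hK, hres, hord⟩ := exists_good_res hX hΓ
  have hXK : @FreeCx K _ P inst _ X := @FreeCx.of_finiteIndex Γ P _ inst _ X hX K hK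
  have hT : ∀ σ ∈ X, TotOn lo.lt σ := fun σ _ => totOn_lt lo σ
  let iA : MulAction K {σ : Finset P // σ ∈ X} := @simpAct P inst K _ _ X hXK.inv
  refine ⟨K, lo.lt, hK, hT, hord, ?_⟩
  intro c hc
  have hF : FreeCell K (@simpCx P inst X lo.lt) :=
    @freeCell_simp K P _ inst _ X iA hXK (fun _ _ => rfl) lo.lt hT hord
  exact locDim_eq_zero_of_rk hF (c.1.card - 1)
    (@smallH_dec_rn K P _ inst _ X iA hXK (fun _ _ => rfl) n hM hA hres
      (c.1.card - 1) hc lo hord hF) c rfl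

section

variable {Γ P : Type} [Group Γ] [LinearOrder P] [MulAction Γ P] {X : Set (Finset P)}

/-- **The Singer conjecture for virtually residually (amenable, left-orderable, residually
finite) groups.** -/
theorem main_rn (hX : FreeCx Γ X) (hA : Acyc X) {n : ℕ} (hM : HomMfd n X ∨ PdR n X)
    (hΓ : VirtRes Γ) :
    (∀ k, 2 * k ≠ n → bettiX Γ X k = 0) ∧
      (∀ k, 2 * k = n → bettiX Γ X k = (-1 : ℝ) ^ k * chiX Γ X) ∧
      ((∀ k, bettiX Γ X k = 0) ↔ chiX Γ X = 0) ∧
      ∀ k, 2 * k = n → 0 ≤ (-1 : ℤ) ^ k * chiX Γ X := by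
  classical
  have hlf : PdR n X := hM.elim (fun h => LfR.pdR (HomMfd.lfR hX hA h)) id
  obtain ⟨K, r, hK, hr, hinv, hz⟩ := locDim_zero_rn hX hA hlf hΓ
  let iA : MulAction Γ {σ : Finset P // σ ∈ X} := simpAct hX.inv
  have hsm : ∀ (h : Γ) (c : {σ : Finset P // σ ∈ X}), (h • c).1 = h • c.1 := fun _ _ => rfl
  have hXK : FreeCx K X := hX.of_finiteIndex K hK
  have hr0 : ∀ σ ∈ X, TotOn (fun x y : P => x < y) σ := fun σ _ => totOn_lt inferInstance σ
  have hloc := locDim_smul_simp (H := Γ) hX.inv hsm hr0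
  have hord := locDim_order hr0 hr
  have hF : FreeCell K (simpCx X r) := freeCell_simp hXK (fun _ _ => rfl) hr hinv
  have hfree : ∀ (g : Γ) (c : {σ : Finset P // σ ∈ X}), g • c = c → g = 1 :=
    fun g c h => hX.free g c.1 c.2 (congrArg Subtype.val h)
  have hfin : Finite (Orb Γ {σ : Finset P // σ ∈ X}) := by
    obtain ⟨R, hR1, hR2⟩ := hX.fin
    refine Finite.of_surjective (fun x : R =>
      (Quotient.mk (MulAction.orbitRel Γ {σ : Finset P // σ ∈ X}) ⟨x.1, hR1 x.1 x.2⟩ :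
        Orb Γ {σ : Finset P // σ ∈ X})) ?_
    intro o
    obtain ⟨c, rfl⟩ := Quotient.exists_rep o
    obtain ⟨h, s, hs, e⟩ := hR2 c.1 c.2
    refine ⟨⟨s, hs⟩, Quotient.sound (MulAction.orbitRel_apply.mpr ⟨h⁻¹, ?_⟩)⟩
    refine Subtype.ext ?_
    show h⁻¹ • c.1 = s
    rw [e, inv_smul_smul]
  have key := betti_final (Γ := Γ) (I := simpCx X (fun x y : P => x < y)) (I' := simpCx X r) K
    hfree hfin (fun g c => by
      show (g • c.1).card - 1 = c.1.card - 1
      rw [Finset.card_smul_finset]) hloc (fun _ => rfl) hord hF n (fun c hc => by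
      rw [← hord c]
      exact hz c hc)
  rw [chiX_eq hX]
  have hb : ∀ k, bettiX Γ X k = l2Betti Γ (simpCx X (fun x y : P => x < y)) k :=
    fun k => bettiX_eq hX (fun g c => hloc g c) k
  simp only [hb]
  exact key

/-- The topological form. -/
theorem main_top_rn (hX : FreeCx Γ X) (hA : Acyc X ∨ ContractibleSpace (geo X)) {n : ℕ}
    (hM : HomMfd n X ∨ PdR n X ∨ LocEuc n (geo X)) (hΓ : VirtRes Γ) :
    (∀ k, 2 * k ≠ n → bettiX Γ X k = 0) ∧
      (∀ k, 2 * k = n → bettiX Γ X k = (-1 : ℝ) ^ k * chiX Γ X) ∧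
      ((∀ k, bettiX Γ X k = 0) ↔ chiX Γ X = 0) ∧
      ∀ k, 2 * k = n → 0 ≤ (-1 : ℤ) ^ k * chiX Γ X := by
  have hD : Dn X := fun σ hσ τ h1 h2 => hX.down σ hσ τ h1 h2
  have hA' : Acyc X := by
    rcases hA with h | h
    · exact h
    · refine acyc_of_contractible hD hX.ne (fun σ hσ => ?_) h
      have h4 : ((fun p => insert p σ) '' {p | p ∉ σ ∧ insert p σ ∈ X}).Finite := by
        refine (hX.finStar hσ).subset ?_
        rintro _ ⟨p, ⟨_, h2⟩, rfl⟩
        exact ⟨h2, Finset.subset_insert p σ⟩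
      refine Set.Finite.of_finite_image h4 ?_
      intro p hp q _ e
      have h3 : p ∈ insert q σ := by
        rw [← show insert p σ = insert q σ from e]
        exact Finset.mem_insert_self p σ
      exact (Finset.mem_insert.mp h3).resolve_right hp.1
  have hM' : HomMfd n X ∨ PdR n X := by
    rcases hM with h | h | h
    · exact Or.inl h
    · exact Or.inr h
    · exact Or.inl (homMfd_of_locEuc hD hX.ne (fun σ hσ => hX.finStar hσ) h)
  exact main_rn hX hA' hM' hΓ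

end

end SingerRN
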