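import Mathlib
import Pool.Agent.Lib_MP_394d50_rn.RUP
import Pool.Agent.Lib_MP_394d50_vs.VFin

/-!
# Piece VRA: virtually special groups are in the class

`amen_of_folQ`: given `S` and `ε > 0`, let `ε' = min ε (1/2)` and take `Q, π, F, B` from `FolQ` for `S ∪ {1}`
and `ε'/2`. `F` is a Følner set: `|F| ≤ |Q|` (`π` is injective on `F`), `|B| ≥ (1 - ε'/2) |Q|`,
`B ⊆ F` (as `b * 1 ∈ F`), and `x ∈ B` implies `x * s ∈ F`; so
`#{x ∈ F | x * s ∉ F} ≤ |F| - |B| ≤ |Q| - |B| ≤ (ε'/2) |Q| ≤ ε' |B| ≤ ε |F|`. `F` is nonempty.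
`resFin_of_folQ`: for `a ≠ 1` apply `FolQ` to `S = {1, a}`, `ε = 1/2`: `B` is nonempty, `b * 1, b * a ∈ F`, `π` is
injective on `F`, so `π a ≠ 1`.
`virtRes_of_virtRA`: as in `SingerVS.exists_good`: there is a subgroup
`K1` of finite index with an injective `f1 : K1 →* W G`, `deg G (f1 h) = 0`. For `h ≠ 1` in `K1` let
`c = len G (f1 h) + 1`: `thN G c f1 hdeg : K1 →* Nc G c` does not kill `h` (`thN_inj`). `Nc G c` has a linear order
with `MulLeftStrictMono` (`UG.instLO`, `UG.instLeft`), so `LOrd (· < ·)`; `folQ_tN G c`.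
-/

namespace SingerRN

open SingerRA SingerVS

private theorem vra_nonempty {N : Type} {B : Finset N} {q ε : ℝ} (hq : 0 < q) (hε : ε < 1)
    (h : (1 - ε) * q ≤ (B.card : ℝ)) : B.Nonempty := by
  rw [Finset.nonempty_iff_ne_empty]
  rintro rfl
  rw [Finset.card_empty, Nat.cast_zero] at h
  have h7 : 0 < (1 - ε) * q := mul_pos (by linarith) hq
  linarith

theorem amen_of_folQ {V : Type} [DecidableEq V] {N : Type} [Group N] (t : V → N) (h : FolQ t) :
    Amen N := by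
  classical
  intro S ε hε
  obtain ⟨ε', h0, h1, h2⟩ : ∃ ε' : ℝ, 0 < ε' ∧ ε' ≤ ε ∧ ε' ≤ 1 / 2 :=
    ⟨min ε (1 / 2), lt_min hε (by norm_num), min_le_left _ _, min_le_right _ _⟩
  obtain ⟨Q, i1, i2, π, al, F, B, _, _, h3, h4, h5⟩ := h (insert 1 S) (ε' / 2) (by linarith)
  have hq : (0 : ℝ) < Nat.card Q := by exact_mod_cast Nat.card_pos
  have hB : B.Nonempty := vra_nonempty hq (by linarith) h5
  have hBF : B ⊆ F := fun b hb => by
    have h6 := h4 b hb 1 (Finset.mem_insert_self _ _)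
    rwa [mul_one] at h6
  have hFQ : F.card ≤ Nat.card Q := by
    have : Fintype Q := Fintype.ofFinite Q
    rw [Nat.card_eq_fintype_card, ← Finset.card_univ]
    exact Finset.card_le_card_of_injOn π (fun _ _ => Finset.mem_univ _) h3
  refine ⟨F, hB.mono hBF, fun s hs => ?_⟩
  have h6 : (F.filter fun x => x * s ∉ F) ⊆ F \ B := by
    intro x hx
    rw [Finset.mem_filter] at hx
    rw [Finset.mem_sdiff]
    exact ⟨hx.1, fun hb => hx.2 (h4 x hb s (Finset.mem_insert_of_mem hs))⟩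
  have h7 : (F.filter fun x => x * s ∉ F).card + B.card ≤ F.card := by
    have h8 := Finset.card_le_card h6
    have h9 := Finset.card_sdiff_add_card_eq_card hBF
    omega
  have h8 : ((F.filter fun x => x * s ∉ F).card : ℝ) + (B.card : ℝ) ≤ (F.card : ℝ) := by
    exact_mod_cast h7
  have h9 : (F.card : ℝ) ≤ (Nat.card Q : ℝ) := by exact_mod_cast hFQ
  have h10 : (B.card : ℝ) ≤ (F.card : ℝ) := by exact_mod_cast Finset.card_le_card hBF
  have h11 : (ε' / 2) * (Nat.card Q : ℝ) ≤ ε' * (B.card : ℝ) := by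
    have h12 : (1 / 2) * (Nat.card Q : ℝ) ≤ (B.card : ℝ) := by
      refine le_trans ?_ h5
      exact mul_le_mul_of_nonneg_right (by linarith) hq.le
    have h13 := mul_le_mul_of_nonneg_left h12 h0.le
    linarith
  have h12 : ε' * (B.card : ℝ) ≤ ε * (F.card : ℝ) :=
    mul_le_mul h1 h10 (Nat.cast_nonneg _) hε.le
  have h13 : (1 - ε' / 2) * (Nat.card Q : ℝ) = (Nat.card Q : ℝ) - (ε' / 2) * (Nat.card Q : ℝ) := by
    ring
  rw [h13] at h5
  have h14 : ((F.filter fun x => x * s ∉ F).card : ℝ) ≤ ε * (F.card : ℝ) := by linarith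
  refine le_trans (le_of_eq ?_) h14
  congr 1

theorem resFin_of_folQ {V : Type} [DecidableEq V] {N : Type} [Group N] (t : V → N)
    (h : FolQ t) : ResFin N := by
  classical
  intro a ha
  obtain ⟨Q, i1, i2, π, al, F, B, _, _, h3, h4, h5⟩ := h {1, a} (1 / 2) (by norm_num)
  have hq : (0 : ℝ) < Nat.card Q := by exact_mod_cast Nat.card_pos
  obtain ⟨b, hb⟩ : B.Nonempty := vra_nonempty hq (by norm_num) h5
  refine ⟨Q, i1, i2, π, fun h6 => ha ?_⟩
  have h7 : b * 1 ∈ F := h4 b hb 1 (Finset.mem_insert_self _ _)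
  have h8 : b * a ∈ F := h4 b hb a (Finset.mem_insert_of_mem (Finset.mem_singleton_self _))
  have h9 : b * a = b * 1 := h3 h8 h7 (by rw [map_mul, map_mul, h6, map_one])
  exact mul_left_cancel h9

private theorem vra_lOrd {V : Type} [Fintype V] [DecidableEq V] (G : SimpleGraph V) (c : ℕ) :
    ∃ r : Nc G c → Nc G c → Prop, LOrd r :=
  ⟨(· < ·), ⟨fun x => lt_irrefl x, fun _ _ _ h1 h2 => lt_trans h1 h2,
    fun _ _ h => lt_or_gt_of_ne h, fun g _ _ h => mul_lt_mul_right h g⟩⟩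

theorem virtRes_of_virtRA {Γ : Type} [Group Γ] (h : VirtRA Γ) : VirtRes Γ := by
  classical
  obtain ⟨K0, V, hV, G, hK0, f0, hf0⟩ := h.cox
  have iV : Fintype V := Fintype.ofFinite V
  let d : K0 →* Multiplicative (V → ZMod 2) := (lab G).comp f0
  have hfin : Finite (Multiplicative (V → ZMod 2)) := inferInstanceAs (Finite (V → ZMod 2))
  have hd : d.ker.FiniteIndex := Subgroup.finiteIndex_ker d
  obtain ⟨K1, hK1f, _, f1, hf1, hf1'⟩ := exists_map_subtype K0 hK0 d.ker hd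
    (f0.comp d.ker.subtype) (hf0.comp d.ker.subtype_injective)
  have hdeg1 : ∀ h, deg G (f1 h) = 0 := by
    intro h
    obtain ⟨y, hy⟩ := hf1' h
    rw [hy]
    have h1 : d y.1 = 1 := y.2
    show (lab G (f0 y.1)).toAdd = 0
    have h2 : lab G (f0 y.1) = 1 := h1
    rw [h2]
    rfl
  refine ⟨K1, hK1f, fun h hh => ?_⟩
  exact ⟨Nc G (len G (f1 h) + 1), inferInstance, amen_of_folQ _ (folQ_tN G _),
    vra_lOrd G _, resFin_of_folQ _ (folQ_tN G _), thN G _ f1 hdeg1,
    fun h1 => hh (thN_inj G _ f1 hdeg1 hf1 h (Nat.lt_succ_self _) h1)⟩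

end SingerRN
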